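import Pool.Agent.H757M.Stm

set_option autoImplicit false

namespace Pool.Agent.H757M

open Real MeasureTheory UpperHalfPlane
open scoped MatrixGroups Classical

theorem aut_wsq : (0 : ℝ) < w ^ 2 := by
  have h : 0 < w := by unfold w; positivity
  positivity

theorem aut_pos {v : ℝ} (hv : v ∈ Set.uIcc (1 : ℝ) (w ^ 2)) : 0 < v := by
  rw [Set.mem_uIcc] at hv
  rcases hv with h | h
  · linarith [h.1]
  · linarith [h.1, aut_wsq]

theorem aut_congr {x y x' y' : ℝ} (c : ℂ) (hU : S_UNF) (hS : S_SUM) (hy : 0 < y) (hy' : 0 < y')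
    (h : ∀ v : ℝ, 0 < v → th x' y' v = c * th x y v) : ff x' y' = c * ff x y := by
  have h1 := hU hS x y hy
  have h2 := hU hS x' y' hy'
  have h3 : ∫ v : ℝ in (1 : ℝ)..w ^ 2, th x' y' v * (v : ℂ) ^ (2 * tt * Complex.I - 1) =
      c * ∫ v : ℝ in (1 : ℝ)..w ^ 2, th x y v * (v : ℂ) ^ (2 * tt * Complex.I - 1) := by
    rw [← intervalIntegral.integral_const_mul]
    refine intervalIntegral.integral_congr fun v hv => ?_
    rw [h v (aut_pos hv)]
    ring
  rw [h3, ← h1] at h2
  have h4 : (2 : ℂ) * ff x' y' = 2 * (c * ff x y) := by rw [h2]; ring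
  exact mul_left_cancel₀ two_ne_zero h4

/-- the stabiliser of `F` -/
def autSub : Subgroup SL(2, ℤ) where
  carrier := {γ | ∀ z : ℍ, F (γ • z) = F z}
  mul_mem' := by
    intro a b ha hb z
    rw [mul_smul, ha, hb]
  one_mem' := by
    intro z
    rw [one_smul]
  inv_mem' := by
    intro a ha z
    have h := ha (a⁻¹ • z)
    rw [smul_inv_smul] at h
    exact h.symm

theorem t_AUT : S_AUT := by
  intro hU hS hP hT hG
  obtain ⟨t1, t2, t3⟩ := hT hS hP
  constructor
  · have hle : CongruenceSubgroup.Gamma0 25 ≤ autSub := by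
      refine hG autSub ?_ ?_ ?_
      · intro z
        have h1 : F (ModularGroup.T • z) = ff (z.re + 1) z.im := by
          unfold F
          rw [ModularGroup.re_T_smul, ModularGroup.im_T_smul]
        rw [h1]
        have h2 := aut_congr (x := z.re) (y := z.im) (x' := z.re + 1) (y' := z.im) 1 hU hS
          z.im_pos z.im_pos (fun v _ => by rw [t1, one_mul])
        rw [h2, one_mul]
        rfl
      · intro z
        have h1 : (-1 : SL(2, ℤ)) • z = z := by
          have := ModularGroup.SL_neg_smul (1 : SL(2, ℤ)) z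
          rw [this, one_smul]
        rw [h1]
      · intro γ hγ z
        have h2 := aut_congr (x := z.re) (y := z.im) (x' := (γ • z).re) (y' := (γ • z).im) 1 hU hS
          z.im_pos (γ • z).im_pos (fun v hv => by
            have := t2 γ hγ z v hv
            unfold thz at this
            rw [this, one_mul])
        rw [one_mul] at h2
        exact h2
    intro γ hγ z
    exact hle hγ z
  · intro x y hy
    have hxy : 0 < x ^ 2 + y ^ 2 := by positivity
    have h2 := aut_congr (x := x) (y := y) (x' := -x / (25 * (x ^ 2 + y ^ 2)))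
      (y' := y / (25 * (x ^ 2 + y ^ 2))) (-1) hU hS hy (by positivity)
      (fun v hv => by rw [t3 x y v hy hv, neg_one_mul])
    rw [h2, neg_one_mul]

end Pool.Agent.H757M
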