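import Pool.Agent.H757M.Stm

set_option autoImplicit false

namespace Pool.Agent.H757M

open Real MeasureTheory UpperHalfPlane
open scoped MatrixGroups Classical

namespace BesA

noncomputable section

/-- the exponential factor -/
def ex (y u : ℝ) : ℝ := Real.exp (-(2 * π * y * Real.cosh (2 * u)))

/-- the integrand of the `j`-th derivative -/
def gg (j : ℕ) (y u : ℝ) : ℝ :=
  (-(2 * π * Real.cosh (2 * u))) ^ j * ex y u * Real.cos (2 * tt * u)

/-- the `j`-th derivative -/
def KK (j : ℕ) (y : ℝ) : ℝ := ∫ u : ℝ, gg j y u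

theorem one_le_c (u : ℝ) : 1 ≤ Real.cosh (2 * u) := Real.one_le_cosh _

theorem c_ge (u : ℝ) : 1 + u ^ 2 ≤ Real.cosh (2 * u) := by
  have h1 : Real.cosh (2 * u) = 1 + 2 * Real.sinh u ^ 2 := by
    rw [Real.cosh_two_mul, Real.cosh_sq]; ring
  have h2 : u ^ 2 ≤ Real.sinh u ^ 2 := by
    rw [sq_le_sq]
    rcases le_total 0 u with h | h
    · rw [abs_of_nonneg h, abs_of_nonneg (Real.sinh_nonneg_iff.2 h)]
      exact Real.self_le_sinh_iff.2 h
    · rw [abs_of_nonpos h, abs_of_nonpos (Real.sinh_nonpos_iff.2 h)]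
      have := Real.sinh_le_self_iff.2 h
      linarith
  nlinarith [sq_nonneg u]

theorem five_le : (6 : ℝ) ≤ 2 * π := by
  have := Real.pi_gt_three
  linarith

theorem pow_exp_le (n : ℕ) (s : ℝ) (hs : 0 ≤ s) : s ^ n * Real.exp (-s) ≤ n.factorial := by
  have h := Real.pow_div_factorial_le_exp s hs n
  rw [div_le_iff₀ (by positivity)] at h
  rw [Real.exp_neg]
  have he := Real.exp_pos s
  rw [← div_eq_mul_inv, div_le_iff₀ he, mul_comm]
  exact h

theorem ex_pos (y u : ℝ) : 0 < ex y u := Real.exp_pos _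

theorem ex_anti {y y' : ℝ} (h : y ≤ y') (u : ℝ) : ex y' u ≤ ex y u := by
  unfold ex
  apply Real.exp_le_exp.2
  have h1 := one_le_c u
  have h2 : 0 ≤ 2 * π := by positivity
  have : 2 * π * y * Real.cosh (2 * u) ≤ 2 * π * y' * Real.cosh (2 * u) := by
    apply mul_le_mul_of_nonneg_right _ (by linarith)
    exact mul_le_mul_of_nonneg_left h h2
  linarith

/-- the basic bound -/
theorem c_ex_le (j : ℕ) {y : ℝ} (hy : 0 < y) (u : ℝ) :
    Real.cosh (2 * u) ^ j * ex y u ≤
      (j + 1).factorial * (y⁻¹) ^ (j + 1) * Real.exp (-y) * (1 + u ^ 2)⁻¹ := by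
  have hc1 := one_le_c u
  have hc2 := c_ge u
  set c := Real.cosh (2 * u) with hc
  have hc0 : 0 < c := by linarith
  have h1 : ex y u ≤ Real.exp (-y) * Real.exp (-(y * c)) := by
    unfold ex
    rw [← Real.exp_add, ← hc]
    apply Real.exp_le_exp.2
    have h6 := five_le
    have : 2 * (y * c) ≤ 2 * π * y * c := by nlinarith [mul_pos hy hc0]
    nlinarith [mul_pos hy hc0]
  have h2 := pow_exp_le (j + 1) (y * c) (by positivity)
  have h3 : c ^ j * Real.exp (-(y * c)) ≤ (j + 1).factorial * (y⁻¹) ^ (j + 1) * c⁻¹ := by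
    have : c ^ j * Real.exp (-(y * c)) =
        ((y * c) ^ (j + 1) * Real.exp (-(y * c))) * ((y⁻¹) ^ (j + 1) * c⁻¹) := by
      have e1 : y ^ (j + 1) * (y⁻¹) ^ (j + 1) = 1 := by
        rw [← mul_pow, mul_inv_cancel₀ hy.ne', one_pow]
      have e2 : c ^ (j + 1) * c⁻¹ = c ^ j := by
        rw [pow_succ, mul_assoc, mul_inv_cancel₀ hc0.ne', mul_one]
      rw [mul_pow]
      calc c ^ j * Real.exp (-(y * c))
          = (y ^ (j + 1) * (y⁻¹) ^ (j + 1)) * (c ^ (j + 1) * c⁻¹) * Real.exp (-(y * c)) := by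
            rw [e1, e2, one_mul]
        _ = _ := by ring
    rw [this, mul_assoc (((j + 1).factorial : ℝ))]
    exact mul_le_mul_of_nonneg_right h2 (by positivity)
  have h4 : c⁻¹ ≤ (1 + u ^ 2)⁻¹ := inv_anti₀ (by positivity) hc2
  calc c ^ j * ex y u ≤ c ^ j * (Real.exp (-y) * Real.exp (-(y * c))) := by gcongr
    _ = (c ^ j * Real.exp (-(y * c))) * Real.exp (-y) := by ring
    _ ≤ ((j + 1).factorial * (y⁻¹) ^ (j + 1) * c⁻¹) * Real.exp (-y) := by gcongr
    _ ≤ ((j + 1).factorial * (y⁻¹) ^ (j + 1) * (1 + u ^ 2)⁻¹) * Real.exp (-y) := by gcongr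
    _ = _ := by ring

theorem cont_ex (y : ℝ) : Continuous (ex y) := by
  unfold ex
  fun_prop

/-- integrability of functions dominated by `A cosh^j E` -/
theorem int_of_bound (j : ℕ) {y : ℝ} (hy : 0 < y) (f : ℝ → ℝ) (hf : Continuous f) (A : ℝ)
    (hb : ∀ u, |f u| ≤ A * (Real.cosh (2 * u) ^ j * ex y u)) : Integrable f := by
  have hg : Integrable fun u : ℝ =>
      |A| * ((j + 1).factorial * (y⁻¹) ^ (j + 1) * Real.exp (-y) * (1 + u ^ 2)⁻¹) :=
    (integrable_inv_one_add_sq.const_mul _).const_mul _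
  refine hg.mono' hf.aestronglyMeasurable (Filter.Eventually.of_forall fun u => ?_)
  rw [Real.norm_eq_abs]
  refine (hb u).trans ?_
  have h1 := c_ex_le j hy u
  have h2 : 0 ≤ Real.cosh (2 * u) ^ j * ex y u := by
    have := ex_pos y u
    have := one_le_c u
    positivity
  exact mul_le_mul (le_abs_self A) h1 h2 (abs_nonneg A)

theorem cont_gg (j : ℕ) (y : ℝ) : Continuous (gg j y) := by
  unfold gg
  have := cont_ex y
  fun_prop

theorem abs_gg_le (j : ℕ) (y u : ℝ) :
    |gg j y u| ≤ (2 * π) ^ j * (Real.cosh (2 * u) ^ j * ex y u) := by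
  unfold gg
  have hc := one_le_c u
  have he := ex_pos y u
  rw [abs_mul, abs_mul, abs_pow, abs_neg, abs_of_pos he,
    abs_of_pos (by positivity : 0 < 2 * π * Real.cosh (2 * u)), mul_pow]
  have h1 := Real.abs_cos_le_one (2 * tt * u)
  have h2 : 0 ≤ (2 * π) ^ j * Real.cosh (2 * u) ^ j * ex y u := by positivity
  calc (2 * π) ^ j * Real.cosh (2 * u) ^ j * ex y u * |Real.cos (2 * tt * u)|
      ≤ (2 * π) ^ j * Real.cosh (2 * u) ^ j * ex y u * 1 := by gcongr
    _ = _ := by ring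

theorem int_gg (j : ℕ) {y : ℝ} (hy : 0 < y) : Integrable (gg j y) :=
  int_of_bound j hy _ (cont_gg j y) _ (abs_gg_le j y)

theorem deriv_gg (j : ℕ) (y u : ℝ) : HasDerivAt (fun y => gg j y u) (gg (j + 1) y u) y := by
  unfold gg ex
  have h1 : HasDerivAt (fun y : ℝ => -(2 * π * y * Real.cosh (2 * u)))
      (-(2 * π * Real.cosh (2 * u))) y := by
    have := ((hasDerivAt_id y).const_mul (-(2 * π * Real.cosh (2 * u))))
    refine (this.congr_deriv (by simp)).congr_of_eventuallyEq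
      (Filter.Eventually.of_forall fun z => ?_)
    simp
    ring
  have h2 := ((h1.exp).const_mul ((-(2 * π * Real.cosh (2 * u))) ^ j)).mul_const
    (Real.cos (2 * tt * u))
  refine h2.congr_deriv ?_
  rw [pow_succ]
  ring

theorem hasDeriv_KK (j : ℕ) {y : ℝ} (hy : 0 < y) : HasDerivAt (KK j) (KK (j + 1) y) y := by
  have hs : Set.Ioi (y / 2) ∈ nhds y := Ioi_mem_nhds (by linarith)
  have h := hasDerivAt_integral_of_dominated_loc_of_deriv_le (μ := volume) (F := gg j)
    (F' := gg (j + 1)) (x₀ := y) (s := Set.Ioi (y / 2))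
    (bound := fun u => (2 * π) ^ (j + 1) * (Real.cosh (2 * u) ^ (j + 1) * ex (y / 2) u))
    hs (Filter.Eventually.of_forall fun z => (cont_gg j z).aestronglyMeasurable)
    (int_gg j hy) (cont_gg (j + 1) y).aestronglyMeasurable
    (Filter.Eventually.of_forall fun u z hz => ?_) ?_
    (Filter.Eventually.of_forall fun u z hz => deriv_gg j z u)
  · exact h.2
  · rw [Real.norm_eq_abs]
    refine (abs_gg_le (j + 1) z u).trans ?_
    have h1 := ex_anti (le_of_lt (Set.mem_Ioi.1 hz)) u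
    have hc := one_le_c u
    gcongr
  · refine int_of_bound (j + 1) (by positivity : 0 < y / 2) _ ?_ ((2 * π) ^ (j + 1)) fun u => ?_
    · have := cont_ex (y / 2)
      fun_prop
    · have hc := one_le_c u
      have he := ex_pos (y / 2) u
      rw [abs_of_pos (by positivity)]

theorem kk_eq : kk = KK 0 := by
  funext y
  unfold kk KK gg ex
  simp

theorem contDiff_KK (n j : ℕ) : ContDiffOn ℝ n (KK j) (Set.Ioi 0) := by
  induction n generalizing j with
  | zero =>
    rw [show ((0 : ℕ) : WithTop ℕ∞) = 0 from rfl, contDiffOn_zero]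
    exact fun y hy => (hasDeriv_KK j hy).continuousAt.continuousWithinAt
  | succ n ih =>
    rw [show ((n + 1 : ℕ) : WithTop ℕ∞) = (n : WithTop ℕ∞) + 1 from by norm_cast,
      contDiffOn_succ_iff_deriv_of_isOpen isOpen_Ioi]
    refine ⟨fun y hy => (hasDeriv_KK j hy).differentiableAt.differentiableWithinAt, ?_, ?_⟩
    · intro h
      exact absurd h (by simp)
    · exact (ih (j + 1)).congr fun y hy => (hasDeriv_KK j hy).deriv

theorem iter_kk (j : ℕ) : ∀ y : ℝ, 0 < y → iteratedDeriv j kk y = KK j y := by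
  induction j with
  | zero =>
    intro y _
    rw [iteratedDeriv_zero, kk_eq]
  | succ j ih =>
    intro y hy
    rw [iteratedDeriv_succ]
    have : iteratedDeriv j kk =ᶠ[nhds y] KK j := by
      filter_upwards [Ioi_mem_nhds hy] with z hz
      exact ih z hz
    rw [this.deriv_eq, (hasDeriv_KK j hy).deriv]

theorem sinh_le (u : ℝ) : |Real.sinh (2 * u)| ≤ Real.cosh (2 * u) := by
  rw [abs_le]
  constructor
  · have := Real.sinh_lt_cosh (-(2 * u))
    rw [Real.sinh_neg, Real.cosh_neg] at this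
    linarith
  · exact (Real.sinh_lt_cosh _).le

/-- the first derivative of `ex` in `u` -/
def ex1 (y u : ℝ) : ℝ := -(4 * π * y * Real.sinh (2 * u)) * ex y u

/-- the second derivative of `ex` in `u` -/
def ex2 (y u : ℝ) : ℝ :=
  (16 * π ^ 2 * y ^ 2 * Real.sinh (2 * u) ^ 2 - 8 * π * y * Real.cosh (2 * u)) * ex y u

theorem d_ex (y u : ℝ) : HasDerivAt (ex y) (ex1 y u) u := by
  have h1 : HasDerivAt (fun u : ℝ => 2 * u) 2 u := by
    simpa using (hasDerivAt_id u).const_mul (2 : ℝ)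
  have h2 := (((h1.cosh).const_mul (2 * π * y)).neg).exp
  refine h2.congr_deriv ?_
  unfold ex1 ex
  simp only [Pi.neg_apply]
  ring

theorem d_ex1 (y u : ℝ) : HasDerivAt (ex1 y) (ex2 y u) u := by
  have h1 : HasDerivAt (fun u : ℝ => 2 * u) 2 u := by
    simpa using (hasDerivAt_id u).const_mul (2 : ℝ)
  have h2 := ((((h1.sinh).const_mul (4 * π * y)).neg)).mul (d_ex y u)
  refine h2.congr_deriv ?_
  unfold ex1 ex2
  simp only [Pi.neg_apply]
  ring

theorem d_cos (u : ℝ) : HasDerivAt (fun u : ℝ => Real.cos (2 * tt * u))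
    (-(2 * tt) * Real.sin (2 * tt * u)) u := by
  have h1 : HasDerivAt (fun u : ℝ => 2 * tt * u) (2 * tt) u := by
    simpa using (hasDerivAt_id u).const_mul (2 * tt : ℝ)
  refine h1.cos.congr_deriv ?_
  ring

theorem d_sin (u : ℝ) : HasDerivAt (fun u : ℝ => -(2 * tt) * Real.sin (2 * tt * u))
    (-(4 * tt ^ 2) * Real.cos (2 * tt * u)) u := by
  have h1 : HasDerivAt (fun u : ℝ => 2 * tt * u) (2 * tt) u := by
    simpa using (hasDerivAt_id u).const_mul (2 * tt : ℝ)
  refine (h1.sin.const_mul (-(2 * tt))).congr_deriv ?_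
  ring

theorem eqn {y : ℝ} (hy : 0 < y) :
    y ^ 2 * KK 2 y + y * KK 1 y = (4 * π ^ 2 * y ^ 2 - tt ^ 2) * KK 0 y := by
  have hcex := cont_ex y
  have hcex1 : Continuous (ex1 y) := by unfold ex1; fun_prop
  have hcex2 : Continuous (ex2 y) := by unfold ex2; fun_prop
  have b0 : ∀ u, |ex y u| ≤ 1 * (Real.cosh (2 * u) ^ 0 * ex y u) := by
    intro u
    rw [abs_of_pos (ex_pos y u)]
    simp
  have b1 : ∀ u, |ex1 y u| ≤ (4 * π * y) * (Real.cosh (2 * u) ^ 1 * ex y u) := by
    intro u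
    unfold ex1
    have he := ex_pos y u
    rw [abs_mul, abs_neg, abs_mul, abs_of_pos (by positivity : 0 < 4 * π * y), abs_of_pos he,
      pow_one]
    have := sinh_le u
    calc 4 * π * y * |Real.sinh (2 * u)| * ex y u
        ≤ 4 * π * y * Real.cosh (2 * u) * ex y u := by gcongr
      _ = _ := by ring
  have b2 : ∀ u, |ex2 y u| ≤ (16 * π ^ 2 * y ^ 2 + 8 * π * y) *
      (Real.cosh (2 * u) ^ 2 * ex y u) := by
    intro u
    unfold ex2
    have he := ex_pos y u
    have hc := one_le_c u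
    rw [abs_mul, abs_of_pos he, ← mul_assoc]
    refine mul_le_mul_of_nonneg_right ?_ he.le
    have h1 : Real.sinh (2 * u) ^ 2 ≤ Real.cosh (2 * u) ^ 2 := by
      rw [sq_le_sq]
      rw [abs_of_pos (by linarith : 0 < Real.cosh (2 * u))]
      exact sinh_le u
    have h2 : Real.cosh (2 * u) ≤ Real.cosh (2 * u) ^ 2 := by nlinarith
    refine (abs_sub _ _).trans ?_
    rw [abs_of_nonneg (by positivity), abs_of_pos (by positivity), add_mul]
    gcongr
  have bc : ∀ u, |Real.cos (2 * tt * u)| ≤ 1 := fun u => Real.abs_cos_le_one _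
  have bs : ∀ u, |-(2 * tt) * Real.sin (2 * tt * u)| ≤ |2 * tt| := by
    intro u
    rw [abs_mul, abs_neg]
    exact mul_le_of_le_one_right (abs_nonneg _) (Real.abs_sin_le_one _)
  have bcc : ∀ u, |-(4 * tt ^ 2) * Real.cos (2 * tt * u)| ≤ |4 * tt ^ 2| := by
    intro u
    rw [abs_mul, abs_neg]
    exact mul_le_of_le_one_right (abs_nonneg _) (Real.abs_cos_le_one _)
  -- general integrability of products
  have prod : ∀ (j : ℕ) (f g : ℝ → ℝ) (A B : ℝ), Continuous f → Continuous g →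
      (∀ u, |f u| ≤ A * (Real.cosh (2 * u) ^ j * ex y u)) → (∀ u, |g u| ≤ B) →
      Integrable (f * g) := by
    intro j f g A B hf hg hfb hgb
    refine int_of_bound j hy _ (hf.mul hg) (A * B) fun u => ?_
    rw [Pi.mul_apply, abs_mul]
    calc |f u| * |g u| ≤ (A * (Real.cosh (2 * u) ^ j * ex y u)) * B :=
          mul_le_mul (hfb u) (hgb u) (abs_nonneg _) ((abs_nonneg _).trans (hfb u))
      _ = _ := by ring
  have cc : Continuous fun u : ℝ => Real.cos (2 * tt * u) := by fun_prop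
  have cs : Continuous fun u : ℝ => -(2 * tt) * Real.sin (2 * tt * u) := by fun_prop
  have ccc : Continuous fun u : ℝ => -(4 * tt ^ 2) * Real.cos (2 * tt * u) := by fun_prop
  have i0 : Integrable (ex y * fun u : ℝ => Real.cos (2 * tt * u)) :=
    prod 0 _ _ _ _ hcex cc b0 bc
  have i0s : Integrable (ex y * fun u : ℝ => -(2 * tt) * Real.sin (2 * tt * u)) :=
    prod 0 _ _ _ _ hcex cs b0 bs
  have i0c : Integrable (ex y * fun u : ℝ => -(4 * tt ^ 2) * Real.cos (2 * tt * u)) :=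
    prod 0 _ _ _ _ hcex ccc b0 bcc
  have i1 : Integrable (ex1 y * fun u : ℝ => Real.cos (2 * tt * u)) :=
    prod 1 _ _ _ _ hcex1 cc b1 bc
  have i1s : Integrable (ex1 y * fun u : ℝ => -(2 * tt) * Real.sin (2 * tt * u)) :=
    prod 1 _ _ _ _ hcex1 cs b1 bs
  have i2 : Integrable (ex2 y * fun u : ℝ => Real.cos (2 * tt * u)) :=
    prod 2 _ _ _ _ hcex2 cc b2 bc
  have e1 := integral_mul_deriv_eq_deriv_mul_of_integrable (u := ex1 y)
    (v := fun u : ℝ => Real.cos (2 * tt * u)) (u' := ex2 y)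
    (v' := fun u : ℝ => -(2 * tt) * Real.sin (2 * tt * u))
    (fun u _ => d_ex1 y u) (fun u _ => d_cos u) i1s i2 i1
  have e2 := integral_mul_deriv_eq_deriv_mul_of_integrable (u := ex y)
    (v := fun u : ℝ => -(2 * tt) * Real.sin (2 * tt * u)) (u' := ex1 y)
    (v' := fun u : ℝ => -(4 * tt ^ 2) * Real.cos (2 * tt * u))
    (fun u _ => d_ex y u) (fun u _ => d_sin u) i0c i1s i0s
  have e3 : ∫ u : ℝ, ex2 y u * Real.cos (2 * tt * u) =
      ∫ u : ℝ, ex y u * (-(4 * tt ^ 2) * Real.cos (2 * tt * u)) := by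
    rw [e2, e1, neg_neg]
  have e4 : ∫ u : ℝ, ex y u * (-(4 * tt ^ 2) * Real.cos (2 * tt * u)) =
      -(4 * tt ^ 2) * KK 0 y := by
    unfold KK
    rw [← integral_const_mul]
    refine integral_congr_ae (Filter.Eventually.of_forall fun u => ?_)
    simp only [gg]
    ring
  have e5 : 4 * (y ^ 2 * KK 2 y + y * KK 1 y) =
      (∫ u : ℝ, ex2 y u * Real.cos (2 * tt * u)) + 16 * π ^ 2 * y ^ 2 * KK 0 y := by
    have i2' : Integrable (fun u : ℝ => ex2 y u * Real.cos (2 * tt * u)) := i2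
    unfold KK
    rw [← integral_const_mul, ← integral_const_mul, ← integral_const_mul,
      ← integral_add ((int_gg 2 hy).const_mul _) ((int_gg 1 hy).const_mul _),
      ← integral_add i2' ((int_gg 0 hy).const_mul _), ← integral_const_mul]
    refine integral_congr_ae (Filter.Eventually.of_forall fun u => ?_)
    simp only [gg, ex2]
    have := Real.cosh_sq (2 * u)
    rw [pow_zero, pow_one]
    have h2 : (-(2 * π * Real.cosh (2 * u))) ^ 2 = 4 * π ^ 2 * (Real.sinh (2 * u) ^ 2 + 1) := by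
      rw [← this]; ring
    rw [h2]
    ring
  rw [e3, e4] at e5
  linarith

theorem decay (j : ℕ) : ∃ C : ℝ, ∀ y : ℝ, 0 < y →
    |KK j y| ≤ C * (y⁻¹) ^ (j + 1) * Real.exp (-y) := by
  refine ⟨(2 * π) ^ j * (j + 1).factorial * ∫ u : ℝ, (1 + u ^ 2)⁻¹, fun y hy => ?_⟩
  have h1 : |KK j y| ≤ ∫ u : ℝ, (2 * π) ^ j *
      ((j + 1).factorial * (y⁻¹) ^ (j + 1) * Real.exp (-y) * (1 + u ^ 2)⁻¹) := by
    unfold KK
    rw [← Real.norm_eq_abs]
    refine norm_integral_le_of_norm_le
      ((integrable_inv_one_add_sq.const_mul _).const_mul _)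
      (Filter.Eventually.of_forall fun u => ?_)
    rw [Real.norm_eq_abs]
    refine (abs_gg_le j y u).trans ?_
    exact mul_le_mul_of_nonneg_left (c_ex_le j hy u) (by positivity)
  refine h1.trans (le_of_eq ?_)
  rw [integral_const_mul, integral_const_mul]
  ring

end

end BesA

open BesA

theorem t_BES1 : S_BES1 := by
  refine ⟨?_, ?_, ?_⟩
  · rw [kk_eq]
    exact_mod_cast contDiff_KK 3 0
  · intro y hy
    have h1 : deriv kk y = KK 1 y := by
      rw [kk_eq]
      exact (hasDeriv_KK 0 hy).deriv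
    rw [iter_kk 2 y hy, h1, eqn hy, kk_eq]
  · intro j _
    obtain ⟨C, hC⟩ := decay j
    exact ⟨C, fun y hy => by rw [iter_kk j y hy]; exact hC y hy⟩

end Pool.Agent.H757M
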