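import Pool.Agent.H757M.Stm

/-
Project M17 (helper757, MP_17f4cb_nt, HARD, weight 10, full negative answer): a Maass form of level 25, attached to the
Hecke character (alpha/sqrt5)|alpha/alpha'|^(-it) of Q(sqrt5), all of whose quadratic twists vanish at the centre.
This file: the Mellin transform of K_it (BES2).

PROOF.
Put X = sigmoid(4u) = e^{2u}/(2 cosh 2u), so 1 - X = e^{-2u}/(2 cosh 2u) and dX = 4 X (1 - X) du.  The change of variables
in the Beta integral gives B(A,B) = 4 int_R e^{2u(A-B)} (2 cosh 2u)^(-(A+B)) du, with absolute convergence (Re A, Re B > 0).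
With A = B = sigma/2 the function (2 cosh 2u)^(-sigma) is integrable, so exp(-2 pi y cosh 2u) y^(sigma-1) is integrable
on (0,oo) x R (its y-integral is Gamma(sigma) (2 pi cosh 2u)^(-sigma)).  Fubini then gives
int_0^oo kk(y) y^(s-1) dy = Gamma(s) pi^(-s) int_R (2 cosh 2u)^(-s) cos(2tu) du, and cos(2tu) is the half sum of
e^{2u(it)} and e^{-2u(it)}; both give B(A,B)/4 with A = (s+it)/2, B = (s-it)/2 by the symmetry of B.
-/

set_option autoImplicit false

namespace Pool.Agent.H757M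

open Real MeasureTheory UpperHalfPlane
open scoped MatrixGroups Classical

/-- the logistic function at `4 u` -/
theorem hb_sig (u : ℝ) : Real.sigmoid (4 * u) = Real.exp (2 * u - Real.log (2 * Real.cosh (2 * u))) := by
  have hc : 0 < Real.cosh (2 * u) := Real.cosh_pos _
  rw [Real.exp_sub, Real.exp_log (by positivity), Real.sigmoid_def, Real.cosh_eq]
  have h1 : Real.exp (-(4 * u)) = Real.exp (-(2 * u)) * Real.exp (-(2 * u)) := by
    rw [← Real.exp_add]; ring_nf
  have h2 : Real.exp (-(2 * u)) * Real.exp (2 * u) = 1 := by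
    rw [← Real.exp_add]; simp
  have hp := Real.exp_pos (2 * u)
  have hq := Real.exp_pos (-(2 * u))
  rw [h1, inv_eq_one_div, div_eq_div_iff (by positivity) (by positivity)]
  nlinarith [h2]

theorem hb_sig' (u : ℝ) : 1 - Real.sigmoid (4 * u) =
    Real.exp (-(2 * u) - Real.log (2 * Real.cosh (2 * u))) := by
  have h := hb_sig (-u)
  rw [← Real.sigmoid_neg]
  have h1 : -(4 * u) = 4 * (-u) := by ring
  rw [h1, h]
  have h2 : (2 * -u) = -(2 * u) := by ring
  rw [h2, Real.cosh_neg]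

/-- the integrand after the substitution -/
noncomputable def hbI (A B : ℂ) (u : ℝ) : ℂ :=
  Complex.exp (2 * u * (A - B)) * ((2 * Real.cosh (2 * u) : ℝ) : ℂ) ^ (-(A + B))

theorem hb_integrand (A B : ℂ) (u : ℝ) :
    |4 * (Real.sigmoid (4 * u) * (1 - Real.sigmoid (4 * u)))| •
      (((Real.sigmoid (4 * u) : ℝ) : ℂ) ^ (A - 1) * (1 - ((Real.sigmoid (4 * u) : ℝ) : ℂ)) ^ (B - 1))
      = 4 * hbI A B u := by
  have hX : 0 < Real.sigmoid (4 * u) := Real.sigmoid_pos _
  have hY : 0 < 1 - Real.sigmoid (4 * u) := by linarith [Real.sigmoid_lt_one (4 * u)]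
  have hXc : ((Real.sigmoid (4 * u) : ℝ) : ℂ) ≠ 0 := by exact_mod_cast hX.ne'
  have hYc : ((1 - Real.sigmoid (4 * u) : ℝ) : ℂ) ≠ 0 := by exact_mod_cast hY.ne'
  rw [abs_of_pos (by positivity), Complex.real_smul]
  have e1 : (1 - ((Real.sigmoid (4 * u) : ℝ) : ℂ)) = ((1 - Real.sigmoid (4 * u) : ℝ) : ℂ) := by
    push_cast; rfl
  rw [e1, Complex.cpow_sub _ _ hXc, Complex.cpow_sub _ _ hYc, Complex.cpow_one, Complex.cpow_one]
  have hc : 0 < 2 * Real.cosh (2 * u) := by
    have := Real.cosh_pos (2 * u)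
    positivity
  have hcc : ((2 * Real.cosh (2 * u) : ℝ) : ℂ) ≠ 0 := by exact_mod_cast hc.ne'
  have e2 : ((Real.sigmoid (4 * u) : ℝ) : ℂ) ^ A * ((1 - Real.sigmoid (4 * u) : ℝ) : ℂ) ^ B
      = hbI A B u := by
    rw [hbI, Complex.cpow_def_of_ne_zero hXc, Complex.cpow_def_of_ne_zero hYc,
      Complex.cpow_def_of_ne_zero hcc, ← Complex.ofReal_log hX.le, ← Complex.ofReal_log hY.le,
      ← Complex.ofReal_log hc.le, hb_sig', hb_sig, Real.log_exp, Real.log_exp, ← Complex.exp_add,
      ← Complex.exp_add]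
    congr 1
    push_cast
    ring
  have e3 : ((4 * (Real.sigmoid (4 * u) * (1 - Real.sigmoid (4 * u))) : ℝ) : ℂ)
      = 4 * ((Real.sigmoid (4 * u) : ℝ) : ℂ) * ((1 - Real.sigmoid (4 * u) : ℝ) : ℂ) := by
    push_cast
    ring
  rw [← e2, e3]
  generalize ((Real.sigmoid (4 * u) : ℝ) : ℂ) ^ A = P at *
  generalize ((1 - Real.sigmoid (4 * u) : ℝ) : ℂ) ^ B = Q at *
  generalize ((Real.sigmoid (4 * u) : ℝ) : ℂ) = X at *
  generalize ((1 - Real.sigmoid (4 * u) : ℝ) : ℂ) = Y at *
  field_simp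

theorem hb_beta {A B : ℂ} (hA : 0 < A.re) (hB : 0 < B.re) :
    Integrable (hbI A B) ∧ 4 * ∫ u : ℝ, hbI A B u = Complex.betaIntegral A B := by
  have hinj : Set.InjOn (fun u : ℝ => Real.sigmoid (4 * u)) Set.univ := by
    intro a _ b _ h
    have := Real.sigmoid_injective h
    linarith
  have hd : ∀ x ∈ (Set.univ : Set ℝ), HasDerivWithinAt (fun u : ℝ => Real.sigmoid (4 * u))
      (4 * (Real.sigmoid (4 * x) * (1 - Real.sigmoid (4 * x)))) Set.univ x := by
    intro x _
    have h1 := (Real.hasDerivAt_sigmoid (4 * x)).comp x ((hasDerivAt_id x).const_mul 4)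
    have h2 : HasDerivAt (fun u : ℝ => Real.sigmoid (4 * u))
      (4 * (Real.sigmoid (4 * x) * (1 - Real.sigmoid (4 * x)))) x := by
      convert! h1 using 1
      simp
      ring
    exact h2.hasDerivWithinAt
  have himg : (fun u : ℝ => Real.sigmoid (4 * u)) '' Set.univ = Set.Ioo 0 1 := by
    rw [Set.image_univ, ← Real.range_sigmoid]
    ext x
    constructor
    · rintro ⟨u, rfl⟩
      exact ⟨4 * u, rfl⟩
    · rintro ⟨u, rfl⟩
      exact ⟨u / 4, by simp; ring_nf⟩
  have hI := integrableOn_image_iff_integrableOn_abs_deriv_smul MeasurableSet.univ hd hinj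
    (fun X : ℝ => (X : ℂ) ^ (A - 1) * (1 - (X : ℂ)) ^ (B - 1))
  have hE := integral_image_eq_integral_abs_deriv_smul MeasurableSet.univ hd hinj
    (fun X : ℝ => (X : ℂ) ^ (A - 1) * (1 - (X : ℂ)) ^ (B - 1))
  rw [himg] at hI hE
  have hconv := Complex.betaIntegral_convergent hA hB
  rw [intervalIntegrable_iff_integrableOn_Ioo_of_le zero_le_one] at hconv
  have h3 := hI.1 hconv
  simp only [hb_integrand] at h3 hE
  rw [integrableOn_univ] at h3
  constructor
  · have h4 := h3.const_mul (1 / 4 : ℂ)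
    refine h4.congr (Filter.Eventually.of_forall fun u => ?_)
    show 1 / 4 * (4 * hbI A B u) = hbI A B u
    ring
  · rw [Complex.betaIntegral, intervalIntegral.integral_of_le zero_le_one,
      integral_Ioc_eq_integral_Ioo, hE, setIntegral_univ, integral_const_mul]

/-- the absolute majorant is integrable in `u` -/
theorem hb_cosh_int {σ : ℝ} (hσ : 0 < σ) :
    Integrable (fun u : ℝ => (1 / (2 * π * Real.cosh (2 * u))) ^ σ * Real.Gamma σ) := by
  have hA : 0 < ((σ / 2 : ℝ) : ℂ).re := by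
    rw [Complex.ofReal_re]; positivity
  have h := ((hb_beta hA hA).1.norm).const_mul (π ^ (-σ) * Real.Gamma σ)
  refine h.congr (Filter.Eventually.of_forall fun u => ?_)
  have hc := Real.cosh_pos (2 * u)
  have hc2 : 0 < 2 * Real.cosh (2 * u) := by positivity
  show π ^ (-σ) * Real.Gamma σ * ‖hbI ((σ / 2 : ℝ) : ℂ) ((σ / 2 : ℝ) : ℂ) u‖
    = (1 / (2 * π * Real.cosh (2 * u))) ^ σ * Real.Gamma σ
  have h1 : ‖hbI ((σ / 2 : ℝ) : ℂ) ((σ / 2 : ℝ) : ℂ) u‖ = (2 * Real.cosh (2 * u)) ^ (-σ) := by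
    rw [hbI, sub_self, mul_zero, Complex.exp_zero, one_mul, Complex.norm_cpow_eq_rpow_re_of_pos hc2]
    congr 1
    simp
  rw [h1]
  have h2 : (1 / (2 * π * Real.cosh (2 * u))) ^ σ = π ^ (-σ) * (2 * Real.cosh (2 * u)) ^ (-σ) := by
    rw [one_div, Real.inv_rpow (by positivity), ← Real.rpow_neg (by positivity),
      show 2 * π * Real.cosh (2 * u) = π * (2 * Real.cosh (2 * u)) by ring,
      Real.mul_rpow Real.pi_pos.le hc2.le]
  rw [h2]
  ring

theorem hb_majorant {σ : ℝ} (hσ : 0 < σ) :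
    Integrable (fun p : ℝ × ℝ => Real.exp (-(2 * π * p.1 * Real.cosh (2 * p.2))) * p.1 ^ (σ - 1))
      ((volume.restrict (Set.Ioi 0)).prod volume) := by
  have hm : Measurable
      (fun p : ℝ × ℝ => Real.exp (-(2 * π * p.1 * Real.cosh (2 * p.2))) * p.1 ^ (σ - 1)) := by
    have h1 : Continuous (fun p : ℝ × ℝ => Real.exp (-(2 * π * p.1 * Real.cosh (2 * p.2)))) := by
      fun_prop
    exact h1.measurable.mul (measurable_fst.pow_const _)
  rw [integrable_prod_iff' hm.aestronglyMeasurable]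
  have hint : ∀ u : ℝ, ∫ y in Set.Ioi (0 : ℝ),
      Real.exp (-(2 * π * y * Real.cosh (2 * u))) * y ^ (σ - 1)
        = (1 / (2 * π * Real.cosh (2 * u))) ^ σ * Real.Gamma σ := by
    intro u
    have hc := Real.cosh_pos (2 * u)
    rw [← Real.integral_rpow_mul_exp_neg_mul_Ioi hσ (r := 2 * π * Real.cosh (2 * u)) (by positivity)]
    refine setIntegral_congr_fun measurableSet_Ioi fun y _ => ?_
    show Real.exp (-(2 * π * y * Real.cosh (2 * u))) * y ^ (σ - 1) = _
    rw [mul_comm]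
    congr 2
    ring
  constructor
  · refine Filter.Eventually.of_forall fun u => ?_
    show Integrable (fun y : ℝ => Real.exp (-(2 * π * y * Real.cosh (2 * u))) * y ^ (σ - 1))
      (volume.restrict (Set.Ioi 0))
    apply Integrable.of_integral_ne_zero
    rw [hint u]
    have hc := Real.cosh_pos (2 * u)
    have hG := Real.Gamma_pos_of_pos hσ
    positivity
  · refine (hb_cosh_int hσ).congr (Filter.Eventually.of_forall fun u => ?_)
    show _ = ∫ y in Set.Ioi (0 : ℝ), ‖Real.exp (-(2 * π * y * Real.cosh (2 * u))) * y ^ (σ - 1)‖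
    show (1 / (2 * π * Real.cosh (2 * u))) ^ σ * Real.Gamma σ = _
    rw [← hint u]
    refine setIntegral_congr_fun measurableSet_Ioi fun y hy => ?_
    have hy0 : 0 < y := hy
    show Real.exp (-(2 * π * y * Real.cosh (2 * u))) * y ^ (σ - 1) = ‖_‖
    rw [Real.norm_of_nonneg]
    positivity

/-- the full integrand -/
noncomputable def hbF (s : ℂ) (y u : ℝ) : ℂ :=
  ((Real.exp (-(2 * π * y * Real.cosh (2 * u))) * Real.cos (2 * tt * u) : ℝ) : ℂ) * (y : ℂ) ^ (s - 1)

theorem hb_F_int {s : ℂ} (hs : 0 < s.re) :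
    Integrable (Function.uncurry (hbF s)) ((volume.restrict (Set.Ioi 0)).prod volume) := by
  have hm : Measurable (Function.uncurry (hbF s)) := by
    have h1 : Continuous (fun p : ℝ × ℝ =>
        ((Real.exp (-(2 * π * p.1 * Real.cosh (2 * p.2))) * Real.cos (2 * tt * p.2) : ℝ) : ℂ)) := by
      fun_prop
    exact h1.measurable.mul ((Complex.measurable_ofReal.comp measurable_fst).pow_const _)
  refine (hb_majorant hs).mono hm.aestronglyMeasurable ?_
  have hae : ∀ᵐ p : ℝ × ℝ ∂((volume.restrict (Set.Ioi (0 : ℝ))).prod volume), p.1 ∈ Set.Ioi (0 : ℝ) := by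
    have h2 : ((volume.restrict (Set.Ioi (0 : ℝ))).prod (volume : Measure ℝ))
        = ((volume : Measure ℝ).prod (volume : Measure ℝ)).restrict (Set.Ioi (0 : ℝ) ×ˢ Set.univ) := by
      rw [← Measure.prod_restrict, Measure.restrict_univ]
    rw [h2]
    filter_upwards [ae_restrict_mem (measurableSet_Ioi.prod MeasurableSet.univ)] with p hp
    exact hp.1
  filter_upwards [hae] with p hp
  have hy : 0 < p.1 := hp
  show ‖hbF s p.1 p.2‖ ≤ ‖_‖
  rw [hbF, norm_mul, norm_mul, Complex.norm_real, norm_mul, Complex.norm_cpow_eq_rpow_re_of_pos hy,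
    Real.norm_of_nonneg (r := p.1 ^ (s.re - 1)) (by positivity)]
  have h3 : (s - 1).re = s.re - 1 := by simp
  rw [h3]
  refine mul_le_mul_of_nonneg_right ?_ (by positivity)
  have h4 : ‖Real.cos (2 * tt * p.2)‖ ≤ 1 := Real.abs_cos_le_one _
  nlinarith [norm_nonneg (Real.exp (-(2 * π * p.1 * Real.cosh (2 * p.2))))]

theorem hb_inner {s : ℂ} (y : ℝ) : ∫ u : ℝ, hbF s y u = (kk y : ℂ) * (y : ℂ) ^ (s - 1) := by
  unfold hbF
  rw [integral_mul_const]
  congr 1
  exact integral_ofReal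

theorem hb_outer {s : ℂ} (hs : 0 < s.re) (u : ℝ) : ∫ y in Set.Ioi (0 : ℝ), hbF s y u =
    Complex.Gamma s * (π : ℂ) ^ (-s) * (1 / 2 * (hbI ((s + tt * Complex.I) / 2) ((s - tt * Complex.I) / 2) u
      + hbI ((s - tt * Complex.I) / 2) ((s + tt * Complex.I) / 2) u)) := by
  have hc := Real.cosh_pos (2 * u)
  have hr : 0 < 2 * π * Real.cosh (2 * u) := by positivity
  have hc2 : 0 < 2 * Real.cosh (2 * u) := by positivity
  have h1 := Complex.integral_cpow_mul_exp_neg_mul_Ioi hs hr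
  have h2 : ∫ y in Set.Ioi (0 : ℝ), hbF s y u = ∫ y in Set.Ioi (0 : ℝ),
      (Real.cos (2 * tt * u) : ℂ) * ((y : ℂ) ^ (s - 1) *
        Complex.exp (-(((2 * π * Real.cosh (2 * u) : ℝ) : ℂ) * y))) := by
    refine setIntegral_congr_fun measurableSet_Ioi fun y _ => ?_
    show hbF s y u = _
    unfold hbF
    push_cast
    have : -(2 * (π : ℂ) * y * Complex.cosh (2 * u)) = -(2 * π * Complex.cosh (2 * u) * y) := by ring
    rw [this]
    ring
  rw [h2, integral_const_mul, h1]
  have h3 : (1 / ((2 * π * Real.cosh (2 * u) : ℝ) : ℂ)) ^ s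
      = (π : ℂ) ^ (-s) * ((2 * Real.cosh (2 * u) : ℝ) : ℂ) ^ (-s) := by
    have h4 : (1 / ((2 * π * Real.cosh (2 * u) : ℝ) : ℂ)) = ((π⁻¹ : ℝ) : ℂ) * (((2 * Real.cosh (2 * u))⁻¹ : ℝ) : ℂ) := by
      push_cast
      field_simp
    rw [h4, Complex.mul_cpow_ofReal_nonneg (by positivity) (by positivity)]
    have h5 : ∀ x : ℝ, 0 < x → ((x⁻¹ : ℝ) : ℂ) ^ s = (x : ℂ) ^ (-s) := by
      intro x hx
      have hx1 : (x : ℂ) ≠ 0 := by exact_mod_cast hx.ne'
      have hx2 : ((x⁻¹ : ℝ) : ℂ) ≠ 0 := by exact_mod_cast (inv_pos.2 hx).ne'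
      rw [Complex.cpow_def_of_ne_zero hx1, Complex.cpow_def_of_ne_zero hx2, ← Complex.ofReal_log hx.le,
        ← Complex.ofReal_log (inv_pos.2 hx).le, Real.log_inv]
      congr 1
      push_cast
      ring
    rw [h5 _ Real.pi_pos, h5 _ hc2]
  rw [h3]
  have h6 : (Real.cos (2 * tt * u) : ℂ) = (Complex.exp (2 * u * (tt * Complex.I)) +
      Complex.exp (2 * u * (-(tt * Complex.I)))) / 2 := by
    rw [Complex.ofReal_cos, Complex.cos]
    push_cast
    congr 3 <;> ring_nf
  rw [h6, hbI, hbI]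
  have e1 : (s + tt * Complex.I) / 2 - (s - tt * Complex.I) / 2 = tt * Complex.I := by ring
  have e2 : (s - tt * Complex.I) / 2 - (s + tt * Complex.I) / 2 = -(tt * Complex.I) := by ring
  have e3 : (s + tt * Complex.I) / 2 + (s - tt * Complex.I) / 2 = s := by ring
  have e4 : (s - tt * Complex.I) / 2 + (s + tt * Complex.I) / 2 = s := by ring
  rw [e1, e2, e3, e4]
  ring

theorem t_BES2 : S_BES2 := by
  intro s hs
  have hF := hb_F_int hs
  constructor
  · have h1 := hF.integral_prod_left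
    refine h1.congr (Filter.Eventually.of_forall fun y => ?_)
    exact hb_inner y
  · have h1 : ∫ y : ℝ in Set.Ioi 0, (kk y : ℂ) * (y : ℂ) ^ (s - 1)
        = ∫ y : ℝ in Set.Ioi 0, ∫ u : ℝ, hbF s y u := by
      refine setIntegral_congr_fun measurableSet_Ioi fun y _ => ?_
      exact (hb_inner y).symm
    rw [h1, integral_integral_swap hF]
    simp_rw [hb_outer hs]
    have hA : 0 < ((s + tt * Complex.I) / 2).re := by
      have : ((s + tt * Complex.I) / 2).re = s.re / 2 := by simp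
      rw [this]; positivity
    have hB : 0 < ((s - tt * Complex.I) / 2).re := by
      have : ((s - tt * Complex.I) / 2).re = s.re / 2 := by simp
      rw [this]; positivity
    obtain ⟨i1, v1⟩ := hb_beta hA hB
    obtain ⟨i2, v2⟩ := hb_beta hB hA
    rw [integral_const_mul, integral_const_mul, integral_add i1 i2]
    rw [Complex.betaIntegral_symm] at v2
    have hG := Complex.Gamma_mul_Gamma_eq_betaIntegral hA hB
    have e3 : (s + tt * Complex.I) / 2 + (s - tt * Complex.I) / 2 = s := by ring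
    rw [e3] at hG
    have w1 : ∫ u : ℝ, hbI ((s + tt * Complex.I) / 2) ((s - tt * Complex.I) / 2) u
        = 1 / 4 * Complex.betaIntegral ((s + tt * Complex.I) / 2) ((s - tt * Complex.I) / 2) := by
      rw [← v1]; ring
    have w2 : ∫ u : ℝ, hbI ((s - tt * Complex.I) / 2) ((s + tt * Complex.I) / 2) u
        = 1 / 4 * Complex.betaIntegral ((s + tt * Complex.I) / 2) ((s - tt * Complex.I) / 2) := by
      rw [← v2]; ring
    rw [w1, w2]
    linear_combination (-(1 / 4 : ℂ) * (π : ℂ) ^ (-s)) * hG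

end Pool.Agent.H757M
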