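import Pool.Agent.H757M.Stm

set_option autoImplicit false

namespace Pool.Agent.H757M

open Real MeasureTheory UpperHalfPlane
open scoped MatrixGroups Classical

/-! ### algebra of `O` -/

theorem cf_s5 : (√5 : ℝ) ^ 2 = 5 := Real.sq_sqrt (by norm_num)

theorem cf_s5_gt : (2.236 : ℝ) < √5 := by
  rw [show (2.236 : ℝ) = √(2.236 ^ 2) from (Real.sqrt_sq (by norm_num)).symm]
  exact Real.sqrt_lt_sqrt (by norm_num) (by norm_num)

theorem cf_s5_lt : √5 < (2.2361 : ℝ) := by
  rw [show (2.2361 : ℝ) = √(2.2361 ^ 2) from (Real.sqrt_sq (by norm_num)).symm]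
  exact Real.sqrt_lt_sqrt (by norm_num) (by norm_num)

theorem cf_w_sq : w ^ 2 = w + 1 := by
  unfold w
  nlinarith [cf_s5]

theorem cf_w_gt : (1.618 : ℝ) ≤ w := by
  unfold w
  linarith [cf_s5_gt]

theorem cf_w_lt : w ≤ (1.6181 : ℝ) := by
  unfold w
  linarith [cf_s5_lt]

theorem cf_w_pos : 0 < w := by linarith [cf_w_gt]

theorem cf_w_one : 1 < w := by linarith [cf_w_gt]

theorem cf_w_w' : w * (1 - w) = -1 := by nlinarith [cf_w_sq]

theorem cf_w_s5 : 2 * w - 1 = √5 := by unfold w; ring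

theorem cf_al_mul (a b : ℤ × ℤ) : al (mulO a b) = al a * al b := by
  simp only [al, mulO]
  push_cast
  linear_combination (-(a.2 * b.2 : ℝ)) * cf_w_sq

theorem cf_al'_mul (a b : ℤ × ℤ) : al' (mulO a b) = al' a * al' b := by
  simp only [al', mulO]
  push_cast
  linear_combination (-(a.2 * b.2 : ℝ)) * cf_w_sq

theorem cf_al_al' (a : ℤ × ℤ) : al a * al' a = nm a := by
  simp only [al, al', nm]
  push_cast
  linear_combination (-(a.2 ^ 2 : ℝ)) * cf_w_sq

theorem cf_nm_mul (a b : ℤ × ℤ) : nm (mulO a b) = nm a * nm b := by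
  simp only [nm, mulO]
  ring

theorem cf_nm_conj (a : ℤ × ℤ) : nm (conjO a) = nm a := by
  simp only [nm, conjO]
  ring

theorem cf_mul_comm (a b : ℤ × ℤ) : mulO a b = mulO b a := by
  simp only [mulO]
  refine Prod.ext ?_ ?_
  · show _ = _
    ring
  · show _ = _
    ring

theorem cf_mul_assoc (a b c : ℤ × ℤ) : mulO (mulO a b) c = mulO a (mulO b c) := by
  simp only [mulO]
  refine Prod.ext ?_ ?_
  · show _ = _
    ring
  · show _ = _
    ring

theorem cf_conj_mul (c a : ℤ × ℤ) : mulO (conjO c) (mulO c a) = (nm c * a.1, nm c * a.2) := by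
  simp only [mulO, conjO, nm]
  refine Prod.ext ?_ ?_
  · show _ = _
    ring
  · show _ = _
    ring

theorem cf_irr : Irrational (√5 : ℝ) := by
  have h := Nat.Prime.irrational_sqrt (p := 5) (by norm_num)
  exact_mod_cast h

theorem cf_al_ne {a : ℤ × ℤ} (ha : a ≠ 0) : al a ≠ 0 := by
  intro h
  by_cases h2 : a.2 = 0
  · apply ha
    unfold al at h
    rw [h2] at h
    have h1 : (a.1 : ℝ) = 0 := by simpa using h
    refine Prod.ext ?_ h2
    exact_mod_cast h1
  · refine cf_irr ⟨((-2 * a.1 - a.2) / a.2 : ℚ), ?_⟩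
    have h2' : (a.2 : ℝ) ≠ 0 := by exact_mod_cast h2
    push_cast
    rw [div_eq_iff h2']
    unfold al w at h
    linarith

theorem cf_al_conj (a : ℤ × ℤ) : al (conjO a) = al' a := by
  simp only [al, al', conjO]
  push_cast
  ring

theorem cf_al'_conj (a : ℤ × ℤ) : al' (conjO a) = al a := by
  simp only [al, al', conjO]
  push_cast
  ring

theorem cf_conj_ne {a : ℤ × ℤ} (ha : a ≠ 0) : conjO a ≠ 0 := by
  intro h
  apply ha
  have h1 : a.1 + a.2 = 0 := congrArg Prod.fst h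
  have h2 : -a.2 = 0 := congrArg Prod.snd h
  refine Prod.ext ?_ ?_
  · show a.1 = 0
    omega
  · show a.2 = 0
    omega

theorem cf_al'_ne {a : ℤ × ℤ} (ha : a ≠ 0) : al' a ≠ 0 := by
  rw [← cf_al_conj]
  exact cf_al_ne (cf_conj_ne ha)

theorem cf_nm_ne {a : ℤ × ℤ} (ha : a ≠ 0) : nm a ≠ 0 := by
  intro h
  have h1 := cf_al_al' a
  rw [h, Int.cast_zero] at h1
  exact (mul_ne_zero (cf_al_ne ha) (cf_al'_ne ha)) h1

theorem cf_cancel {c a b : ℤ × ℤ} (hc : c ≠ 0) (h : mulO c a = mulO c b) : a = b := by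
  have h1 := congrArg (mulO (conjO c)) h
  rw [cf_conj_mul, cf_conj_mul] at h1
  have h2 : nm c * a.1 = nm c * b.1 := congrArg Prod.fst h1
  have h3 : nm c * a.2 = nm c * b.2 := congrArg Prod.snd h1
  have h4 := cf_nm_ne hc
  exact Prod.ext (mul_left_cancel₀ h4 h2) (mul_left_cancel₀ h4 h3)

theorem cf_mul_ne {a b : ℤ × ℤ} (ha : a ≠ 0) (hb : b ≠ 0) : mulO a b ≠ 0 := by
  intro h
  have h1 := cf_nm_mul a b
  rw [h] at h1
  have h2 : nm (0 : ℤ × ℤ) = 0 := by simp [nm]
  rw [h2] at h1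
  rcases mul_eq_zero.1 h1.symm with h3 | h3
  · exact cf_nm_ne ha h3
  · exact cf_nm_ne hb h3

theorem cf_abs_al (a : ℤ × ℤ) : |al a| * |al' a| = ((nm a).natAbs : ℝ) := by
  rw [← abs_mul, cf_al_al', Nat.cast_natAbs, Int.cast_abs]

/-! ### the character -/

theorem cf_ch_mul (a b : ℤ × ℤ) : ch (mulO a b) = ch a * ch b := by
  unfold ch
  rw [← jacobiSym.mul_left]
  rw [jacobiSym.mod_left, jacobiSym.mod_left ((a.1 + 3 * a.2) * (b.1 + 3 * b.2))]
  congr 1
  simp only [mulO]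
  have : (a.1 + 3 * a.2) * (b.1 + 3 * b.2) = (a.1 * b.1 + a.2 * b.2 +
      3 * (a.1 * b.2 + a.2 * b.1 + a.2 * b.2)) + 5 * (a.2 * b.2) := by ring
  rw [this]
  push_cast
  rw [Int.add_mul_emod_self_left]

theorem cf_ps_mul {a b : ℤ × ℤ} (ha : a ≠ 0) (hb : b ≠ 0) : ps (mulO a b) = ps a * ps b := by
  unfold ps
  have h1 : Real.log |al (mulO a b) / al' (mulO a b)| =
      Real.log |al a / al' a| + Real.log |al b / al' b| := by
    rw [cf_al_mul, cf_al'_mul, mul_div_mul_comm, abs_mul, Real.log_mul]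
    · exact abs_ne_zero.2 (div_ne_zero (cf_al_ne ha) (cf_al'_ne ha))
    · exact abs_ne_zero.2 (div_ne_zero (cf_al_ne hb) (cf_al'_ne hb))
  rw [h1, cf_ch_mul]
  have h2 : (-(Complex.I * ((tt * (Real.log |al a / al' a| + Real.log |al b / al' b|) : ℝ) : ℂ)))
      = -(Complex.I * ((tt * Real.log |al a / al' a| : ℝ) : ℂ)) +
        -(Complex.I * ((tt * Real.log |al b / al' b| : ℝ) : ℂ)) := by
    push_cast
    ring
  rw [h2, Complex.exp_add]
  push_cast
  ring

theorem cf_ch_abs (a : ℤ × ℤ) : |(ch a : ℝ)| ≤ 1 := by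
  unfold ch
  rcases jacobiSym.trichotomy (a.1 + 3 * a.2) 5 with h | h | h <;> rw [h] <;> simp

theorem cf_ps_norm (a : ℤ × ℤ) : ‖ps a‖ ≤ 1 := by
  unfold ps
  have h1 : (-(Complex.I * ((tt * Real.log |al a / al' a| : ℝ) : ℂ)))
      = ((-(tt * Real.log |al a / al' a|) : ℝ) : ℂ) * Complex.I := by
    push_cast
    ring
  rw [norm_mul, h1, Complex.norm_exp_ofReal_mul_I, mul_one]
  have h2 : ((ch a : ℤ) : ℂ) = ((ch a : ℝ) : ℂ) := by push_cast; rfl
  rw [h2, Complex.norm_real]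
  exact cf_ch_abs a

theorem cf_ps_int (m : ℤ) (hm : m ≠ 0) : ps (m, 0) = (jacobiSym m 5 : ℂ) := by
  unfold ps ch
  have h1 : al (m, 0) = m := by simp [al]
  have h2 : al' (m, 0) = m := by simp [al']
  have h3 : (m : ℝ) ≠ 0 := by exact_mod_cast hm
  rw [h1, h2, div_self h3]
  simp

theorem cf_jm1 : jacobiSym (-1) 5 = 1 := by
  rw [jacobiSym.mod_left]
  norm_num

theorem cf_ps_w : ps (0, 1) = 1 := by
  unfold ps ch
  have h1 : al (0, 1) = w := by simp [al]
  have h2 : al' (0, 1) = 1 - w := by simp [al']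
  rw [h1, h2]
  have h3 : |w / (1 - w)| = w ^ 2 := by
    have hne : (1 - w) ≠ 0 := by linarith [cf_w_one]
    have : w / (1 - w) = -w ^ 2 := by
      rw [div_eq_iff hne]
      nlinarith [cf_w_w', cf_w_sq]
    rw [this, abs_neg, abs_of_pos (by positivity [cf_w_pos])]
  have hlog : Real.log w ≠ 0 := (Real.log_pos cf_w_one).ne'
  have h4 : tt * Real.log |w / (1 - w)| = π := by
    rw [h3, Real.log_pow]
    unfold tt
    field_simp
    norm_num
  rw [h4]
  have h5 : jacobiSym ((0, 1) : ℤ × ℤ).1 5 = 0 := by norm_num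
  have h6 : jacobiSym (((0, 1) : ℤ × ℤ).1 + 3 * ((0, 1) : ℤ × ℤ).2) 5 = -1 := by norm_num
  rw [h6]
  have h7 : (-(Complex.I * (π : ℂ))) = -(π * Complex.I) := by ring
  rw [h7, Complex.exp_neg, Complex.exp_pi_mul_I]
  norm_num

theorem cf_one_mul (a : ℤ × ℤ) : mulO (1, 0) a = a := by
  simp only [mulO]
  refine Prod.ext ?_ ?_
  · show _ = a.1
    ring
  · show _ = a.2
    ring

theorem cf_ps_one : ps (1, 0) = 1 := by
  rw [cf_ps_int 1 one_ne_zero]
  simp

theorem cf_ps_neg_one : ps (-1, 0) = 1 := by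
  rw [cf_ps_int (-1) (by norm_num), cf_jm1]
  simp

theorem cf_w_ne : ((0, 1) : ℤ × ℤ) ≠ 0 := by
  intro h
  have := congrArg Prod.snd h
  simp at this

theorem cf_wi_ne : ((-1, 1) : ℤ × ℤ) ≠ 0 := by
  intro h
  have := congrArg Prod.snd h
  simp at this

theorem cf_ps_wi : ps (-1, 1) = 1 := by
  have h1 := cf_ps_mul cf_w_ne cf_wi_ne
  have h2 : mulO (0, 1) (-1, 1) = (1, 0) := by simp [mulO]
  rw [h2, cf_ps_one, cf_ps_w, one_mul] at h1
  exact h1.symm

/-- the units `w ^ k` -/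
theorem cf_unit (k : ℤ) : ∃ u : ℤ × ℤ, u ≠ 0 ∧ al u = w ^ k ∧ |al' u| = w ^ (-k) ∧
    (nm u).natAbs = 1 ∧ ps u = 1 := by
  have hw := cf_w_pos
  have hw' : (1 - w) = -w⁻¹ := by
    field_simp
    nlinarith [cf_w_w']
  have habs : |1 - w| = w⁻¹ := by
    rw [hw', abs_neg, abs_of_pos (inv_pos.2 hw)]
  induction k using Int.induction_on with
  | zero =>
    refine ⟨(1, 0), ?_, ?_, ?_, ?_, cf_ps_one⟩
    · intro h
      have := congrArg Prod.fst h
      simp at this
    · simp [al]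
    · simp [al']
    · simp [nm]
  | succ k ih =>
    obtain ⟨u, h0, h1, h2, h3, h4⟩ := ih
    refine ⟨mulO (0, 1) u, cf_mul_ne cf_w_ne h0, ?_, ?_, ?_, ?_⟩
    · rw [cf_al_mul, h1, zpow_add_one₀ hw.ne', mul_comm]
      simp [al]
    · rw [cf_al'_mul, abs_mul, h2]
      have : al' (0, 1) = 1 - w := by simp [al']
      rw [this, habs, neg_add, zpow_add₀ hw.ne', mul_comm]
      simp
    · rw [cf_nm_mul, Int.natAbs_mul, h3]
      simp [nm]
    · rw [cf_ps_mul cf_w_ne h0, h4, cf_ps_w, mul_one]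
  | pred k ih =>
    obtain ⟨u, h0, h1, h2, h3, h4⟩ := ih
    refine ⟨mulO (-1, 1) u, cf_mul_ne cf_wi_ne h0, ?_, ?_, ?_, ?_⟩
    · rw [cf_al_mul, h1, zpow_sub_one₀ hw.ne', mul_comm]
      congr 1
      simp only [al]
      push_cast
      linarith
    · rw [cf_al'_mul, abs_mul, h2]
      have : al' (-1, 1) = -w := by
        simp only [al']
        push_cast
        ring
      rw [this, abs_neg, abs_of_pos hw, neg_sub, sub_neg_eq_add, neg_neg, add_comm,
        zpow_add_one₀ hw.ne', mul_comm]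
    · rw [cf_nm_mul, Int.natAbs_mul, h3]
      simp [nm]
    · rw [cf_ps_mul cf_wi_ne h0, h4, cf_ps_wi, mul_one]

/-- reduction to the fundamental domain -/
theorem cf_red {a : ℤ × ℤ} (ha : a ≠ 0) : ∃ u : ℤ × ℤ, u ≠ 0 ∧ (nm u).natAbs = 1 ∧ ps u = 1 ∧
    Dm (mulO u a) := by
  have hw := cf_w_pos
  have hA := abs_pos.2 (cf_al_ne ha)
  have hA' := abs_pos.2 (cf_al'_ne ha)
  have hw2 : 1 < w ^ 2 := by nlinarith [cf_w_one]
  obtain ⟨k, hk1, hk2⟩ := exists_mem_Ico_zpow (x := |al a| / |al' a|) (y := w ^ 2)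
    (div_pos hA hA') hw2
  obtain ⟨u, h0, h1, h2, h3, h4⟩ := cf_unit (-k)
  rw [le_div_iff₀ hA'] at hk1
  rw [div_lt_iff₀ hA'] at hk2
  have e1 : (w ^ 2) ^ k = w ^ k * w ^ k := by
    rw [← zpow_natCast, ← zpow_mul, ← zpow_add₀ hw.ne']
    congr 1
    push_cast
    ring
  have e2 : (w ^ 2) ^ (k + 1) = w ^ k * w ^ k * w ^ 2 := by
    rw [zpow_add_one₀ (by positivity), e1]
  have hwk : 0 < w ^ k := zpow_pos hw k
  have hwk' : w ^ (-k) = (w ^ k)⁻¹ := zpow_neg w k
  have f1 : |al' (mulO u a)| ≤ |al (mulO u a)| := by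
    rw [cf_al'_mul, cf_al_mul, abs_mul, abs_mul, h1, h2, neg_neg, hwk', abs_of_pos (inv_pos.2 hwk)]
    rw [e1] at hk1
    rw [inv_mul_eq_div, le_div_iff₀ hwk]
    linarith
  have f2 : |al (mulO u a)| < w ^ 2 * |al' (mulO u a)| := by
    rw [cf_al'_mul, cf_al_mul, abs_mul, abs_mul, h1, h2, neg_neg, hwk', abs_of_pos (inv_pos.2 hwk)]
    rw [e2] at hk2
    rw [inv_mul_eq_div, div_lt_iff₀ hwk]
    linarith
  rcases lt_or_gt_of_ne (cf_al_ne (cf_mul_ne h0 ha)) with hneg | hpos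
  · refine ⟨mulO (-1, 0) u, cf_mul_ne ?_ h0, ?_, ?_, ?_, ?_, ?_⟩
    · intro h
      have := congrArg Prod.fst h
      simp at this
    · rw [cf_nm_mul, Int.natAbs_mul, h3]
      simp [nm]
    · rw [cf_ps_mul _ h0, h4, cf_ps_neg_one, mul_one]
      intro h
      have := congrArg Prod.fst h
      simp at this
    · rw [cf_mul_assoc, cf_al_mul]
      have : al (-1, 0) = -1 := by simp [al]
      rw [this]
      linarith
    · rw [cf_mul_assoc, cf_al_mul, cf_al'_mul]
      have e3 : al (-1, 0) = -1 := by simp [al]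
      have e4 : al' (-1, 0) = -1 := by simp [al']
      rw [e3, e4, abs_mul, abs_neg, abs_one, one_mul]
      rw [abs_of_neg hneg] at f1
      linarith
    · rw [cf_mul_assoc, cf_al_mul, cf_al'_mul]
      have e3 : al (-1, 0) = -1 := by simp [al]
      have e4 : al' (-1, 0) = -1 := by simp [al']
      rw [e3, e4, abs_mul, abs_neg, abs_one, one_mul]
      rw [abs_of_neg hneg] at f2
      linarith
  · refine ⟨u, h0, h3, h4, hpos, ?_, ?_⟩
    · rwa [abs_of_pos hpos] at f1
    · rwa [abs_of_pos hpos] at f2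

/-- units near `1` are `1` -/
theorem cf_unit_one {u : ℤ × ℤ} (hu : (nm u).natAbs = 1) (h1 : w⁻¹ < al u) (h2 : al u < w) :
    u = (1, 0) := by
  have hw := cf_w_pos
  have hpos : 0 < al u := (inv_pos.2 hw).trans h1
  have hab := cf_abs_al u
  rw [hu, Nat.cast_one, abs_of_pos hpos] at hab
  have hd : al u - al' u = u.2 * √5 := by
    rw [← cf_w_s5]
    simp only [al, al']
    ring
  have hs5 := cf_s5_gt
  have hwi : w⁻¹ = w - 1 := by
    field_simp
    nlinarith [cf_w_sq]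
  rw [hwi] at h1
  have hwl := cf_w_lt
  rcases le_or_gt 0 (al' u) with h | h
  · rw [abs_of_nonneg h] at hab
    -- `al' u = 1 / al u ∈ (w⁻¹, w)`
    have h3 : al' u < w := by
      by_contra hc
      push Not at hc
      have : 1 < al u * al' u := by
        calc (1 : ℝ) = (w - 1) * w := by nlinarith [cf_w_sq]
          _ < al u * al' u := by
            apply mul_lt_mul h1 hc hw (by linarith)
      linarith
    have h4 : w - 1 < al' u := by
      by_contra hc
      push Not at hc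
      have h5 : al u * al' u ≤ al u * (w - 1) := mul_le_mul_of_nonneg_left hc hpos.le
      have h6 : al u * (w - 1) < w * (w - 1) := by
        apply mul_lt_mul_of_pos_right h2
        linarith [cf_w_one]
      have h7 : w * (w - 1) = 1 := by nlinarith [cf_w_sq]
      linarith
    have h5 : (u.2 : ℝ) * √5 < 1 := by rw [← hd]; linarith
    have h6 : -1 < (u.2 : ℝ) * √5 := by rw [← hd]; linarith
    have h7 : u.2 = 0 := by
      have h8 : (u.2 : ℝ) < 1 := by nlinarith
      have h9 : (-1 : ℝ) < u.2 := by nlinarith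
      have h8' : u.2 < 1 := by exact_mod_cast h8
      have h9' : -1 < u.2 := by exact_mod_cast h9
      omega
    have h8 : al u = u.1 := by simp [al, h7]
    have h9 : nm u = u.1 ^ 2 := by simp [nm, h7]
    rw [h9] at hu
    rw [h8] at hpos
    have hpos' : 0 < u.1 := by exact_mod_cast hpos
    have h10 : u.1.natAbs ^ 2 = 1 := by rw [← Int.natAbs_pow]; exact hu
    have h11 : u.1.natAbs = 1 := by
      rcases Nat.pow_eq_one.1 h10 with h | h
      · exact h
      · omega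
    refine Prod.ext ?_ h7
    show u.1 = 1
    omega
  · exfalso
    rw [abs_of_neg h] at hab
    -- `al u + 1 / al u ∈ [2, √5)`
    have h3 : 2 ≤ al u - al' u := by nlinarith [sq_nonneg (al u + al' u)]
    have h4 : al u - al' u < √5 := by
      rw [← cf_w_s5]
      by_contra hc
      push Not at hc
      have h5 : (al u - (w - 1)) * (al u - w) < 0 := by
        apply mul_neg_of_pos_of_neg <;> linarith
      have h6 : (2 * w - 1) * al u ≤ (al u - al' u) * al u := mul_le_mul_of_nonneg_right hc hpos.le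
      nlinarith [cf_w_sq]
    rw [hd] at h3 h4
    have h5 : (0 : ℝ) < u.2 := by
      by_contra hc
      push Not at hc
      nlinarith
    have h6 : (u.2 : ℝ) < 1 := by
      by_contra hc
      push Not at hc
      nlinarith
    have h5' : 0 < u.2 := by exact_mod_cast h5
    have h6' : u.2 < 1 := by exact_mod_cast h6
    omega

theorem cf_dm_ne {a : ℤ × ℤ} (h : Dm a) : a ≠ 0 := by
  rintro rfl
  have := h.1
  simp [al] at this

/-- two associated elements of the fundamental domain are equal -/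
theorem cf_dm_unique {a u : ℤ × ℤ} (ha : Dm a) (hu : (nm u).natAbs = 1) (hb : Dm (mulO u a)) :
    mulO u a = a := by
  have hw := cf_w_pos
  obtain ⟨a1, a2, a3⟩ := ha
  obtain ⟨b1, b2, b3⟩ := hb
  rw [cf_al_mul] at b1 b2 b3
  rw [cf_al'_mul, abs_mul] at b2 b3
  have hu1 : 0 < al u := by
    by_contra hc
    push Not at hc
    nlinarith
  have hab := cf_abs_al u
  rw [hu, Nat.cast_one, abs_of_pos hu1] at hab
  have hu' : |al' u| = (al u)⁻¹ := by
    field_simp
    linarith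
  rw [hu'] at b2 b3
  have ha' : 0 < |al' a| := by
    by_contra hc
    push Not at hc
    nlinarith [sq_nonneg w]
  -- `(al u)⁻¹ * x' ≤ al u * x`
  have c1 : |al' a| ≤ (al u) ^ 2 * al a := by
    have := mul_le_mul_of_nonneg_left b2 hu1.le
    rw [← mul_assoc, mul_inv_cancel₀ hu1.ne', one_mul] at this
    linarith [this, (by ring : al u * (al u * al a) = (al u) ^ 2 * al a)]
  have c2 : (al u) ^ 2 * al a < w ^ 2 * |al' a| := by
    have := mul_lt_mul_of_pos_left b3 hu1
    have e1 : al u * (w ^ 2 * ((al u)⁻¹ * |al' a|)) = w ^ 2 * |al' a| := by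
      field_simp
    rw [e1] at this
    linarith [this, (by ring : al u * (al u * al a) = (al u) ^ 2 * al a)]
  have d1 : (al u) ^ 2 < w ^ 2 := by
    by_contra hc
    push Not at hc
    have : w ^ 2 * al a ≤ (al u) ^ 2 * al a := mul_le_mul_of_nonneg_right hc a1.le
    have : w ^ 2 * |al' a| ≤ w ^ 2 * al a := mul_le_mul_of_nonneg_left a2 (by positivity)
    linarith
  have d2 : 1 < (al u) ^ 2 * w ^ 2 := by
    by_contra hc
    push Not at hc
    have e1 : (al u) ^ 2 * al a < (al u) ^ 2 * (w ^ 2 * |al' a|) :=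
      mul_lt_mul_of_pos_left a3 (by positivity)
    have e2 : (al u) ^ 2 * w ^ 2 * |al' a| ≤ 1 * |al' a| := mul_le_mul_of_nonneg_right hc ha'.le
    nlinarith
  have d3 : al u < w := lt_of_pow_lt_pow_left₀ 2 hw.le d1
  have d4 : w⁻¹ < al u := by
    rw [inv_lt_iff_one_lt_mul₀ hw]
    rw [← mul_pow] at d2
    by_contra hc
    push Not at hc
    have : 0 ≤ al u * w := by positivity
    nlinarith
  rw [cf_unit_one hu d4 d3, cf_one_mul]

/-! ### the sets of elements of given norm in the fundamental domain -/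

theorem cf_box {a : ℤ × ℤ} {n : ℕ} (h : Dm a) (hn : (nm a).natAbs = n) :
    |(a.1 : ℝ)| ≤ 3 * √n ∧ |(a.2 : ℝ)| ≤ 3 * √n := by
  have hw := cf_w_pos
  obtain ⟨a1, a2, a3⟩ := h
  have hab := cf_abs_al a
  rw [hn, abs_of_pos a1] at hab
  have hx2 : (al a) ^ 2 ≤ w ^ 2 * n := by
    rw [← hab]
    nlinarith
  have hx : al a ≤ w * √n := by
    have h1 : √((al a) ^ 2) ≤ √(w ^ 2 * n) := Real.sqrt_le_sqrt hx2
    rwa [Real.sqrt_sq a1.le, Real.sqrt_mul (by positivity), Real.sqrt_sq hw.le] at h1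
  have hn0 : 0 ≤ √(n : ℝ) := Real.sqrt_nonneg _
  have hwl := cf_w_lt
  have hx' : al a ≤ 1.6181 * √n := hx.trans (mul_le_mul_of_nonneg_right hwl hn0)
  have hy1 : al' a ≤ al a := (le_abs_self _).trans a2
  have hy2 : -(al a) ≤ al' a := by
    have := neg_abs_le (al' a)
    linarith
  have hd : al a - al' a = a.2 * √5 := by
    rw [← cf_w_s5]
    simp only [al, al']
    ring
  have he : al a + al' a = 2 * a.1 + a.2 := by
    simp only [al, al']
    ring
  have hs := cf_s5_gt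
  have g1 : |(a.2 : ℝ)| ≤ 1.5 * √n := by
    rw [abs_le]
    constructor
    · by_contra hc
      push Not at hc
      nlinarith
    · by_contra hc
      push Not at hc
      nlinarith
  constructor
  · rw [abs_le] at g1 ⊢
    constructor
    · linarith [g1.1, g1.2]
    · linarith [g1.1, g1.2]
  · linarith

/-- the box -/
noncomputable def cf_B (n : ℕ) : Finset (ℤ × ℤ) :=
  Finset.Icc (-⌊3 * √(n : ℝ)⌋) ⌊3 * √(n : ℝ)⌋ ×ˢ Finset.Icc (-⌊3 * √(n : ℝ)⌋) ⌊3 * √(n : ℝ)⌋

/-- the elements of norm `± n` of the fundamental domain -/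
noncomputable def cf_T (n : ℕ) : Finset (ℤ × ℤ) :=
  (cf_B n).filter (fun a => Dm a ∧ (nm a).natAbs = n)

theorem cf_mem_T {n : ℕ} {a : ℤ × ℤ} : a ∈ cf_T n ↔ Dm a ∧ (nm a).natAbs = n := by
  unfold cf_T
  rw [Finset.mem_filter]
  constructor
  · exact fun h => h.2
  · intro h
    refine ⟨?_, h⟩
    obtain ⟨h1, h2⟩ := cf_box h.1 h.2
    unfold cf_B
    rw [Finset.mem_product, Finset.mem_Icc, Finset.mem_Icc]
    rw [abs_le] at h1 h2
    refine ⟨⟨?_, ?_⟩, ⟨?_, ?_⟩⟩
    · rw [neg_le, Int.le_floor]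
      push_cast
      linarith [h1.1]
    · rw [Int.le_floor]
      exact h1.2
    · rw [neg_le, Int.le_floor]
      push_cast
      linarith [h2.1]
    · rw [Int.le_floor]
      exact h2.2

theorem cf_aa (n : ℕ) : aa n = ∑ a ∈ cf_T n, ps a := by
  unfold aa
  rw [finsum_eq_finsetSum_of_support_subset (s := cf_T n)]
  · refine Finset.sum_congr rfl (fun a ha => ?_)
    rw [if_pos (cf_mem_T.1 ha)]
  · intro a ha
    rw [Function.mem_support] at ha
    by_contra hc
    apply ha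
    rw [if_neg]
    intro h
    exact hc (Finset.mem_coe.2 (cf_mem_T.2 h))

theorem cf_card (n : ℕ) (hn : 1 ≤ n) : ((cf_T n).card : ℝ) ≤ 49 * n := by
  have h1 : (cf_T n).card ≤ (cf_B n).card := Finset.card_filter_le _ _
  have hn1 : (1 : ℝ) ≤ n := by exact_mod_cast hn
  have hs1 : 1 ≤ √(n : ℝ) := by rw [Real.one_le_sqrt]; exact hn1
  have hfl : (⌊3 * √(n : ℝ)⌋ : ℝ) ≤ 3 * √n := Int.floor_le _
  have hfl0 : 0 ≤ ⌊3 * √(n : ℝ)⌋ := Int.floor_nonneg.2 (by positivity)
  have h2 : ((cf_B n).card : ℝ) = (2 * (⌊3 * √(n : ℝ)⌋ : ℝ) + 1) ^ 2 := by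
    unfold cf_B
    rw [Finset.card_product, Int.card_Icc]
    push_cast
    have h3 : ((⌊3 * √(n : ℝ)⌋ + 1 - -⌊3 * √(n : ℝ)⌋).toNat : ℝ) =
        2 * (⌊3 * √(n : ℝ)⌋ : ℝ) + 1 := by
      have h4 : ((⌊3 * √(n : ℝ)⌋ + 1 - -⌊3 * √(n : ℝ)⌋).toNat : ℤ) =
          2 * ⌊3 * √(n : ℝ)⌋ + 1 := by
        rw [Int.toNat_of_nonneg (by omega)]
        ring
      exact_mod_cast h4
    rw [h3]
    ring
  have h3 : ((cf_T n).card : ℝ) ≤ (cf_B n).card := by exact_mod_cast h1
  have h5 : (⌊3 * √(n : ℝ)⌋ : ℝ) ≥ 0 := by exact_mod_cast hfl0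
  have h6 : (2 * (⌊3 * √(n : ℝ)⌋ : ℝ) + 1) ≤ 7 * √n := by linarith
  have h7 : (2 * (⌊3 * √(n : ℝ)⌋ : ℝ) + 1) ^ 2 ≤ (7 * √n) ^ 2 :=
    pow_le_pow_left₀ (by linarith) h6 2
  rw [mul_pow, Real.sq_sqrt (by positivity)] at h7
  linarith

theorem cf_T_zero : cf_T 0 = ∅ := by
  rw [Finset.eq_empty_iff_forall_notMem]
  intro a ha
  rw [cf_mem_T] at ha
  exact cf_nm_ne (cf_dm_ne ha.1) (Int.natAbs_eq_zero.1 ha.2)

theorem cf_dm_one : Dm (1, 0) := by
  refine ⟨?_, ?_, ?_⟩
  · simp [al]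
  · simp [al, al']
  · simp only [al, al']
    have := cf_w_one
    push_cast
    simp only [zero_mul, add_zero, abs_one, mul_one]
    nlinarith

theorem cf_T_one : cf_T 1 = {(1, 0)} := by
  ext a
  rw [cf_mem_T, Finset.mem_singleton]
  constructor
  · rintro ⟨h1, h2⟩
    have h3 : mulO a (1, 0) = a := by rw [cf_mul_comm, cf_one_mul]
    have := cf_dm_unique cf_dm_one h2 (by rw [h3]; exact h1)
    rw [h3] at this
    exact this
  · rintro rfl
    exact ⟨cf_dm_one, by simp [nm]⟩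

/-- divisibility -/
def cf_dv (c a : ℤ × ℤ) : Prop := ∃ b, a = mulO c b

/-- the sum over the elements divisible by `c` -/
theorem cf_transfer {c : ℤ × ℤ} (hc : c ≠ 0) (n : ℕ) :
    ∑ a ∈ (cf_T ((nm c).natAbs * n)).filter (cf_dv c), ps a = ps c * aa n := by
  rw [cf_aa, Finset.mul_sum]
  symm
  have hq : 0 < (nm c).natAbs := Int.natAbs_pos.2 (cf_nm_ne hc)
  have hred : ∀ a ∈ cf_T n, ∃ u : ℤ × ℤ, u ≠ 0 ∧ (nm u).natAbs = 1 ∧ ps u = 1 ∧
      Dm (mulO u (mulO c a)) := fun a ha =>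
    cf_red (cf_mul_ne hc (cf_dm_ne (cf_mem_T.1 ha).1))
  choose! u hu0 hu1 hu2 hu3 using hred
  refine Finset.sum_bij (fun a _ => mulO (u a) (mulO c a)) ?_ ?_ ?_ ?_
  · intro a ha
    rw [Finset.mem_filter, cf_mem_T]
    refine ⟨⟨hu3 a ha, ?_⟩, mulO (u a) a, ?_⟩
    · rw [cf_nm_mul, cf_nm_mul, Int.natAbs_mul, Int.natAbs_mul, hu1 a ha, one_mul,
        (cf_mem_T.1 ha).2]
    · rw [← cf_mul_assoc, cf_mul_comm (u a) c, cf_mul_assoc]
  · intro a ha b hb hab
    have hab' : mulO (u a) (mulO c a) = mulO (u b) (mulO c b) := hab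
    have h1 : mulO c (mulO (u a) a) = mulO c (mulO (u b) b) := by
      rw [← cf_mul_assoc, ← cf_mul_assoc, cf_mul_comm c, cf_mul_comm c, cf_mul_assoc,
        cf_mul_assoc]
      exact hab'
    have h2 := cf_cancel hc h1
    -- multiply by the conjugate of `u b`
    have h3 := congrArg (mulO (conjO (u b))) h2
    rw [cf_conj_mul] at h3
    have hub := hu1 b hb
    rcases Int.natAbs_eq (nm (u b)) with h4 | h4
    · rw [hub, Nat.cast_one] at h4
      rw [h4, one_mul, one_mul] at h3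
      have h5 : b = mulO (mulO (conjO (u b)) (u a)) a := by
        rw [cf_mul_assoc]
        exact h3.symm
      have h6 : (nm (mulO (conjO (u b)) (u a))).natAbs = 1 := by
        rw [cf_nm_mul, Int.natAbs_mul, cf_nm_conj, hub, hu1 a ha]
      have h7 := cf_dm_unique (cf_mem_T.1 ha).1 h6 (by rw [← h5]; exact (cf_mem_T.1 hb).1)
      rw [← h5] at h7
      exact h7.symm
    · rw [hub, Nat.cast_one] at h4
      rw [h4] at h3
      have h5 : b = mulO (mulO (-1, 0) (mulO (conjO (u b)) (u a))) a := by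
        rw [cf_mul_assoc, cf_mul_assoc, h3]
        simp only [mulO]
        refine Prod.ext ?_ ?_
        · show b.1 = _
          ring
        · show b.2 = _
          ring
      have h6 : (nm (mulO (-1, 0) (mulO (conjO (u b)) (u a)))).natAbs = 1 := by
        rw [cf_nm_mul, cf_nm_mul, Int.natAbs_mul, Int.natAbs_mul, cf_nm_conj, hub, hu1 a ha]
        simp [nm]
      have h7 := cf_dm_unique (cf_mem_T.1 ha).1 h6 (by rw [← h5]; exact (cf_mem_T.1 hb).1)
      rw [← h5] at h7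
      exact h7.symm
  · intro a ha
    rw [Finset.mem_filter, cf_mem_T] at ha
    obtain ⟨⟨ha1, ha2⟩, b, rfl⟩ := ha
    have hb0 : b ≠ 0 := by
      rintro rfl
      apply cf_dm_ne ha1
      simp [mulO]
    obtain ⟨v, hv0, hv1, hv2, hv3⟩ := cf_red hb0
    have hbT : mulO v b ∈ cf_T n := by
      rw [cf_mem_T]
      refine ⟨hv3, ?_⟩
      rw [cf_nm_mul, Int.natAbs_mul] at ha2 ⊢
      rw [hv1, one_mul]
      exact Nat.eq_of_mul_eq_mul_left hq ha2
    refine ⟨mulO v b, hbT, ?_⟩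
    have h1 : mulO (u (mulO v b)) (mulO c (mulO v b)) = mulO (mulO (u (mulO v b)) v) (mulO c b) := by
      rw [cf_mul_assoc, ← cf_mul_assoc v c b, cf_mul_comm v c, cf_mul_assoc c v b]
    have h2 : (nm (mulO (u (mulO v b)) v)).natAbs = 1 := by
      rw [cf_nm_mul, Int.natAbs_mul, hu1 _ hbT, hv1]
    rw [h1]
    exact cf_dm_unique ha1 h2 (by rw [← h1]; exact hu3 _ hbT)
  · intro a ha
    have ha0 := cf_dm_ne (cf_mem_T.1 ha).1
    rw [cf_ps_mul (hu0 a ha) (cf_mul_ne hc ha0), cf_ps_mul hc ha0, hu2 a ha, one_mul]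

/-! ### congruences -/

theorem cf_mod5 (n : ℕ) (h1 : n % 5 ≠ 1) (h4 : n % 5 ≠ 4) : aa n = 0 := by
  rw [cf_aa]
  refine Finset.sum_eq_zero (fun a ha => ?_)
  rw [cf_mem_T] at ha
  have hn := ha.2
  have key : ((a.1 + 3 * a.2 : ℤ) : ZMod 5) = 0 := by
    by_contra hne
    have e1 : ((nm a : ℤ) : ZMod 5) = ((a.1 + 3 * a.2 : ℤ) : ZMod 5) ^ 2 := by
      have e2 : nm a = (a.1 + 3 * a.2) ^ 2 - 5 * (a.1 * a.2 + 2 * a.2 ^ 2) := by
        unfold nm
        ring
      rw [e2]
      push_cast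
      have e3 : (5 : ZMod 5) = 0 := by decide
      rw [e3]
      ring
    have e4 : ∀ x : ZMod 5, x ≠ 0 → x ^ 2 = 1 ∨ x ^ 2 = 4 := by decide
    have e5 := e4 _ hne
    rw [← e1] at e5
    have e6 : (n : ZMod 5) = 1 ∨ (n : ZMod 5) = 4 := by
      rcases Int.natAbs_eq (nm a) with h | h
      · rw [hn] at h
        rw [h] at e5
        simpa using e5
      · rw [hn] at h
        rw [h] at e5
        push_cast at e5
        rcases e5 with h5 | h5
        · right
          have : (n : ZMod 5) = -1 := by rw [← h5]; ring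
          rw [this]
          decide
        · left
          have : (n : ZMod 5) = -4 := by rw [← h5]; ring
          rw [this]
          decide
    rcases e6 with h | h
    · apply h1
      have := (ZMod.natCast_eq_natCast_iff' n 1 5).1 (by simpa using h)
      omega
    · apply h4
      have := (ZMod.natCast_eq_natCast_iff' n 4 5).1 (by simpa using h)
      omega
  have h5 : (a.1 + 3 * a.2) % 5 = 0 := by
    have := (ZMod.intCast_zmod_eq_zero_iff_dvd (a.1 + 3 * a.2) 5).1 key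
    exact Int.emod_eq_zero_of_dvd (by exact_mod_cast this)
  have h6 : ch a = 0 := by
    unfold ch
    rw [jacobiSym.mod_left]
    have : (a.1 + 3 * a.2) % ((5 : ℕ) : ℤ) = 0 := by exact_mod_cast h5
    rw [this]
    norm_num
  unfold ps
  rw [h6]
  simp

/-- `p` divides `c` when both components are divisible -/
theorem cf_dvp {p : ℕ} (c : ℤ × ℤ) : cf_dv ((p : ℤ), 0) c ↔ (p : ℤ) ∣ c.1 ∧ (p : ℤ) ∣ c.2 := by
  constructor
  · rintro ⟨b, rfl⟩
    simp only [mulO]
    exact ⟨⟨b.1, by ring⟩, ⟨b.2, by ring⟩⟩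
  · rintro ⟨⟨x, hx⟩, ⟨y, hy⟩⟩
    refine ⟨(x, y), ?_⟩
    simp only [mulO]
    refine Prod.ext ?_ ?_
    · show c.1 = _
      rw [hx]
      ring
    · show c.2 = _
      rw [hy]
      ring

theorem cf_E {p : ℕ} (hp : p.Prime) (n : ℕ) :
    ∑ a ∈ (cf_T (p * n)).filter (cf_dv ((p : ℤ), 0)), ps a =
      (jacobiSym p 5 : ℂ) * if p ∣ n then aa (n / p) else 0 := by
  have hp0 : (p : ℤ) ≠ 0 := by exact_mod_cast hp.ne_zero
  have hpne : ((p : ℤ), (0 : ℤ)) ≠ (0 : ℤ × ℤ) := by
    intro h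
    exact hp0 (congrArg Prod.fst h)
  have hnm : (nm ((p : ℤ), 0)).natAbs = p * p := by
    have : nm ((p : ℤ), 0) = ((p * p : ℕ) : ℤ) := by
      simp only [nm]
      push_cast
      ring
    rw [this, Int.natAbs_natCast]
  split_ifs with h
  · obtain ⟨n', rfl⟩ := h
    have h1 := cf_transfer hpne n'
    rw [hnm, mul_assoc] at h1
    rw [h1, cf_ps_int _ hp0, Nat.mul_div_cancel_left _ hp.pos]
  · rw [mul_zero]
    have : (cf_T (p * n)).filter (cf_dv ((p : ℤ), 0)) = ∅ := by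
      rw [Finset.filter_eq_empty_iff]
      rintro c hc ⟨b, rfl⟩
      apply h
      rw [cf_mem_T] at hc
      have h1 := hc.2
      rw [cf_nm_mul, Int.natAbs_mul, hnm, mul_assoc] at h1
      have h2 := Nat.eq_of_mul_eq_mul_left hp.pos h1
      exact ⟨_, h2.symm⟩
    rw [this, Finset.sum_empty]

theorem cf_nm_mod {p : ℕ} (c : ℤ × ℤ) (r : ZMod p) (hr : r * r = r + 1) :
    ((nm c : ℤ) : ZMod p) = ((c.1 : ZMod p) + c.2 * r) * ((c.1 : ZMod p) + c.2 * (1 - r)) := by
  simp only [nm]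
  push_cast
  linear_combination (c.2 : ZMod p) ^ 2 * hr

/-- the prime elements above a split prime -/
theorem cf_dv_iff {p : ℕ} [Fact p.Prime] {c0 : ℤ × ℤ} (hc0 : (nm c0).natAbs = p) (r : ZMod p)
    (hr : r * r = r + 1) (h0 : (c0.1 : ZMod p) + c0.2 * r = 0) (c : ℤ × ℤ) :
    cf_dv c0 c ↔ (c.1 : ZMod p) + c.2 * r = 0 := by
  constructor
  · rintro ⟨b, rfl⟩
    simp only [mulO]
    push_cast
    linear_combination ((b.1 : ZMod p) + b.2 * r) * h0 - (c0.2 : ZMod p) * b.2 * hr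
  · intro h
    have hp0 : (p : ℤ) ≠ 0 := by exact_mod_cast (Fact.out : p.Prime).ne_zero
    have k1 : (p : ℤ) ∣ (mulO (conjO c0) c).1 := by
      rw [← ZMod.intCast_zmod_eq_zero_iff_dvd]
      simp only [mulO, conjO]
      push_cast
      linear_combination ((c0.1 : ZMod p) + c0.2) * h - (c.2 : ZMod p) * r * h0 +
        (c.2 : ZMod p) * c0.2 * hr
    have k2 : (p : ℤ) ∣ (mulO (conjO c0) c).2 := by
      rw [← ZMod.intCast_zmod_eq_zero_iff_dvd]
      simp only [mulO, conjO]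
      push_cast
      linear_combination (c.2 : ZMod p) * h0 - (c0.2 : ZMod p) * h
    obtain ⟨x, hx⟩ := k1
    obtain ⟨y, hy⟩ := k2
    have h3 : mulO c0 (mulO (conjO c0) c) = (nm c0 * c.1, nm c0 * c.2) := by
      have h4 := cf_conj_mul (conjO c0) c
      have h5 : conjO (conjO c0) = c0 := by
        simp only [conjO]
        refine Prod.ext ?_ ?_
        · show _ = c0.1
          ring
        · show _ = c0.2
          ring
      rw [h5, cf_nm_conj] at h4
      exact h4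
    have h4 : mulO (conjO c0) c = mulO ((p : ℤ), 0) (x, y) := by
      simp only [mulO] at hx hy ⊢
      refine Prod.ext ?_ ?_
      · show _ = _
        rw [hx]
        ring
      · show _ = _
        rw [hy]
        ring
    rw [h4] at h3
    have h5 : mulO c0 (mulO ((p : ℤ), 0) (x, y)) = (p * (mulO c0 (x, y)).1,
        p * (mulO c0 (x, y)).2) := by
      simp only [mulO]
      refine Prod.ext ?_ ?_
      · show _ = _
        ring
      · show _ = _
        ring
    rw [h5] at h3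
    have e1 : p * (mulO c0 (x, y)).1 = nm c0 * c.1 := congrArg Prod.fst h3
    have e2 : p * (mulO c0 (x, y)).2 = nm c0 * c.2 := congrArg Prod.snd h3
    rcases Int.natAbs_eq (nm c0) with h6 | h6
    · rw [hc0] at h6
      rw [h6] at e1 e2
      refine ⟨(x, y), ?_⟩
      exact Prod.ext (mul_left_cancel₀ hp0 e1).symm (mul_left_cancel₀ hp0 e2).symm
    · rw [hc0] at h6
      rw [h6] at e1 e2
      have e1' : (mulO c0 (x, y)).1 = -c.1 := by
        apply mul_left_cancel₀ hp0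
        rw [e1]
        ring
      have e2' : (mulO c0 (x, y)).2 = -c.2 := by
        apply mul_left_cancel₀ hp0
        rw [e2]
        ring
      refine ⟨(-x, -y), ?_⟩
      refine Prod.ext ?_ ?_
      · have : (mulO c0 (-x, -y)).1 = -(mulO c0 (x, y)).1 := by
          simp only [mulO]
          ring
        rw [this, e1']
        ring
      · have : (mulO c0 (-x, -y)).2 = -(mulO c0 (x, y)).2 := by
          simp only [mulO]
          ring
        rw [this, e2']
        ring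

/-- existence of an element of norm `± p` -/
theorem cf_exists {p : ℕ} [Fact p.Prime] (r : ZMod p) (hr : r * r = r + 1) :
    ∃ c : ℤ × ℤ, (nm c).natAbs = p ∧ (c.1 : ZMod p) + c.2 * r = 0 := by
  have hp : p.Prime := Fact.out
  have hcard : Fintype.card (ZMod p) <
      Fintype.card (Fin (Nat.sqrt p + 1) × Fin (Nat.sqrt p + 1)) := by
    rw [ZMod.card, Fintype.card_prod, Fintype.card_fin]
    exact Nat.lt_succ_sqrt p
  obtain ⟨i, j, hij, hf⟩ := Fintype.exists_ne_map_eq_of_card_lt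
    (fun i : Fin (Nat.sqrt p + 1) × Fin (Nat.sqrt p + 1) =>
      ((i.1 : ℕ) : ZMod p) + ((i.2 : ℕ) : ZMod p) * r) hcard
  have hi1 := i.1.2
  have hi2 := i.2.2
  have hj1 := j.1.2
  have hj2 := j.2.2
  set m : ℤ := ((i.1 : ℕ) : ℤ) - ((j.1 : ℕ) : ℤ) with hm
  set k : ℤ := ((i.2 : ℕ) : ℤ) - ((j.2 : ℕ) : ℤ) with hk
  have hs : ((Nat.sqrt p : ℕ) : ℤ) ^ 2 ≤ p := by
    have := Nat.sqrt_le' p
    exact_mod_cast this
  have hm1 : -(Nat.sqrt p : ℤ) ≤ m := by omega
  have hm2 : m ≤ (Nat.sqrt p : ℤ) := by omega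
  have hk1 : -(Nat.sqrt p : ℤ) ≤ k := by omega
  have hk2 : k ≤ (Nat.sqrt p : ℤ) := by omega
  have hm3 : m ^ 2 ≤ p := by nlinarith
  have hk3 : k ^ 2 ≤ p := by nlinarith
  have h0 : ((m : ℤ) : ZMod p) + (k : ℤ) * r = 0 := by
    have hf' : ((i.1 : ℕ) : ZMod p) + ((i.2 : ℕ) : ZMod p) * r =
      ((j.1 : ℕ) : ZMod p) + ((j.2 : ℕ) : ZMod p) * r := hf
    rw [hm, hk]
    push_cast
    linear_combination hf'
  have hne : ((m, k) : ℤ × ℤ) ≠ 0 := by
    intro h
    have h1 : m = 0 := congrArg Prod.fst h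
    have h2 : k = 0 := congrArg Prod.snd h
    apply hij
    refine Prod.ext (Fin.ext ?_) (Fin.ext ?_)
    · omega
    · omega
  refine ⟨(m, k), ?_, h0⟩
  have h1 : ((nm (m, k) : ℤ) : ZMod p) = 0 := by
    rw [cf_nm_mod _ r hr]
    show (((m : ℤ) : ZMod p) + (k : ℤ) * r) * _ = 0
    rw [h0, zero_mul]
  have h2 : (p : ℤ) ∣ nm (m, k) := (ZMod.intCast_zmod_eq_zero_iff_dvd _ p).1 h1
  have h3 := cf_nm_ne hne
  have h4 : nm (m, k) = m ^ 2 + m * k - k ^ 2 := rfl
  have hp0 : (0 : ℤ) < p := by exact_mod_cast hp.pos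
  have h5 : nm (m, k) < 2 * p := by
    rw [h4]
    nlinarith [sq_nonneg (m - 2 * k)]
  have h6 : -(2 * p : ℤ) < nm (m, k) := by
    rw [h4]
    nlinarith [sq_nonneg (k + 2 * m)]
  obtain ⟨q, hq⟩ := h2
  rw [hq] at h5 h6 h3 ⊢
  have h7 : q < 2 := by nlinarith
  have h8 : -2 < q := by nlinarith
  have h9 : q ≠ 0 := by
    rintro rfl
    simp at h3
  have h10 : q = 1 ∨ q = -1 := by omega
  rcases h10 with rfl | rfl
  · simp
  · simp

theorem cf_sq_iff {p : ℕ} [Fact p.Prime] (h2 : p ≠ 2) :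
    IsSquare ((p : ℕ) : ZMod 5) ↔ IsSquare (5 : ZMod p) := by
  have : Fact (Nat.Prime 5) := ⟨by norm_num⟩
  have := ZMod.exists_sq_eq_prime_iff_of_mod_four_eq_one (p := 5) (q := p) (by norm_num) h2
  exact_mod_cast this

theorem cf_dec2 : ∀ x y : ZMod 2, x ^ 2 + x * y - y ^ 2 = 0 → x = 0 ∧ y = 0 := by decide

/-- inert primes -/
theorem cf_inert {p : ℕ} (hp : p.Prime) (h5 : p % 5 = 2 ∨ p % 5 = 3) (c : ℤ × ℤ)
    (h : (p : ℤ) ∣ nm c) : cf_dv ((p : ℤ), 0) c := by
  have : Fact p.Prime := ⟨hp⟩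
  rw [cf_dvp]
  have h1 : ((nm c : ℤ) : ZMod p) = 0 := (ZMod.intCast_zmod_eq_zero_iff_dvd _ p).2 h
  have h2 : (c.1 : ZMod p) ^ 2 + c.1 * c.2 - (c.2 : ZMod p) ^ 2 = 0 := by
    simp only [nm] at h1
    push_cast at h1
    exact h1
  suffices hh : (c.1 : ZMod p) = 0 ∧ (c.2 : ZMod p) = 0 by
    exact ⟨(ZMod.intCast_zmod_eq_zero_iff_dvd _ p).1 hh.1,
      (ZMod.intCast_zmod_eq_zero_iff_dvd _ p).1 hh.2⟩
  by_cases hp2 : p = 2
  · subst hp2
    exact cf_dec2 _ _ h2
  · have hns : ¬ IsSquare (5 : ZMod p) := by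
      rw [← cf_sq_iff hp2]
      have h6 : ((p : ℕ) : ZMod 5) = 2 ∨ ((p : ℕ) : ZMod 5) = 3 := by
        rcases h5 with h | h
        · left
          have := (ZMod.natCast_eq_natCast_iff' p 2 5).2 (by omega)
          simpa using this
        · right
          have := (ZMod.natCast_eq_natCast_iff' p 3 5).2 (by omega)
          simpa using this
      have k2 : ¬ IsSquare (2 : ZMod 5) := by decide
      have k3 : ¬ IsSquare (3 : ZMod 5) := by decide
      rcases h6 with h | h <;> rw [h] <;> assumption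
    have hy : (c.2 : ZMod p) = 0 := by
      by_contra hy
      apply hns
      refine ⟨(2 * c.1 + c.2) / c.2, ?_⟩
      rw [div_mul_div_comm, eq_div_iff (mul_ne_zero hy hy)]
      linear_combination (-4 : ZMod p) * h2
    refine ⟨?_, hy⟩
    rw [hy] at h2
    have : (c.1 : ZMod p) ^ 2 = 0 := by linear_combination h2
    exact pow_eq_zero_iff (two_ne_zero) |>.1 this

theorem cf_root {p : ℕ} [Fact p.Prime] (h5 : p % 5 = 1 ∨ p % 5 = 4) :
    ∃ r : ZMod p, r * r = r + 1 := by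
  have hp2 : p ≠ 2 := by
    rintro rfl
    omega
  have hs : IsSquare (5 : ZMod p) := by
    rw [← cf_sq_iff hp2]
    have h6 : ((p : ℕ) : ZMod 5) = 1 ∨ ((p : ℕ) : ZMod 5) = 4 := by
      rcases h5 with h | h
      · left
        have := (ZMod.natCast_eq_natCast_iff' p 1 5).2 (by omega)
        simpa using this
      · right
        have := (ZMod.natCast_eq_natCast_iff' p 4 5).2 (by omega)
        simpa using this
    rcases h6 with h | h
    · rw [h]
      exact ⟨1, by decide⟩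
    · rw [h]
      exact ⟨2, by decide⟩
  obtain ⟨y, hy⟩ := hs
  have h2 : (2 : ZMod p) ≠ 0 := by
    intro h
    have h3 : ((2 : ℕ) : ZMod p) = 0 := by exact_mod_cast h
    rw [ZMod.natCast_eq_zero_iff] at h3
    have := (Nat.prime_dvd_prime_iff_eq (Fact.out) Nat.prime_two).1 h3
    exact hp2 this
  refine ⟨(1 + y) / 2, ?_⟩
  field_simp
  linear_combination -hy

/-- split primes -/
theorem cf_split {p : ℕ} (hp : p.Prime) (h5 : p % 5 = 1 ∨ p % 5 = 4) :
    ∃ s : ℂ, ∀ n : ℕ, 0 < n → aa (p * n) = s * aa n - if p ∣ n then aa (n / p) else 0 := by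
  have : Fact p.Prime := ⟨hp⟩
  obtain ⟨r, hr⟩ := cf_root h5
  obtain ⟨c0, hc0, h0⟩ := cf_exists r hr
  have hr' : (1 - r) * (1 - r) = (1 - r) + 1 := by linear_combination hr
  have hc0' : (nm (conjO c0)).natAbs = p := by rw [cf_nm_conj, hc0]
  have h0' : ((conjO c0).1 : ZMod p) + (conjO c0).2 * (1 - r) = 0 := by
    simp only [conjO]
    push_cast
    linear_combination h0
  have hne : c0 ≠ 0 := by
    rintro rfl
    have : nm (0 : ℤ × ℤ) = 0 := by simp [nm]
    rw [this] at hc0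
    exact hp.ne_zero hc0.symm
  have hp5 : (5 : ZMod p) ≠ 0 := by
    intro h
    have h3 : ((5 : ℕ) : ZMod p) = 0 := by exact_mod_cast h
    rw [ZMod.natCast_eq_zero_iff] at h3
    have := (Nat.prime_dvd_prime_iff_eq hp (by norm_num)).1 h3
    omega
  have hj : jacobiSym p 5 = 1 := by
    rw [jacobiSym.mod_left]
    rcases h5 with h | h
    · have : (p : ℤ) % ((5 : ℕ) : ℤ) = 1 := by omega
      rw [this]
      norm_num
    · have : (p : ℤ) % ((5 : ℕ) : ℤ) = 4 := by omega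
      rw [this]
      norm_num
  refine ⟨ps c0 + ps (conjO c0), fun n hn => ?_⟩
  have t1 := cf_transfer hne n
  have t2 := cf_transfer (cf_conj_ne hne) n
  rw [hc0] at t1
  rw [hc0'] at t2
  have t3 := cf_E hp n
  rw [hj, Int.cast_one, one_mul] at t3
  have hunion : (cf_T (p * n)).filter (cf_dv c0) ∪ (cf_T (p * n)).filter (cf_dv (conjO c0)) =
      cf_T (p * n) := by
    rw [← Finset.filter_or, Finset.filter_eq_self]
    intro c hc
    rw [cf_mem_T] at hc
    have h1 : ((nm c : ℤ) : ZMod p) = 0 := by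
      rw [ZMod.intCast_zmod_eq_zero_iff_dvd]
      rw [← Int.dvd_natAbs, hc.2]
      push_cast
      exact Dvd.intro _ rfl
    rw [cf_nm_mod c r hr] at h1
    rcases mul_eq_zero.1 h1 with h | h
    · left
      exact (cf_dv_iff hc0 r hr h0 c).2 h
    · right
      exact (cf_dv_iff hc0' (1 - r) hr' h0' c).2 h
  have hinter : (cf_T (p * n)).filter (cf_dv c0) ∩ (cf_T (p * n)).filter (cf_dv (conjO c0)) =
      (cf_T (p * n)).filter (cf_dv ((p : ℤ), 0)) := by
    rw [← Finset.filter_and]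
    refine Finset.filter_congr (fun c _ => ?_)
    rw [cf_dv_iff hc0 r hr h0 c, cf_dv_iff hc0' (1 - r) hr' h0' c, cf_dvp]
    constructor
    · rintro ⟨e1, e2⟩
      have e3 : (c.2 : ZMod p) * (2 * r - 1) = 0 := by linear_combination e1 - e2
      have e4 : (2 * r - 1) ≠ 0 := by
        intro h
        apply hp5
        linear_combination (2 * r - 1) * h - 4 * hr
      have e5 : (c.2 : ZMod p) = 0 := by
        rcases mul_eq_zero.1 e3 with h | h
        · exact h
        · exact absurd h e4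
      have e6 : (c.1 : ZMod p) = 0 := by
        rw [e5, zero_mul, add_zero] at e1
        exact e1
      exact ⟨(ZMod.intCast_zmod_eq_zero_iff_dvd _ p).1 e6,
        (ZMod.intCast_zmod_eq_zero_iff_dvd _ p).1 e5⟩
    · rintro ⟨e1, e2⟩
      have e1' := (ZMod.intCast_zmod_eq_zero_iff_dvd _ p).2 e1
      have e2' := (ZMod.intCast_zmod_eq_zero_iff_dvd _ p).2 e2
      rw [e1', e2']
      simp
  have hsum := Finset.sum_union_inter (s₁ := (cf_T (p * n)).filter (cf_dv c0))
    (s₂ := (cf_T (p * n)).filter (cf_dv (conjO c0))) (f := ps)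
  rw [hunion, hinter, t1, t2, t3, ← cf_aa] at hsum
  linear_combination hsum

theorem t_COEF : S_COEF := by
  have haa1 : aa 1 = 1 := by
    rw [cf_aa, cf_T_one, Finset.sum_singleton, cf_ps_one]
  refine ⟨?_, haa1, cf_mod5, ⟨49, ?_⟩, ?_⟩
  · rw [cf_aa, cf_T_zero, Finset.sum_empty]
  · intro n
    rcases Nat.eq_zero_or_pos n with rfl | hn
    · rw [cf_aa, cf_T_zero, Finset.sum_empty]
      simp
    · rw [cf_aa]
      calc ‖∑ a ∈ cf_T n, ps a‖ ≤ ∑ a ∈ cf_T n, ‖ps a‖ := norm_sum_le _ _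
        _ ≤ ∑ _a ∈ cf_T n, (1 : ℝ) := Finset.sum_le_sum (fun a _ => cf_ps_norm a)
        _ = (cf_T n).card := by simp
        _ ≤ 49 * n := cf_card n hn
  · intro p hp hp5 n hn
    have h5 : p % 5 ≠ 0 := by
      intro h
      have h1 : 5 ∣ p := Nat.dvd_of_mod_eq_zero h
      exact hp5 ((Nat.prime_dvd_prime_iff_eq (by norm_num) hp).1 h1).symm
    by_cases h14 : p % 5 = 1 ∨ p % 5 = 4
    · obtain ⟨s, hs⟩ := cf_split hp h14
      have h1 := hs 1 one_pos
      rw [mul_one, haa1, mul_one, if_neg (fun h => hp.one_lt.ne' (Nat.dvd_one.1 h)),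
        sub_zero] at h1
      rw [h1, hs n hn]
      ring
    · have h23 : p % 5 = 2 ∨ p % 5 = 3 := by omega
      have hj : jacobiSym p 5 = -1 := by
        rw [jacobiSym.mod_left]
        rcases h23 with h | h
        · have : (p : ℤ) % ((5 : ℕ) : ℤ) = 2 := by omega
          rw [this]
          norm_num
        · have : (p : ℤ) % ((5 : ℕ) : ℤ) = 3 := by omega
          rw [this]
          norm_num
      have hall : ∀ m : ℕ, aa (p * m) = -(if p ∣ m then aa (m / p) else 0) := by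
        intro m
        have t3 := cf_E hp m
        rw [hj] at t3
        have : (cf_T (p * m)).filter (cf_dv ((p : ℤ), 0)) = cf_T (p * m) := by
          rw [Finset.filter_eq_self]
          intro c hc
          rw [cf_mem_T] at hc
          refine cf_inert hp h23 c ?_
          rw [← Int.dvd_natAbs, hc.2]
          push_cast
          exact Dvd.intro _ rfl
        rw [this, ← cf_aa] at t3
        rw [t3]
        push_cast
        ring
      have h1 := hall 1
      rw [mul_one, if_neg (fun h => hp.one_lt.ne' (Nat.dvd_one.1 h)), neg_zero] at h1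
      rw [h1, hall n]
      ring

end Pool.Agent.H757M

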