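import Pool.Agent.H757M.Stm

set_option autoImplicit false

namespace Pool.Agent.H757M

open Real MeasureTheory UpperHalfPlane
open scoped MatrixGroups Classical

theorem cu_w : w = Real.goldenRatio := rfl

theorem cu_w' : 1 - w = Real.goldenConj := by
  rw [cu_w]; unfold Real.goldenRatio Real.goldenConj; ring

theorem cu_w_pos : 0 < w := by rw [cu_w]; exact Real.goldenRatio_pos

theorem cu_one_lt_w : 1 < w := by rw [cu_w]; exact Real.one_lt_goldenRatio

theorem cu_one_lt_w2 : 1 < w ^ 2 := by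
  have := cu_one_lt_w
  nlinarith

theorem cu_irr (x : ℝ) (hx : Irrational x) (a : ℤ × ℤ) (h : a ≠ 0) : (a.1 : ℝ) + a.2 * x ≠ 0 := by
  intro h0
  by_cases h2 : a.2 = 0
  · rw [h2] at h0
    simp at h0
    apply h
    exact Prod.ext h0 h2
  · apply hx
    refine ⟨-(a.1 : ℚ) / a.2, ?_⟩
    have h2' : (a.2 : ℝ) ≠ 0 := by exact_mod_cast h2
    push_cast
    field_simp
    linarith

theorem cu_al_ne (a : ℤ × ℤ) (h : a ≠ 0) : al a ≠ 0 := by
  unfold al
  exact cu_irr w (by rw [cu_w]; exact Real.goldenRatio_irrational) a h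

theorem cu_al'_ne (a : ℤ × ℤ) (h : a ≠ 0) : al' a ≠ 0 := by
  unfold al'
  exact cu_irr (1 - w) (by rw [cu_w']; exact Real.goldenConj_irrational) a h

theorem cu_w_sq : w ^ 2 = w + 1 := by
  rw [cu_w]; exact Real.goldenRatio_sq

theorem cu_nm (a : ℤ × ℤ) : al a * al' a = (nm a : ℝ) := by
  unfold al al' nm
  push_cast
  have := cu_w_sq
  ring_nf
  rw [this]
  ring

theorem cu_nm_ne (a : ℤ × ℤ) (h : a ≠ 0) : nm a ≠ 0 := by
  intro h0
  have h1 := cu_nm a
  rw [h0] at h1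
  simp only [Int.cast_zero, mul_eq_zero] at h1
  rcases h1 with h1 | h1
  · exact cu_al_ne a h h1
  · exact cu_al'_ne a h h1

/-- clamp to `[1, w²]` -/
noncomputable def cuCl (v : ℝ) : ℝ := max 1 (min v (w ^ 2))

theorem cuCl_cont : Continuous cuCl := by unfold cuCl; fun_prop

theorem cuCl_ge (v : ℝ) : 1 ≤ cuCl v := le_max_left _ _

theorem cuCl_pos (v : ℝ) : 0 < cuCl v := lt_of_lt_of_le one_pos (cuCl_ge v)

theorem cuCl_le (v : ℝ) : cuCl v ≤ w ^ 2 :=
  max_le cu_one_lt_w2.le (min_le_right _ _)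

theorem cuCl_eq (v : ℝ) (h : v ∈ Set.Icc 1 (w ^ 2)) : cuCl v = v := by
  unfold cuCl
  rw [min_eq_left h.2, max_eq_right h.1]

theorem cu_norm_ph (x y v p q : ℝ) :
    ‖ph x y v p q‖ = √y * Real.exp (-(π * y * (p ^ 2 * v ^ 2 + q ^ 2 / v ^ 2))) := by
  unfold ph
  rw [norm_mul, Complex.norm_real, Real.norm_of_nonneg (by positivity)]
  have : (2 * π * Complex.I * ((x * (p * q) : ℝ) : ℂ)) = ((2 * π * (x * (p * q)) : ℝ) : ℂ) * Complex.I := by
    push_cast; ring
  rw [this, Complex.norm_exp_ofReal_mul_I, mul_one]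

theorem cu_scale (s e : ℝ) (hs : 0 < s) (he : e ^ 2 = 1) (x y v p q : ℝ) :
    ‖ph x y v (s * p) (e * (s * q))‖ = (1 / s) * ‖ph x (y * s ^ 2) v p q‖ := by
  rw [cu_norm_ph, cu_norm_ph]
  have h1 : √(y * s ^ 2) = √y * s := by
    rw [Real.sqrt_mul' _ (by positivity), Real.sqrt_sq hs.le]
  have h2 : -(π * y * ((s * p) ^ 2 * v ^ 2 + (e * (s * q)) ^ 2 / v ^ 2)) =
      -(π * (y * s ^ 2) * (p ^ 2 * v ^ 2 + q ^ 2 / v ^ 2)) := by
    have : (e * (s * q)) ^ 2 = s ^ 2 * q ^ 2 := by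
      rw [mul_pow, he]; ring
    rw [this]
    ring
  rw [h1, h2]
  field_simp

theorem cu_ph_cont (y p q : ℝ) (f g : ℝ × ℝ → ℝ) (hf : Continuous f) (hg : Continuous g)
    (h0 : ∀ t, g t ≠ 0) : Continuous fun t : ℝ × ℝ => ph (f t) y (g t) p q := by
  unfold ph
  have h1 : Continuous fun t : ℝ × ℝ => q ^ 2 / (g t) ^ 2 :=
    continuous_const.div (hg.pow 2) (fun t => pow_ne_zero _ (h0 t))
  fun_prop

/-- the frequency integral -/
theorem cu_int_ph (y v p q L : ℝ) (n : ℤ) (hn : n ≠ 0) (hL : L ≠ 0) (h : p * q * L = n) :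
    ∫ x in (0 : ℝ)..L, ph x y v p q = 0 := by
  unfold ph
  rw [intervalIntegral.integral_const_mul]
  have hpq : p * q ≠ 0 := by
    intro h0
    rw [h0, zero_mul] at h
    exact hn (by exact_mod_cast h.symm)
  have hc : (2 * π * Complex.I * ((p * q : ℝ) : ℂ)) ≠ 0 := by
    have h1 : ((p * q : ℝ) : ℂ) ≠ 0 := by exact_mod_cast hpq
    exact mul_ne_zero Complex.two_pi_I_ne_zero h1
  have h1 : ∫ x in (0 : ℝ)..L, Complex.exp (2 * π * Complex.I * ((x * (p * q) : ℝ) : ℂ)) =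
      ∫ x in (0 : ℝ)..L, Complex.exp ((2 * π * Complex.I * ((p * q : ℝ) : ℂ)) * x) := by
    congr 1
    ext x
    congr 1
    push_cast
    ring
  rw [h1, integral_exp_mul_complex hc]
  have h2 : (2 * π * Complex.I * ((p * q : ℝ) : ℂ)) * (L : ℂ) = (n : ℂ) * (2 * π * Complex.I) := by
    have : ((p * q : ℝ) : ℂ) * (L : ℂ) = (n : ℂ) := by
      rw [← Complex.ofReal_mul, h]; simp
    rw [mul_assoc, this]; ring
  rw [h2, Complex.exp_int_mul_two_pi_mul_I]
  simp

theorem cu_ph_zero (x y v : ℝ) : ph x y v 0 0 = (√y : ℂ) := by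
  unfold ph
  simp

/-- the integral of the kernel over a period -/
theorem cu_core (hS : S_SUM) (H : ℤ × ℤ → ℂ) (C : ℝ) (hC : ∀ a, ‖H a‖ ≤ C) (s : ℝ) (hs : 0 < s)
    (e : ℤ) (he : e ^ 2 = 1) (N : ℕ) (hN : (N : ℝ) * s ^ 2 = 1) (y : ℝ) (hy : 0 < y) (v : ℝ)
    (hv : 0 < v) :
    ∫ x in (0 : ℝ)..(25 * N : ℝ), ∑' a : ℤ × ℤ, H a * ph x y v (s * al a) (e * (s * al' a)) =
      H 0 * ((25 * N * √y : ℝ) : ℂ) := by
  have he' : ((e : ℝ)) ^ 2 = 1 := by exact_mod_cast he
  have hC0 : 0 ≤ C := (norm_nonneg _).trans (hC 0)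
  obtain ⟨g, hg, hgb⟩ := hS.2 (y * s ^ 2) v v (by positivity) hv le_rfl
  have hbd : ∀ (a : ℤ × ℤ) (x : ℝ), ‖H a * ph x y v (s * al a) (e * (s * al' a))‖ ≤
      C * ((1 / s) * g a) := by
    intro a x
    rw [norm_mul, cu_scale s e hs he']
    have h1 := hgb x v le_rfl le_rfl a
    have : (1 / s) * ‖ph x (y * s ^ 2) v (al a) (al' a)‖ ≤ (1 / s) * g a :=
      mul_le_mul_of_nonneg_left h1 (by positivity)
    exact mul_le_mul (hC a) this (by positivity) hC0
  have hsum : Summable fun a : ℤ × ℤ => C * ((1 / s) * g a) := (hg.mul_left _).mul_left _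
  have hcont : ∀ a : ℤ × ℤ, Continuous fun x : ℝ => H a * ph x y v (s * al a) (e * (s * al' a)) := by
    intro a
    unfold ph
    fun_prop
  have key := intervalIntegral.hasSum_integral_of_dominated_convergence
    (μ := volume) (a := 0) (b := (25 * N : ℝ))
    (F := fun (a : ℤ × ℤ) (x : ℝ) => H a * ph x y v (s * al a) (e * (s * al' a)))
    (f := fun x => ∑' a : ℤ × ℤ, H a * ph x y v (s * al a) (e * (s * al' a)))
    (fun a _ => C * ((1 / s) * g a))
    (fun a => (hcont a).aestronglyMeasurable)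
    (fun a => Filter.Eventually.of_forall (fun x _ => hbd a x))
    (Filter.Eventually.of_forall (fun x _ => hsum))
    (by exact intervalIntegrable_const)
    (Filter.Eventually.of_forall (fun x _ =>
      (Summable.of_norm_bounded hsum (fun a => hbd a x)).hasSum))
  rw [← key.tsum_eq]
  rw [tsum_eq_single (0 : ℤ × ℤ)]
  · rw [intervalIntegral.integral_const_mul]
    have h1 : al (0 : ℤ × ℤ) = 0 := by simp [al]
    have h2 : al' (0 : ℤ × ℤ) = 0 := by simp [al']
    simp only [h1, h2, mul_zero, cu_ph_zero]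
    rw [intervalIntegral.integral_const]
    simp
  · intro a ha
    rw [intervalIntegral.integral_const_mul]
    have hNne : (N : ℝ) ≠ 0 := by
      intro h0
      rw [h0] at hN
      simp at hN
    rw [cu_int_ph y v (s * al a) (e * (s * al' a)) (25 * N) (25 * (e * nm a)) ?_ ?_ ?_, mul_zero]
    · have := cu_nm_ne a ha
      have he0 : e ≠ 0 := by
        rintro rfl
        simp at he
      positivity
    · positivity
    · push_cast
      rw [← cu_nm a]
      calc s * al a * (e * (s * al' a)) * (25 * N) = 25 * (e * (al a * al' a)) * (N * s ^ 2) := by ring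
        _ = _ := by rw [hN]; ring

theorem cu_tt : 0 < tt := by
  unfold tt
  have : 0 < Real.log w := Real.log_pos cu_one_lt_w
  positivity

/-- the integral of `v^(2it-1)` -/
theorem cu_vint : ∫ v : ℝ in (1 : ℝ)..w ^ 2, (v : ℂ) ^ (2 * tt * Complex.I - 1) = 0 := by
  have ht := cu_tt
  have htc : (tt : ℂ) ≠ 0 := by exact_mod_cast ht.ne'
  have hne : (2 * tt * Complex.I : ℂ) ≠ 0 :=
    mul_ne_zero (mul_ne_zero two_ne_zero htc) Complex.I_ne_zero
  rw [integral_cpow]
  · have h1 : (2 * tt * Complex.I - 1 + 1 : ℂ) = 2 * tt * Complex.I := by ring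
    rw [h1]
    have h2 : (((w ^ 2 : ℝ)) : ℂ) ^ (2 * tt * Complex.I : ℂ) = 1 := by
      have hw2 : (((w ^ 2 : ℝ)) : ℂ) ≠ 0 := by
        have : w ^ 2 ≠ 0 := (pow_pos cu_w_pos 2).ne'
        exact_mod_cast this
      rw [Complex.cpow_def_of_ne_zero hw2, ← Complex.ofReal_log (by positivity), Real.log_pow]
      rw [← Complex.exp_two_pi_mul_I]
      congr 1
      have hl : Real.log w ≠ 0 := (Real.log_pos cu_one_lt_w).ne'
      have hlc : (Real.log w : ℂ) ≠ 0 := by exact_mod_cast hl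
      have h3 : (tt : ℂ) = π / (2 * Real.log w) := by unfold tt; push_cast; rfl
      rw [h3]
      push_cast
      field_simp
    rw [h2]
    simp
  · right
    constructor
    · intro h
      apply hne
      linear_combination h
    · rw [Set.uIcc_of_le cu_one_lt_w2.le]
      intro h
      have := h.1
      linarith

theorem cu_cpow_cont : Continuous fun v : ℝ => ((cuCl v : ℝ) : ℂ) ^ (2 * tt * Complex.I - 1) := by
  refine Continuous.cpow (Complex.continuous_ofReal.comp cuCl_cont) continuous_const ?_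
  intro v
  left
  simpa using cuCl_pos v

/-- the joint continuity of the kernel -/
theorem cu_G_cont (hS : S_SUM) (H : ℤ × ℤ → ℂ) (C : ℝ) (hC : ∀ a, ‖H a‖ ≤ C) (s : ℝ) (hs : 0 < s)
    (e : ℝ) (he : e ^ 2 = 1) (y : ℝ) (hy : 0 < y) :
    Continuous fun t : ℝ × ℝ =>
      (∑' a : ℤ × ℤ, H a * ph t.1 y (cuCl t.2) (s * al a) (e * (s * al' a))) *
        ((cuCl t.2 : ℝ) : ℂ) ^ (2 * tt * Complex.I - 1) := by
  have hC0 : 0 ≤ C := (norm_nonneg _).trans (hC 0)
  obtain ⟨g, hg, hgb⟩ := hS.2 (y * s ^ 2) 1 (w ^ 2) (by positivity) one_pos cu_one_lt_w2.le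
  refine Continuous.mul ?_ (cu_cpow_cont.comp continuous_snd)
  refine continuous_tsum (u := fun a => C * ((1 / s) * g a)) ?_ ((hg.mul_left _).mul_left _) ?_
  · intro a
    exact continuous_const.mul (cu_ph_cont y _ _ _ _ continuous_fst (cuCl_cont.comp continuous_snd)
      (fun t => (cuCl_pos t.2).ne'))
  · intro a t
    rw [norm_mul, cu_scale s e hs he]
    have h1 := hgb t.1 (cuCl t.2) (cuCl_ge _) (cuCl_le _) a
    have : (1 / s) * ‖ph t.1 (y * s ^ 2) (cuCl t.2) (al a) (al' a)‖ ≤ (1 / s) * g a :=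
      mul_le_mul_of_nonneg_left h1 (by positivity)
    exact mul_le_mul (hC a) this (by positivity) hC0

/-- the general statement -/
theorem cu_main (hU : S_UNF) (hS : S_SUM) (hA : S_AUT') (σ : SL(2, ℤ)) (H : ℤ × ℤ → ℂ) (C : ℝ)
    (hC : ∀ a, ‖H a‖ ≤ C) (s : ℝ) (hs : 0 < s) (e : ℤ) (he : e ^ 2 = 1) (N : ℕ)
    (hN : (N : ℝ) * s ^ 2 = 1)
    (hσ : ∀ (z : ℍ) (v : ℝ), 0 < v → thz (σ • z) v =
      ∑' a : ℤ × ℤ, H a * ph z.re z.im v (s * al a) (e * (s * al' a)))
    (y : ℝ) (hy : 0 < y) :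
    ∫ x : ℝ in (0 : ℝ)..25, F (σ • (⟨⟨x, y⟩, hy⟩ : ℍ)) = 0 := by
  have he' : ((e : ℝ)) ^ 2 = 1 := by exact_mod_cast he
  set f : ℝ → ℂ := fun x => F (σ • (⟨⟨x, y⟩, hy⟩ : ℍ)) with hf
  set G : ℝ → ℝ → ℂ := fun x v =>
      (∑' a : ℤ × ℤ, H a * ph x y (cuCl v) (s * al a) (e * (s * al' a))) *
        ((cuCl v : ℝ) : ℂ) ^ (2 * tt * Complex.I - 1) with hG
  have hGc : Continuous (Function.uncurry G) := cu_G_cont hS H C hC s hs e he' y hy
  have h2f : ∀ x, 2 * f x = ∫ v in (1 : ℝ)..w ^ 2, G x v := by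
    intro x
    have h1 := hU hS (σ • (⟨⟨x, y⟩, hy⟩ : ℍ)).re (σ • (⟨⟨x, y⟩, hy⟩ : ℍ)).im
      (σ • (⟨⟨x, y⟩, hy⟩ : ℍ)).im_pos
    simp only [hf, F]
    rw [h1]
    apply intervalIntegral.integral_congr
    intro v hv
    rw [Set.uIcc_of_le cu_one_lt_w2.le] at hv
    have hv0 : 0 < v := lt_of_lt_of_le one_pos hv.1
    have h3 := hσ (⟨⟨x, y⟩, hy⟩ : ℍ) v hv0
    simp only [hG]
    rw [cuCl_eq v hv]
    unfold thz at h3
    rw [h3]
    rfl
  have hfc : Continuous f := by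
    have h1 : Continuous fun x => (1 / 2 : ℂ) * ∫ v in (1 : ℝ)..w ^ 2, G x v :=
      continuous_const.mul
        (intervalIntegral.continuous_parametric_intervalIntegral_of_continuous' hGc 1 (w ^ 2))
    have h2 : f = fun x => (1 / 2 : ℂ) * ∫ v in (1 : ℝ)..w ^ 2, G x v := by
      ext x
      rw [← h2f x]; ring
    rw [h2]; exact h1
  -- the integral over the long period
  have hlong : ∫ x in (0 : ℝ)..(25 * N : ℝ), 2 * f x = 0 := by
    simp_rw [h2f]
    rw [intervalIntegral_intervalIntegral_swap]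
    · have h1 : ∀ v, ∫ x in (0 : ℝ)..(25 * N : ℝ), G x v =
          H 0 * ((25 * N * √y : ℝ) : ℂ) * ((cuCl v : ℝ) : ℂ) ^ (2 * tt * Complex.I - 1) := by
        intro v
        simp only [hG]
        rw [intervalIntegral.integral_mul_const]
        rw [cu_core hS H C hC s hs e he N hN y hy (cuCl v) (cuCl_pos v)]
      simp_rw [h1]
      rw [intervalIntegral.integral_const_mul]
      have h2 : ∫ v in (1 : ℝ)..w ^ 2, ((cuCl v : ℝ) : ℂ) ^ (2 * tt * Complex.I - 1) =
          ∫ v in (1 : ℝ)..w ^ 2, (v : ℂ) ^ (2 * tt * Complex.I - 1) := by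
        apply intervalIntegral.integral_congr
        intro v hv
        rw [Set.uIcc_of_le cu_one_lt_w2.le] at hv
        simp only [cuCl_eq v hv]
      rw [h2, cu_vint, mul_zero]
    · refine IntegrableOn.mono_set (t := Set.uIcc 0 (25 * N : ℝ) ×ˢ Set.uIcc 1 (w ^ 2)) ?_
        (Set.prod_mono Set.uIoc_subset_uIcc Set.uIoc_subset_uIcc)
      exact hGc.continuousOn.integrableOn_compact (isCompact_uIcc.prod isCompact_uIcc)
  -- periodicity
  have hper : Function.Periodic f 25 := by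
    intro x
    simp only [hf]
    have hT : (⟨⟨x + 25, y⟩, hy⟩ : ℍ) = (ModularGroup.T ^ (25 : ℤ)) • (⟨⟨x, y⟩, hy⟩ : ℍ) := by
      apply UpperHalfPlane.ext
      rw [ModularGroup.coe_T_zpow_smul_eq]
      apply Complex.ext <;> simp
    rw [hT]
    have h1 : σ • ((ModularGroup.T ^ (25 : ℤ)) • (⟨⟨x, y⟩, hy⟩ : ℍ)) =
        (σ * ModularGroup.T ^ (25 : ℤ) * σ⁻¹) • (σ • (⟨⟨x, y⟩, hy⟩ : ℍ)) := by
      rw [← mul_smul, ← mul_smul]
      congr 1
      group
    rw [h1]
    apply hA.1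
    rw [CongruenceSubgroup.Gamma0_mem]
    have h2 : (σ * ModularGroup.T ^ (25 : ℤ) * σ⁻¹) 1 0 = -25 * (σ 1 0) ^ 2 := by
      have h3 := ModularGroup.coe_T_zpow 25
      rw [Matrix.SpecialLinearGroup.coe_mul, Matrix.SpecialLinearGroup.coe_mul, h3,
        Matrix.SpecialLinearGroup.coe_inv, Matrix.adjugate_fin_two]
      simp [Matrix.mul_apply, Fin.sum_univ_two]
      ring
    rw [h2]
    push_cast
    have : (25 : ZMod 25) = 0 := by decide
    rw [this]
    ring
  have h3 := hper.intervalIntegral_add_zsmul_eq (N : ℤ) 0 (fun a b => hfc.intervalIntegrable a b)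
  have h4 : (0 : ℝ) + (N : ℤ) • (25 : ℝ) = 25 * N := by
    simp; ring
  rw [h4] at h3
  rw [intervalIntegral.integral_const_mul] at hlong
  have h5 : ∫ x in (0 : ℝ)..(25 * N : ℝ), f x = 0 := by
    rcases mul_eq_zero.1 hlong with h | h
    · norm_num at h
    · exact h
  rw [h5] at h3
  have hN0 : N ≠ 0 := by
    rintro rfl
    simp at hN
  have h6 : (N : ℤ) • ∫ x in (0 : ℝ)..(0 + 25), f x = 0 := h3.symm
  rw [zero_add] at h6
  have hN' : (N : ℤ) ≠ 0 := by exact_mod_cast hN0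
  exact (smul_eq_zero.1 h6).resolve_left hN'

theorem t_CUSP : S_CUSP := by
  intro hU hS hP hSig hA σ y hy
  by_cases hc : σ 1 0 = 0
  · obtain ⟨n, hn⟩ := ModularGroup.exists_eq_T_zpow_of_c_eq_zero hc
    refine cu_main hU hS hA σ
      (fun a => (ch a : ℂ)) 1 ?_ 1 one_pos 1 (by norm_num) 1 (by norm_num) ?_ y hy
    · intro a
      unfold ch
      rcases jacobiSym.trichotomy (a.1 + 3 * a.2) 5 with h | h | h <;> simp [h]
    · intro z v hv
      unfold thz th
      rw [hn z, ModularGroup.re_T_zpow_smul, ModularGroup.im_T_zpow_smul]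
      apply tsum_congr
      intro a
      congr 1
      unfold ph
      simp only [one_mul, Int.cast_one]
      congr 1
      have h1 : (2 * π * Complex.I * (((z.re + n) * (al a * al' a) : ℝ) : ℂ)) =
          2 * π * Complex.I * ((z.re * (al a * al' a) : ℝ) : ℂ) +
            ((n * nm a : ℤ) : ℂ) * (2 * π * Complex.I) := by
        rw [cu_nm]
        push_cast
        ring
      rw [h1, Complex.exp_add, Complex.exp_int_mul_two_pi_mul_I, mul_one]
  · obtain ⟨M, H, C, hM, hC, hH⟩ := hSig hS hP σ hc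
    have h5 : (0 : ℝ) < √5 := by positivity
    have hM' : (0 : ℝ) < M := by exact_mod_cast hM
    refine cu_main hU hS hA σ H C hC (1 / (√5 * M)) (by positivity) (-1) (by norm_num) (5 * M ^ 2)
      ?_ ?_ y hy
    · push_cast
      rw [div_pow, mul_pow, Real.sq_sqrt (by norm_num)]
      field_simp
    · intro z v hv
      rw [hH z v hv]
      apply tsum_congr
      intro a
      congr 1
      push_cast
      congr 1
      · field_simp
      · field_simp

end Pool.Agent.H757M
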