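import Pool.Agent.H757M.Stm

/-
Project M17 (helper757, MP_17f4cb_nt), part DIF (proved by helper298): smoothness, the Laplacian and the growth of
the Maass form `ff`.  The series is differentiated termwise: `difH a b` is the series of the derivatives
(`a` times in `x`, `b` times in `y` of `kk (n y)`), `ff x y = sqrt y * difH 0 0 x y`.
-/

set_option autoImplicit false

namespace Pool.Agent.H757M

open Real MeasureTheory UpperHalfPlane
open scoped MatrixGroups Classical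

/-- the real factor of the terms of the differentiated series -/
noncomputable def difR (a b n : ℕ) (x y : ℝ) : ℝ :=
  ((n : ℝ) ^ (a + b) * (2 * π) ^ a) *
    (iteratedDeriv b kk (n * y) * (2 * Real.cos (2 * π * (n * x) + a * (π / 2))))

/-- the terms of the differentiated series -/
noncomputable def difT (a b n : ℕ) (x y : ℝ) : ℂ := (difR a b n x y : ℝ) • aa n

/-- the differentiated series -/
noncomputable def difH (a b : ℕ) (x y : ℝ) : ℂ := ∑' n : ℕ, difT a b n x y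

theorem dif_kk (hB : S_BES1) (b : ℕ) (hb : b ≤ 2) (y : ℝ) (hy : 0 < y) :
    HasDerivAt (iteratedDeriv b kk) (iteratedDeriv (b + 1) kk y) y := by
  have h0 : ContDiffOn ℝ (2 + 1) kk (Set.Ioi 0) := by
    have := hB.1
    norm_num
    exact this
  have h1 := (contDiffOn_succ_iff_deriv_of_isOpen isOpen_Ioi).1 h0
  have h2 : ContDiffOn ℝ (1 + 1) (deriv kk) (Set.Ioi 0) := by
    have := h1.2.2
    norm_num
    exact this
  have h3 := (contDiffOn_succ_iff_deriv_of_isOpen isOpen_Ioi).1 h2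
  have h4 : ContDiffOn ℝ (0 + 1) (deriv (deriv kk)) (Set.Ioi 0) := by
    have := h3.2.2
    norm_num
    exact this
  have h5 := (contDiffOn_succ_iff_deriv_of_isOpen isOpen_Ioi).1 h4
  have hmem : Set.Ioi (0 : ℝ) ∈ nhds y := Ioi_mem_nhds hy
  rw [iteratedDeriv_succ]
  apply DifferentiableAt.hasDerivAt
  interval_cases b
  · rw [iteratedDeriv_zero]; exact (h1.1 y hy).differentiableAt hmem
  · rw [iteratedDeriv_one]; exact (h3.1 y hy).differentiableAt hmem
  · rw [iteratedDeriv_succ, iteratedDeriv_one]; exact (h5.1 y hy).differentiableAt hmem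

theorem difT_zero (hC : S_COEF) (a b : ℕ) (x y : ℝ) : difT a b 0 x y = 0 := by
  unfold difT
  rw [hC.1, smul_zero]

theorem dif_aa (hC : S_COEF) : ∃ C : ℝ, 0 ≤ C ∧ ∀ n : ℕ, ‖aa n‖ ≤ C * n := by
  obtain ⟨C, h⟩ := hC.2.2.2.1
  refine ⟨|C|, abs_nonneg _, fun n => (h n).trans ?_⟩
  exact mul_le_mul_of_nonneg_right (le_abs_self _) (Nat.cast_nonneg _)

theorem dif_bound (hB : S_BES1) (hC : S_COEF) (a b : ℕ) (hb : b ≤ 2) :
    ∃ K : ℝ, 0 ≤ K ∧ ∀ y₀ : ℝ, 0 < y₀ → ∀ (n : ℕ) (x y : ℝ), y₀ ≤ y →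
      ‖difT a b n x y‖ ≤ K * (y₀⁻¹) ^ (b + 1) * ((n : ℝ) ^ (a + b + 1) * Real.exp (-y₀ * n)) := by
  obtain ⟨C, hC0, hCn⟩ := dif_aa hC
  obtain ⟨B, hBn⟩ := hB.2.2 b hb
  refine ⟨C * ((2 * π) ^ a * (|B| * 2)), by positivity, ?_⟩
  intro y₀ hy₀ n x y hy
  have hy0 : 0 < y := by linarith
  rcases Nat.eq_zero_or_pos n with rfl | hn
  · rw [difT_zero hC, norm_zero]; positivity
  · have hn1 : (1 : ℝ) ≤ n := by exact_mod_cast hn
    have hn0 : (0 : ℝ) < n := by linarith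
    have hny : y₀ ≤ n * y := by nlinarith
    have hny0 : 0 < n * y := by linarith
    have h1 := hBn (n * y) hny0
    have h2 : |iteratedDeriv b kk (n * y)| ≤ |B| * (y₀⁻¹) ^ (b + 1) * Real.exp (-y₀ * n) := by
      refine h1.trans ?_
      have e1 : ((n * y)⁻¹) ^ (b + 1) ≤ (y₀⁻¹) ^ (b + 1) := by
        apply pow_le_pow_left₀ (by positivity)
        exact inv_anti₀ hy₀ hny
      have e2 : Real.exp (-(n * y)) ≤ Real.exp (-y₀ * n) := by
        apply Real.exp_le_exp.2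
        nlinarith
      have e3 := le_abs_self B
      have e4 : 0 ≤ ((n * y)⁻¹) ^ (b + 1) := by positivity
      calc B * ((n * y)⁻¹) ^ (b + 1) * Real.exp (-(n * y))
          ≤ |B| * ((n * y)⁻¹) ^ (b + 1) * Real.exp (-(n * y)) := by gcongr
        _ ≤ |B| * (y₀⁻¹) ^ (b + 1) * Real.exp (-y₀ * n) := by gcongr
    have h3 : |2 * Real.cos (2 * π * (n * x) + a * (π / 2))| ≤ 2 := by
      rw [abs_mul, abs_two]
      have := Real.abs_cos_le_one (2 * π * (n * x) + a * (π / 2))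
      linarith
    have h4 : |(n : ℝ) ^ (a + b) * (2 * π) ^ a| = (n : ℝ) ^ (a + b) * (2 * π) ^ a :=
      abs_of_nonneg (by positivity)
    unfold difT difR
    rw [norm_smul, Real.norm_eq_abs, abs_mul, h4, abs_mul]
    calc (n : ℝ) ^ (a + b) * (2 * π) ^ a *
          (|iteratedDeriv b kk (n * y)| * |2 * Real.cos (2 * π * (n * x) + a * (π / 2))|) * ‖aa n‖
        ≤ (n : ℝ) ^ (a + b) * (2 * π) ^ a *
          ((|B| * (y₀⁻¹) ^ (b + 1) * Real.exp (-y₀ * n)) * 2) * (C * n) := by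
          have := hCn n
          gcongr
      _ = _ := by ring

theorem dif_summable (a b : ℕ) {K y₀ : ℝ} (hy₀ : 0 < y₀) :
    Summable (fun n : ℕ => K * (y₀⁻¹) ^ (b + 1) * ((n : ℝ) ^ (a + b + 1) * Real.exp (-y₀ * n))) :=
  (Real.summable_pow_mul_exp_neg_nat_mul (a + b + 1) hy₀).mul_left _

theorem difT_summable (hB : S_BES1) (hC : S_COEF) (a b : ℕ) (hb : b ≤ 2) (x y : ℝ) (hy : 0 < y) :
    Summable (fun n : ℕ => difT a b n x y) := by
  obtain ⟨K, hK, h⟩ := dif_bound hB hC a b hb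
  exact Summable.of_norm_bounded (dif_summable a b hy) (fun n => h y hy n x y le_rfl)

/-- the derivative of the terms -/
noncomputable def difD (a b n : ℕ) (p : ℝ × ℝ) : ℝ × ℝ →L[ℝ] ℂ :=
  (ContinuousLinearMap.fst ℝ ℝ ℝ).smulRight (difT (a + 1) b n p.1 p.2) +
    (ContinuousLinearMap.snd ℝ ℝ ℝ).smulRight (difT a (b + 1) n p.1 p.2)

theorem difT_hasFDeriv (hB : S_BES1) (hC : S_COEF) (a b : ℕ) (hb : b ≤ 2) (n : ℕ) (p : ℝ × ℝ)
    (hp : 0 < p.2) : HasFDerivAt (fun q : ℝ × ℝ => difT a b n q.1 q.2) (difD a b n p) p := by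
  rcases Nat.eq_zero_or_pos n with rfl | hn
  · have h1 : (fun q : ℝ × ℝ => difT a b 0 q.1 q.2) = fun _ => 0 := by
      ext q; exact difT_zero hC a b q.1 q.2
    have h2 : difD a b 0 p = 0 := by
      unfold difD
      rw [difT_zero hC, difT_zero hC]
      ext <;> simp
    rw [h1, h2]
    exact hasFDerivAt_const _ _
  · have hn0 : (0 : ℝ) < n := by exact_mod_cast hn
    have hny : 0 < n * p.2 := by positivity
    have h1 : HasDerivAt (fun y : ℝ => iteratedDeriv b kk (n * y))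
        (iteratedDeriv (b + 1) kk (n * p.2) * n) p.2 := by
      have e1 := dif_kk hB b hb (n * p.2) hny
      have e2 : HasDerivAt (fun y : ℝ => (n : ℝ) * y) n p.2 := by
        simpa using (hasDerivAt_id p.2).const_mul (n : ℝ)
      exact e1.comp p.2 e2
    have h2 : HasDerivAt (fun x : ℝ => 2 * Real.cos (2 * π * (n * x) + a * (π / 2)))
        (2 * (Real.cos (2 * π * (n * p.1) + (a + 1 : ℕ) * (π / 2)) * (2 * π * n))) p.1 := by
      have e2 : HasDerivAt (fun x : ℝ => 2 * π * (n * x) + a * (π / 2)) (2 * π * n) p.1 := by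
        have := (((hasDerivAt_id p.1).const_mul (n : ℝ)).const_mul (2 * π)).add_const (a * (π / 2))
        simpa using this
      have e3 : Real.cos (2 * π * (n * p.1) + (a + 1 : ℕ) * (π / 2)) =
          -Real.sin (2 * π * (n * p.1) + a * (π / 2)) := by
        push_cast
        rw [add_mul, one_mul, ← add_assoc, Real.cos_add_pi_div_two]
      rw [e3]
      exact (e2.cos).const_mul 2
    have h3 : HasFDerivAt (fun q : ℝ × ℝ => iteratedDeriv b kk (n * q.2))
        ((iteratedDeriv (b + 1) kk (n * p.2) * n) • ContinuousLinearMap.snd ℝ ℝ ℝ) p :=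
      h1.comp_hasFDerivAt p hasFDerivAt_snd
    have h4 : HasFDerivAt (fun q : ℝ × ℝ => 2 * Real.cos (2 * π * (n * q.1) + a * (π / 2)))
        ((2 * (Real.cos (2 * π * (n * p.1) + (a + 1 : ℕ) * (π / 2)) * (2 * π * n))) •
          ContinuousLinearMap.fst ℝ ℝ ℝ) p :=
      h2.comp_hasFDerivAt p hasFDerivAt_fst
    have h5 := ((h3.mul h4).const_mul ((n : ℝ) ^ (a + b) * (2 * π) ^ a)).smul_const (aa n)
    refine h5.congr_fderiv ?_
    unfold difD difT difR
    ext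
    · simp [smul_smul]
      left
      ring
    · simp [smul_smul]
      left
      ring

theorem difH_hasFDeriv (hB : S_BES1) (hC : S_COEF) (a b : ℕ) (hb : b ≤ 1) (p : ℝ × ℝ)
    (hp : 0 < p.2) : HasFDerivAt (fun q : ℝ × ℝ => difH a b q.1 q.2)
      ((ContinuousLinearMap.fst ℝ ℝ ℝ).smulRight (difH (a + 1) b p.1 p.2) +
        (ContinuousLinearMap.snd ℝ ℝ ℝ).smulRight (difH a (b + 1) p.1 p.2)) p := by
  obtain ⟨K1, hK1, h1⟩ := dif_bound hB hC (a + 1) b (by omega)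
  obtain ⟨K2, hK2, h2⟩ := dif_bound hB hC a (b + 1) (by omega)
  obtain ⟨y₀, hy₀⟩ : ∃ y₀ : ℝ, y₀ = p.2 / 2 := ⟨_, rfl⟩
  have hy₀p : 0 < y₀ := by rw [hy₀]; positivity
  have hs : IsOpen {q : ℝ × ℝ | y₀ < q.2} := isOpen_lt continuous_const continuous_snd
  have hconv : Convex ℝ {q : ℝ × ℝ | y₀ < q.2} := by
    have : {q : ℝ × ℝ | y₀ < q.2} = (ContinuousLinearMap.snd ℝ ℝ ℝ) ⁻¹' (Set.Ioi y₀) := by
      ext q; simp
    rw [this]
    exact (convex_Ioi y₀).linear_preimage (ContinuousLinearMap.snd ℝ ℝ ℝ).toLinearMap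
  have hpm : p ∈ {q : ℝ × ℝ | y₀ < q.2} := by
    simp only [Set.mem_ofPred_eq]; rw [hy₀]; linarith
  have hmain := hasFDerivAt_tsum_of_isPreconnected (𝕜 := ℝ)
    (f := fun n (q : ℝ × ℝ) => difT a b n q.1 q.2) (f' := fun n q => difD a b n q)
    (u := fun n : ℕ => K1 * (y₀⁻¹) ^ (b + 1) * ((n : ℝ) ^ (a + 1 + b + 1) * Real.exp (-y₀ * n)) +
      K2 * (y₀⁻¹) ^ (b + 1 + 1) * ((n : ℝ) ^ (a + (b + 1) + 1) * Real.exp (-y₀ * n)))
    (s := {q : ℝ × ℝ | y₀ < q.2}) (x₀ := p) (x := p)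
    ((dif_summable (a + 1) b hy₀p).add (dif_summable a (b + 1) hy₀p)) hs
    hconv.isPreconnected
    (fun n q hq => difT_hasFDeriv hB hC a b (by omega) n q (hy₀p.trans hq))
    (fun n q hq => by
      unfold difD
      refine (norm_add_le _ _).trans ?_
      rw [ContinuousLinearMap.norm_smulRight_apply, ContinuousLinearMap.norm_smulRight_apply]
      have e1 := h1 y₀ hy₀p n q.1 q.2 (le_of_lt hq)
      have e2 := h2 y₀ hy₀p n q.1 q.2 (le_of_lt hq)
      have e3 : ‖ContinuousLinearMap.fst ℝ ℝ ℝ‖ ≤ 1 := ContinuousLinearMap.norm_fst_le ℝ ℝ ℝ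
      have e4 : ‖ContinuousLinearMap.snd ℝ ℝ ℝ‖ ≤ 1 := ContinuousLinearMap.norm_snd_le ℝ ℝ ℝ
      have e5 : ‖ContinuousLinearMap.fst ℝ ℝ ℝ‖ * ‖difT (a + 1) b n q.1 q.2‖ ≤
          1 * ‖difT (a + 1) b n q.1 q.2‖ := mul_le_mul_of_nonneg_right e3 (norm_nonneg _)
      have e6 : ‖ContinuousLinearMap.snd ℝ ℝ ℝ‖ * ‖difT a (b + 1) n q.1 q.2‖ ≤
          1 * ‖difT a (b + 1) n q.1 q.2‖ := mul_le_mul_of_nonneg_right e4 (norm_nonneg _)
      linarith)
    hpm (difT_summable hB hC a b (by omega) p.1 p.2 hp) hpm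
  refine hmain.congr_fderiv ?_
  have s1 := difT_summable hB hC (a + 1) b (by omega) p.1 p.2 hp
  have s2 := difT_summable hB hC a (b + 1) (by omega) p.1 p.2 hp
  unfold difD difH
  have t1 : HasSum (fun n : ℕ => (ContinuousLinearMap.fst ℝ ℝ ℝ).smulRight (difT (a + 1) b n p.1 p.2))
      ((ContinuousLinearMap.fst ℝ ℝ ℝ).smulRight (∑' n : ℕ, difT (a + 1) b n p.1 p.2)) := by
    exact ((ContinuousLinearMap.smulRightL ℝ (ℝ × ℝ) ℂ (ContinuousLinearMap.fst ℝ ℝ ℝ)).hasSum s1.hasSum)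
  have t2 : HasSum (fun n : ℕ => (ContinuousLinearMap.snd ℝ ℝ ℝ).smulRight (difT a (b + 1) n p.1 p.2))
      ((ContinuousLinearMap.snd ℝ ℝ ℝ).smulRight (∑' n : ℕ, difT a (b + 1) n p.1 p.2)) := by
    exact ((ContinuousLinearMap.smulRightL ℝ (ℝ × ℝ) ℂ (ContinuousLinearMap.snd ℝ ℝ ℝ)).hasSum s2.hasSum)
  exact (t1.add t2).tsum_eq

theorem difH_cont (hB : S_BES1) (hC : S_COEF) (a b : ℕ) (hb : b ≤ 2) :
    ContinuousOn (fun q : ℝ × ℝ => difH a b q.1 q.2) {p | 0 < p.2} := by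
  intro p hp
  have hp0 : 0 < p.2 := hp
  obtain ⟨K1, hK1, h1⟩ := dif_bound hB hC a b hb
  obtain ⟨y₀, hy₀⟩ : ∃ y₀ : ℝ, y₀ = p.2 / 2 := ⟨_, rfl⟩
  have hy₀p : 0 < y₀ := by rw [hy₀]; positivity
  have hs : IsOpen {q : ℝ × ℝ | y₀ < q.2} := isOpen_lt continuous_const continuous_snd
  have hpm : p ∈ {q : ℝ × ℝ | y₀ < q.2} := by
    simp only [Set.mem_ofPred_eq]; rw [hy₀]; linarith
  have h2 : ContinuousOn (fun q : ℝ × ℝ => ∑' n : ℕ, difT a b n q.1 q.2) {q : ℝ × ℝ | y₀ < q.2} := by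
    refine continuousOn_tsum (u := fun n : ℕ =>
      K1 * (y₀⁻¹) ^ (b + 1) * ((n : ℝ) ^ (a + b + 1) * Real.exp (-y₀ * n))) ?_
      (dif_summable a b hy₀p) (fun n q hq => h1 y₀ hy₀p n q.1 q.2 (le_of_lt hq))
    intro n q hq
    exact (difT_hasFDeriv hB hC a b hb n q (hy₀p.trans hq)).continuousAt.continuousWithinAt
  have h3 : ContinuousAt (fun q : ℝ × ℝ => ∑' n : ℕ, difT a b n q.1 q.2) p :=
    h2.continuousAt (hs.mem_nhds hpm)
  exact h3.continuousWithinAt

theorem dif_open : IsOpen {p : ℝ × ℝ | 0 < p.2} := isOpen_lt continuous_const continuous_snd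

theorem difH_step (hB : S_BES1) (hC : S_COEF) (a b : ℕ) (hb : b ≤ 1) (m : ℕ)
    (h1 : ContDiffOn ℝ m (fun q : ℝ × ℝ => difH (a + 1) b q.1 q.2) {p | 0 < p.2})
    (h2 : ContDiffOn ℝ m (fun q : ℝ × ℝ => difH a (b + 1) q.1 q.2) {p | 0 < p.2}) :
    ContDiffOn ℝ (m + 1) (fun q : ℝ × ℝ => difH a b q.1 q.2) {p | 0 < p.2} := by
  rw [contDiffOn_succ_iff_fderiv_of_isOpen dif_open]
  refine ⟨fun p hp => (difH_hasFDeriv hB hC a b hb p hp).differentiableAt.differentiableWithinAt,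
    fun h => absurd h (by simp), ?_⟩
  have h3 : ContDiffOn ℝ m (fun p : ℝ × ℝ =>
      ((ContinuousLinearMap.fst ℝ ℝ ℝ).smulRight (difH (a + 1) b p.1 p.2) +
        (ContinuousLinearMap.snd ℝ ℝ ℝ).smulRight (difH a (b + 1) p.1 p.2) : ℝ × ℝ →L[ℝ] ℂ))
      {p | 0 < p.2} := by
    apply ContDiffOn.add
    · exact (ContinuousLinearMap.smulRightL ℝ (ℝ × ℝ) ℂ
        (ContinuousLinearMap.fst ℝ ℝ ℝ)).contDiff.comp_contDiffOn h1
    · exact (ContinuousLinearMap.smulRightL ℝ (ℝ × ℝ) ℂ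
        (ContinuousLinearMap.snd ℝ ℝ ℝ)).contDiff.comp_contDiffOn h2
  refine h3.congr ?_
  intro p hp
  exact (difH_hasFDeriv hB hC a b hb p hp).fderiv

theorem difH_c1 (hB : S_BES1) (hC : S_COEF) (a b : ℕ) (hb : b ≤ 1) :
    ContDiffOn ℝ 1 (fun q : ℝ × ℝ => difH a b q.1 q.2) {p | 0 < p.2} := by
  have h := difH_step hB hC a b hb 0 (by
    rw [Nat.cast_zero, contDiffOn_zero]; exact difH_cont hB hC (a + 1) b (by omega)) (by
    rw [Nat.cast_zero, contDiffOn_zero]; exact difH_cont hB hC a (b + 1) (by omega))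
  simpa using h

theorem difH_c2 (hB : S_BES1) (hC : S_COEF) (a : ℕ) :
    ContDiffOn ℝ 2 (fun q : ℝ × ℝ => difH a 0 q.1 q.2) {p | 0 < p.2} := by
  have h := difH_step hB hC a 0 (by omega) 1 (by
    rw [Nat.cast_one]; exact difH_c1 hB hC (a + 1) 0 (by omega)) (by
    rw [Nat.cast_one]; exact difH_c1 hB hC a 1 (by omega))
  have e : ((1 : ℕ) : WithTop ℕ∞) + 1 = 2 := by norm_num
  rw [e] at h
  exact h

theorem dif_ff (x y : ℝ) : ff x y = (√y : ℝ) • difH 0 0 x y := by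
  unfold ff difH
  rw [← tsum_const_smul'']
  apply tsum_congr
  intro n
  unfold difT difR
  simp only [Complex.real_smul, iteratedDeriv_zero]
  push_cast
  simp
  ring

theorem dif_dx (hB : S_BES1) (hC : S_COEF) (a b : ℕ) (hb : b ≤ 1) (x y : ℝ) (hy : 0 < y) :
    HasDerivAt (fun x' => difH a b x' y) (difH (a + 1) b x y) x := by
  have h := (difH_hasFDeriv hB hC a b hb (x, y) hy).comp_hasDerivAt x
    ((hasDerivAt_id x).prodMk (hasDerivAt_const x y))
  refine h.congr_deriv ?_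
  simp

theorem dif_dy (hB : S_BES1) (hC : S_COEF) (a b : ℕ) (hb : b ≤ 1) (x y : ℝ) (hy : 0 < y) :
    HasDerivAt (fun y' => difH a b x y') (difH a (b + 1) x y) y := by
  have h := (difH_hasFDeriv hB hC a b hb (x, y) hy).comp_hasDerivAt y
    ((hasDerivAt_const y x).prodMk (hasDerivAt_id y))
  refine h.congr_deriv ?_
  simp

theorem dif_xx (hB : S_BES1) (hC : S_COEF) (x y : ℝ) (hy : 0 < y) :
    iteratedDeriv 2 (fun x' => ff x' y) x = (√y : ℝ) • difH 2 0 x y := by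
  have e0 : (fun x' => ff x' y) = fun x' => (√y : ℝ) • difH 0 0 x' y := by
    ext x'; exact dif_ff x' y
  have e1 : deriv (fun x' => (√y : ℝ) • difH 0 0 x' y) = fun x' => (√y : ℝ) • difH 1 0 x' y := by
    ext x'
    exact ((dif_dx hB hC 0 0 (by omega) x' y hy).const_smul (√y : ℝ)).deriv
  rw [e0, iteratedDeriv_succ, iteratedDeriv_one, e1]
  exact ((dif_dx hB hC 1 0 (by omega) x y hy).const_smul (√y : ℝ)).deriv

theorem dif_yy (hB : S_BES1) (hC : S_COEF) (x y : ℝ) (hy : 0 < y) :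
    iteratedDeriv 2 (fun y' => ff x y') y =
      (√y : ℝ) • difH 0 2 x y + (1 / √y : ℝ) • difH 0 1 x y -
        (1 / (4 * y * √y) : ℝ) • difH 0 0 x y := by
  have e0 : (fun y' => ff x y') = fun y' => (√y' : ℝ) • difH 0 0 x y' := by
    ext y'; exact dif_ff x y'
  have hsq : ∀ y' : ℝ, 0 < y' → HasDerivAt (fun y => √y) (1 / (2 * √y')) y' := fun y' hy' =>
    Real.hasDerivAt_sqrt hy'.ne'
  have e1 : ∀ y' : ℝ, 0 < y' → HasDerivAt (fun y' => (√y' : ℝ) • difH 0 0 x y')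
      ((√y' : ℝ) • difH 0 1 x y' + (1 / (2 * √y') : ℝ) • difH 0 0 x y') y' := fun y' hy' =>
    (hsq y' hy').fun_smul (dif_dy hB hC 0 0 (by omega) x y' hy')
  have e2 : deriv (fun y' => (√y' : ℝ) • difH 0 0 x y') =ᶠ[nhds y]
      fun y' => (√y' : ℝ) • difH 0 1 x y' + (1 / (2 * √y') : ℝ) • difH 0 0 x y' := by
    filter_upwards [Ioi_mem_nhds hy] with y' hy'
    exact (e1 y' hy').deriv
  rw [e0, iteratedDeriv_succ, iteratedDeriv_one, e2.deriv_eq]
  have hs0 : 0 < √y := Real.sqrt_pos.2 hy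
  have hss : √y * √y = y := Real.mul_self_sqrt hy.le
  have h3 : HasDerivAt (fun y : ℝ => 1 / (2 * √y)) (-(1 / (4 * y * √y))) y := by
    have h4 := ((hsq y hy).const_mul 2).fun_inv (by positivity)
    have h5 : (fun y : ℝ => 1 / (2 * √y)) = fun y : ℝ => (2 * √y)⁻¹ := by
      ext u; rw [one_div]
    rw [h5]
    refine h4.congr_deriv ?_
    have h6 : (2 * √y) ^ 2 = 4 * y := by
      rw [mul_pow, sq (√y), hss]; norm_num
    rw [h6]
    field_simp
  have h7 := ((hsq y hy).fun_smul (dif_dy hB hC 0 1 (by omega) x y hy)).fun_add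
    (h3.fun_smul (dif_dy hB hC 0 0 (by omega) x y hy))
  rw [h7.deriv]
  simp only [Complex.real_smul]
  push_cast
  have hc : (√y : ℂ) ≠ 0 := by exact_mod_cast hs0.ne'
  have hyc : (y : ℂ) ≠ 0 := by exact_mod_cast hy.ne'
  field_simp
  ring

theorem dif_ode (hB : S_BES1) (hC : S_COEF) (x y : ℝ) (hy : 0 < y) :
    (y ^ 2 : ℝ) • difH 0 2 x y + y • difH 0 1 x y + (y ^ 2 : ℝ) • difH 2 0 x y =
      (-(tt ^ 2) : ℝ) • difH 0 0 x y := by
  have s1 := (difT_summable hB hC 0 2 (by omega) x y hy).hasSum.const_smul (y ^ 2 : ℝ)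
  have s2 := (difT_summable hB hC 0 1 (by omega) x y hy).hasSum.const_smul y
  have s3 := (difT_summable hB hC 2 0 (by omega) x y hy).hasSum.const_smul (y ^ 2 : ℝ)
  have s4 := (difT_summable hB hC 0 0 (by omega) x y hy).hasSum.const_smul (-(tt ^ 2) : ℝ)
  refine ((s1.add s2).add s3).unique (s4.congr_fun ?_)
  intro n
  rcases Nat.eq_zero_or_pos n with rfl | hn
  · simp only [difT_zero hC, smul_zero, add_zero]
  · have hn0 : (0 : ℝ) < n := by exact_mod_cast hn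
    have h1 := hB.2.1 (n * y) (by positivity)
    unfold difT
    simp only [smul_smul, ← add_smul]
    congr 1
    unfold difR
    have e1 : Real.cos (2 * π * (n * x) + (2 : ℕ) * (π / 2)) =
        -Real.cos (2 * π * (n * x) + (0 : ℕ) * (π / 2)) := by
      have : 2 * π * (n * x) + (2 : ℕ) * (π / 2) = (2 * π * (n * x) + (0 : ℕ) * (π / 2)) + π := by
        push_cast; ring
      rw [this, Real.cos_add_pi]
    rw [e1]
    rw [iteratedDeriv_one, iteratedDeriv_zero]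
    generalize Real.cos (2 * π * (n * x) + (0 : ℕ) * (π / 2)) = cc at *
    generalize kk (n * y) = k0 at *
    generalize deriv kk (n * y) = k1 at *
    generalize iteratedDeriv 2 kk (n * y) = k2 at *
    linear_combination (2 * cc) * h1

theorem dif_lap (hB : S_BES1) (hC : S_COEF) (x y : ℝ) (hy : 0 < y) :
    -(y ^ 2 : ℂ) * (iteratedDeriv 2 (fun x' => ff x' y) x + iteratedDeriv 2 (fun y' => ff x y') y) =
      ((1 / 4 + tt ^ 2 : ℝ) : ℂ) * ff x y := by
  rw [dif_xx hB hC x y hy, dif_yy hB hC x y hy, dif_ff]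
  have h := dif_ode hB hC x y hy
  simp only [Complex.real_smul] at h ⊢
  push_cast at h ⊢
  have hs0 : 0 < √y := Real.sqrt_pos.2 hy
  have hss : (√y : ℂ) * √y = y := by exact_mod_cast Real.mul_self_sqrt hy.le
  have hc : (√y : ℂ) ≠ 0 := by exact_mod_cast hs0.ne'
  have hyc : (y : ℂ) ≠ 0 := by exact_mod_cast hy.ne'
  have e1 : (1 : ℂ) / √y = √y / y := by
    rw [div_eq_div_iff hc hyc, one_mul]; exact hss.symm
  have e2 : (1 : ℂ) / (4 * y * √y) = √y / (4 * y ^ 2) := by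
    rw [div_eq_div_iff (mul_ne_zero (mul_ne_zero (by norm_num) hyc) hc)
      (mul_ne_zero (by norm_num) (pow_ne_zero 2 hyc))]
    linear_combination (-4 * (y : ℂ)) * hss
  rw [e1, e2]
  field_simp
  linear_combination (-4 : ℂ) * h

theorem dif_growth (hB : S_BES1) (hC : S_COEF) :
    ∃ (A : ℕ) (C : ℝ), ∀ x y : ℝ, 0 < y → ‖ff x y‖ ≤ C * (y⁻¹) ^ A := by
  obtain ⟨K, hK, h⟩ := dif_bound hB hC 0 0 (by omega)
  have hS : Summable (fun n : ℕ => (((n : ℝ) ^ 3)⁻¹)) := Real.summable_nat_pow_inv.2 (by norm_num)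
  refine ⟨5, 120 * K * ∑' n : ℕ, (((n : ℝ) ^ 3)⁻¹), ?_⟩
  intro x y hy
  have hs0 : 0 < √y := Real.sqrt_pos.2 hy
  have hss : √y * √y = y := Real.mul_self_sqrt hy.le
  have e0 : ff x y = ∑' n : ℕ, (√y : ℝ) • difT 0 0 n x y := by
    rw [dif_ff, difH, tsum_const_smul'']
  have hg : HasSum (fun n : ℕ => (120 * K * (y⁻¹) ^ 5) * ((n : ℝ) ^ 3)⁻¹)
      ((120 * K * (y⁻¹) ^ 5) * ∑' n : ℕ, (((n : ℝ) ^ 3)⁻¹)) := hS.hasSum.mul_left _
  have hmain : ∀ n : ℕ, ‖(√y : ℝ) • difT 0 0 n x y‖ ≤ (120 * K * (y⁻¹) ^ 5) * ((n : ℝ) ^ 3)⁻¹ := by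
    intro n
    rcases Nat.eq_zero_or_pos n with rfl | hn
    · rw [difT_zero hC, smul_zero, norm_zero]; positivity
    · have hn1 : (1 : ℝ) ≤ n := by exact_mod_cast hn
      have hn0 : (0 : ℝ) < n := by linarith
      have h1 := h y hy n x y le_rfl
      rw [norm_smul, Real.norm_eq_abs, abs_of_pos hs0]
      have h2 : √y * Real.exp (-y * n) ≤ 120 * (y⁻¹) ^ 4 * ((n : ℝ) ^ 4)⁻¹ := by
        have hyn : 0 < y * n := by positivity
        rcases le_total y 1 with h3 | h3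
        · have h4 : √y ≤ 1 := by
            rw [Real.sqrt_le_left (by norm_num)]; linarith
          have h5 := Real.pow_div_factorial_le_exp (y * n) hyn.le 4
          have h6 : Real.exp (-y * n) ≤ 24 / (y * n) ^ 4 := by
            rw [neg_mul, Real.exp_neg, inv_eq_one_div, div_le_div_iff₀ (Real.exp_pos _) (by positivity)]
            have : ((4 : ℕ).factorial : ℝ) = 24 := by norm_num [Nat.factorial]
            rw [this, div_le_iff₀ (by norm_num)] at h5
            linarith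
          calc √y * Real.exp (-y * n) ≤ 1 * (24 / (y * n) ^ 4) := by gcongr
            _ ≤ 120 / (y * n) ^ 4 := by
                rw [one_mul]; gcongr; norm_num
            _ = _ := by rw [mul_pow]; field_simp
        · have h4 : √y ≤ y := by
            rw [Real.sqrt_le_left (by linarith)]; nlinarith
          have h5 := Real.pow_div_factorial_le_exp (y * n) hyn.le 5
          have h6 : Real.exp (-y * n) ≤ 120 / (y * n) ^ 5 := by
            rw [neg_mul, Real.exp_neg, inv_eq_one_div, div_le_div_iff₀ (Real.exp_pos _) (by positivity)]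
            have : ((5 : ℕ).factorial : ℝ) = 120 := by norm_num [Nat.factorial]
            rw [this, div_le_iff₀ (by norm_num)] at h5
            linarith
          have h7 : (n : ℝ) ^ 4 ≤ n ^ 5 := pow_le_pow_right₀ hn1 (by norm_num)
          calc √y * Real.exp (-y * n) ≤ y * (120 / (y * n) ^ 5) := by gcongr
            _ = 120 * (y⁻¹) ^ 4 * ((n : ℝ) ^ 5)⁻¹ := by rw [mul_pow]; field_simp
            _ ≤ _ := by gcongr
      calc √y * ‖difT 0 0 n x y‖
          ≤ √y * (K * (y⁻¹) ^ (0 + 1) * ((n : ℝ) ^ (0 + 0 + 1) * Real.exp (-y * n))) := by gcongr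
        _ = K * y⁻¹ * n * (√y * Real.exp (-y * n)) := by ring
        _ ≤ K * y⁻¹ * n * (120 * (y⁻¹) ^ 4 * ((n : ℝ) ^ 4)⁻¹) := by gcongr
        _ = _ := by field_simp
  rw [e0]
  refine (tsum_of_norm_bounded hg hmain).trans (le_of_eq ?_)
  ring

theorem dif_der (hB : S_BES1) (hC : S_COEF) (x y : ℝ) (hy : 0 < y) :
    HasDerivAt (fun x' => ff x' y)
    (∑' n : ℕ, aa n * ((√y * kk (n * y) * (-(4 * π * n) * Real.sin (2 * π * (n * x))) : ℝ) : ℂ)) x := by
  have e0 : (fun x' => ff x' y) = fun x' => (√y : ℝ) • difH 0 0 x' y := by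
    ext x'; exact dif_ff x' y
  rw [e0]
  refine ((dif_dx hB hC 0 0 (by omega) x y hy).const_smul (√y : ℝ)).congr_deriv ?_
  unfold difH
  rw [← tsum_const_smul'']
  apply tsum_congr
  intro n
  unfold difT difR
  have e1 : Real.cos (2 * π * (n * x) + ((0 + 1 : ℕ) : ℝ) * (π / 2)) = -Real.sin (2 * π * (n * x)) := by
    push_cast
    rw [one_mul, Real.cos_add_pi_div_two]
  rw [e1]
  simp only [Complex.real_smul, iteratedDeriv_zero]
  push_cast
  ring

theorem dif_c2 (hB : S_BES1) (hC : S_COEF) :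
    ContDiffOn ℝ 2 (fun p : ℝ × ℝ => ff p.1 p.2) {p | 0 < p.2} := by
  have e0 : (fun p : ℝ × ℝ => ff p.1 p.2) = fun p : ℝ × ℝ => (√p.2 : ℝ) • difH 0 0 p.1 p.2 := by
    ext p; exact dif_ff p.1 p.2
  rw [e0]
  refine ContDiffOn.smul (f := fun p : ℝ × ℝ => √p.2) ?_ (difH_c2 hB hC 0)
  apply ContDiffOn.sqrt contDiff_snd.contDiffOn
  intro p hp
  exact (ne_of_gt hp)

theorem t_DIF : S_DIF := by
  intro hB hC
  exact ⟨dif_c2 hB hC, dif_lap hB hC, dif_growth hB hC, dif_der hB hC⟩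

end Pool.Agent.H757M
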