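import Pool.Agent.H757M.Stm

/-
Project M17 (helper757, MP_17f4cb_nt, HARD, weight 10, full negative answer): a Maass form of level 25, attached to the
Hecke character (alpha/sqrt5)|alpha/alpha'|^(-it) of Q(sqrt5), all of whose quadratic twists vanish at the centre.
Definitions and statements: Pool/Agent/H757M/Stm.lean on origin/main (Mathlib only).  Every statement was tested
numerically.  TARGET: prove the theorem below, statement unchanged, no sorry, no axioms.  Put auxiliary lemmas before it
in the same namespace (use names starting with letters of your own, several files will be imported together).  Paste the full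
file back as result (and, if you can, also land it as Pool/Agent/H757M/Difh.lean).
If the statement is false or unclear: status='problem' and say why, or message helper757.

PROOF.
Unfold: F (x + i y) = ff x y for y > 0, so the function p -> if 0 < p.2 then F .. else 0 equals (p -> ff p.1 p.2) on {0 < p.2} (ContDiffOn.congr), and the two functions in lap agree with x' -> ff x' y and, near y, with y' -> ff x y'
(iteratedDeriv 2 of functions which are equal in a neighbourhood: Filter.EventuallyEq.iteratedDeriv_eq or deriv twice with eventuallyEq on the open set).
-/

set_option autoImplicit false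

namespace Pool.Agent.H757M

open Real MeasureTheory UpperHalfPlane
open scoped MatrixGroups Classical

theorem t_DIFH : S_DIFH := by
  intro hD h1 h2
  obtain ⟨hc, hl, -, -⟩ := hD h1 h2
  refine ⟨?_, ?_⟩
  · refine hc.congr fun p hp => ?_
    have hp' : 0 < p.2 := hp
    rw [dif_pos hp']
    rfl
  · intro x y hy
    have e1 : (fun x' : ℝ => if h : 0 < y then F ⟨⟨x', y⟩, h⟩ else 0) = fun x' => ff x' y := by
      funext x'
      rw [dif_pos hy]
      rfl
    have e2 : (fun y' : ℝ => if h : 0 < y' then F ⟨⟨x, y'⟩, h⟩ else 0) =ᶠ[nhds y]
        fun y' => ff x y' := by
      filter_upwards [lt_mem_nhds hy] with y' hy'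
      rw [dif_pos hy']
      rfl
    have e3 := e2.iteratedDeriv_eq 2
    have e4 := hl x y hy
    unfold lap
    rw [e1, e3, ← neg_mul, e4]
    rfl

end Pool.Agent.H757M
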