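import Pool.Agent.H757M.Stm

/-
Project M17 (helper757, MP_17f4cb_nt, HARD, weight 10, full negative answer): a Maass form of level 25, attached to the
Hecke character (alpha/sqrt5)|alpha/alpha'|^(-it) of Q(sqrt5), all of whose quadratic twists vanish at the centre.
Definitions and statements: Pool/Agent/H757M/Stm.lean on origin/main (Mathlib only).  Every statement was tested
numerically.  TARGET: prove the theorem below, statement unchanged, no sorry, no axioms.  Put auxiliary lemmas before it
in the same namespace (use names starting with letters of your own, several files will be imported together).  Paste the full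
file back as result (and, if you can, also land it as Pool/Agent/H757M/Eul.lean).
If the statement is false or unclear: status='problem' and say why, or message helper757.

PROOF.
b(n) = aa n * chi n.  S_COEF: aa 1 = 1, aa p aa n = aa(pn) + [p | n] aa(n/p) for p <> 5, aa(5n) = 0, |aa n| <= C n.  So Summable (b n n^{-s}) for Re s > 2.  From the recursion aa(mn) = aa m aa n for coprime m, n (induction on m: if p^k || m .. the recursion gives
aa(p^(k+1) n) = aa p aa(p^k n) - aa(p^(k-1) n) for all n, hence aa(p^k n) = aa(p^k) aa(n) for p not dividing n).  Use the Euler product for multiplicative functions: EulerProduct.eulerProduct_hasProd (f 1 = 1, f mul on coprime, summable norm, f 0 = 0): HasProd (p -> sum_e b(p^e) p^{-es}).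
Local factor: with X = chi(p) p^{-s}, A = aa p, c_e = aa(p^e): c_{e+1} = A c_e - c_{e-1}, so (1 - A X + X^2) sum c_e X^e = 1 (absolute convergence), which gives sum = (1 - A X + X^2)^{-1} (the product is 1, so the factor is not zero).  For p = 5: c_e = 0 for e >= 1, and
aa 5 = 0: factor 1.  The tsum equals the product.
-/

set_option autoImplicit false

namespace Pool.Agent.H757M

open Real MeasureTheory UpperHalfPlane
open scoped MatrixGroups Classical

theorem eulq_five (hC : S_COEF) {n : ℕ} (h : 5 ∣ n) : aa n = 0 := by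
  obtain ⟨_, _, h3, _, _⟩ := hC
  apply h3 <;> omega

theorem eulq_mul (hC : S_COEF) : ∀ m n : ℕ, Nat.Coprime m n → aa (m * n) = aa m * aa n := by
  intro m
  induction m using Nat.strong_induction_on with
  | _ m ih =>
    intro n hmn
    rcases Nat.eq_zero_or_pos m with rfl | hm
    · rw [zero_mul, hC.1, zero_mul]
    rcases Nat.eq_zero_or_pos n with rfl | hn
    · rw [mul_zero, hC.1, mul_zero]
    by_cases h1 : m = 1
    · subst h1
      rw [one_mul, hC.2.1, one_mul]
    obtain ⟨p, hp, hpm⟩ := Nat.exists_prime_and_dvd h1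
    by_cases h5 : p = 5
    · subst h5
      rw [eulq_five hC (hpm.mul_right n), eulq_five hC hpm, zero_mul]
    obtain ⟨m', rfl⟩ := hpm
    have hm' : 0 < m' := Nat.pos_of_mul_pos_left hm
    have hlt : m' < p * m' := by
      have := hp.two_le
      nlinarith
    have hcop' : Nat.Coprime m' n := Nat.Coprime.coprime_dvd_left (Dvd.intro_left p rfl) hmn
    have hpn : ¬ p ∣ n := by
      intro h
      have := Nat.Coprime.coprime_dvd_left (Dvd.intro m' rfl) hmn
      exact hp.one_lt.ne' (Nat.Coprime.eq_one_of_dvd this h)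
    have r1 := hC.2.2.2.2 p hp h5 (m' * n) (Nat.mul_pos hm' hn)
    have r2 := hC.2.2.2.2 p hp h5 m' hm'
    rw [mul_assoc p m' n]
    by_cases hd : p ∣ m'
    · obtain ⟨m'', rfl⟩ := hd
      have e1 : p * m'' * n / p = m'' * n := by
        rw [mul_assoc]; exact Nat.mul_div_cancel_left _ hp.pos
      have e2 : p * m'' / p = m'' := Nat.mul_div_cancel_left _ hp.pos
      rw [if_pos ((Dvd.intro m'' rfl).mul_right n), e1] at r1
      rw [if_pos (Dvd.intro m'' rfl), e2] at r2
      have hm'' : 0 < m'' := Nat.pos_of_mul_pos_left hm'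
      have i1 := ih (p * m'') hlt n hcop'
      have hlt2 : m'' < p * (p * m'') := by
        have := hp.two_le
        nlinarith
      have i2 := ih m'' hlt2 n (Nat.Coprime.coprime_dvd_left (Dvd.intro_left p rfl) hcop')
      rw [i1, i2] at r1
      linear_combination (-1 : ℂ) * r1 + aa n * r2
    · have hd' : ¬ p ∣ m' * n := by
        intro h
        rcases (hp.dvd_mul).1 h with h | h
        · exact hd h
        · exact hpn h
      rw [if_neg hd', add_zero] at r1
      rw [if_neg hd, add_zero] at r2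
      have i1 := ih m' hlt n hcop'
      rw [i1] at r1
      rw [← r1, ← r2]
      ring

theorem eulq_pow (p e : ℕ) (s : ℂ) : ((p ^ e : ℕ) : ℂ) ^ s = ((p : ℂ) ^ s) ^ e := by
  induction e with
  | zero => simp
  | succ e ih =>
    rw [pow_succ, Nat.cast_mul, Complex.natCast_mul_natCast_cpow, ih, pow_succ]

theorem eulq_local {c : ℕ → ℂ} {A X : ℂ} (h0 : c 0 = 1) (h1 : c 1 = A)
    (hrec : ∀ e, c (e + 2) = A * c (e + 1) - c e) (hs : Summable fun e => c e * X ^ e) :
    ∑' e, c e * X ^ e = (1 - A * X + X ^ 2)⁻¹ := by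
  set g : ℕ → ℂ := fun e => c e * X ^ e with hg
  have hs1 : Summable fun e => g (e + 1) := (summable_nat_add_iff 1).2 hs
  have hs2 : Summable fun e => g (e + 2) := (summable_nat_add_iff 2).2 hs
  have e1 : ∑' e, g e = g 0 + ∑' e, g (e + 1) := hs.tsum_eq_zero_add
  have e2 : ∑' e, g (e + 1) = g 1 + ∑' e, g (e + 2) := hs1.tsum_eq_zero_add
  have e3 : ∑' e, g (e + 2) = A * X * ∑' e, g (e + 1) - X ^ 2 * ∑' e, g e := by
    rw [← tsum_mul_left, ← tsum_mul_left, ← (hs1.mul_left (A * X)).tsum_sub (hs.mul_left (X ^ 2))]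
    refine tsum_congr fun e => ?_
    simp only [hg, hrec]
    ring
  have g0 : g 0 = 1 := by simp [hg, h0]
  have g1 : g 1 = A * X := by simp [hg, h1]
  have key : (∑' e, g e) * (1 - A * X + X ^ 2) = 1 := by
    rw [e3, g1] at e2
    rw [g0] at e1
    have e4 : ∑' e, g (e + 1) = ∑' e, g e - 1 := by rw [e1]; ring
    rw [e4] at e2
    linear_combination e2
  exact eq_inv_of_mul_eq_one_left key

theorem t_EUL : S_EUL := by
  intro hC M χ s hs
  set f : ℕ → ℂ := fun n => aa n * χ n * (n : ℂ) ^ (-s) with hf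
  obtain ⟨C, hCb⟩ := hC.2.2.2.1
  have hC0 : 0 ≤ C := by
    have := (norm_nonneg _).trans (hCb 1)
    simpa using this
  have f0 : f 0 = 0 := by simp [hf, hC.1]
  have f1 : f 1 = 1 := by simp [hf, hC.2.1]
  have hnorm : Summable fun n => ‖f n‖ := by
    have hb : Summable fun n : ℕ => C * (1 / (n : ℝ) ^ (s.re - 1)) :=
      (Real.summable_one_div_nat_rpow.2 (by linarith)).mul_left C
    refine Summable.of_nonneg_of_le (fun n => norm_nonneg _) (fun n => ?_) hb
    rcases Nat.eq_zero_or_pos n with rfl | hn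
    · rw [f0, norm_zero]
      positivity
    · have hn' : (0 : ℝ) < n := by exact_mod_cast hn
      simp only [hf]
      rw [norm_mul, norm_mul, Complex.norm_natCast_cpow_of_pos hn]
      have h1 : ‖χ n‖ ≤ 1 := DirichletCharacter.norm_le_one χ _
      calc ‖aa n‖ * ‖χ n‖ * (n : ℝ) ^ (-s).re ≤ C * n * 1 * (n : ℝ) ^ (-s).re := by
            have := hCb n
            gcongr
        _ = C * (1 / (n : ℝ) ^ (s.re - 1)) := by
            rw [Complex.neg_re, Real.rpow_sub_one hn'.ne', Real.rpow_neg hn'.le]
            have := Real.rpow_pos_of_pos hn' s.re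
            field_simp
  refine ⟨hnorm.of_norm, ?_⟩
  have hmul : ∀ {m n : ℕ}, Nat.Coprime m n → f (m * n) = f m * f n := by
    intro m n hmn
    simp only [hf]
    rw [eulq_mul hC m n hmn, Nat.cast_mul, Nat.cast_mul, map_mul,
      Complex.natCast_mul_natCast_cpow]
    ring
  have key := EulerProduct.eulerProduct_hasProd f1 hmul hnorm f0
  convert key using 1
  funext p
  symm
  have hp := p.2
  set X : ℂ := χ ((p : ℕ) : ZMod M) * ((p : ℕ) : ℂ) ^ (-s) with hX
  have hfe : ∀ e : ℕ, f ((p : ℕ) ^ e) = aa ((p : ℕ) ^ e) * X ^ e := by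
    intro e
    simp only [hf, hX]
    rw [eulq_pow, Nat.cast_pow, map_pow, mul_pow]
    ring
  have hX2 : χ ((p : ℕ) : ZMod M) ^ 2 * ((p : ℕ) : ℂ) ^ (-(2 * s)) = X ^ 2 := by
    rw [hX, mul_pow]
    congr 1
    rw [show -(2 * s) = ((2 : ℕ) : ℂ) * (-s) by push_cast; ring, Complex.cpow_nat_mul]
  have hsum : Summable fun e : ℕ => aa ((p : ℕ) ^ e) * X ^ e := by
    have h1 : Summable (f ∘ fun e : ℕ => (p : ℕ) ^ e) :=
      hnorm.of_norm.comp_injective (Nat.pow_right_injective hp.two_le)
    refine h1.congr fun e => ?_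
    exact hfe e
  rw [tsum_congr hfe]
  by_cases h5 : (p : ℕ) = 5
  · rw [if_pos h5, add_zero]
    have hz : aa (p : ℕ) = 0 := eulq_five hC (by rw [h5])
    rw [hz, zero_mul, zero_mul, sub_zero, inv_one, tsum_eq_single 0]
    · simp [hC.2.1]
    · intro e he
      rw [eulq_five hC (by rw [h5]; exact dvd_pow_self 5 he), zero_mul]
  · rw [if_neg h5, hX2, mul_assoc, ← hX]
    refine eulq_local (c := fun e => aa ((p : ℕ) ^ e)) ?_ ?_ ?_ hsum
    · simp [hC.2.1]
    · simp
    · intro e
      have h1 := hC.2.2.2.2 p hp h5 ((p : ℕ) ^ (e + 1)) (pow_pos hp.pos _)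
      rw [if_pos (dvd_pow_self _ (Nat.succ_ne_zero e))] at h1
      have e1 : (p : ℕ) ^ (e + 1) / p = (p : ℕ) ^ e := by
        rw [pow_succ]; exact Nat.mul_div_cancel _ hp.pos
      have e2 : (p : ℕ) * (p : ℕ) ^ (e + 1) = (p : ℕ) ^ (e + 2) := by ring
      rw [e1, e2] at h1
      show aa ((p : ℕ) ^ (e + 2)) = aa p * aa ((p : ℕ) ^ (e + 1)) - aa ((p : ℕ) ^ e)
      rw [h1]
      ring

end Pool.Agent.H757M
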