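import Pool.Agent.H757M.Stm

/-!
# M17 FIVE: quadratic characters of conductor divisible by five
-/

set_option autoImplicit false

namespace Pool.Agent.H757M.Five

open DirichletCharacter

local instance fact5 : Fact (Nat.Prime 5) := ⟨by norm_num⟩

/-- the quadratic symbol modulo five -/
noncomputable def x5 : DirichletCharacter ℂ 5 :=
  (quadraticChar (ZMod 5)).ringHomComp (Int.castRingHom ℂ)

lemma qc1 : quadraticChar (ZMod 5) 1 = 1 := by decide
lemma qc4 : quadraticChar (ZMod 5) 4 = 1 := by decide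
lemma qc2 : quadraticChar (ZMod 5) 2 = -1 := by decide
lemma qc3 : quadraticChar (ZMod 5) 3 = -1 := by decide

lemma x5_1 : x5 1 = 1 := by simp [x5]
lemma x5_4 : x5 4 = 1 := by
  simp only [x5, MulChar.ringHomComp_apply, qc4]; simp
lemma x5_2 : x5 2 = -1 := by
  simp only [x5, MulChar.ringHomComp_apply, qc2]; simp
lemma x5_3 : x5 3 = -1 := by
  simp only [x5, MulChar.ringHomComp_apply, qc3]; simp

lemma x5_sq : x5 ^ 2 = 1 := by
  ext u
  rw [MulChar.pow_apply_coe, MulChar.one_apply_coe]
  have h : ∀ a : ZMod 5, IsUnit a → a = 1 ∨ a = 2 ∨ a = 3 ∨ a = 4 := by decide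
  rcases h u u.isUnit with h | h | h | h <;> rw [h] <;> simp [x5_1, x5_2, x5_3, x5_4]

lemma sq_eval {M : ℕ} {χ : DirichletCharacter ℂ M} (h2 : χ ^ 2 = 1) {a : ZMod M} (ha : IsUnit a) :
    χ (a * a) = 1 := by
  have : (χ ^ 2) a = 1 := by rw [h2]; exact MulChar.one_apply ha
  rw [map_mul, ← sq, ← MulChar.pow_apply' _ (by norm_num), this]

/-- the conductor is not divisible by twenty-five -/
lemma not_25 {M : ℕ} (hM : 0 < M) {χ : DirichletCharacter ℂ M} (hp : χ.IsPrimitive)
    (h2 : χ ^ 2 = 1) (h25 : 25 ∣ M) : False := by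
  have : NeZero M := ⟨hM.ne'⟩
  obtain ⟨k, hk⟩ := h25
  have hd : 5 * k ∣ M := ⟨5, by rw [hk]; ring⟩
  have hf : FactorsThrough χ (5 * k) := by
    rw [factorsThrough_iff_ker_unitsMap hd]
    intro u hu
    rw [MonoidHom.mem_ker] at hu ⊢
    have hu1 : (ZMod.castHom hd (ZMod (5 * k))) (u : ZMod M) = 1 := by
      have := congrArg Units.val hu
      simpa [ZMod.unitsMap_def] using this
    -- u = 1 + 5 k t
    obtain ⟨t, ht⟩ : ∃ t : ZMod M, (u : ZMod M) = 1 + (5 * k : ℕ) * t := by
      have hz : (ZMod.castHom hd (ZMod (5 * k))) ((u : ZMod M) - 1) = 0 := by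
        rw [map_sub, hu1, map_one, sub_self]
      have hz' : (((u : ZMod M) - 1).val : ZMod (5 * k)) = 0 := by
        have e : ((u : ZMod M) - 1) = ((((u : ZMod M) - 1).val : ℕ) : ZMod M) := by simp
        rw [e, map_natCast] at hz
        exact hz
      rw [ZMod.natCast_eq_zero_iff] at hz'
      obtain ⟨t, ht⟩ := hz'
      refine ⟨(t : ZMod M), ?_⟩
      have e : ((u : ZMod M) - 1) = ((((u : ZMod M) - 1).val : ℕ) : ZMod M) := by simp
      rw [ht] at e
      rw [Nat.cast_mul] at e
      rw [← e]; ring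
    have h0 : ((25 * k : ℕ) : ZMod M) = 0 := by rw [← hk]; simp
    have h0' : (25 : ZMod M) * (k : ZMod M) = 0 := by
      have := h0; push_cast at this; exact this
    have hu5 : (u : ZMod M) ^ 5 = 1 := by
      rw [ht]; push_cast
      linear_combination (t + 10 * (k : ZMod M) * t ^ 2 + 50 * (k : ZMod M) ^ 2 * t ^ 3 +
        125 * (k : ZMod M) ^ 3 * t ^ 4 + 125 * (k : ZMod M) ^ 4 * t ^ 5) * h0'
    have hc : χ (u : ZMod M) = 1 := by
      have e1 : χ ((u : ZMod M) ^ 5) = 1 := by rw [hu5, map_one]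
      have e2 : χ ((u : ZMod M) * u) = 1 := sq_eval h2 u.isUnit
      rw [map_mul] at e2
      rw [map_pow] at e1
      have : χ (u : ZMod M) ^ 5 = (χ (u : ZMod M) * χ (u : ZMod M)) ^ 2 * χ (u : ZMod M) := by ring
      rw [this, e2] at e1
      simpa using e1
    apply Units.ext
    rw [MulChar.coe_toUnitHom]
    exact hc
  have := conductor_le_conductor_mem_conductorSet (χ := χ) (d := 5 * k) hf
  have hcd : χ.conductor ∣ 5 * k := conductor_dvd_of_mem_conductorSet χ hf
  rw [(isPrimitive_def _).1 hp, hk] at hcd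
  have hk0 : 0 < k := by
    rcases Nat.eq_zero_or_pos k with h | h
    · subst h; omega
    · exact h
  have := Nat.le_of_dvd (by omega) hcd
  omega

theorem five {M : ℕ} (hM : 0 < M) (χ : DirichletCharacter ℂ M) (hp : χ.IsPrimitive)
    (ho : orderOf χ = 2) (h5 : 5 ∣ M) :
    (M = 5 ∧ ∀ n : ℕ, n % 5 = 1 ∨ n % 5 = 4 → χ n = 1) ∨
    ∃ (M' : ℕ) (χ' : DirichletCharacter ℂ M'), (0 < M' ∧ χ'.IsPrimitive ∧ orderOf χ' = 2) ∧
      M = 5 * M' ∧ Nat.Coprime M' 5 ∧
      ∀ n : ℕ, n % 5 = 1 ∨ n % 5 = 4 → χ n = χ' n := by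
  have h2 : χ ^ 2 = 1 := by rw [← ho]; exact pow_orderOf_eq_one χ
  obtain ⟨N, rfl⟩ := h5
  have hN : 0 < N := by omega
  have : NeZero (5 * N) := ⟨hM.ne'⟩
  have : NeZero N := ⟨hN.ne'⟩
  have h5N : ¬ 5 ∣ N := by
    intro ⟨k, hk⟩
    exact not_25 hM hp h2 ⟨k, by rw [hk]; ring⟩
  have hcop : Nat.Coprime 5 N := (Nat.Prime.coprime_iff_not_dvd (by norm_num)).2 h5N
  -- CRT
  let e := ZMod.chineseRemainder hcop
  have d5 : 5 ∣ 5 * N := ⟨N, rfl⟩
  have dN : N ∣ 5 * N := ⟨5, by ring⟩
  have e1 : ∀ a, (e a).1 = ZMod.castHom d5 (ZMod 5) a := by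
    intro a
    have : (RingHom.fst (ZMod 5) (ZMod N)).comp e.toRingHom = ZMod.castHom d5 (ZMod 5) :=
      Subsingleton.elim _ _
    exact congrArg (fun f => f a) this
  have e2 : ∀ a, (e a).2 = ZMod.castHom dN (ZMod N) a := by
    intro a
    have : (RingHom.snd (ZMod 5) (ZMod N)).comp e.toRingHom = ZMod.castHom dN (ZMod N) :=
      Subsingleton.elim _ _
    exact congrArg (fun f => f a) this
  -- elements congruent to one modulo N and to ± 1 modulo 5 are squares
  have hsq : ∀ u : ZMod (5 * N), (e u).2 = 1 → ((e u).1 = 1 ∨ (e u).1 = 4) → χ u = 1 := by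
    intro u hu2 hu1
    rcases hu1 with h | h
    · have : u = 1 := by
        apply e.injective
        rw [map_one]; exact Prod.ext h hu2
      rw [this, map_one]
    · let r := e.symm (2, 1)
      have hr : u = r * r := by
        apply e.injective
        rw [map_mul]
        simp only [r, RingEquiv.apply_symm_apply]
        refine Prod.ext ?_ ?_
        · rw [h]; exact (show (4 : ZMod 5) = 2 * 2 by decide)
        · rw [hu2]; simp
      have hru : IsUnit r := by
        have : IsUnit ((2, 1) : ZMod 5 × ZMod N) := by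
          rw [Prod.isUnit_iff]
          exact ⟨(show IsUnit (2 : ZMod 5) by decide), isUnit_one⟩
        exact this.map e.symm
      rw [hr]; exact sq_eval h2 hru
  -- values of the fives character
  set ω : DirichletCharacter ℂ (5 * N) := changeLevel d5 x5 with hω
  have hωu : ∀ u : ZMod (5 * N), IsUnit u → ω u = x5 ((e u).1) := by
    intro u hu
    obtain ⟨v, rfl⟩ := hu
    rw [hω, changeLevel_eq_cast_of_dvd, e1]
    rfl
  have hω2 : ω ^ 2 = 1 := by rw [hω, ← map_pow, x5_sq, map_one]
  have hunit5 : ∀ a : ZMod 5, IsUnit a → a = 1 ∨ a = 2 ∨ a = 3 ∨ a = 4 := by decide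
  have hfst : ∀ u : ZMod (5 * N), IsUnit u → IsUnit (e u).1 := by
    intro u hu
    exact (Prod.isUnit_iff.1 (hu.map e)).1
  set ψ : DirichletCharacter ℂ (5 * N) := χ * ω with hψ
  have hψ2 : ψ ^ 2 = 1 := by rw [hψ, mul_pow, h2, hω2, one_mul]
  have hχψ : χ = ψ * ω := by
    rw [hψ, mul_assoc, ← sq, hω2, mul_one]
  -- the conductor of `χ` does not divide N
  have hnf : ¬ FactorsThrough χ N := by
    intro h
    have := Nat.le_of_dvd hN (conductor_dvd_of_mem_conductorSet χ h)
    rw [(isPrimitive_def _).1 hp] at this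
    omega
  have hkerN : ∀ u : (ZMod (5 * N))ˣ, u ∈ (ZMod.unitsMap dN).ker ↔ (e (u : ZMod (5 * N))).2 = 1 := by
    intro u
    rw [MonoidHom.mem_ker, e2, Units.ext_iff]
    simp [ZMod.unitsMap_def]
  have hψf : FactorsThrough ψ N := by
    rw [factorsThrough_iff_ker_unitsMap dN]
    intro u hu
    rw [hkerN] at hu
    rw [MonoidHom.mem_ker]
    apply Units.ext
    rw [MulChar.coe_toUnitHom, hψ, MulChar.mul_apply, hωu _ u.isUnit]
    have hx : ∃ v : (ZMod (5 * N))ˣ, (e (v : ZMod (5 * N))).2 = 1 ∧ χ v ≠ 1 := by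
      by_contra hcon
      push Not at hcon
      apply hnf
      rw [factorsThrough_iff_ker_unitsMap dN]
      intro v hv
      rw [hkerN] at hv
      rw [MonoidHom.mem_ker]
      apply Units.ext
      rw [MulChar.coe_toUnitHom]
      exact hcon v hv
    obtain ⟨v, hv, hv1⟩ := hx
    have hvv : χ (v : ZMod (5 * N)) = -1 := by
      have e3 := sq_eval h2 v.isUnit
      rw [map_mul] at e3
      rcases mul_self_eq_one_iff.1 e3 with h | h
      · exact absurd h hv1
      · exact h
    have hv5 : (e (v : ZMod (5 * N))).1 = 2 ∨ (e (v : ZMod (5 * N))).1 = 3 := by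
      rcases hunit5 _ (hfst _ v.isUnit) with h | h | h | h
      · exact absurd (hsq _ hv (Or.inl h)) hv1
      · exact Or.inl h
      · exact Or.inr h
      · exact absurd (hsq _ hv (Or.inr h)) hv1
    rcases hunit5 _ (hfst _ u.isUnit) with h | h | h | h
    · rw [hsq _ hu (Or.inl h), h, x5_1]; simp
    · have h3 : χ ((u : ZMod (5 * N)) * v) = 1 := by
        apply hsq
        · rw [map_mul, Prod.snd_mul, hu, hv, one_mul]
        · rw [map_mul, Prod.fst_mul, h]
          rcases hv5 with h' | h' <;> rw [h'] <;> decide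
      rw [map_mul, hvv] at h3
      have : χ (u : ZMod (5 * N)) = -1 := by linear_combination -h3
      rw [this, h, x5_2]; simp
    · have h3 : χ ((u : ZMod (5 * N)) * v) = 1 := by
        apply hsq
        · rw [map_mul, Prod.snd_mul, hu, hv, one_mul]
        · rw [map_mul, Prod.fst_mul, h]
          rcases hv5 with h' | h' <;> rw [h'] <;> decide
      rw [map_mul, hvv] at h3
      have : χ (u : ZMod (5 * N)) = -1 := by linear_combination -h3
      rw [this, h, x5_3]; simp
    · rw [hsq _ hu (Or.inr h), h, x5_4]; simp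
  have hcN : ψ.conductor ∣ N := conductor_dvd_of_mem_conductorSet ψ hψf
  have hc5 : ω.conductor ∣ 5 := conductor_dvd_of_mem_conductorSet ω
    (show 5 ∈ ω.conductorSet from changeLevel_factorsThrough x5 d5)
  have hcψ : ψ.conductor = N := by
    have h3 := conductor_mul_dvd_lcm_conductor ψ ω
    rw [← hχψ, (isPrimitive_def _).1 hp] at h3
    have h4 : 5 * N ∣ ψ.conductor * 5 := by
      refine h3.trans ((Nat.lcm_dvd_mul _ _).trans ?_)
      exact Nat.mul_dvd_mul_left _ hc5
    have h5 : N ∣ ψ.conductor := by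
      have h6 : 5 * N ∣ 5 * ψ.conductor := by rw [mul_comm 5 ψ.conductor]; exact h4
      exact Nat.dvd_of_mul_dvd_mul_left (by norm_num) h6
    exact Nat.dvd_antisymm hcN h5
  by_cases hN1 : N = 1
  · left
    subst hN1
    refine ⟨by norm_num, fun n hn => ?_⟩
    apply hsq
    · exact Subsingleton.elim _ _
    · rw [map_natCast]
      have : ((n : ZMod 5 × ZMod 1)).1 = (n : ZMod 5) := by simp
      rw [this]
      have h : ((n : ℕ) : ZMod 5) = ((n % 5 : ℕ) : ZMod 5) := by simp
      rw [h]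
      rcases hn with h | h <;> rw [h]
      · left; rfl
      · right; rfl
  · right
    have hprim := ψ.primitiveCharacter_isPrimitive
    have hlev := changeLevel_primitiveCharacter ψ
    refine ⟨ψ.conductor, ψ.primitiveCharacter, ⟨by rw [hcψ]; exact hN, hprim, ?_⟩, by rw [hcψ],
      by rw [hcψ]; exact hcop.symm, ?_⟩
    · have h3 : ψ.primitiveCharacter ^ 2 = 1 := by
        apply changeLevel_injective (R := ℂ) ψ.conductor_dvd_level
        rw [map_pow, hlev, hψ2, map_one]
      have h4 : ψ.primitiveCharacter ≠ 1 := by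
        intro h
        have h5 : ψ = 1 := by rw [← hlev, h, map_one]
        have h6 := (eq_one_iff_conductor_eq_one (χ := ψ)).1 h5
        omega
      exact orderOf_eq_prime h3 h4
    · intro n hn
      by_cases hc : Nat.Coprime n N
      · have hn5 : Nat.Coprime n 5 := by
          apply Nat.Coprime.symm
          rw [Nat.Prime.coprime_iff_not_dvd (by norm_num)]
          omega
        have hcc : Nat.Coprime n (5 * N) := Nat.Coprime.mul_right hn5 hc
        have h3 : IsCoprime ((n : ℤ)) ((5 * N : ℕ) : ℤ) := Nat.isCoprime_iff_coprime.2 hcc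
        have h4 := ψ.primitiveCharacter_apply_of_isCoprime h3
        rw [Int.cast_natCast, Int.cast_natCast] at h4
        have hu : IsUnit ((n : ℕ) : ZMod (5 * N)) := (ZMod.isUnit_iff_coprime n (5 * N)).2 hcc
        rw [h4, hψ, MulChar.mul_apply, hωu _ hu, map_natCast e]
        have h6 : ((n : ZMod 5 × ZMod N)).1 = (n : ZMod 5) := by simp
        rw [h6]
        have h : ((n : ℕ) : ZMod 5) = ((n % 5 : ℕ) : ZMod 5) := by simp
        rw [h]
        rcases hn with h | h <;> rw [h]
        · rw [show ((1 : ℕ) : ZMod 5) = 1 from rfl, x5_1, mul_one]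
        · rw [show ((4 : ℕ) : ZMod 5) = 4 from rfl, x5_4, mul_one]
      · have h3 : ¬ IsUnit ((n : ℕ) : ZMod (5 * N)) := by
          rw [ZMod.isUnit_iff_coprime]
          intro h
          exact hc (Nat.Coprime.coprime_mul_left_right h)
        have h4 : ¬ IsUnit ((n : ℕ) : ZMod ψ.conductor) := by
          rw [ZMod.isUnit_iff_coprime, hcψ]
          exact hc
        rw [χ.map_nonunit h3, MulChar.map_nonunit _ h4]


end Pool.Agent.H757M.Five

namespace Pool.Agent.H757M

open Real MeasureTheory UpperHalfPlane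
open scoped MatrixGroups Classical

theorem t_FIVE : S_FIVE := by
  intro M χ hM hχ h5
  rcases Five.five hM χ hχ.1 hχ.2 h5 with h | ⟨M', χ', h1, h2, h3, h4⟩
  · exact Or.inl h
  · exact Or.inr ⟨M', χ', h1.2, h2, h3, h4⟩

end Pool.Agent.H757M
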