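import Pool.Agent.H757M.Stm

set_option autoImplicit false

namespace Pool.Agent.H757M

open Real MeasureTheory UpperHalfPlane
open scoped MatrixGroups Classical

theorem gen_zero (H : Subgroup SL(2, ℤ)) (hT : ModularGroup.T ∈ H) (hm : (-1 : SL(2, ℤ)) ∈ H)
    (γ : SL(2, ℤ)) (hc : γ 1 0 = 0) : γ ∈ H := by
  have hdet := γ.det_coe
  rw [Matrix.det_fin_two] at hdet
  have hc' : (γ : Matrix (Fin 2) (Fin 2) ℤ) 1 0 = 0 := hc
  rw [hc', mul_zero, sub_zero] at hdet
  rcases Int.mul_eq_one_iff_eq_one_or_neg_one.mp hdet with ⟨h0, h1⟩ | ⟨h0, h1⟩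
  · have : γ = ModularGroup.T ^ ((γ : Matrix (Fin 2) (Fin 2) ℤ) 0 1) := by
      apply Subtype.ext
      rw [ModularGroup.coe_T_zpow]
      ext i j
      fin_cases i <;> fin_cases j <;> simp [h0, h1, hc']
    rw [this]
    exact H.zpow_mem hT _
  · have : γ = (-1) * ModularGroup.T ^ (-((γ : Matrix (Fin 2) (Fin 2) ℤ) 0 1)) := by
      apply Subtype.ext
      rw [Matrix.SpecialLinearGroup.coe_mul, ModularGroup.coe_T_zpow]
      ext i j
      fin_cases i <;> fin_cases j <;> simp [h0, h1, hc']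
    rw [this]
    exact H.mul_mem hm (H.zpow_mem hT _)

theorem gen_step (H : Subgroup SL(2, ℤ)) (hT : ModularGroup.T ∈ H) (hm : (-1 : SL(2, ℤ)) ∈ H)
    (h25 : ∀ γ : SL(2, ℤ), γ 1 0 = 25 → γ ∈ H) (n : ℕ) :
    ∀ γ : SL(2, ℤ), (γ 1 0).natAbs = 25 * n → γ ∈ H := by
  induction n using Nat.strong_induction_on with
  | _ n ih =>
    -- the positive case
    have key : ∀ γ : SL(2, ℤ), γ 1 0 = 25 * (n : ℤ) → γ ∈ H := by
      intro γ hγ
      rcases Nat.lt_or_ge n 2 with hn | hn
      · interval_cases n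
        · exact gen_zero H hT hm γ (by simpa using hγ)
        · exact h25 γ (by simpa using hγ)
      have hγ' : (γ : Matrix (Fin 2) (Fin 2) ℤ) 1 0 = 25 * (n : ℤ) := hγ
      have hdet := γ.det_coe
      rw [Matrix.det_fin_two, hγ'] at hdet
      set a := (γ : Matrix (Fin 2) (Fin 2) ℤ) 0 0 with ha
      set b := (γ : Matrix (Fin 2) (Fin 2) ℤ) 0 1 with hb
      set d := (γ : Matrix (Fin 2) (Fin 2) ℤ) 1 1 with hd
      have hn' : (2 : ℤ) ≤ n := by exact_mod_cast hn
      have hr0 : 0 ≤ (-d) % (n : ℤ) := Int.emod_nonneg _ (by omega)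
      have hr1 : (-d) % (n : ℤ) < n := Int.emod_lt_of_pos _ (by omega)
      have hdm : (n : ℤ) * ((-d) / (n : ℤ)) + (-d) % (n : ℤ) = -d := Int.mul_ediv_add_emod _ _
      have hr2 : (-d) % (n : ℤ) ≠ 0 := by
        intro h
        have h1 : (n : ℤ) ∣ -d := Int.dvd_of_emod_eq_zero h
        have h2 : (n : ℤ) ∣ d := (dvd_neg.mp h1)
        have h3 : (n : ℤ) ∣ 1 := by
          rw [← hdet]
          exact dvd_sub (h2.mul_left a) ((Dvd.intro_left 25 rfl).mul_left b)
        have := Int.le_of_dvd one_pos h3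
        omega
      obtain ⟨u, hu5, hu1, hu2⟩ : ∃ u : ℤ, ¬ (5 : ℤ) ∣ u ∧ -(n : ℤ) < n * u + d ∧ n * u + d < n := by
        by_cases h5 : (5 : ℤ) ∣ (-d) / (n : ℤ)
        · refine ⟨(-d) / (n : ℤ) + 1, ?_, ?_, ?_⟩
          · intro h
            omega
          · rw [mul_add]; omega
          · rw [mul_add]; omega
        · exact ⟨(-d) / (n : ℤ), h5, by omega, by omega⟩
      have hcop : IsCoprime u 25 := by
        have h5p : Prime (5 : ℤ) := by norm_num
        have h1 : IsCoprime (5 : ℤ) u := (h5p.irreducible.coprime_iff_not_dvd).mpr hu5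
        have : IsCoprime u (5 ^ 2) := (h1.symm).pow_right
        simpa using this
      obtain ⟨s, t, hst⟩ := hcop
      -- s * u + t * 25 = 1
      let g : SL(2, ℤ) := ⟨!![u, -t; 25, s], by rw [Matrix.det_fin_two_of]; linarith⟩
      have hg : g ∈ H := h25 g rfl
      have hprod : (γ * g) 1 0 = 25 * (n * u + d) := by
        show (γ * g : SL(2, ℤ)).1 1 0 = _
        have : (γ * g : SL(2, ℤ)).1 1 0 = (γ : Matrix (Fin 2) (Fin 2) ℤ) 1 0 * u +
            (γ : Matrix (Fin 2) (Fin 2) ℤ) 1 1 * 25 := by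
          rw [Matrix.SpecialLinearGroup.coe_mul, Matrix.mul_apply, Fin.sum_univ_two]
          rfl
        rw [this, hγ', ← hd]
        ring
      have hmem : γ * g ∈ H := by
        apply ih (n * u + d).natAbs
        · omega
        · rw [hprod, Int.natAbs_mul]
          rfl
      exact (H.mul_mem_cancel_right hg).mp hmem
    intro γ hγ
    rcases Int.natAbs_eq (γ 1 0) with h | h
    · apply key
      rw [h, hγ]
      push_cast
      ring
    · have : (-1 : SL(2, ℤ)) * γ ∈ H := by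
        apply key
        have : ((-1 : SL(2, ℤ)) * γ) 1 0 = -(γ 1 0) := by
          simp
        rw [this, h, hγ]
        push_cast
        ring
      exact (H.mul_mem_cancel_left hm).mp this

theorem t_GEN : S_GEN := by
  intro H hT hm h25 γ hγ
  have h0 : ((γ 1 0 : ℤ) : ZMod 25) = 0 := by
    simpa [CongruenceSubgroup.Gamma0_mem] using hγ
  have h1 : (25 : ℤ) ∣ γ 1 0 := by
    have := (ZMod.intCast_zmod_eq_zero_iff_dvd (γ 1 0) 25).mp h0
    simpa using this
  obtain ⟨k, hk⟩ := h1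
  exact gen_step H hT hm h25 k.natAbs γ (by rw [hk, Int.natAbs_mul]; rfl)

end Pool.Agent.H757M
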