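import Pool.Agent.H757M.Stm

/-
Project M17, part HEC: the Hecke operators.
-/

set_option autoImplicit false

namespace Pool.Agent.H757M

open Real MeasureTheory UpperHalfPlane
open scoped MatrixGroups Classical

/-- the terms of the Fourier expansion -/
noncomputable def hecT (x y : ℝ) (n : ℕ) : ℂ :=
  ((√y * kk (n * y) * (2 * Real.cos (2 * π * (n * x))) : ℝ) : ℂ)

theorem hec_ff (x y : ℝ) : ff x y = ∑' n : ℕ, aa n * hecT x y n := rfl

theorem hec_kk (hB : S_BES1) : ∃ C : ℝ, 0 ≤ C ∧ ∀ y : ℝ, 0 < y → |kk y| ≤ C * y⁻¹ * Real.exp (-y) := by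
  obtain ⟨C, hC⟩ := hB.2.2 0 (by norm_num)
  refine ⟨|C|, abs_nonneg _, fun y hy => ?_⟩
  have h := hC y hy
  simp only [iteratedDeriv_zero, zero_add, pow_one] at h
  refine h.trans ?_
  have h1 : 0 ≤ y⁻¹ * Real.exp (-y) := by positivity
  calc C * y⁻¹ * Real.exp (-y) = C * (y⁻¹ * Real.exp (-y)) := by ring
    _ ≤ |C| * (y⁻¹ * Real.exp (-y)) := mul_le_mul_of_nonneg_right (le_abs_self C) h1
    _ = _ := by ring

theorem hec_summable (hB : S_BES1) (hC : S_COEF) (x y : ℝ) (hy : 0 < y) :
    Summable fun n : ℕ => aa n * hecT x y n := by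
  obtain ⟨K, hK0, hK⟩ := hec_kk hB
  obtain ⟨h0, -, -, ⟨C, hC⟩, -⟩ := hC
  have hgeo : Summable fun n : ℕ => (|C| * (√y * (K * y⁻¹) * 2)) * (Real.exp (-y)) ^ n := by
    apply Summable.mul_left
    apply summable_geometric_of_lt_one (Real.exp_pos _).le
    rw [Real.exp_lt_one_iff]
    linarith
  refine Summable.of_norm_bounded hgeo (fun n => ?_)
  rcases Nat.eq_zero_or_pos n with hn | hn
  · subst hn
    rw [h0]
    simp only [zero_mul, norm_zero]
    positivity
  · have hn' : (0 : ℝ) < n := by exact_mod_cast hn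
    rw [norm_mul]
    have h1 : ‖aa n‖ ≤ |C| * n := (hC n).trans (mul_le_mul_of_nonneg_right (le_abs_self C) hn'.le)
    have h2 : ‖hecT x y n‖ ≤ √y * (K * ((n : ℝ) * y)⁻¹ * Real.exp (-(n * y))) * 2 := by
      unfold hecT
      rw [Complex.norm_real, Real.norm_eq_abs, abs_mul, abs_mul, abs_mul,
        abs_of_nonneg (Real.sqrt_nonneg y)]
      have hk := hK (n * y) (by positivity)
      have hcos := Real.abs_cos_le_one (2 * π * (n * x))
      have h3 : |(2 : ℝ)| * |Real.cos (2 * π * (n * x))| ≤ 2 := by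
        rw [abs_of_pos (by norm_num : (0 : ℝ) < 2)]; linarith
      apply mul_le_mul _ h3 (by positivity)
      · have := hK (n * y) (by positivity)
        have h4 := abs_nonneg (kk (n * y))
        exact mul_nonneg (Real.sqrt_nonneg _) (h4.trans this)
      · exact mul_le_mul_of_nonneg_left hk (Real.sqrt_nonneg _)
    calc ‖aa n‖ * ‖hecT x y n‖
        ≤ (|C| * n) * (√y * (K * ((n : ℝ) * y)⁻¹ * Real.exp (-(n * y))) * 2) := by
          apply mul_le_mul h1 h2 (norm_nonneg _)
          positivity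
      _ = (|C| * (√y * (K * y⁻¹) * 2)) * (Real.exp (-y)) ^ n := by
          rw [← Real.exp_nat_mul]
          have : (n : ℝ) * -y = -(n * y) := by ring
          rw [this, mul_inv]
          field_simp

/-- the cosine sum -/
theorem hec_cos (p : ℕ) (hp : p.Prime) (n : ℕ) (x : ℝ) :
    ∑ b ∈ Finset.range p, Real.cos (2 * π * (n * ((x + b) / p))) =
      if p ∣ n then p * Real.cos (2 * π * (n * (x / p))) else 0 := by
  have hp0 : (p : ℝ) ≠ 0 := by exact_mod_cast hp.ne_zero
  have hp0' : (p : ℂ) ≠ 0 := by exact_mod_cast hp.ne_zero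
  split_ifs with h
  · obtain ⟨m, rfl⟩ := h
    rw [Finset.sum_congr rfl (g := fun _ => Real.cos (2 * π * (((p * m : ℕ) : ℝ) * (x / p))))]
    · simp
    · intro b _
      have : 2 * π * (((p * m : ℕ) : ℝ) * ((x + b) / p)) =
          2 * π * (((p * m : ℕ) : ℝ) * (x / p)) + ((m * b : ℕ) : ℝ) * (2 * π) := by
        push_cast
        field_simp
      rw [this, Real.cos_add_nat_mul_two_pi]
  · have hz := Complex.isPrimitiveRoot_exp p hp.ne_zero
    have hcop : Nat.Coprime n p := ((Nat.Prime.coprime_iff_not_dvd hp).2 h).symm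
    have hz2 := hz.pow_of_coprime n hcop
    have hg := hz2.geom_sum_eq_zero hp.one_lt
    have key : ∑ b ∈ Finset.range p, Real.cos (2 * π * (n * ((x + b) / p))) =
        (Complex.exp (((2 * π * (n * (x / p)) : ℝ) : ℂ) * Complex.I) *
          ∑ b ∈ Finset.range p, (Complex.exp (2 * π * Complex.I / p) ^ n) ^ b).re := by
      rw [Finset.mul_sum, Complex.re_sum]
      refine Finset.sum_congr rfl (fun b _ => ?_)
      rw [← pow_mul, ← Complex.exp_nat_mul, ← Complex.exp_add]
      rw [← Complex.exp_ofReal_mul_I_re]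
      congr 2
      push_cast
      field_simp
    rw [key, hg]
    simp

theorem hec_sum (hB : S_BES1) (hC : S_COEF) (p : ℕ) (hp : p.Prime) (x y : ℝ) (hy : 0 < y) :
    ∑ b ∈ Finset.range p, ff ((x + b) / p) (y / p) =
      √p * ∑' m : ℕ, aa (p * m) * hecT x y m := by
  have hp0 : (0 : ℝ) < p := by exact_mod_cast hp.pos
  have hyp : 0 < y / p := by positivity
  simp only [hec_ff]
  rw [← Summable.tsum_finsetSum (fun b _ => hec_summable hB hC _ _ hyp)]
  have e1 : ∀ n : ℕ, ∑ b ∈ Finset.range p, aa n * hecT ((x + b) / p) (y / p) n =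
      if p ∣ n then aa n * ((√(y / p) * kk (n * (y / p)) *
        (2 * (p * Real.cos (2 * π * (n * (x / p))))) : ℝ) : ℂ) else 0 := by
    intro n
    rw [← Finset.mul_sum]
    unfold hecT
    rw [← Complex.ofReal_sum, ← Finset.mul_sum, ← Finset.mul_sum, hec_cos p hp]
    split_ifs
    · rfl
    · simp
  simp only [e1]
  have hinj : Function.Injective (fun m : ℕ => p * m) := fun a b h =>
    Nat.eq_of_mul_eq_mul_left hp.pos h
  rw [← hinj.tsum_eq, ← tsum_mul_left]
  · refine tsum_congr (fun m => ?_)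
    rw [if_pos (dvd_mul_right p m)]
    unfold hecT
    have e2 : √(y / p) * kk (((p * m : ℕ) : ℝ) * (y / p)) *
        (2 * (p * Real.cos (2 * π * (((p * m : ℕ) : ℝ) * (x / p))))) =
        √p * (√y * kk (m * y) * (2 * Real.cos (2 * π * (m * x)))) := by
      have a1 : ((p * m : ℕ) : ℝ) * (y / p) = m * y := by push_cast; field_simp
      have a2 : ((p * m : ℕ) : ℝ) * (x / p) = m * x := by push_cast; field_simp
      have a3 : √(y / p) * p = √p * √y := by
        rw [Real.sqrt_div hy.le]
        have : √(p : ℝ) ≠ 0 := by positivity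
        field_simp
        rw [Real.sq_sqrt hp0.le]
      rw [a1, a2]
      calc √(y / p) * kk (m * y) * (2 * (p * Real.cos (2 * π * (m * x))))
          = (√(y / p) * p) * kk (m * y) * (2 * Real.cos (2 * π * (m * x))) := by ring
        _ = _ := by rw [a3]; ring
    rw [e2]
    push_cast
    ring
  · intro n hn
    rw [Function.mem_support] at hn
    by_contra hcon
    apply hn
    rw [if_neg]
    rintro ⟨m, rfl⟩
    exact hcon ⟨m, rfl⟩

theorem hec_big (p : ℕ) (hp : p.Prime) (x y : ℝ) (_ : 0 < y) :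
    ff (p * x) (p * y) = √p * ∑' N : ℕ, (if p ∣ N then aa (N / p) else 0) * hecT x y N := by
  have hp0 : (0 : ℝ) < p := by exact_mod_cast hp.pos
  have hinj : Function.Injective (fun m : ℕ => p * m) := fun a b h =>
    Nat.eq_of_mul_eq_mul_left hp.pos h
  rw [← hinj.tsum_eq, ← tsum_mul_left, hec_ff]
  · refine tsum_congr (fun m => ?_)
    rw [if_pos (dvd_mul_right p m), Nat.mul_div_cancel_left _ hp.pos]
    unfold hecT
    have e2 : √(p * y) * kk ((m : ℝ) * (p * y)) * (2 * Real.cos (2 * π * ((m : ℝ) * (p * x)))) =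
        √p * (√y * kk (((p * m : ℕ) : ℝ) * y) *
          (2 * Real.cos (2 * π * (((p * m : ℕ) : ℝ) * x)))) := by
      have a1 : ((p * m : ℕ) : ℝ) * y = m * (p * y) := by push_cast; ring
      have a2 : ((p * m : ℕ) : ℝ) * x = m * (p * x) := by push_cast; ring
      rw [a1, a2, Real.sqrt_mul hp0.le]
      ring
    rw [e2]
    push_cast
    ring
  · intro n hn
    rw [Function.mem_support] at hn
    by_contra hcon
    apply hn
    rw [if_neg, zero_mul]
    rintro ⟨m, rfl⟩
    exact hcon ⟨m, rfl⟩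

theorem hec_summable_big (hB : S_BES1) (hC : S_COEF) (p : ℕ) (hp : p.Prime) (x y : ℝ)
    (hy : 0 < y) :
    Summable fun N : ℕ => (if p ∣ N then aa (N / p) else 0) * hecT x y N := by
  have hp0 : (0 : ℝ) < p := by exact_mod_cast hp.pos
  have hinj : Function.Injective (fun m : ℕ => p * m) := fun a b h =>
    Nat.eq_of_mul_eq_mul_left hp.pos h
  rw [← hinj.summable_iff]
  · have hs := (hec_summable hB hC (p * x) (p * y) (by positivity)).mul_left ((√p : ℝ) : ℂ)⁻¹
    refine hs.congr (fun m => ?_)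
    simp only [Function.comp_apply]
    rw [if_pos (dvd_mul_right p m), Nat.mul_div_cancel_left _ hp.pos]
    have hsp : ((√p : ℝ) : ℂ) ≠ 0 := by
      rw [Complex.ofReal_ne_zero]; positivity
    have e2 : hecT (p * x) (p * y) m = ((√p : ℝ) : ℂ) * hecT x y (p * m) := by
      unfold hecT
      have a1 : ((p * m : ℕ) : ℝ) * y = m * (p * y) := by push_cast; ring
      have a2 : ((p * m : ℕ) : ℝ) * x = m * (p * x) := by push_cast; ring
      rw [a1, a2, Real.sqrt_mul hp0.le]
      push_cast
      ring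
    rw [e2]
    field_simp
  · intro N hN
    rw [if_neg, zero_mul]
    rintro ⟨m, rfl⟩
    exact hN ⟨m, rfl⟩

theorem hec_summable_p (hB : S_BES1) (hC : S_COEF) (p : ℕ) (hp : p.Prime) (hp5 : p ≠ 5) (x y : ℝ)
    (hy : 0 < y) : Summable fun N : ℕ => aa (p * N) * hecT x y N := by
  have h1 := (hec_summable hB hC x y hy).mul_left (aa p)
  have h2 := hec_summable_big hB hC p hp x y hy
  refine (h1.sub h2).congr (fun N => ?_)
  rcases Nat.eq_zero_or_pos N with hN | hN
  · subst hN
    simp [hC.1]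
  · have h3 := hC.2.2.2.2 p hp hp5 N hN
    rw [← mul_assoc, h3]
    ring

theorem t_HEC : S_HEC := by
  intro hB hC
  refine ⟨fun p hp hp5 x y hy => ?_, fun x y hy => ?_⟩
  · rw [hec_big p hp x y hy, hec_sum hB hC p hp x y hy, hec_ff, ← mul_add,
      ← (hec_summable_big hB hC p hp x y hy).tsum_add (hec_summable_p hB hC p hp hp5 x y hy),
      mul_assoc]
    have key : ∀ N : ℕ, (if p ∣ N then aa (N / p) else 0) * hecT x y N +
        aa (p * N) * hecT x y N = aa p * (aa N * hecT x y N) := by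
      intro N
      rcases Nat.eq_zero_or_pos N with hN | hN
      · subst hN
        simp [hC.1]
      · have h3 := hC.2.2.2.2 p hp hp5 N hN
        rw [← mul_assoc, h3]
        ring
    rw [tsum_congr key, tsum_mul_left]
  · have h := hec_sum hB hC 5 (by norm_num) x y hy
    have h5 : ∀ m : ℕ, aa (5 * m) = 0 := fun m => hC.2.2.1 _ (by omega) (by omega)
    have h6 : ∑' m : ℕ, aa (5 * m) * hecT x y m = 0 := by simp [h5]
    rw [h6, mul_zero] at h
    exact_mod_cast h

end Pool.Agent.H757M
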