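import Pool.Agent.H757M.Stm

set_option autoImplicit false

namespace Pool.Agent.H757M

open Real MeasureTheory UpperHalfPlane
open scoped MatrixGroups Classical

theorem nz_int_cos (m : ℤ) (hm : m ≠ 0) : ∫ x : ℝ in (0 : ℝ)..1, Real.cos (2 * π * m * x) = 0 := by
  have hc : (2 * π * m : ℝ) ≠ 0 := by
    have : (m : ℝ) ≠ 0 := by exact_mod_cast hm
    have := Real.pi_ne_zero
    positivity
  rw [intervalIntegral.integral_comp_mul_left (fun x => Real.cos x) hc, integral_cos]
  have : Real.sin (2 * π * m * 1) = 0 := by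
    have := Real.sin_int_mul_pi (2 * m)
    rw [← this]
    congr 1
    push_cast
    ring
  rw [this]
  simp

theorem nz_orth (n : ℕ) : ∫ x : ℝ in (0 : ℝ)..1, (2 * Real.cos (2 * π * (n * x))) * Real.cos (2 * π * x) =
    if n = 1 then 1 else 0 := by
  have h : ∀ x : ℝ, (2 * Real.cos (2 * π * (n * x))) * Real.cos (2 * π * x) =
      Real.cos (2 * π * ((n : ℤ) - 1 : ℤ) * x) + Real.cos (2 * π * ((n : ℤ) + 1 : ℤ) * x) := by
    intro x
    rw [Real.two_mul_cos_mul_cos]
    congr 2 <;> push_cast <;> ring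
  simp_rw [h]
  rw [intervalIntegral.integral_add]
  · rw [nz_int_cos ((n : ℤ) + 1) (by positivity), add_zero]
    split_ifs with h1
    · subst h1
      simp
    · apply nz_int_cos
      intro h2
      apply h1
      omega
  · apply Continuous.intervalIntegrable
    fun_prop
  · apply Continuous.intervalIntegrable
    fun_prop

theorem nz_kk (H1 : S_BES1) (H3 : S_COEF) (y : ℝ) (hy : 0 < y) (hcon : ∀ x : ℝ, ff x y = 0) :
    kk y = 0 := by
  obtain ⟨_, _, hdec⟩ := H1
  obtain ⟨C', hC'⟩ := hdec 0 (by norm_num)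
  obtain ⟨a0, a1, _, ⟨C, hC⟩, _⟩ := H3
  have hk : ∀ y : ℝ, 0 < y → |kk y| ≤ C' * y⁻¹ * Real.exp (-y) := by
    intro y hy
    have := hC' y hy
    simpa using this
  let G : ℕ → ℝ → ℂ := fun n x => aa n * ((√y * kk (n * y) * (2 * Real.cos (2 * π * (n * x))) : ℝ) : ℂ) *
    ((Real.cos (2 * π * x) : ℝ) : ℂ)
  have hGc : ∀ n, Continuous (G n) := by
    intro n
    simp only [G]
    fun_prop
  have hb : ∀ n x, ‖G n x‖ ≤ (C * √y * C' * y⁻¹ * 2) * (Real.exp (-y)) ^ n := by
    intro n x
    have hC0 : 0 ≤ C := by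
      have := (norm_nonneg _).trans (hC 1)
      simpa using this
    rcases Nat.eq_zero_or_pos n with h | h
    · subst h
      have hC'0 : 0 ≤ C' := by
        have := (abs_nonneg _).trans (hk 1 one_pos)
        simp at this
        by_contra hn
        push Not at hn
        have := mul_neg_of_neg_of_pos hn (Real.exp_pos (-1))
        linarith
      simp only [G, a0]
      simp
      positivity
    · have hn : (0 : ℝ) < n := by exact_mod_cast h
      have e1 : ‖G n x‖ = ‖aa n‖ * (√y * |kk (n * y)| * (2 * |Real.cos (2 * π * (n * x))|)) *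
          |Real.cos (2 * π * x)| := by
        simp only [G, norm_mul, Complex.norm_real, Real.norm_eq_abs]
        rw [abs_of_nonneg (Real.sqrt_nonneg y), abs_of_pos (by norm_num : (0 : ℝ) < 2)]
      rw [e1]
      have e2 : |kk (n * y)| ≤ C' * (n * y)⁻¹ * Real.exp (-(n * y)) := hk _ (by positivity)
      have e3 : |Real.cos (2 * π * (n * x))| ≤ 1 := Real.abs_cos_le_one _
      have e4 : |Real.cos (2 * π * x)| ≤ 1 := Real.abs_cos_le_one _
      have e5 := hC n
      have e6 : (C * n) * (√y * (C' * (n * y)⁻¹ * Real.exp (-(n * y))) * (2 * 1)) * 1 =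
          (C * √y * C' * y⁻¹ * 2) * (Real.exp (-y)) ^ n := by
        rw [← Real.exp_nat_mul, mul_inv]
        have : (n : ℝ) * (n : ℝ)⁻¹ = 1 := mul_inv_cancel₀ hn.ne'
        calc _ = (C * √y * C' * y⁻¹ * 2) * ((n : ℝ) * (n : ℝ)⁻¹) * Real.exp (-(n * y)) := by ring
          _ = _ := by rw [this, mul_one, mul_neg]
      rw [← e6]
      have f1 : 0 ≤ C' * (n * y)⁻¹ * Real.exp (-(n * y)) := (abs_nonneg _).trans e2
      gcongr
  have hr : Real.exp (-y) < 1 := by
    rw [Real.exp_lt_one_iff]
    linarith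
  have hsum : Summable fun n : ℕ => (C * √y * C' * y⁻¹ * 2) * (Real.exp (-y)) ^ n :=
    (summable_geometric_of_lt_one (Real.exp_pos _).le hr).mul_left _
  have hmain : HasSum (fun n => ∫ x : ℝ in (0 : ℝ)..1, G n x) (∫ x : ℝ in (0 : ℝ)..1, ∑' n, G n x) := by
    apply intervalIntegral.hasSum_integral_of_dominated_convergence
      (bound := fun n _ => (C * √y * C' * y⁻¹ * 2) * (Real.exp (-y)) ^ n)
    · intro n
      exact (hGc n).aestronglyMeasurable
    · intro n
      exact Filter.Eventually.of_forall fun x _ => hb n x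
    · exact Filter.Eventually.of_forall fun x _ => hsum
    · simp
    · refine Filter.Eventually.of_forall fun x _ => ?_
      have : Summable fun n => G n x := Summable.of_norm_bounded hsum (fun n => hb n x)
      exact this.hasSum
  have hzero : (∫ x : ℝ in (0 : ℝ)..1, ∑' n, G n x) = 0 := by
    have : ∀ x, ∑' n, G n x = 0 := by
      intro x
      simp only [G]
      rw [tsum_mul_right]
      have := hcon x
      unfold ff at this
      rw [this, zero_mul]
    simp_rw [this]
    simp
  rw [hzero] at hmain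
  have hint : ∀ n, ∫ x : ℝ in (0 : ℝ)..1, G n x = if n = 1 then ((√y * kk y : ℝ) : ℂ) else 0 := by
    intro n
    have e1 : ∀ x, G n x = (aa n * ((√y * kk (n * y) : ℝ) : ℂ)) *
        (((2 * Real.cos (2 * π * (n * x))) * Real.cos (2 * π * x) : ℝ) : ℂ) := by
      intro x
      simp only [G]
      push_cast
      ring
    simp_rw [e1]
    rw [intervalIntegral.integral_const_mul, intervalIntegral.integral_ofReal, nz_orth]
    split_ifs with h
    · subst h
      rw [a1]
      simp
    · simp
  simp_rw [hint] at hmain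
  have h2 := hmain.unique (hasSum_ite_eq 1 ((√y * kk y : ℝ) : ℂ))
  have h3 : √y * kk y = 0 := by exact_mod_cast h2.symm
  rcases mul_eq_zero.1 h3 with h | h
  · have := Real.sqrt_pos.2 hy
    linarith
  · exact h

theorem t_NZ : S_NZ := by
  intro H1 H2 H3
  by_contra hcon
  push Not at hcon
  have hk : ∀ y : ℝ, 0 < y → kk y = 0 := fun y hy => nz_kk H1 H3 y hy (fun x => hcon x y hy)
  obtain ⟨_, h2⟩ := H2 1 (by simp)
  have h3 : ∫ y : ℝ in Set.Ioi 0, (kk y : ℂ) * (y : ℂ) ^ ((1 : ℂ) - 1) = 0 := by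
    rw [setIntegral_congr_fun measurableSet_Ioi (g := fun _ => (0 : ℂ))]
    · simp
    · intro y hy
      simp only
      rw [hk y hy]
      simp
  rw [h3] at h2
  have g1 : Complex.Gamma ((1 + tt * Complex.I) / 2) ≠ 0 := by
    apply Complex.Gamma_ne_zero_of_re_pos
    simp
  have g2 : Complex.Gamma ((1 - tt * Complex.I) / 2) ≠ 0 := by
    apply Complex.Gamma_ne_zero_of_re_pos
    simp
  have g3 : (π : ℂ) ^ (-1 : ℂ) ≠ 0 := by
    rw [Complex.cpow_neg_one]
    simp [Real.pi_ne_zero]
  have g4 : 1 / 4 * (π : ℂ) ^ (-1 : ℂ) * Complex.Gamma ((1 + tt * Complex.I) / 2) *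
      Complex.Gamma ((1 - tt * Complex.I) / 2) ≠ 0 := by
    refine mul_ne_zero (mul_ne_zero (mul_ne_zero (by norm_num) g3) g1) g2
  exact g4 h2.symm

end Pool.Agent.H757M
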