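import Pool.Agent.H757M.Stm

/-!
# Project M17, part POI: two-dimensional Poisson summation for the theta kernel
-/

set_option autoImplicit false

namespace Pool.Agent.H757M

open Real MeasureTheory UpperHalfPlane
open scoped MatrixGroups Classical

theorem hp549_quad (A B C m n : ℝ) (hA : 0 < A) (h : B ^ 2 < A * C) :
    (A * C - B ^ 2) / (A + C) * (m ^ 2 + n ^ 2) ≤ A * m ^ 2 + 2 * B * m * n + C * n ^ 2 := by
  have hC : 0 < C := by
    by_contra hc
    push Not at hc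
    nlinarith [sq_nonneg B]
  have hAC : A + C ≠ 0 := by positivity
  have h1 : A * m ^ 2 + 2 * B * m * n + C * n ^ 2 -
      (A * C - B ^ 2) / (A + C) * (m ^ 2 + n ^ 2) =
      ((A * m + B * n) ^ 2 + (B * m + C * n) ^ 2) / (A + C) := by
    field_simp
    ring
  have h2 : 0 ≤ ((A * m + B * n) ^ 2 + (B * m + C * n) ^ 2) / (A + C) := by positivity
  linarith

theorem hp549_sum (A B C P Q R : ℂ) (hA : 0 < A.re) (h : B.re ^ 2 < A.re * C.re) :
    Summable fun t : ℤ × ℤ => Complex.exp (-π * (A * t.1 ^ 2 + 2 * B * t.1 * t.2 + C * t.2 ^ 2) +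
      2 * π * (P * t.1 + Q * t.2) + R) := by
  have hC : 0 < C.re := by
    by_contra hc
    push Not at hc
    nlinarith [sq_nonneg B.re]
  have hδ0 : 0 < (A.re * C.re - B.re ^ 2) / (A.re + C.re) := div_pos (by linarith) (by linarith)
  have hq := fun m n => hp549_quad A.re B.re C.re m n hA h
  set δ := (A.re * C.re - B.re ^ 2) / (A.re + C.re) with hδ
  have s1 := summable_pow_mul_jacobiTheta₂_term_bound |P.re| hδ0 0
  have s2 := summable_pow_mul_jacobiTheta₂_term_bound |Q.re| hδ0 0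
  simp only [pow_zero, one_mul] at s1 s2
  have s3 := (s1.mul_of_nonneg s2 (fun n => (Real.exp_pos _).le)
    (fun n => (Real.exp_pos _).le)).mul_left (Real.exp R.re)
  refine Summable.of_norm_bounded s3 ?_
  rintro ⟨m, n⟩
  rw [Complex.norm_exp, ← Real.exp_add, ← Real.exp_add]
  apply Real.exp_le_exp.mpr
  have h1 := hq m n
  have e1 : (-(π : ℂ) * (A * (m : ℂ) ^ 2 + 2 * B * m * n + C * (n : ℂ) ^ 2) +
      2 * π * (P * m + Q * n) + R).re =
      -π * (A.re * (m : ℝ) ^ 2 + 2 * B.re * m * n + C.re * (n : ℝ) ^ 2) +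
      2 * π * (P.re * m + Q.re * n) + R.re := by
    have e2 : (-(π : ℂ) * (A * (m : ℂ) ^ 2 + 2 * B * m * n + C * (n : ℂ) ^ 2) +
      2 * π * (P * m + Q * n) + R) = (((-π * (m : ℝ) ^ 2 : ℝ) : ℂ) * A +
        ((-π * 2 * m * n : ℝ) : ℂ) * B + ((-π * (n : ℝ) ^ 2 : ℝ) : ℂ) * C +
        ((2 * π * m : ℝ) : ℂ) * P + ((2 * π * n : ℝ) : ℂ) * Q) + R := by
      push_cast
      ring
    rw [e2]
    simp only [Complex.add_re, Complex.re_ofReal_mul]
    ring
  have e1' := e1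
  simp only at e1' ⊢
  rw [e1']
  have h2 : P.re * m ≤ |P.re| * |(m : ℝ)| := by rw [← abs_mul]; exact le_abs_self _
  have h3 : Q.re * n ≤ |Q.re| * |(n : ℝ)| := by rw [← abs_mul]; exact le_abs_self _
  have hπ := Real.pi_pos
  push_cast
  nlinarith [mul_le_mul_of_nonneg_left h1 hπ.le, mul_le_mul_of_nonneg_left h2 hπ.le,
    mul_le_mul_of_nonneg_left h3 hπ.le]

theorem hp549_sqrt (a : ℂ) (D : ℝ) (hD : 0 < D) (ha : 0 < a.re) :
    a ^ (1 / 2 : ℂ) * ((D : ℂ) / a) ^ (1 / 2 : ℂ) = (√D : ℝ) := by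
  have ha0 : a ≠ 0 := by
    rintro rfl
    simp at ha
  have h1 : ((D : ℂ) / a) = (D : ℂ) * a⁻¹ := div_eq_mul_inv _ _
  have harg : a.arg ≠ π := by
    intro h
    rw [Complex.arg_eq_pi_iff] at h
    linarith [h.1]
  rw [Complex.cpow_def_of_ne_zero ha0, Complex.cpow_def_of_ne_zero
    (by rw [h1]; exact mul_ne_zero (by exact_mod_cast hD.ne') (inv_ne_zero ha0)), h1,
    Complex.log_ofReal_mul hD (inv_ne_zero ha0), Complex.log_inv a harg, ← Complex.exp_add]
  have h2 : Complex.log a * (1 / 2) + ((Real.log D : ℝ) + -Complex.log a) * (1 / 2) =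
      ((Real.log D / 2 : ℝ) : ℂ) := by
    push_cast
    ring
  rw [h2, ← Complex.ofReal_exp, Real.sqrt_eq_rpow, Real.rpow_def_of_pos hD]
  congr 2
  ring


theorem hp549_pois (a b c β γ R : ℂ) (D : ℝ) (hD : 0 < D) (ha : 0 < a.re)
    (hdet : a * c - b ^ 2 = D) (hpd : b.re ^ 2 < a.re * c.re) :
    ∑' t : ℤ × ℤ, Complex.exp (-π * (a * t.1 ^ 2 + 2 * b * t.1 * t.2 + c * t.2 ^ 2) +
      2 * π * (β * t.1 + γ * t.2) + R) =
    ((1 / √D : ℝ) : ℂ) * ∑' t : ℤ × ℤ, Complex.exp (-π / D * (c * (t.1 + Complex.I * β) ^ 2 -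
      2 * b * (t.1 + Complex.I * β) * (t.2 + Complex.I * γ) + a * (t.2 + Complex.I * γ) ^ 2) + R) := by
  have ha0 : a ≠ 0 := by
    rintro rfl
    simp at ha
  have hDc : (D : ℂ) ≠ 0 := by exact_mod_cast hD.ne'
  have hn0 : 0 < a.re ^ 2 + a.im ^ 2 := by positivity
  have hns : Complex.normSq a = a.re ^ 2 + a.im ^ 2 := by
    rw [Complex.normSq_apply]; ring
  -- the real parts
  have hre1 : (1 / a).re = a.re / (a.re ^ 2 + a.im ^ 2) := by
    rw [one_div, Complex.inv_re, hns]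
  have hre2 : ((D : ℂ) / a).re = D * a.re / (a.re ^ 2 + a.im ^ 2) := by
    rw [div_eq_mul_inv, Complex.re_ofReal_mul, Complex.inv_re, hns]
    ring
  have hre3 : (-(Complex.I * b / a)).re = (b.im * a.re - b.re * a.im) / (a.re ^ 2 + a.im ^ 2) := by
    rw [div_eq_mul_inv]
    simp only [Complex.neg_re, Complex.mul_re, Complex.mul_im, Complex.I_re, Complex.I_im,
      Complex.inv_re, Complex.inv_im, hns]
    field_simp
    ring
  have hd1 : a.re * c.re - a.im * c.im - (b.re ^ 2 - b.im ^ 2) = D := by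
    have h := congrArg Complex.re hdet
    simp only [Complex.sub_re, Complex.mul_re, pow_two, Complex.ofReal_re] at h
    linarith
  have hd2 : a.re * c.im + a.im * c.re - 2 * b.re * b.im = 0 := by
    have h := congrArg Complex.im hdet
    simp only [Complex.sub_im, Complex.mul_im, pow_two, Complex.ofReal_im] at h
    linarith
  have hkey : D * a.re ^ 2 - (b.im * a.re - b.re * a.im) ^ 2 =
      (a.re ^ 2 + a.im ^ 2) * (a.re * c.re - b.re ^ 2) := by
    have h3 : a.re * c.im = 2 * b.re * b.im - a.im * c.re := by linarith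
    rw [← hd1]
    linear_combination (-a.re * a.im) * h3
  have hre4 : (-(Complex.I * b / a)).re ^ 2 < ((D : ℂ) / a).re * (1 / a).re := by
    rw [hre1, hre2, hre3, div_pow, div_mul_div_comm, ← pow_two]
    apply div_lt_div_of_pos_right _ (by positivity)
    nlinarith [mul_pos hn0 (sub_pos.mpr hpd)]
  have hre2' : 0 < ((D : ℂ) / a).re := by rw [hre2]; positivity
  -- the three summabilities
  have S1 := hp549_sum a b c β γ R ha hpd
  have S2 := hp549_sum ((D : ℂ) / a) (-(Complex.I * b / a)) (1 / a)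
    (γ + Complex.I * b / a * (Complex.I * β)) (-(Complex.I * β / a))
    (R - π / a * (Complex.I * β) ^ 2) hre2' hre4
  have hcre : 0 < c.re := by
    by_contra hc
    push Not at hc
    nlinarith [sq_nonneg b.re]
  have hre5 : ((-(b / D)).re) ^ 2 < (c / D).re * (a / D).re := by
    rw [Complex.neg_re, Complex.div_ofReal_re, Complex.div_ofReal_re, Complex.div_ofReal_re,
      neg_sq, div_pow, div_mul_div_comm, ← pow_two]
    apply div_lt_div_of_pos_right _ (by positivity)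
    linarith
  have hre5' : 0 < (c / D).re := by
    rw [Complex.div_ofReal_re]
    positivity
  have S3 := hp549_sum (c / D) (-(b / D)) (a / D) (-(c / D * (Complex.I * β)) + b / D * (Complex.I * γ))
    (b / D * (Complex.I * β) - a / D * (Complex.I * γ))
    (R - π / D * (c * (Complex.I * β) ^ 2 - 2 * b * (Complex.I * β) * (Complex.I * γ) +
      a * (Complex.I * γ) ^ 2)) hre5' hre5
  have S3' : Summable fun t : ℤ × ℤ => Complex.exp (-π / D * (c * (t.1 + Complex.I * β) ^ 2 -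
      2 * b * (t.1 + Complex.I * β) * (t.2 + Complex.I * γ) + a * (t.2 + Complex.I * γ) ^ 2) + R) := by
    refine S3.congr fun t => ?_
    congr 1
    ring
  -- step 1: the sum over the first variable
  have E1 : ∑' t : ℤ × ℤ, Complex.exp (-π * (a * t.1 ^ 2 + 2 * b * t.1 * t.2 + c * t.2 ^ 2) +
      2 * π * (β * t.1 + γ * t.2) + R) =
      ∑' n : ℤ, ∑' m : ℤ, Complex.exp (-π * (a * m ^ 2 + 2 * b * m * n + c * n ^ 2) +
      2 * π * (β * m + γ * n) + R) := by
    have h := S1.prod_symm.tsum_prod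
    simp only [Prod.fst_swap, Prod.snd_swap] at h
    rw [← h]
    exact ((Equiv.prodComm ℤ ℤ).tsum_eq _).symm
  have E2 : ∀ n : ℤ, ∑' m : ℤ, Complex.exp (-π * (a * m ^ 2 + 2 * b * m * n + c * n ^ 2) +
      2 * π * (β * m + γ * n) + R) = 1 / a ^ (1 / 2 : ℂ) *
      ∑' k : ℤ, Complex.exp (-π * ((D : ℂ) / a * n ^ 2 + 2 * (-(Complex.I * b / a)) * n * k +
        1 / a * k ^ 2) + 2 * π * ((γ + Complex.I * b / a * (Complex.I * β)) * n +
        (-(Complex.I * β / a)) * k) + (R - π / a * (Complex.I * β) ^ 2)) := by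
    intro n
    have h1 : ∀ m : ℤ, Complex.exp (-π * (a * m ^ 2 + 2 * b * m * n + c * n ^ 2) +
      2 * π * (β * m + γ * n) + R) = Complex.exp (-π * a * m ^ 2 + 2 * π * (β - b * n) * m) *
        Complex.exp (-π * c * n ^ 2 + 2 * π * γ * n + R) := by
      intro m
      rw [← Complex.exp_add]
      congr 1
      ring
    simp_rw [h1]
    rw [tsum_mul_right, Complex.tsum_exp_neg_quadratic ha, mul_assoc, ← tsum_mul_right]
    congr 1
    apply tsum_congr
    intro k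
    rw [← Complex.exp_add]
    congr 1
    have hc : c = ((D : ℂ) + b ^ 2) / a := by
      rw [eq_div_iff ha0, ← hdet]
      ring
    rw [hc]
    have hI : Complex.I ^ 2 = -1 := Complex.I_sq
    field_simp
    ring_nf
    simp only [hI]
    ring
  have E3 : ∀ k : ℤ, ∑' n : ℤ, Complex.exp (-π * ((D : ℂ) / a * n ^ 2 +
        2 * (-(Complex.I * b / a)) * n * k +
        1 / a * k ^ 2) + 2 * π * ((γ + Complex.I * b / a * (Complex.I * β)) * n +
        (-(Complex.I * β / a)) * k) + (R - π / a * (Complex.I * β) ^ 2)) =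
      1 / ((D : ℂ) / a) ^ (1 / 2 : ℂ) *
      ∑' l : ℤ, Complex.exp (-π / D * (c * (k + Complex.I * β) ^ 2 -
      2 * b * (k + Complex.I * β) * (l + Complex.I * γ) + a * (l + Complex.I * γ) ^ 2) + R) := by
    intro k
    have h1 : ∀ n : ℤ, Complex.exp (-π * ((D : ℂ) / a * n ^ 2 + 2 * (-(Complex.I * b / a)) * n * k +
        1 / a * k ^ 2) + 2 * π * ((γ + Complex.I * b / a * (Complex.I * β)) * n +
        (-(Complex.I * β / a)) * k) + (R - π / a * (Complex.I * β) ^ 2)) =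
        Complex.exp (-π * ((D : ℂ) / a) * n ^ 2 + 2 * π * (γ + Complex.I * b / a * (Complex.I * β) +
          Complex.I * b / a * k) * n) * Complex.exp (-π / a * k ^ 2 - 2 * π * Complex.I * β / a * k +
          (R - π / a * (Complex.I * β) ^ 2)) := by
      intro n
      rw [← Complex.exp_add]
      congr 1
      ring
    simp_rw [h1]
    rw [tsum_mul_right, Complex.tsum_exp_neg_quadratic hre2', mul_assoc, ← tsum_mul_right]
    congr 1
    apply tsum_congr
    intro l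
    rw [← Complex.exp_add]
    congr 1
    have hc : c = ((D : ℂ) + b ^ 2) / a := by
      rw [eq_div_iff ha0, ← hdet]
      ring
    rw [hc]
    have hI : Complex.I ^ 2 = -1 := Complex.I_sq
    field_simp
    ring_nf
    simp only [hI, Complex.I_pow_four, show Complex.I ^ 3 = -Complex.I by
      rw [pow_succ, hI]; ring, show Complex.I ^ 5 = Complex.I by
      rw [pow_succ, Complex.I_pow_four]; ring, show Complex.I ^ 6 = -1 by
      rw [show (6 : ℕ) = 4 + 2 from rfl, pow_add, Complex.I_pow_four, hI]; ring]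
    ring
  have E4 : ∑' n : ℤ, ∑' k : ℤ, Complex.exp (-π * ((D : ℂ) / a * n ^ 2 +
        2 * (-(Complex.I * b / a)) * n * k +
        1 / a * k ^ 2) + 2 * π * ((γ + Complex.I * b / a * (Complex.I * β)) * n +
        (-(Complex.I * β / a)) * k) + (R - π / a * (Complex.I * β) ^ 2)) =
      ∑' k : ℤ, ∑' n : ℤ, Complex.exp (-π * ((D : ℂ) / a * n ^ 2 +
        2 * (-(Complex.I * b / a)) * n * k +
        1 / a * k ^ 2) + 2 * π * ((γ + Complex.I * b / a * (Complex.I * β)) * n +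
        (-(Complex.I * β / a)) * k) + (R - π / a * (Complex.I * β) ^ 2)) := by
    exact (Summable.tsum_comm (f := fun n k : ℤ => Complex.exp (-π * ((D : ℂ) / a * n ^ 2 +
        2 * (-(Complex.I * b / a)) * n * k +
        1 / a * k ^ 2) + 2 * π * ((γ + Complex.I * b / a * (Complex.I * β)) * n +
        (-(Complex.I * β / a)) * k) + (R - π / a * (Complex.I * β) ^ 2))) S2).symm
  rw [E1, tsum_congr E2, tsum_mul_left, E4, tsum_congr E3, tsum_mul_left, S3'.tsum_prod, ← mul_assoc]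
  congr 1
  rw [one_div_mul_one_div, hp549_sqrt a D hD ha]
  push_cast
  rfl

theorem hp549_pois2 (a b c s₁ s₂ : ℂ) (D : ℝ) (hD : 0 < D) (ha : 0 < a.re)
    (hdet : a * c - b ^ 2 = D) (hpd : b.re ^ 2 < a.re * c.re) :
    ∑' t : ℤ × ℤ, Complex.exp (-π * (a * (t.1 + s₁) ^ 2 + 2 * b * (t.1 + s₁) * (t.2 + s₂) +
      c * (t.2 + s₂) ^ 2)) =
    ((1 / √D : ℝ) : ℂ) * ∑' t : ℤ × ℤ, Complex.exp (-π / D * (c * t.1 ^ 2 -
      2 * b * t.1 * t.2 + a * t.2 ^ 2) + 2 * π * Complex.I * (t.1 * s₁ + t.2 * s₂)) := by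
  have hDc : (D : ℂ) ≠ 0 := by exact_mod_cast hD.ne'
  have h := hp549_pois a b c (-(a * s₁ + b * s₂)) (-(b * s₁ + c * s₂))
    (-π * (a * s₁ ^ 2 + 2 * b * s₁ * s₂ + c * s₂ ^ 2)) D hD ha hdet hpd
  have h1 : ∀ t : ℤ × ℤ, Complex.exp (-π * (a * t.1 ^ 2 + 2 * b * t.1 * t.2 + c * t.2 ^ 2) +
      2 * π * ((-(a * s₁ + b * s₂)) * t.1 + (-(b * s₁ + c * s₂)) * t.2) +
      (-π * (a * s₁ ^ 2 + 2 * b * s₁ * s₂ + c * s₂ ^ 2))) =
      Complex.exp (-π * (a * (t.1 + s₁) ^ 2 + 2 * b * (t.1 + s₁) * (t.2 + s₂) +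
      c * (t.2 + s₂) ^ 2)) := by
    intro t
    congr 1
    ring
  have h2 : ∀ t : ℤ × ℤ, Complex.exp (-π / D * (c * (t.1 + Complex.I * (-(a * s₁ + b * s₂))) ^ 2 -
      2 * b * (t.1 + Complex.I * (-(a * s₁ + b * s₂))) * (t.2 + Complex.I * (-(b * s₁ + c * s₂))) +
      a * (t.2 + Complex.I * (-(b * s₁ + c * s₂))) ^ 2) +
      (-π * (a * s₁ ^ 2 + 2 * b * s₁ * s₂ + c * s₂ ^ 2))) =
      Complex.exp (-π / D * (c * t.1 ^ 2 -
      2 * b * t.1 * t.2 + a * t.2 ^ 2) + 2 * π * Complex.I * (t.1 * s₁ + t.2 * s₂)) := by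
    intro t
    congr 1
    rw [← hdet] at hDc ⊢
    have hI : Complex.I ^ 2 = -1 := Complex.I_sq
    field_simp
    ring_nf
    simp only [hI]
    ring
  simp_rw [h1, h2] at h
  exact h

theorem t_POI : S_SUM → S_POI := by
  intro _ x y v p q hy hv
  have hN : 0 < x ^ 2 + y ^ 2 := by positivity
  have h5 : √5 ^ 2 = (5 : ℝ) := Real.sq_sqrt (by norm_num)
  have h50 : √5 ≠ (0 : ℝ) := by positivity
  have hw2 : w ^ 2 = w + 1 := by
    unfold w
    linear_combination (1 / 4) * h5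
  have hws : √5 = 2 * w - 1 := by
    unfold w
    ring
  set X := -x / (x ^ 2 + y ^ 2) with hX
  set Y := y / (x ^ 2 + y ^ 2) with hY
  have hY0 : 0 < Y := by positivity
  have hXY : X ^ 2 + Y ^ 2 = 1 / (x ^ 2 + y ^ 2) := by
    rw [hX, hY]
    field_simp
  obtain ⟨u, hu⟩ : ∃ u : ℝ, u = v ^ 2 := ⟨_, rfl⟩
  obtain ⟨u', hu'⟩ : ∃ u' : ℝ, u' = (v ^ 2)⁻¹ := ⟨_, rfl⟩
  have huu : u * u' = 1 := by
    rw [hu, hu']
    field_simp
  have hu0 : 0 < u := by rw [hu]; positivity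
  have hu0' : 0 < u' := by rw [hu']; positivity
  have hD : 0 < 5 * (X ^ 2 + Y ^ 2) := by positivity
  have hwc : (w : ℂ) ^ 2 = w + 1 := by exact_mod_cast hw2
  have huuc : (u : ℂ) * u' = 1 := by exact_mod_cast huu
  have hI : Complex.I ^ 2 = -1 := Complex.I_sq
  have key := hp549_pois2 (((Y * (u + u') : ℝ) : ℂ) - 2 * Complex.I * X)
    (((Y * (u * w + u' * (1 - w)) : ℝ) : ℂ) - Complex.I * X)
    (((Y * (u * w ^ 2 + u' * (1 - w) ^ 2) : ℝ) : ℂ) + 2 * Complex.I * X)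
    (((q * w - p * (1 - w)) / √5 : ℝ) : ℂ) (((p - q) / √5 : ℝ) : ℂ)
    (5 * (X ^ 2 + Y ^ 2)) hD
    (by
      simp only [Complex.sub_re, Complex.ofReal_re, Complex.mul_re, Complex.I_re, Complex.I_im,
        Complex.ofReal_im, Complex.re_ofNat, Complex.im_ofNat]
      have : 0 < Y * (u + u') := by positivity
      linarith)
    (by
      push_cast
      linear_combination (4 * Y ^ 2 * u * u' - 2 * Complex.I * X * Y * (u + u')) * hwc +
        5 * (Y : ℂ) ^ 2 * huuc - 5 * (X : ℂ) ^ 2 * hI)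
    (by
      simp only [Complex.sub_re, Complex.add_re, Complex.ofReal_re, Complex.mul_re, Complex.I_re,
        Complex.I_im, Complex.ofReal_im, Complex.re_ofNat, Complex.im_ofNat]
      have h1 : Y * (u + u') * (Y * (u * w ^ 2 + u' * (1 - w) ^ 2)) -
          (Y * (u * w + u' * (1 - w))) ^ 2 = 5 * Y ^ 2 := by
        linear_combination (4 * Y ^ 2 * u * u') * hw2 + 5 * Y ^ 2 * huu
      have h2 : 0 < 5 * Y ^ 2 := by positivity
      ring_nf at h1 h2 ⊢
      linarith)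
  -- the left side
  have L : ∀ t : ℤ × ℤ, ph X Y v (al t + p) (al' t + q) = (√Y : ℂ) * Complex.exp
      (-π * ((((Y * (u + u') : ℝ) : ℂ) - 2 * Complex.I * X) *
        (t.1 + (((q * w - p * (1 - w)) / √5 : ℝ) : ℂ)) ^ 2 +
      2 * (((Y * (u * w + u' * (1 - w)) : ℝ) : ℂ) - Complex.I * X) *
        (t.1 + (((q * w - p * (1 - w)) / √5 : ℝ) : ℂ)) * (t.2 + (((p - q) / √5 : ℝ) : ℂ)) +
      (((Y * (u * w ^ 2 + u' * (1 - w) ^ 2) : ℝ) : ℂ) + 2 * Complex.I * X) *
        (t.2 + (((p - q) / √5 : ℝ) : ℂ)) ^ 2)) := by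
    intro t
    obtain ⟨s₁, hs₁⟩ : ∃ s : ℝ, s = (q * w - p * (1 - w)) / √5 := ⟨_, rfl⟩
    obtain ⟨s₂, hs₂⟩ : ∃ s : ℝ, s = (p - q) / √5 := ⟨_, rfl⟩
    have hp : p = s₁ + w * s₂ := by
      rw [hs₁, hs₂]
      field_simp
      rw [hws]
      ring
    have hq : q = s₁ + (1 - w) * s₂ := by
      rw [hs₁, hs₂]
      field_simp
      rw [hws]
      ring
    rw [← hs₁, ← hs₂]
    unfold ph
    rw [Complex.ofReal_mul, Complex.ofReal_exp, mul_assoc, ← Complex.exp_add]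
    congr 2
    have e1 : (al' t + q) ^ 2 / v ^ 2 = (al' t + q) ^ 2 * u' := by
      rw [hu', div_eq_mul_inv]
    rw [e1, ← hu]
    unfold al al'
    rw [hp, hq]
    push_cast
    linear_combination (-(2 * π * Complex.I * X * (t.2 + s₂) ^ 2)) * hwc
  -- the right side
  have hXn : X * (x ^ 2 + y ^ 2) = -x := by rw [hX]; field_simp
  have hYn : Y * (x ^ 2 + y ^ 2) = y := by rw [hY]; field_simp
  have hXnc : (X : ℂ) * (x ^ 2 + y ^ 2) = -x := by exact_mod_cast hXn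
  have hYnc : (Y : ℂ) * (x ^ 2 + y ^ 2) = y := by exact_mod_cast hYn
  have hDi : (-(π : ℂ)) / ((5 * (X ^ 2 + Y ^ 2) : ℝ) : ℂ) = -(π : ℂ) * (x ^ 2 + y ^ 2) / 5 := by
    rw [hXY]
    have : ((x ^ 2 + y ^ 2 : ℝ) : ℂ) ≠ 0 := by exact_mod_cast hN.ne'
    push_cast at this ⊢
    field_simp
  have R : ∀ t : ℤ × ℤ, (√y : ℂ) * Complex.exp (-π / ((5 * (X ^ 2 + Y ^ 2) : ℝ) : ℂ) *
      ((((Y * (u * w ^ 2 + u' * (1 - w) ^ 2) : ℝ) : ℂ) + 2 * Complex.I * X) * t.1 ^ 2 -
      2 * (((Y * (u * w + u' * (1 - w)) : ℝ) : ℂ) - Complex.I * X) * t.1 * t.2 +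
      (((Y * (u + u') : ℝ) : ℂ) - 2 * Complex.I * X) * t.2 ^ 2) + 2 * π * Complex.I *
      (t.1 * (((q * w - p * (1 - w)) / √5 : ℝ) : ℂ) + t.2 * (((p - q) / √5 : ℝ) : ℂ))) =
      (fun a : ℤ × ℤ => Complex.exp (2 * π * Complex.I *
        ((-(al' a / √5) * p + (al a / √5) * q : ℝ) : ℂ)) *
        ph x y v (al a / √5) (-(al' a / √5))) (-t.2, t.1) := by
    intro t
    simp only
    obtain ⟨r, hr⟩ : ∃ r : ℝ, r = (√5)⁻¹ := ⟨_, rfl⟩
    have hr2 : r ^ 2 = 1 / 5 := by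
      rw [hr, inv_pow, h5]
      norm_num
    have hr2c : (r : ℂ) ^ 2 = 1 / 5 := by
      have := congrArg (fun z : ℝ => (z : ℂ)) hr2
      push_cast at this
      exact this
    unfold ph
    rw [Complex.ofReal_mul (√y) (Real.exp _), Complex.ofReal_exp, mul_assoc (√y : ℂ),
      ← Complex.exp_add, mul_left_comm, ← Complex.exp_add]
    congr 2
    have e1 : (-(al' (-t.2, t.1) / √5)) ^ 2 / v ^ 2 = (-(al' (-t.2, t.1) / √5)) ^ 2 * u' := by
      rw [hu', div_eq_mul_inv]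
    rw [e1, ← hu, hDi]
    simp only [div_eq_mul_inv _ √5, ← hr]
    unfold al al'
    push_cast
    linear_combination (-(π : ℂ) / 5 * (u * (t.1 * w - t.2) ^ 2 +
        u' * (t.1 * (1 - w) - t.2) ^ 2)) * hYnc +
      (-(2 * π : ℂ) / 5 * Complex.I * (t.1 ^ 2 + t.1 * t.2 - t.2 ^ 2)) * hXnc +
      (π * y * (u * (t.1 * w - t.2) ^ 2 + u' * (t.1 * (1 - w) - t.2) ^ 2) +
      2 * π * Complex.I * x * (t.1 * w - t.2) * (t.1 * (1 - w) - t.2)) * hr2c -
      (2 * π / 5 * Complex.I * x * t.1 ^ 2) * hwc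
  let e : ℤ × ℤ ≃ ℤ × ℤ :=
    { toFun := fun t => (-t.2, t.1)
      invFun := fun t => (t.2, -t.1)
      left_inv := fun t => by simp
      right_inv := fun t => by simp }
  rw [tsum_congr L, tsum_mul_left, key]
  have hR := e.tsum_eq (fun a : ℤ × ℤ => Complex.exp (2 * π * Complex.I *
        ((-(al' a / √5) * p + (al a / √5) * q : ℝ) : ℂ)) *
        ph x y v (al a / √5) (-(al' a / √5)))
  rw [← hR]
  have hR2 : ∀ t : ℤ × ℤ, (fun a : ℤ × ℤ => Complex.exp (2 * π * Complex.I *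
        ((-(al' a / √5) * p + (al a / √5) * q : ℝ) : ℂ)) *
        ph x y v (al a / √5) (-(al' a / √5))) (e t) = _ := fun t => (R t).symm
  rw [tsum_congr hR2, tsum_mul_left, ← mul_assoc, ← mul_assoc]
  congr 1
  have h7 : √Y * (1 / √(5 * (X ^ 2 + Y ^ 2))) = 1 / √5 * √y := by
    rw [hXY, hY, Real.sqrt_div hy.le, Real.sqrt_mul (by norm_num : (0 : ℝ) ≤ 5),
      Real.sqrt_div zero_le_one, Real.sqrt_one]
    have : √(x ^ 2 + y ^ 2) ≠ 0 := by positivity
    field_simp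
  rw [← Complex.ofReal_mul, ← Complex.ofReal_mul, h7]

end Pool.Agent.H757M
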