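import Pool.Agent.H757M.Stm

set_option autoImplicit false

namespace Pool.Agent.H757M

open Real MeasureTheory UpperHalfPlane
open scoped MatrixGroups Classical

theorem qex_nsq : ¬ IsSquare (2 : ZMod 3) := by
  rintro ⟨r, hr⟩
  revert r
  decide

theorem qex_unit : (2 : ZMod 3) * 2 = 1 := by decide

theorem qex_exists : ∃ χ : DirichletCharacter ℂ 3, IsQuad χ := by
  have : Fact (Nat.Prime 3) := ⟨Nat.prime_three⟩
  let χ : DirichletCharacter ℂ 3 := (quadraticChar (ZMod 3)).ringHomComp (Int.castRingHom ℂ)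
  have hval : χ (2 : ZMod 3) = -1 := by
    have h1 : quadraticChar (ZMod 3) (2 : ZMod 3) = -1 := by
      rw [quadraticChar_neg_one_iff_not_isSquare]
      exact qex_nsq
    change ((Int.castRingHom ℂ) ((quadraticChar (ZMod 3)) (2 : ZMod 3))) = -1
    rw [h1]; simp
  have hne : χ ≠ 1 := by
    intro h
    have h2 : (1 : DirichletCharacter ℂ 3) (2 : ZMod 3) = 1 := by
      have : IsUnit (2 : ZMod 3) := by
        exact IsUnit.of_mul_eq_one 2 qex_unit
      exact MulChar.one_apply this
    rw [h, h2] at hval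
    norm_num at hval
  have hsq : χ ^ 2 = 1 := by
    have hq : (quadraticChar (ZMod 3)).IsQuadratic := quadraticChar_isQuadratic _
    have := hq.comp (Int.castRingHom ℂ)
    exact this.sq_eq_one
  refine ⟨χ, ?_, ?_⟩
  · have hd := χ.conductor_dvd_level
    rw [DirichletCharacter.isPrimitive_def]
    rcases (Nat.dvd_prime Nat.prime_three).1 hd with h1 | h3
    · exact absurd ((DirichletCharacter.eq_one_iff_conductor_eq_one).2 h1) hne
    · exact h3
  · exact orderOf_eq_prime hsq hne

theorem qex_fin : ∀ M : ℕ, 0 < M → {χ : DirichletCharacter ℂ M | IsQuad χ}.Finite := by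
  intro M hM
  have : NeZero M := ⟨hM.ne'⟩
  have : Finite (DirichletCharacter ℂ M) := inferInstance
  exact Set.toFinite _

theorem t_QEX : S_QEX := ⟨qex_exists, qex_fin⟩

end Pool.Agent.H757M
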