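import Pool.Agent.H757M.Stm

/-
Project M17 (helper757, MP_17f4cb_nt): the expansion of the theta kernel at the other cusps (S_SIG).
-/

set_option autoImplicit false

namespace Pool.Agent.H757M

open Real MeasureTheory UpperHalfPlane
open scoped MatrixGroups Classical

/-- `e(t)` -/
noncomputable def sgE (t : ℝ) : ℂ := Complex.exp (2 * π * Complex.I * ((t : ℝ) : ℂ))

theorem sgE_add (s t : ℝ) : sgE (s + t) = sgE s * sgE t := by
  unfold sgE
  rw [← Complex.exp_add]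
  congr 1
  push_cast
  ring

theorem sgE_int (n : ℤ) : sgE n = 1 := by
  unfold sgE
  have h : 2 * π * Complex.I * (((n : ℝ)) : ℂ) = n * (2 * π * Complex.I) := by
    push_cast
    ring
  rw [h]
  exact Complex.exp_int_mul_two_pi_mul_I n

theorem sgE_norm (t : ℝ) : ‖sgE t‖ = 1 := by
  unfold sgE
  rw [show 2 * π * Complex.I * ((t : ℝ) : ℂ) = ((2 * π * t : ℝ) : ℂ) * Complex.I by
    push_cast
    ring]
  exact Complex.norm_exp_ofReal_mul_I _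

theorem sg_ph_shift (x t y v p q : ℝ) :
    ph (x + t) y v p q = sgE (t * (p * q)) * ph x y v p q := by
  unfold ph
  have h : Complex.exp (2 * π * Complex.I * (((x + t) * (p * q) : ℝ) : ℂ)) =
      sgE (t * (p * q)) * Complex.exp (2 * π * Complex.I * ((x * (p * q) : ℝ) : ℂ)) := by
    unfold sgE
    rw [← Complex.exp_add]
    congr 1
    push_cast
    ring
  rw [h]
  ring

theorem sg_ph_scale (x y v p q : ℝ) {C : ℝ} (hC : 0 < C) :
    ph x y v (C * p) (C * q) = ((1 / C : ℝ) : ℂ) * ph (C ^ 2 * x) (C ^ 2 * y) v p q := by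
  unfold ph
  have h1 : √(C ^ 2 * y) = C * √y := by
    rw [Real.sqrt_mul (sq_nonneg C), Real.sqrt_sq hC.le]
  have h2 : π * y * ((C * p) ^ 2 * v ^ 2 + (C * q) ^ 2 / v ^ 2)
      = π * (C ^ 2 * y) * (p ^ 2 * v ^ 2 + q ^ 2 / v ^ 2) := by ring
  have h3 : x * (C * p * (C * q)) = C ^ 2 * x * (p * q) := by ring
  have hC' : (C : ℂ) ≠ 0 := by exact_mod_cast hC.ne'
  rw [h1, h2, h3]
  generalize Real.exp (-(π * (C ^ 2 * y) * (p ^ 2 * v ^ 2 + q ^ 2 / v ^ 2))) = A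
  generalize Complex.exp (2 * π * Complex.I * ((C ^ 2 * x * (p * q) : ℝ) : ℂ)) = B
  push_cast
  field_simp

theorem sg_ph_norm (x y v p q : ℝ) :
    ‖ph x y v p q‖ = √y * Real.exp (-(π * y * (p ^ 2 * v ^ 2 + q ^ 2 / v ^ 2))) := by
  unfold ph
  rw [norm_mul, show Complex.exp (2 * π * Complex.I * ((x * (p * q) : ℝ) : ℂ)) = sgE (x * (p * q))
    from rfl, sgE_norm, mul_one, Complex.norm_real, Real.norm_eq_abs, abs_of_nonneg (by positivity)]

theorem sg_ph_norm_congr (x x' y v p q : ℝ) : ‖ph x y v p (-q)‖ = ‖ph x' y v p q‖ := by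
  rw [sg_ph_norm, sg_ph_norm, neg_sq]

theorem sg_summable (hS : S_SUM) {x y v : ℝ} (hy : 0 < y) (hv : 0 < v) {h : ℤ × ℤ → ℂ} {C : ℝ}
    (hh : ∀ a, ‖h a‖ ≤ C) {κ : ℝ} (hκ : 0 < κ) :
    Summable fun a : ℤ × ℤ => h a * ph x y v (κ * al a) (-(κ * al' a)) := by
  have h1 := hS.1 x (κ ^ 2 * y) v (by positivity) hv (fun _ => 1) 1 (fun _ => by simp) 0 0
  have h2 := (h1.norm).mul_left (C * (1 / κ))
  refine Summable.of_norm_bounded h2 fun a => ?_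
  have h3 : ‖ph x y v (κ * al a) (-(κ * al' a))‖ = 1 / κ * ‖ph x (κ ^ 2 * y) v (al a) (al' a)‖ := by
    rw [sg_ph_norm_congr x x, sg_ph_scale x y v _ _ hκ, norm_mul, Complex.norm_real,
      Real.norm_eq_abs, abs_of_pos (by positivity), sg_ph_norm, sg_ph_norm]
  rw [norm_mul, h3]
  simp only [one_mul, add_zero]
  have h4 := mul_le_mul_of_nonneg_right (hh a)
    (show 0 ≤ 1 / κ * ‖ph x (κ ^ 2 * y) v (al a) (al' a)‖ by positivity)
  calc ‖h a‖ * (1 / κ * ‖ph x (κ ^ 2 * y) v (al a) (al' a)‖)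
      ≤ C * (1 / κ * ‖ph x (κ ^ 2 * y) v (al a) (al' a)‖) := h4
    _ = _ := by ring

/-- the residues and the quotients -/
noncomputable def sgEq (N : ℕ) [NeZero N] : (Fin N × Fin N) × (ℤ × ℤ) ≃ ℤ × ℤ :=
  ((Equiv.prodComm _ _).trans (Equiv.prodProdProdComm ℤ ℤ (Fin N) (Fin N))).trans
    (Equiv.prodCongr (Int.divModEquiv N).symm (Int.divModEquiv N).symm)

theorem sgEq_apply (N : ℕ) [NeZero N] (r : Fin N × Fin N) (b : ℤ × ℤ) :
    sgEq N (r, b) = (b.1 * N + ((r.1 : ℕ) : ℤ), b.2 * N + ((r.2 : ℕ) : ℤ)) := rfl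

/-- the representative -/
def sgR {N : ℕ} (r : Fin N × Fin N) : ℤ × ℤ := (((r.1 : ℕ) : ℤ), ((r.2 : ℕ) : ℤ))

theorem sg_al (N : ℕ) [NeZero N] (r : Fin N × Fin N) (b : ℤ × ℤ) :
    al (sgEq N (r, b)) = N * (al b + al (sgR r) / N) := by
  have hN : (N : ℝ) ≠ 0 := Nat.cast_ne_zero.mpr (NeZero.ne N)
  rw [sgEq_apply]
  unfold al sgR
  push_cast
  field_simp
  ring

theorem sg_al' (N : ℕ) [NeZero N] (r : Fin N × Fin N) (b : ℤ × ℤ) :
    al' (sgEq N (r, b)) = N * (al' b + al' (sgR r) / N) := by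
  have hN : (N : ℝ) ≠ 0 := Nat.cast_ne_zero.mpr (NeZero.ne N)
  rw [sgEq_apply]
  unfold al' sgR
  push_cast
  field_simp
  ring

theorem sg_w : w * (1 - w) = -1 := by
  unfold w
  have h := Real.mul_self_sqrt (show (0 : ℝ) ≤ 5 by norm_num)
  nlinarith

theorem sg_nm (a : ℤ × ℤ) : al a * al' a = nm a := by
  unfold al al' nm
  have h := sg_w
  push_cast
  linear_combination (a.2 : ℝ) ^ 2 * h

theorem sg_ch (N : ℕ) [NeZero N] (h5 : 5 ∣ N) (r : Fin N × Fin N) (b : ℤ × ℤ) :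
    ch (sgEq N (r, b)) = ch (sgR r) := by
  obtain ⟨k, rfl⟩ := h5
  rw [sgEq_apply]
  unfold ch sgR
  rw [jacobiSym.mod_left, jacobiSym.mod_left (((r.1 : ℕ) : ℤ) + 3 * ((r.2 : ℕ) : ℤ))]
  congr 1
  have : b.1 * ((5 * k : ℕ) : ℤ) + ((r.1 : ℕ) : ℤ) + 3 * (b.2 * ((5 * k : ℕ) : ℤ) + ((r.2 : ℕ) : ℤ))
      = ((r.1 : ℕ) : ℤ) + 3 * ((r.2 : ℕ) : ℤ) + ((5 : ℕ) : ℤ) * (b.1 * k + 3 * b.2 * k) := by
    push_cast
    ring
  rw [this, Int.add_mul_emod_self_left]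

theorem sg_ch_le (a : ℤ × ℤ) : ‖(ch a : ℂ)‖ ≤ 1 := by
  unfold ch
  rcases jacobiSym.trichotomy (a.1 + 3 * a.2) 5 with h | h | h <;> rw [h] <;> simp

/-- norms of congruent elements -/
theorem sg_nm_mod (N : ℕ) [NeZero N] (c : ℤ) (hc : c ∣ N) (r : Fin N × Fin N) (b : ℤ × ℤ) :
    ∃ k : ℤ, nm (sgEq N (r, b)) = nm (sgR r) + c * k := by
  obtain ⟨m, hm⟩ := hc
  rw [sgEq_apply]
  unfold nm sgR
  simp only [hm]
  exact ⟨m * (b.1 ^ 2 * (c * m) + 2 * b.1 * r.1 + b.1 * b.2 * (c * m) + b.1 * r.2 + b.2 * r.1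
    - b.2 ^ 2 * (c * m) - 2 * b.2 * r.2), by ring⟩

/-- the action in coordinates -/
theorem sg_smul (σ : SL(2, ℤ)) (hc : σ 1 0 ≠ 0) (z : ℍ) :
    (σ • z).re = -(z.re + (σ 1 1 : ℝ) / (σ 1 0 : ℝ)) /
        ((σ 1 0 : ℝ) ^ 2 * ((z.re + (σ 1 1 : ℝ) / (σ 1 0 : ℝ)) ^ 2 + z.im ^ 2))
        + (σ 0 0 : ℝ) / (σ 1 0 : ℝ) ∧
    (σ • z).im = z.im /
        ((σ 1 0 : ℝ) ^ 2 * ((z.re + (σ 1 1 : ℝ) / (σ 1 0 : ℝ)) ^ 2 + z.im ^ 2)) := by
  have hc' : (σ 1 0 : ℝ) ≠ 0 := by exact_mod_cast hc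
  have hcc : ((σ 1 0 : ℝ) : ℂ) ≠ 0 := by exact_mod_cast hc'
  have hdet : (σ 0 0 : ℝ) * (σ 1 1 : ℝ) - (σ 0 1 : ℝ) * (σ 1 0 : ℝ) = 1 := by
    have h := σ.det_coe
    rw [Matrix.det_fin_two] at h
    exact_mod_cast h
  have hy := z.im_pos
  set a : ℝ := (σ 0 0 : ℝ)
  set b : ℝ := (σ 0 1 : ℝ)
  set c : ℝ := (σ 1 0 : ℝ)
  set d : ℝ := (σ 1 1 : ℝ)
  set x : ℝ := z.re
  set y : ℝ := z.im
  set D : ℝ := (x + d / c) ^ 2 + y ^ 2 with hD
  have hD0 : 0 < D := by positivity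
  have hz : (z : ℂ) = (x : ℂ) + (y : ℂ) * Complex.I := by
    apply Complex.ext <;> simp [x, y]
  have h1 : ((σ • z : ℍ) : ℂ) = ((a : ℂ) * z + b) / ((c : ℂ) * z + d) := by
    rw [coe_specialLinearGroup_apply]
    simp [a, b, c, d]
  have hne : (c : ℂ) * z + d ≠ 0 := by
    intro h
    have h2 := congrArg Complex.im h
    rw [hz] at h2
    simp at h2
    rcases h2 with h2 | h2
    · exact hc' h2
    · exact hy.ne' h2
  have h2 : ((σ • z : ℍ) : ℂ) = ((-(x + d / c) / (c ^ 2 * D) + a / c : ℝ) : ℂ) +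
      ((y / (c ^ 2 * D) : ℝ) : ℂ) * Complex.I := by
    rw [h1, div_eq_iff hne]
    have hdetC : (a : ℂ) * d - b * c = 1 := by exact_mod_cast hdet
    have hDC : (D : ℂ) = (x + d / c) ^ 2 + y ^ 2 := by
      rw [hD]
      push_cast
      ring
    have hD0' : (D : ℂ) ≠ 0 := by exact_mod_cast hD0.ne'
    have hI := Complex.I_sq
    rw [hz]
    push_cast
    have e1 : (c : ℂ) * (x + y * Complex.I) + d = c * ((x + d / c) + y * Complex.I) := by
      field_simp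
      ring
    have e2 : (((x : ℂ) + d / c) + y * Complex.I) * (((x : ℂ) + d / c) - y * Complex.I) = D := by
      rw [hDC]
      linear_combination (-(y : ℂ) ^ 2) * hI
    rw [e1]
    have e3 : (-((x : ℂ) + d / c) / (c ^ 2 * D) + a / c + y / (c ^ 2 * D) * Complex.I) *
        (c * ((x + d / c) + y * Complex.I)) = a * ((x + d / c) + y * Complex.I) -
        ((((x : ℂ) + d / c) + y * Complex.I) * (((x : ℂ) + d / c) - y * Complex.I)) *
          (1 / (c * D)) := by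
      generalize (x : ℂ) + d / c = X
      field_simp
      ring
    rw [e3, e2]
    have e4 : (D : ℂ) * (1 / (c * D)) = 1 / c := by
      field_simp
    rw [e4]
    field_simp
    linear_combination (-1 : ℂ) * hdetC
  constructor
  · have h3 := congrArg Complex.re h2
    rw [Complex.add_re, Complex.ofReal_re, Complex.re_ofReal_mul, Complex.I_re, mul_zero,
      add_zero] at h3
    exact h3
  · have h3 := congrArg Complex.im h2
    rw [Complex.add_im, Complex.ofReal_im, Complex.im_ofReal_mul, Complex.I_im, mul_one,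
      zero_add] at h3
    exact h3

/-- the transformation of one residue class -/
theorem sg_class (hP : S_POI) (x y v c d : ℝ) (hc : c ≠ 0) (hy : 0 < y) (hv : 0 < v) (N : ℝ)
    (hN : 0 < N) (hN2 : N ^ 2 = 25 * c ^ 2) (p q : ℝ) :
    ∑' b : ℤ × ℤ, ph (-(x + d / c) / (c ^ 2 * ((x + d / c) ^ 2 + y ^ 2)))
        (y / (c ^ 2 * ((x + d / c) ^ 2 + y ^ 2))) v (N * (al b + p)) (N * (al' b + q)) =
      ∑' a : ℤ × ℤ, (((1 / N * (1 / √5) * (1 / 5) : ℝ) : ℂ) *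
        (sgE (-(al' a / √5) * p + (al a / √5) * q) *
        sgE (d / c * ((al a / (√5 * (5 : ℕ))) * (-(al' a / (√5 * (5 : ℕ)))))))) *
        ph x y v (al a / (√5 * (5 : ℕ))) (-(al' a / (√5 * (5 : ℕ)))) := by
  have hD0 : 0 < (x + d / c) ^ 2 + y ^ 2 := by positivity
  have e1 : ∀ b : ℤ × ℤ, ph (-(x + d / c) / (c ^ 2 * ((x + d / c) ^ 2 + y ^ 2)))
        (y / (c ^ 2 * ((x + d / c) ^ 2 + y ^ 2))) v (N * (al b + p)) (N * (al' b + q)) =
      ((1 / N : ℝ) : ℂ) * ph (-((x + d / c) / 25) / (((x + d / c) / 25) ^ 2 + (y / 25) ^ 2))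
        ((y / 25) / (((x + d / c) / 25) ^ 2 + (y / 25) ^ 2)) v (al b + p) (al' b + q) := by
    intro b
    rw [sg_ph_scale _ _ _ _ _ hN, hN2]
    congr 2
    · field_simp
    · field_simp
  simp only [e1]
  rw [tsum_mul_left, hP _ _ _ _ _ (by positivity : 0 < y / 25) hv, ← mul_assoc,
    ← Complex.ofReal_mul, ← tsum_mul_left]
  refine tsum_congr fun a => ?_
  have e2 : ph ((x + d / c) / 25) (y / 25) v (al a / √5) (-(al' a / √5)) =
      ((1 / 5 : ℝ) : ℂ) * (sgE (d / c * ((al a / (√5 * (5 : ℕ))) * (-(al' a / (√5 * (5 : ℕ)))))) *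
        ph x y v (al a / (√5 * (5 : ℕ))) (-(al' a / (√5 * (5 : ℕ))))) := by
    have h1 : al a / √5 = 5 * (al a / (√5 * (5 : ℕ))) := by
      push_cast
      field_simp
    have h2 : -(al' a / √5) = 5 * (-(al' a / (√5 * (5 : ℕ)))) := by
      push_cast
      field_simp
    rw [h1, h2, sg_ph_scale _ _ _ _ _ (by norm_num : (0 : ℝ) < 5), ← sg_ph_shift]
    congr 2
    · ring
    · ring
  rw [e2]
  unfold sgE
  push_cast
  ring

theorem t_SIG : S_SIG := by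
  intro hS hP σ hc
  have hc' : (σ 1 0 : ℝ) ≠ 0 := by exact_mod_cast hc
  obtain ⟨N, hNdef⟩ : ∃ N : ℕ, N = 5 * (σ 1 0).natAbs := ⟨_, rfl⟩
  have hN0 : N ≠ 0 := by
    rw [hNdef]
    exact mul_ne_zero (by norm_num) (Int.natAbs_ne_zero.mpr hc)
  have : NeZero N := ⟨hN0⟩
  have hNpos : (0 : ℝ) < N := by exact_mod_cast Nat.pos_of_ne_zero hN0
  have hN2 : (N : ℝ) ^ 2 = 25 * (σ 1 0 : ℝ) ^ 2 := by
    rw [hNdef]
    push_cast
    rw [mul_pow, Nat.cast_natAbs]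
    push_cast
    rw [sq_abs]
    norm_num
  have h5 : 5 ∣ N := ⟨_, hNdef⟩
  have hcN : (σ 1 0) ∣ (N : ℤ) := by
    rw [hNdef]
    push_cast
    exact Dvd.dvd.mul_left ((dvd_abs _ _).mpr dvd_rfl) 5
  -- the coefficient of a residue class
  let h1 : ℤ × ℤ → ℂ := fun a => (ch a : ℂ) * sgE ((σ 0 0 : ℝ) / (σ 1 0 : ℝ) * nm a)
  have hh1 : ∀ a, ‖h1 a‖ ≤ 1 := by
    intro a
    simp only [h1]
    rw [norm_mul, sgE_norm, mul_one]
    exact sg_ch_le a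
  have hcls : ∀ (r : Fin N × Fin N) (b : ℤ × ℤ), h1 (sgEq N (r, b)) = h1 (sgR r) := by
    intro r b
    simp only [h1]
    rw [sg_ch N h5 r b]
    congr 1
    obtain ⟨k, hk⟩ := sg_nm_mod N (σ 1 0) hcN r b
    rw [hk]
    have : (σ 0 0 : ℝ) / (σ 1 0 : ℝ) * ((nm (sgR r) + σ 1 0 * k : ℤ) : ℝ) =
        (σ 0 0 : ℝ) / (σ 1 0 : ℝ) * ((nm (sgR r) : ℤ) : ℝ) + ((σ 0 0 * k : ℤ) : ℝ) := by
      push_cast
      field_simp
    rw [this, sgE_add, sgE_int, mul_one]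
  let G : (Fin N × Fin N) → ℤ × ℤ → ℂ := fun r a =>
    h1 (sgR r) * (((1 / (N : ℝ) * (1 / √5) * (1 / 5) : ℝ) : ℂ) *
        (sgE (-(al' a / √5) * (al (sgR r) / N) + (al a / √5) * (al' (sgR r) / N)) *
        sgE ((σ 1 1 : ℝ) / (σ 1 0 : ℝ) *
          ((al a / (√5 * (5 : ℕ))) * (-(al' a / (√5 * (5 : ℕ))))))))
  have hG : ∀ r a, ‖G r a‖ ≤ 1 / (N : ℝ) * (1 / √5) * (1 / 5) := by
    intro r a
    simp only [G]
    have hn : ‖(((1 / (N : ℝ) * (1 / √5) * (1 / 5) : ℝ) : ℂ) *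
        (sgE (-(al' a / √5) * (al (sgR r) / N) + (al a / √5) * (al' (sgR r) / N)) *
        sgE ((σ 1 1 : ℝ) / (σ 1 0 : ℝ) *
          ((al a / (√5 * (5 : ℕ))) * (-(al' a / (√5 * (5 : ℕ))))))))‖ =
        1 / (N : ℝ) * (1 / √5) * (1 / 5) := by
      rw [norm_mul, norm_mul, sgE_norm, sgE_norm, mul_one, mul_one, Complex.norm_real,
        Real.norm_eq_abs, abs_of_nonneg (by positivity)]
    rw [norm_mul, hn]
    exact mul_le_of_le_one_left (by positivity) (hh1 _)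
  refine ⟨5, fun a => ∑ r, G r a, ∑ _r : Fin N × Fin N, 1 / (N : ℝ) * (1 / √5) * (1 / 5),
    by norm_num, ?_, ?_⟩
  · intro a
    exact (norm_sum_le _ _).trans (Finset.sum_le_sum fun r _ => hG r a)
  intro z v hv
  obtain ⟨hre, him⟩ := sg_smul σ hc z
  unfold thz
  rw [hre, him]
  unfold th
  have hy := z.im_pos
  set x : ℝ := z.re
  set y : ℝ := z.im
  set c : ℝ := (σ 1 0 : ℝ)
  set d : ℝ := (σ 1 1 : ℝ)
  have hD0 : 0 < (x + d / c) ^ 2 + y ^ 2 := by positivity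
  have s1 : ∀ a : ℤ × ℤ, (ch a : ℂ) * ph (-(x + d / c) / (c ^ 2 * ((x + d / c) ^ 2 + y ^ 2)) +
      (σ 0 0 : ℝ) / c) (y / (c ^ 2 * ((x + d / c) ^ 2 + y ^ 2))) v (al a) (al' a) =
      h1 a * ph (-(x + d / c) / (c ^ 2 * ((x + d / c) ^ 2 + y ^ 2)))
        (y / (c ^ 2 * ((x + d / c) ^ 2 + y ^ 2))) v (al a) (al' a) := by
    intro a
    rw [sg_ph_shift, sg_nm, ← mul_assoc]
  simp only [s1]
  have hsum : Summable fun a : ℤ × ℤ => h1 a *
      ph (-(x + d / c) / (c ^ 2 * ((x + d / c) ^ 2 + y ^ 2)))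
        (y / (c ^ 2 * ((x + d / c) ^ 2 + y ^ 2))) v (al a) (al' a) := by
    have := hS.1 (-(x + d / c) / (c ^ 2 * ((x + d / c) ^ 2 + y ^ 2)))
        (y / (c ^ 2 * ((x + d / c) ^ 2 + y ^ 2))) v (by positivity) hv h1 1 hh1 0 0
    simpa using this
  have hs2 : Summable fun p : (Fin N × Fin N) × (ℤ × ℤ) => h1 (sgEq N p) *
      ph (-(x + d / c) / (c ^ 2 * ((x + d / c) ^ 2 + y ^ 2)))
        (y / (c ^ 2 * ((x + d / c) ^ 2 + y ^ 2))) v (al (sgEq N p)) (al' (sgEq N p)) :=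
    (sgEq N).summable_iff.mpr hsum
  rw [← (sgEq N).tsum_eq, hs2.tsum_prod, tsum_fintype]
  have s2 : ∀ r : Fin N × Fin N, ∑' b : ℤ × ℤ, h1 (sgEq N (r, b)) *
      ph (-(x + d / c) / (c ^ 2 * ((x + d / c) ^ 2 + y ^ 2)))
        (y / (c ^ 2 * ((x + d / c) ^ 2 + y ^ 2))) v (al (sgEq N (r, b))) (al' (sgEq N (r, b))) =
      ∑' a : ℤ × ℤ, G r a * ph x y v (al a / (√5 * (5 : ℕ))) (-(al' a / (√5 * (5 : ℕ)))) := by
    intro r
    simp only [hcls, sg_al, sg_al']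
    rw [tsum_mul_left, sg_class hP x y v c d hc' hy hv N hNpos hN2, ← tsum_mul_left]
    refine tsum_congr fun a => ?_
    simp only [G]
    ring
  simp only [s2]
  rw [← Summable.tsum_finsetSum]
  · refine tsum_congr fun a => ?_
    rw [Finset.sum_mul]
  · intro r _
    have := sg_summable hS (x := x) hy hv (hG r) (κ := 1 / (√5 * (5 : ℕ))) (by positivity)
    refine this.congr fun a => ?_
    congr 2
    · ring
    · ring

end Pool.Agent.H757M
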