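import Mathlib

/-!
# Project M17: a cuspidal representation of `PGL₂` all of whose quadratic twists vanish at the centre

`O = ℤ[w]`, `w = (1 + √5)/2`.  The Hecke character `ψ(α) = (α/√5) |α/α'|^{-it}`, `t = π / (2 log w)`, of
`ℚ(√5)` and its Maass form of level `25`.  Definitions and the statements of the parts.  All the
statements were checked by computer.
-/

set_option autoImplicit false
set_option linter.unusedVariables false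

namespace Pool.Agent.H757M

open Real MeasureTheory UpperHalfPlane

open scoped MatrixGroups Classical

noncomputable section

/-! ### the ring -/

/-- `w = (1 + √5)/2` -/
def w : ℝ := (1 + √5) / 2

/-- `α = m + n w` for `a = (m, n)` -/
def al (a : ℤ × ℤ) : ℝ := a.1 + a.2 * w

/-- the conjugate `α' = m + n (1 - w)` -/
def al' (a : ℤ × ℤ) : ℝ := a.1 + a.2 * (1 - w)

/-- the norm `α α'` -/
def nm (a : ℤ × ℤ) : ℤ := a.1 ^ 2 + a.1 * a.2 - a.2 ^ 2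

/-- the quadratic residue symbol modulo `√5` (`w ≡ 3`) -/
def ch (a : ℤ × ℤ) : ℤ := jacobiSym (a.1 + 3 * a.2) 5

/-- the product in `O`: `w² = w + 1` -/
def mulO (a b : ℤ × ℤ) : ℤ × ℤ := (a.1 * b.1 + a.2 * b.2, a.1 * b.2 + a.2 * b.1 + a.2 * b.2)

/-- the conjugate of `m + n w` is `(m + n) - n w` -/
def conjO (a : ℤ × ℤ) : ℤ × ℤ := (a.1 + a.2, -a.2)

/-- `t = π / (2 log w)` -/
def tt : ℝ := π / (2 * Real.log w)

/-! ### the kernel -/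

/-- `φ_z(p, q) = √y e(x p q) exp(-π y (p² v² + q²/v²))`, `z = x + i y` -/
def ph (x y v p q : ℝ) : ℂ :=
  ((√y * Real.exp (-(π * y * (p ^ 2 * v ^ 2 + q ^ 2 / v ^ 2))) : ℝ) : ℂ) *
    Complex.exp (2 * π * Complex.I * ((x * (p * q) : ℝ) : ℂ))

/-- the theta kernel `Σ_α (α/√5) φ_z(α, α')` -/
def th (x y v : ℝ) : ℂ := ∑' a : ℤ × ℤ, (ch a : ℂ) * ph x y v (al a) (al' a)

/-- the theta kernel on the upper half-plane -/
def thz (z : ℍ) (v : ℝ) : ℂ := th z.re z.im v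

/-- P1 (SUM): summability of the theta series, uniformly -/
def S_SUM : Prop :=
  (∀ x y v : ℝ, 0 < y → 0 < v → ∀ (h : ℤ × ℤ → ℂ) (C : ℝ), (∀ a, ‖h a‖ ≤ C) → ∀ p q : ℝ,
    Summable fun a : ℤ × ℤ => h a * ph x y v (al a + p) (al' a + q)) ∧
  (∀ y v₁ v₂ : ℝ, 0 < y → 0 < v₁ → v₁ ≤ v₂ → ∃ g : ℤ × ℤ → ℝ, Summable g ∧
    ∀ x v : ℝ, v₁ ≤ v → v ≤ v₂ → ∀ a : ℤ × ℤ, ‖ph x y v (al a) (al' a)‖ ≤ g a)

/-- P1 (POI): Poisson summation; the dual lattice of `O` for the pairing `Tr (δ' u)` is `(1/√5) O`, and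
`(m + n w)/√5` has the conjugate `-(m + n w')/√5` -/
def S_POI : Prop := ∀ x y v p q : ℝ, 0 < y → 0 < v →
  ∑' a : ℤ × ℤ, ph (-x / (x ^ 2 + y ^ 2)) (y / (x ^ 2 + y ^ 2)) v (al a + p) (al' a + q) =
    (1 / √5 : ℝ) * ∑' a : ℤ × ℤ,
      Complex.exp (2 * π * Complex.I * ((-(al' a / √5) * p + (al a / √5) * q : ℝ) : ℂ)) *
        ph x y v (al a / √5) (-(al' a / √5))

/-- P2 (TH): the transformations of the kernel -/
def S_TH : Prop := S_SUM → S_POI →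
  (∀ x y v : ℝ, th (x + 1) y v = th x y v) ∧
  (∀ γ : SL(2, ℤ), γ 1 0 = 25 → ∀ (z : ℍ) (v : ℝ), 0 < v → thz (γ • z) v = thz z v) ∧
  (∀ x y v : ℝ, 0 < y → 0 < v →
    th (-x / (25 * (x ^ 2 + y ^ 2))) (y / (25 * (x ^ 2 + y ^ 2))) v = -th x y v)

/-- P2 (SIG): the expansion at the other cusps -/
def S_SIG : Prop := S_SUM → S_POI → ∀ σ : SL(2, ℤ), σ 1 0 ≠ 0 → ∃ (M : ℕ) (H : ℤ × ℤ → ℂ) (C : ℝ), 0 < M ∧
  (∀ a, ‖H a‖ ≤ C) ∧ ∀ (z : ℍ) (v : ℝ), 0 < v →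
    thz (σ • z) v = ∑' a : ℤ × ℤ, H a * ph z.re z.im v (al a / (√5 * M)) (-(al' a / (√5 * M)))

/-- P3 (GEN): generators of `Γ₀(25)` -/
def S_GEN : Prop := ∀ H : Subgroup SL(2, ℤ), ModularGroup.T ∈ H → (-1 : SL(2, ℤ)) ∈ H →
  (∀ γ : SL(2, ℤ), γ 1 0 = 25 → γ ∈ H) → CongruenceSubgroup.Gamma0 25 ≤ H

/-! ### the Bessel function -/

/-- `∫_0^∞ exp(-π y (v² + v⁻²)) v^{2it} dv/v` -/
def kk (y : ℝ) : ℝ := ∫ u : ℝ, Real.exp (-(2 * π * y * Real.cosh (2 * u))) * Real.cos (2 * tt * u)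

/-- P4 (BES1): smoothness, the differential equation and decay -/
def S_BES1 : Prop :=
  ContDiffOn ℝ 3 kk (Set.Ioi 0) ∧
  (∀ y : ℝ, 0 < y → y ^ 2 * iteratedDeriv 2 kk y + y * deriv kk y =
    (4 * π ^ 2 * y ^ 2 - tt ^ 2) * kk y) ∧
  (∀ j : ℕ, j ≤ 2 → ∃ (C : ℝ), ∀ y : ℝ, 0 < y →
    |iteratedDeriv j kk y| ≤ C * (y⁻¹) ^ (j + 1) * Real.exp (-y))

/-- P4 (BES2): the Mellin transform -/
def S_BES2 : Prop := ∀ s : ℂ, 0 < s.re →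
  IntegrableOn (fun y : ℝ => (kk y : ℂ) * (y : ℂ) ^ (s - 1)) (Set.Ioi 0) ∧
  ∫ y : ℝ in Set.Ioi 0, (kk y : ℂ) * (y : ℂ) ^ (s - 1) =
    1 / 4 * (π : ℂ) ^ (-s) * Complex.Gamma ((s + tt * Complex.I) / 2) *
      Complex.Gamma ((s - tt * Complex.I) / 2)

/-! ### the coefficients -/

/-- the fundamental domain: `α > 0`, `1 ≤ |α/α'| < w²` -/
def Dm (a : ℤ × ℤ) : Prop := 0 < al a ∧ |al' a| ≤ al a ∧ al a < w ^ 2 * |al' a|

/-- `ψ(α) = (α/√5) |α/α'|^{-it}` -/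
def ps (a : ℤ × ℤ) : ℂ :=
  (ch a : ℂ) * Complex.exp (-(Complex.I * ((tt * Real.log |al a / al' a| : ℝ) : ℂ)))

/-- `a(n) = Σ ψ(𝔞)` over the ideals of norm `n` -/
def aa (n : ℕ) : ℂ := ∑ᶠ a : ℤ × ℤ, if Dm a ∧ (nm a).natAbs = n then ps a else 0

/-- P5 (COEF): the arithmetic of the coefficients -/
def S_COEF : Prop := aa 0 = 0 ∧ aa 1 = 1 ∧ (∀ n : ℕ, n % 5 ≠ 1 → n % 5 ≠ 4 → aa n = 0) ∧
  (∃ C : ℝ, ∀ n : ℕ, ‖aa n‖ ≤ C * n) ∧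
  ∀ p : ℕ, p.Prime → p ≠ 5 → ∀ n : ℕ, 0 < n →
    aa p * aa n = aa (p * n) + if p ∣ n then aa (n / p) else 0

/-! ### the Maass form -/

/-- the Maass form -/
def ff (x y : ℝ) : ℂ :=
  ∑' n : ℕ, aa n * ((√y * kk (n * y) * (2 * Real.cos (2 * π * (n * x))) : ℝ) : ℂ)

/-- the Maass form on the upper half-plane -/
def F (z : ℍ) : ℂ := ff z.re z.im

/-- P6 (UNF): unfolding -/
def S_UNF : Prop := S_SUM → ∀ x y : ℝ, 0 < y →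
  2 * ff x y = ∫ v : ℝ in (1 : ℝ)..w ^ 2, th x y v * (v : ℂ) ^ (2 * tt * Complex.I - 1)

/-- P7 (AUT): automorphy -/
def S_AUT : Prop := S_UNF → S_SUM → S_POI → S_TH → S_GEN →
  (∀ γ ∈ CongruenceSubgroup.Gamma0 25, ∀ z : ℍ, F (γ • z) = F z) ∧
  (∀ x y : ℝ, 0 < y →
    ff (-x / (25 * (x ^ 2 + y ^ 2))) (y / (25 * (x ^ 2 + y ^ 2))) = -ff x y)

/-- automorphy -/
def S_AUT' : Prop := (∀ γ ∈ CongruenceSubgroup.Gamma0 25, ∀ z : ℍ, F (γ • z) = F z) ∧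
  (∀ x y : ℝ, 0 < y →
    ff (-x / (25 * (x ^ 2 + y ^ 2))) (y / (25 * (x ^ 2 + y ^ 2))) = -ff x y)

/-- P7 (CUSP): the constant terms at all the cusps are zero -/
def S_CUSP : Prop := S_UNF → S_SUM → S_POI → S_SIG → S_AUT' → ∀ (σ : SL(2, ℤ)) (y : ℝ) (hy : 0 < y),
  ∫ x : ℝ in (0 : ℝ)..25, F (σ • (⟨⟨x, y⟩, hy⟩ : ℍ)) = 0

/-- P8 (DIF): smoothness, the Laplacian, growth -/
def S_DIF : Prop := S_BES1 → S_COEF →
  ContDiffOn ℝ 2 (fun p : ℝ × ℝ => ff p.1 p.2) {p | 0 < p.2} ∧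
  (∀ x y : ℝ, 0 < y →
    -(y ^ 2 : ℂ) * (iteratedDeriv 2 (fun x' => ff x' y) x + iteratedDeriv 2 (fun y' => ff x y') y) =
      ((1 / 4 + tt ^ 2 : ℝ) : ℂ) * ff x y) ∧
  (∃ (A : ℕ) (C : ℝ), ∀ x y : ℝ, 0 < y → ‖ff x y‖ ≤ C * (y⁻¹) ^ A) ∧
  (∀ x y : ℝ, 0 < y → HasDerivAt (fun x' => ff x' y)
    (∑' n : ℕ, aa n * ((√y * kk (n * y) * (-(4 * π * n) * Real.sin (2 * π * (n * x))) : ℝ) : ℂ)) x)

/-- P9 (HEC): the Hecke operators -/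
def S_HEC : Prop := S_BES1 → S_COEF →
  (∀ p : ℕ, p.Prime → p ≠ 5 → ∀ x y : ℝ, 0 < y →
    (ff (p * x) (p * y) + ∑ b ∈ Finset.range p, ff ((x + b) / p) (y / p)) = √p * aa p * ff x y) ∧
  (∀ x y : ℝ, 0 < y → ∑ b ∈ Finset.range 5, ff ((x + b) / 5) (y / 5) = 0)

/-- P9 (NZ): the Maass form is not zero -/
def S_NZ : Prop := S_BES1 → S_BES2 → S_COEF → ∃ x y : ℝ, 0 < y ∧ ff x y ≠ 0

/-! ### the twists -/

/-- a quadratic character: a primitive Dirichlet character of order two (the level `0` is excluded where this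
matters) -/
def IsQuad {M : ℕ} (χ : DirichletCharacter ℂ M) : Prop := χ.IsPrimitive ∧ orderOf χ = 2

/-- P10 (TWI): the twists by the characters of conductor prime to five -/
def S_TWI : Prop := S_AUT' → S_BES1 → S_BES2 → S_COEF → S_DIF → ∀ (M : ℕ) (χ : DirichletCharacter ℂ M),
  IsQuad χ → Nat.Coprime M 5 → ∃ L : ℂ → ℂ, Differentiable ℂ L ∧ L (1 / 2) = 0 ∧
    ∀ s : ℂ, 2 < s.re → HasSum (fun n : ℕ => aa n * χ n * (n : ℂ) ^ (-s)) (L s)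

/-- the case of the trivial twist -/
def S_TWI1 : Prop := S_AUT' → S_BES1 → S_BES2 → S_COEF → S_DIF → ∃ L : ℂ → ℂ, Differentiable ℂ L ∧
  L (1 / 2) = 0 ∧ ∀ s : ℂ, 2 < s.re → HasSum (fun n : ℕ => aa n * (n : ℂ) ^ (-s)) (L s)

/-- P11 (FIVE): a quadratic character of conductor divisible by five is the product of the symbol modulo
five and a quadratic or trivial primitive character -/
def S_FIVE : Prop := ∀ (M : ℕ) (χ : DirichletCharacter ℂ M), 0 < M → IsQuad χ → 5 ∣ M →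
  (M = 5 ∧ ∀ n : ℕ, n % 5 = 1 ∨ n % 5 = 4 → χ n = 1) ∨
  ∃ (M' : ℕ) (χ' : DirichletCharacter ℂ M'), IsQuad χ' ∧ M = 5 * M' ∧ Nat.Coprime M' 5 ∧
    ∀ n : ℕ, n % 5 = 1 ∨ n % 5 = 4 → χ n = χ' n

/-- P12 (EUL): the Euler product -/
def S_EUL : Prop := S_COEF → ∀ (M : ℕ) (χ : DirichletCharacter ℂ M), ∀ s : ℂ, 2 < s.re →
  Summable (fun n : ℕ => aa n * χ n * (n : ℂ) ^ (-s)) ∧
  HasProd (fun p : Nat.Primes => (1 - aa (p : ℕ) * χ ((p : ℕ) : ZMod M) * ((p : ℕ) : ℂ) ^ (-s) +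
    (if (p : ℕ) = 5 then 0 else χ ((p : ℕ) : ZMod M) ^ 2 * ((p : ℕ) : ℂ) ^ (-(2 * s))))⁻¹)
    (∑' n : ℕ, aa n * χ n * (n : ℂ) ^ (-s))

/-- P12 (QEX): there is a quadratic character; there are finitely many of given conductor -/
def S_QEX : Prop := (∃ χ : DirichletCharacter ℂ 3, IsQuad χ) ∧
  ∀ M : ℕ, 0 < M → {χ : DirichletCharacter ℂ M | IsQuad χ}.Finite

/-! ### the definitions used in the final theorem -/

/-- the Laplacian `y² (∂²/∂x² + ∂²/∂y²)` -/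
def lap (f : ℍ → ℂ) (x y : ℝ) : ℂ :=
  (y ^ 2 : ℂ) * (iteratedDeriv 2 (fun x' => if h : 0 < y then f ⟨⟨x', y⟩, h⟩ else 0) x +
    iteratedDeriv 2 (fun y' => if h : 0 < y' then f ⟨⟨x, y'⟩, h⟩ else 0) y)

/-- P8 (DIFH): `S_DIF` on the upper half-plane -/
def S_DIFH : Prop := S_DIF → S_BES1 → S_COEF →
  ContDiffOn ℝ 2 (fun p : ℝ × ℝ => if h : 0 < p.2 then F ⟨⟨p.1, p.2⟩, h⟩ else 0) {p | 0 < p.2} ∧
  ∀ x y : ℝ, ∀ h : 0 < y, -lap F x y = ((1 / 4 + tt ^ 2 : ℝ) : ℂ) * F ⟨⟨x, y⟩, h⟩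

end

end Pool.Agent.H757M
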