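import Pool.Agent.H757M.Stm

set_option autoImplicit false

namespace Pool.Agent.H757M

open Real MeasureTheory UpperHalfPlane
open scoped MatrixGroups Classical

/-- one-dimensional Gaussian sum -/
theorem h743_gauss (c : ℝ) (hc : 0 < c) : Summable fun n : ℤ => Real.exp (-(c * (n : ℝ) ^ 2)) := by
  have h := summable_pow_mul_jacobiTheta₂_term_bound 0 (T := c / π) (by positivity) 0
  refine h.congr fun n => ?_
  have hpi : (π : ℝ) ≠ 0 := Real.pi_ne_zero
  simp only [pow_zero, one_mul, mul_zero, zero_mul, sub_zero]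
  congr 1
  field_simp

/-- two-dimensional Gaussian sum -/
theorem h743_gauss2 (c K : ℝ) (hc : 0 < c) :
    Summable fun a : ℤ × ℤ => K * Real.exp (-(c * ((a.1 : ℝ) ^ 2 + (a.2 : ℝ) ^ 2))) := by
  have h1 := h743_gauss c hc
  have h2 := (h1.mul_of_nonneg h1 (fun n => (Real.exp_pos _).le)
    (fun n => (Real.exp_pos _).le)).mul_left K
  refine h2.congr fun a => ?_
  rw [← Real.exp_add]
  congr 2
  ring

/-- the norm of the kernel -/
theorem h743_norm (x y v p q : ℝ) : ‖ph x y v p q‖ =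
    √y * Real.exp (-(π * y * (p ^ 2 * v ^ 2 + q ^ 2 / v ^ 2))) := by
  unfold ph
  have h1 : ‖Complex.exp (2 * π * Complex.I * ((x * (p * q) : ℝ) : ℂ))‖ = 1 := by
    have : (2 * π * Complex.I * ((x * (p * q) : ℝ) : ℂ)) =
        ((2 * π * (x * (p * q)) : ℝ) : ℂ) * Complex.I := by
      push_cast
      ring
    rw [this, Complex.norm_exp_ofReal_mul_I]
  rw [norm_mul, h1, mul_one, Complex.norm_real, Real.norm_eq_abs,
    abs_of_nonneg (by positivity)]

theorem h743_w : 2 * w - 1 = √5 := by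
  unfold w
  ring

/-- the quadratic form bound -/
theorem h743_quad (m n p q : ℝ) :
    (m ^ 2 + n ^ 2) / 2 - (p ^ 2 + q ^ 2) ≤
      (m + n * w + p) ^ 2 + (m + n * (1 - w) + q) ^ 2 := by
  have h5 : (√5 : ℝ) ^ 2 = 5 := Real.sq_sqrt (by norm_num)
  have hw2 : w ^ 2 = w + 1 := by
    unfold w
    nlinarith [h5]
  have h1 : (m + n * w) ^ 2 + (m + n * (1 - w)) ^ 2 = 2 * m ^ 2 + 2 * m * n + 3 * n ^ 2 := by
    linear_combination (2 * n ^ 2) * hw2
  nlinarith [sq_nonneg (m + n * w + 2 * p), sq_nonneg (m + n * (1 - w) + 2 * q),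
    sq_nonneg (m + n), sq_nonneg n]

/-- the kernel is bounded by a Gaussian -/
theorem h743_bd (x y v κ m n p q : ℝ) (hy : 0 < y) (hv : 0 < v) (hκ : 0 < κ)
    (h1 : κ ≤ v ^ 2) (h2 : κ ≤ 1 / v ^ 2) :
    ‖ph x y v (m + n * w + p) (m + n * (1 - w) + q)‖ ≤
      (√y * Real.exp (π * y * κ * (p ^ 2 + q ^ 2))) *
        Real.exp (-((π * y * κ / 2) * (m ^ 2 + n ^ 2))) := by
  rw [h743_norm, mul_assoc (√y), ← Real.exp_add]
  refine mul_le_mul_of_nonneg_left (Real.exp_le_exp.2 ?_) (Real.sqrt_nonneg _)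
  have hq := h743_quad m n p q
  set P := m + n * w + p
  set Q := m + n * (1 - w) + q
  have hP : P ^ 2 * κ ≤ P ^ 2 * v ^ 2 := mul_le_mul_of_nonneg_left h1 (sq_nonneg _)
  have hQ : Q ^ 2 * κ ≤ Q ^ 2 / v ^ 2 := by
    have := mul_le_mul_of_nonneg_left h2 (sq_nonneg Q)
    calc Q ^ 2 * κ ≤ Q ^ 2 * (1 / v ^ 2) := this
      _ = Q ^ 2 / v ^ 2 := by ring
  have hc : 0 < π * y := by positivity
  have h3 : π * y * (κ * ((m ^ 2 + n ^ 2) / 2 - (p ^ 2 + q ^ 2))) ≤
      π * y * (P ^ 2 * v ^ 2 + Q ^ 2 / v ^ 2) := by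
    refine mul_le_mul_of_nonneg_left ?_ hc.le
    have := mul_le_mul_of_nonneg_left hq hκ.le
    nlinarith
  nlinarith

theorem t_SUM : S_SUM := by
  refine ⟨?_, ?_⟩
  · intro x y v hy hv h C hC p q
    set κ := min (v ^ 2) (1 / v ^ 2) with hκd
    have hκ : 0 < κ := lt_min (by positivity) (by positivity)
    have hs := h743_gauss2 (π * y * κ / 2)
      (C * (√y * Real.exp (π * y * κ * (p ^ 2 + q ^ 2)))) (by positivity)
    refine Summable.of_norm_bounded hs fun a => ?_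
    have hC0 : 0 ≤ C := le_trans (norm_nonneg _) (hC a)
    have hb := h743_bd x y v κ a.1 a.2 p q hy hv hκ (min_le_left _ _) (min_le_right _ _)
    rw [norm_mul]
    calc ‖h a‖ * ‖ph x y v (al a + p) (al' a + q)‖ ≤
        C * ((√y * Real.exp (π * y * κ * (p ^ 2 + q ^ 2))) *
          Real.exp (-((π * y * κ / 2) * ((a.1 : ℝ) ^ 2 + (a.2 : ℝ) ^ 2)))) :=
          mul_le_mul (hC a) hb (norm_nonneg _) hC0
      _ = _ := by ring
  · intro y v₁ v₂ hy hv₁ hv
    have hv₂ : 0 < v₂ := lt_of_lt_of_le hv₁ hv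
    set κ := min (v₁ ^ 2) (1 / v₂ ^ 2) with hκd
    have hκ : 0 < κ := lt_min (by positivity) (by positivity)
    refine ⟨_, h743_gauss2 (π * y * κ / 2)
      (√y * Real.exp (π * y * κ * ((0 : ℝ) ^ 2 + (0 : ℝ) ^ 2))) (by positivity), ?_⟩
    intro x v h1 h2 a
    have hv0 : 0 < v := lt_of_lt_of_le hv₁ h1
    have e1 : κ ≤ v ^ 2 := le_trans (min_le_left _ _) (by gcongr)
    have e2 : κ ≤ 1 / v ^ 2 := le_trans (min_le_right _ _) (by gcongr)
    have hb := h743_bd x y v κ a.1 a.2 0 0 hy hv0 hκ e1 e2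
    rw [add_zero, add_zero] at hb
    exact hb

end Pool.Agent.H757M
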