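import Pool.Agent.H757M.Stm

set_option autoImplicit false

/-! # M17 TH (helper291): the transformations of the kernel -/

namespace Pool.Agent.H757M

section


open Real

instance thy_fact5 : Fact (Nat.Prime 5) := ⟨by norm_num⟩

/-- reduction -/
noncomputable def thyp : ZMod 25 →+* ZMod 5 := ZMod.castHom (show 5 ∣ 25 by norm_num) (ZMod 5)

/-- the symbol -/
noncomputable def thyc (x : ZMod 5) : ℂ := ((quadraticChar (ZMod 5) x : ℤ) : ℂ)

theorem thyc_mul (x y : ZMod 5) : thyc (x * y) = thyc x * thyc y := by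
  unfold thyc; rw [map_mul]; push_cast; rfl

theorem thyc_val : thyc 0 = 0 ∧ thyc 1 = 1 ∧ thyc 2 = -1 ∧ thyc 3 = -1 ∧ thyc 4 = 1 := by
  have h : quadraticChar (ZMod 5) 0 = 0 ∧ quadraticChar (ZMod 5) 1 = 1 ∧
    quadraticChar (ZMod 5) 2 = -1 ∧ quadraticChar (ZMod 5) 3 = -1 ∧ quadraticChar (ZMod 5) 4 = 1 := by
    decide
  obtain ⟨h0, h1, h2, h3, h4⟩ := h
  unfold thyc
  rw [h0, h1, h2, h3, h4]
  push_cast
  exact ⟨rfl, rfl, rfl, rfl, rfl⟩

theorem thyc_neg (x : ZMod 5) : thyc (-x) = thyc x := by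
  have : ∀ x : ZMod 5, quadraticChar (ZMod 5) (-x) = quadraticChar (ZMod 5) x := by decide
  unfold thyc; rw [this]

theorem thyp_surj5 (x : ZMod 25) : (5 * x = 0) ↔ thyp x = 0 := by
  have : ∀ x : ZMod 25, (5 * x = 0) ↔ (ZMod.castHom (show 5 ∣ 25 by norm_num) (ZMod 5)) x = 0 := by
    decide
  exact this x

theorem thyp_int (n : ℤ) : thyp (n : ZMod 25) = (n : ZMod 5) := by
  unfold thyp; simp

theorem thy25 : (25 : ZMod 25) = 0 := by decide

theorem thyp5 : thyp 5 = 0 := by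
  have := (thyp_surj5 5).mp (by decide)
  exact this

/-- `ψ_25(5x) = ψ_5(x)` -/
theorem thy_psi5 (x : ZMod 25) :
    (ZMod.stdAddChar (5 * x) : ℂ) = ZMod.stdAddChar (thyp x) := by
  have hx : x = ((x.val : ℤ) : ZMod 25) := by
    push_cast
    rw [ZMod.natCast_zmod_val]
  rw [hx, thyp_int]
  have : (5 * (((x.val : ℤ)) : ZMod 25)) = ((5 * (x.val : ℤ) : ℤ) : ZMod 25) := by push_cast; rfl
  rw [this, ZMod.stdAddChar_coe, ZMod.stdAddChar_coe]
  congr 1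
  push_cast
  ring

theorem thy_cos1 : (ZMod.stdAddChar (1 : ZMod 5) : ℂ) + ZMod.stdAddChar (4 : ZMod 5) =
    (((√5 - 1) / 2 : ℝ) : ℂ) := by
  have h1 : (1 : ZMod 5) = ((1 : ℤ) : ZMod 5) := by norm_num
  have h4 : (4 : ZMod 5) = ((-1 : ℤ) : ZMod 5) := by decide
  rw [h4, h1, ZMod.stdAddChar_coe, ZMod.stdAddChar_coe]
  have hc : Real.cos (2 * π / 5) = (√5 - 1) / 4 := by
    have : 2 * π / 5 = 2 * (π / 5) := by ring
    rw [this, Real.cos_two_mul, Real.cos_pi_div_five]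
    have := Real.mul_self_sqrt (show (0:ℝ) ≤ 5 by norm_num)
    linear_combination (1 / 8) * this
  have e : (((√5 - 1) / 2 : ℝ) : ℂ) = 2 * (((Real.cos (2 * π / 5)) : ℝ) : ℂ) := by
    rw [hc]; push_cast; ring
  rw [e, Complex.ofReal_cos, Complex.two_cos]
  congr 1 <;> congr 1 <;> push_cast <;> ring

theorem thy_cos2 : (ZMod.stdAddChar (2 : ZMod 5) : ℂ) + ZMod.stdAddChar (3 : ZMod 5) =
    (((-√5 - 1) / 2 : ℝ) : ℂ) := by
  have hp := ZMod.isPrimitive_stdAddChar 5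
  have h := AddChar.sum_eq_zero_of_ne_one (ψ := (ZMod.stdAddChar : AddChar (ZMod 5) ℂ)) (by
    intro h
    have := hp (a := 1) one_ne_zero
    apply this
    ext x
    simp [h])
  have e : ∑ x : ZMod 5, (ZMod.stdAddChar x : ℂ) = ZMod.stdAddChar (0 : ZMod 5) +
      ZMod.stdAddChar (1 : ZMod 5) + ZMod.stdAddChar (2 : ZMod 5) + ZMod.stdAddChar (3 : ZMod 5) +
      ZMod.stdAddChar (4 : ZMod 5) := Fin.sum_univ_five _
  rw [e, AddChar.map_zero_eq_one] at h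
  have h1 := thy_cos1
  have : (((-√5 - 1) / 2 : ℝ) : ℂ) = - (((√5 - 1) / 2 : ℝ) : ℂ) - 1 := by push_cast; ring
  rw [this]
  linear_combination h - h1

/-- the Gauss sums -/
theorem thy_gauss (c : ZMod 5) :
    ∑ s : ZMod 5, thyc s * ZMod.stdAddChar (c * s) = thyc c * ((√5 : ℝ) : ℂ) := by
  obtain ⟨c0, c1, c2, c3, c4⟩ := thyc_val
  have e : ∑ s : ZMod 5, thyc s * (ZMod.stdAddChar (c * s) : ℂ) = thyc 0 * ZMod.stdAddChar (c * 0) +
      thyc 1 * ZMod.stdAddChar (c * 1) + thyc 2 * ZMod.stdAddChar (c * 2) +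
      thyc 3 * ZMod.stdAddChar (c * 3) + thyc 4 * ZMod.stdAddChar (c * 4) := Fin.sum_univ_five _
  rw [e, c0, c1, c2, c3, c4]
  have h1 := thy_cos1
  have h2 := thy_cos2
  push_cast at h1 h2
  have hc' : ∀ c : ZMod 5, c = 0 ∨ c = 1 ∨ c = 2 ∨ c = 3 ∨ c = 4 := by decide
  have hc := hc' c
  rcases hc with rfl | rfl | rfl | rfl | rfl
  · rw [c0]; simp
  · rw [c1]; simp only [one_mul]; linear_combination h1 - h2
  · rw [c2, show (2 : ZMod 5) * 1 = 2 by decide, show (2 : ZMod 5) * 2 = 4 by decide,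
      show (2 : ZMod 5) * 3 = 1 by decide, show (2 : ZMod 5) * 4 = 3 by decide]
    linear_combination h2 - h1
  · rw [c3, show (3 : ZMod 5) * 1 = 3 by decide, show (3 : ZMod 5) * 2 = 1 by decide,
      show (3 : ZMod 5) * 3 = 4 by decide, show (3 : ZMod 5) * 4 = 2 by decide]
    linear_combination h2 - h1
  · rw [c4, show (4 : ZMod 5) * 1 = 4 by decide, show (4 : ZMod 5) * 2 = 3 by decide,
      show (4 : ZMod 5) * 3 = 2 by decide, show (4 : ZMod 5) * 4 = 1 by decide]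
    linear_combination h1 - h2

theorem thy_sq (c : ZMod 5) (hc : c ≠ 0) :
    ∑ s : ZMod 5, (ZMod.stdAddChar (c * s ^ 2) : ℂ) = thyc c * ((√5 : ℝ) : ℂ) := by
  obtain ⟨c0, c1, c2, c3, c4⟩ := thyc_val
  have e : ∑ s : ZMod 5, (ZMod.stdAddChar (c * s ^ 2) : ℂ) = ZMod.stdAddChar (c * 0 ^ 2) +
      ZMod.stdAddChar (c * 1 ^ 2) + ZMod.stdAddChar (c * 2 ^ 2) +
      ZMod.stdAddChar (c * 3 ^ 2) + ZMod.stdAddChar (c * 4 ^ 2) := Fin.sum_univ_five _
  rw [e, show (0 : ZMod 5) ^ 2 = 0 by decide, show (1 : ZMod 5) ^ 2 = 1 by decide,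
    show (2 : ZMod 5) ^ 2 = 4 by decide, show (3 : ZMod 5) ^ 2 = 4 by decide,
    show (4 : ZMod 5) ^ 2 = 1 by decide, mul_zero, AddChar.map_zero_eq_one]
  have h1 := thy_cos1
  have h2 := thy_cos2
  push_cast at h1 h2
  have hc' : ∀ c : ZMod 5, c ≠ 0 → c = 1 ∨ c = 2 ∨ c = 3 ∨ c = 4 := by decide
  have hc := hc' c hc
  rcases hc with rfl | rfl | rfl | rfl
  · rw [c1]; simp only [one_mul]; linear_combination 2 * h1
  · rw [c2, show (2 : ZMod 5) * 1 = 2 by decide, show (2 : ZMod 5) * 4 = 3 by decide]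
    linear_combination 2 * h2
  · rw [c3, show (3 : ZMod 5) * 1 = 3 by decide, show (3 : ZMod 5) * 4 = 2 by decide]
    linear_combination 2 * h2
  · rw [c4, show (4 : ZMod 5) * 1 = 4 by decide, show (4 : ZMod 5) * 4 = 1 by decide]
    linear_combination 2 * h1

/-- the Fricke sum -/
theorem thy_fricke (b₁ b₂ : ZMod 5) :
    ∑ r : ZMod 5 × ZMod 5, thyc (r.1 + 3 * r.2) * ZMod.stdAddChar (b₂ * r.1 - b₁ * r.2) =
      if b₁ + 3 * b₂ = 0 then 5 * (thyc b₂ * ((√5 : ℝ) : ℂ)) else 0 := by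
  let E : ZMod 5 × ZMod 5 ≃ ZMod 5 × ZMod 5 :=
    { toFun := fun p => (p.1 - 3 * p.2, p.2)
      invFun := fun p => (p.1 + 3 * p.2, p.2)
      left_inv := fun p => by ext <;> simp
      right_inv := fun p => by ext <;> simp }
  rw [← E.sum_comp, Fintype.sum_prod_type]
  have h1 : ∀ s t : ZMod 5, thyc ((E (s, t)).1 + 3 * (E (s, t)).2) *
      ZMod.stdAddChar (b₂ * (E (s, t)).1 - b₁ * (E (s, t)).2) =
      thyc s * ZMod.stdAddChar (b₂ * s) * ZMod.stdAddChar (t * (-(b₁ + 3 * b₂))) := by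
    intro s t
    have e1 : (E (s, t)).1 + 3 * (E (s, t)).2 = s := by simp [E]
    have e2 : b₂ * (E (s, t)).1 - b₁ * (E (s, t)).2 = b₂ * s + t * (-(b₁ + 3 * b₂)) := by
      simp only [E, Equiv.coe_fn_mk]; ring
    rw [e1, e2, AddChar.map_add_eq_mul]
    ring
  simp_rw [h1, ← Finset.mul_sum]
  have h2 := AddChar.sum_mulShift (R := ZMod 5) (R' := ℂ) (-(b₁ + 3 * b₂))
    (ZMod.isPrimitive_stdAddChar 5)
  rw [h2, ← Finset.sum_mul, thy_gauss, ZMod.card]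
  simp only [neg_eq_zero]
  split_ifs with h
  · push_cast; ring
  · simp

theorem thy_fib (f : ZMod 5 → ℂ) : ∑ u : ZMod 25, f (thyp u) = 5 * ∑ u : ZMod 5, f u := by
  have h1 : ∀ u : ZMod 25, f (thyp u) = ∑ v : ZMod 5, if thyp u = v then f v else 0 := by
    intro u
    rw [Finset.sum_ite_eq]
    simp
  simp_rw [h1]
  rw [Finset.sum_comm, Finset.mul_sum]
  refine Finset.sum_congr rfl fun v _ => ?_
  rw [← Finset.sum_filter, Finset.sum_const]
  have : ∀ v : ZMod 5, (Finset.univ.filter fun u : ZMod 25 =>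
      (ZMod.castHom (show 5 ∣ 25 by norm_num) (ZMod 5)) u = v).card = 5 := by decide
  have h2 : (Finset.univ.filter fun u : ZMod 25 => thyp u = v).card = 5 := this v
  rw [h2, nsmul_eq_mul]
  norm_num

/-- a first sum -/
theorem thy_T (a k : ZMod 25) (ha : IsUnit a) :
    ∑ s : ZMod 25, thyc (thyp (s - k)) * ZMod.stdAddChar (6 * a * s ^ 2) = 5 * thyc (thyp k) := by
  set F : ZMod 25 → ℂ := fun s => thyc (thyp (s - k)) * ZMod.stdAddChar (6 * a * s ^ 2) with hF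
  have h1 : ∀ j : ZMod 25, ∑ s, F s = ∑ s, F s * ZMod.stdAddChar (j * (10 * (a * s))) := by
    intro j
    rw [← Equiv.sum_comp (Equiv.addRight (5 * j))]
    refine Finset.sum_congr rfl fun s _ => ?_
    simp only [hF, Equiv.coe_addRight]
    have e1 : thyp (s + 5 * j - k) = thyp (s - k) := by
      have : s + 5 * j - k = (s - k) + 5 * j := by ring
      rw [this, map_add, map_mul, thyp5, zero_mul, add_zero]
    have e2 : 6 * a * (s + 5 * j) ^ 2 = 6 * a * s ^ 2 + j * (10 * (a * s)) := by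
      linear_combination (2 * a * s * j + 6 * a * j ^ 2) * thy25
    rw [e1, e2, AddChar.map_add_eq_mul]
    ring
  have h2 : (25 : ℂ) * ∑ s, F s = ∑ s, F s * (if 10 * (a * s) = 0 then 25 else 0) := by
    calc (25 : ℂ) * ∑ s, F s = ∑ j : ZMod 25, ∑ s, F s := by
          rw [Finset.sum_const, Finset.card_univ, ZMod.card, nsmul_eq_mul]; norm_num
      _ = ∑ j : ZMod 25, ∑ s, F s * ZMod.stdAddChar (j * (10 * (a * s))) :=
          Finset.sum_congr rfl fun j _ => h1 j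
      _ = _ := by
          rw [Finset.sum_comm]
          refine Finset.sum_congr rfl fun s _ => ?_
          rw [← Finset.mul_sum, AddChar.sum_mulShift (R := ZMod 25) (R' := ℂ) _
            (ZMod.isPrimitive_stdAddChar 25), ZMod.card]
          push_cast
          rfl
  have h3 : ∀ s : ZMod 25, F s * (if 10 * (a * s) = 0 then 25 else 0) =
      25 * (if thyp s = 0 then thyc (thyp k) else 0) := by
    intro s
    have e1 : 10 * (a * s) = 0 ↔ thyp s = 0 := by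
      obtain ⟨u, rfl⟩ := ha
      have e2 : ∀ x : ZMod 25, 10 * x = 0 ↔ 5 * x = 0 := by decide
      rw [e2, show 5 * ((u : ZMod 25) * s) = u * (5 * s) by ring, Units.mul_right_eq_zero,
        thyp_surj5]
    by_cases h : thyp s = 0
    · rw [if_pos (e1.mpr h), if_pos h]
      have e3 : F s = thyc (thyp k) := by
        simp only [hF]
        have e4 : 6 * a * s ^ 2 = 0 := by
          have e5 : ∀ x : ZMod 25, 5 * x = 0 → x ^ 2 = 0 := by decide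
          rw [e5 s ((thyp_surj5 s).mpr h), mul_zero]
        rw [e4, AddChar.map_zero_eq_one, mul_one, map_sub, h, zero_sub, thyc_neg]
      rw [e3]; ring
    · rw [if_neg (fun h' => h (e1.mp h')), if_neg h]; ring
  simp_rw [h3] at h2
  rw [← Finset.mul_sum] at h2
  have h4 : ∑ s : ZMod 25, (if thyp s = 0 then thyc (thyp k) else 0) =
      5 * thyc (thyp k) := by
    rw [thy_fib (fun v => if v = 0 then thyc (thyp k) else 0)]
    simp
  rw [h4] at h2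
  exact mul_left_cancel₀ (by norm_num) h2

theorem thy_U (a : ZMod 25) (ha : IsUnit a) :
    ∑ u : ZMod 25, (ZMod.stdAddChar (5 * (a * u ^ 2)) : ℂ) = 5 * (thyc (thyp a) * ((√5 : ℝ) : ℂ)) := by
  have ha' : thyp a ≠ 0 := (ha.map thyp).ne_zero
  have h1 : ∀ u : ZMod 25, (ZMod.stdAddChar (5 * (a * u ^ 2)) : ℂ) =
      (fun v : ZMod 5 => (ZMod.stdAddChar (thyp a * v ^ 2) : ℂ)) (thyp u) := by
    intro u
    simp only []
    rw [thy_psi5, map_mul, map_pow]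
  simp_rw [h1]
  rw [thy_fib (fun v : ZMod 5 => (ZMod.stdAddChar (thyp a * v ^ 2) : ℂ)), thy_sq _ ha']

/-- the quadratic sum -/
theorem thy_Q (a k : ZMod 25) (ha : IsUnit a) :
    ∑ y : ZMod 25 × ZMod 25, thyc (thyp (y.1 + 3 * y.2 - k)) *
      ZMod.stdAddChar (a * (y.1 ^ 2 + y.1 * y.2 - y.2 ^ 2)) =
      25 * ((√5 : ℝ) : ℂ) * (thyc (thyp a) * thyc (thyp k)) := by
  let E : ZMod 25 × ZMod 25 ≃ ZMod 25 × ZMod 25 :=
    { toFun := fun p => (p.1 - 3 * (p.2 + 13 * p.1), p.2 + 13 * p.1)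
      invFun := fun p => (p.1 + 3 * p.2, p.2 - 13 * (p.1 + 3 * p.2))
      left_inv := fun p => by ext <;> simp
      right_inv := fun p => by ext <;> simp }
  rw [← E.sum_comp, Fintype.sum_prod_type]
  have h1 : ∀ s u : ZMod 25, thyc (thyp ((E (s, u)).1 + 3 * (E (s, u)).2 - k)) *
      (ZMod.stdAddChar (a * ((E (s, u)).1 ^ 2 + (E (s, u)).1 * (E (s, u)).2 - (E (s, u)).2 ^ 2)) : ℂ) =
      thyc (thyp (s - k)) * ZMod.stdAddChar (6 * a * s ^ 2) * ZMod.stdAddChar (5 * (a * u ^ 2)) := by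
    intro s u
    have e1 : (E (s, u)).1 + 3 * (E (s, u)).2 - k = s - k := by simp [E]
    have e2 : a * ((E (s, u)).1 ^ 2 + (E (s, u)).1 * (E (s, u)).2 - (E (s, u)).2 ^ 2) =
        6 * a * s ^ 2 + 5 * (a * u ^ 2) := by
      simp only [E, Equiv.coe_fn_mk]
      linear_combination (a * (31 * s ^ 2 + 5 * s * u)) * thy25
    rw [e1, e2, AddChar.map_add_eq_mul]
    ring
  simp_rw [h1, ← Finset.mul_sum]
  rw [← Finset.sum_mul, thy_T a k ha, thy_U a ha]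
  ring

/-- the function attached to `γ` -/
noncomputable def thyH (a : ZMod 25) (r : ZMod 25 × ZMod 25) : ℂ :=
  thyc (thyp (r.1 + 3 * r.2)) * ZMod.stdAddChar (a * (r.1 ^ 2 + r.1 * r.2 - r.2 ^ 2))

theorem thy_zero (a b₁ b₂ : ZMod 25) (hb : thyp (b₁ + 3 * b₂) ≠ 0) :
    ∑ r : ZMod 25 × ZMod 25, thyH a r * ZMod.stdAddChar (b₂ * r.1 - b₁ * r.2) = 0 := by
  set F : ZMod 25 × ZMod 25 → ℂ := fun r => thyH a r * ZMod.stdAddChar (b₂ * r.1 - b₁ * r.2) with hF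
  have h1 : ∑ r, F r = ZMod.stdAddChar (10 * b₂ - 5 * b₁) * ∑ r, F r := by
    rw [Finset.mul_sum]
    conv_lhs => rw [← Equiv.sum_comp (Equiv.addRight ((10, 5) : ZMod 25 × ZMod 25))]
    refine Finset.sum_congr rfl fun r _ => ?_
    simp only [hF, Equiv.coe_addRight, thyH, Prod.fst_add, Prod.snd_add]
    have e1 : thyp (r.1 + 10 + 3 * (r.2 + 5)) = thyp (r.1 + 3 * r.2) := by
      congr 1
      linear_combination thy25
    have e2 : a * ((r.1 + 10) ^ 2 + (r.1 + 10) * (r.2 + 5) - (r.2 + 5) ^ 2) =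
        a * (r.1 ^ 2 + r.1 * r.2 - r.2 ^ 2) := by
      linear_combination (a * (r.1 + 5)) * thy25
    have e3 : b₂ * (r.1 + 10) - b₁ * (r.2 + 5) = (10 * b₂ - 5 * b₁) + (b₂ * r.1 - b₁ * r.2) := by
      ring
    rw [e1, e2, e3, AddChar.map_add_eq_mul]
    ring
  have h2 : (ZMod.stdAddChar (10 * b₂ - 5 * b₁) : ℂ) ≠ 1 := by
    intro h
    rw [← AddChar.map_zero_eq_one (ZMod.stdAddChar : AddChar (ZMod 25) ℂ)] at h
    have h3 := ZMod.injective_stdAddChar h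
    have h4 : 5 * (b₁ + 3 * b₂) = 0 := by
      linear_combination -h3 + b₂ * thy25
    exact hb ((thyp_surj5 _).mp h4)
  have h3 : (1 - (ZMod.stdAddChar (10 * b₂ - 5 * b₁) : ℂ)) * ∑ r, F r = 0 := by
    linear_combination h1
  rcases mul_eq_zero.mp h3 with h | h
  · exact absurd (sub_eq_zero.mp h).symm h2
  · exact h

theorem thy_main (a d δ₁ δ₂ : ZMod 25) (had : a * d = 1) :
    (∑ r : ZMod 25 × ZMod 25, thyH a r *
      ZMod.stdAddChar ((2 * δ₁ + δ₂) * r.1 - (-δ₁ + 2 * δ₂) * r.2)) *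
      ZMod.stdAddChar (d * (δ₁ ^ 2 + δ₁ * δ₂ - δ₂ ^ 2)) =
      25 * ((√5 : ℝ) : ℂ) * thyc (thyp (δ₁ + 3 * δ₂)) := by
  have ha : IsUnit a := IsUnit.of_mul_eq_one d had
  have h1 := thy_Q a (d * (δ₁ + 3 * δ₂)) ha
  rw [← Equiv.sum_comp (Equiv.addRight ((d * δ₁, d * δ₂) : ZMod 25 × ZMod 25))] at h1
  have h2 : thyc (thyp a) * thyc (thyp (d * (δ₁ + 3 * δ₂))) = thyc (thyp (δ₁ + 3 * δ₂)) := by
    rw [← thyc_mul, ← map_mul, ← mul_assoc, had, one_mul]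
  rw [h2] at h1
  rw [← h1, Finset.sum_mul]
  refine Finset.sum_congr rfl fun r _ => ?_
  simp only [Equiv.coe_addRight, thyH, Prod.fst_add, Prod.snd_add]
  have e1 : r.1 + d * δ₁ + 3 * (r.2 + d * δ₂) - d * (δ₁ + 3 * δ₂) = r.1 + 3 * r.2 := by ring
  have e2 : a * ((r.1 + d * δ₁) ^ 2 + (r.1 + d * δ₁) * (r.2 + d * δ₂) - (r.2 + d * δ₂) ^ 2) =
      a * (r.1 ^ 2 + r.1 * r.2 - r.2 ^ 2) + ((2 * δ₁ + δ₂) * r.1 - (-δ₁ + 2 * δ₂) * r.2) +
        d * (δ₁ ^ 2 + δ₁ * δ₂ - δ₂ ^ 2) := by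
    linear_combination ((2 * δ₁ + δ₂) * r.1 - (-δ₁ + 2 * δ₂) * r.2 +
      d * (δ₁ ^ 2 + δ₁ * δ₂ - δ₂ ^ 2)) * had
  rw [e1, e2, AddChar.map_add_eq_mul, AddChar.map_add_eq_mul]
  ring


end

section

open Real MeasureTheory UpperHalfPlane
open scoped MatrixGroups Classical


theorem thx_sq5 : √5 * √5 = 5 := Real.mul_self_sqrt (by norm_num)

theorem thx_sq5_pos : 0 < √5 := Real.sqrt_pos.mpr (by norm_num)

theorem thx_w_sub : w - (1 - w) = √5 := by unfold w; ring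

theorem thx_w_mul : w * (1 - w) = -1 := by
  unfold w
  have := thx_sq5
  nlinarith

theorem thx_alal (a : ℤ × ℤ) : al a * al' a = (nm a : ℝ) := by
  unfold al al' nm
  push_cast
  linear_combination (a.2 : ℝ) ^ 2 * thx_w_mul

/-- scaling -/
theorem thx_scale (X Y v p q c : ℝ) (hc : 0 < c) :
    ph (X / c ^ 2) (Y / c ^ 2) v (c * p) (c * q) = ((1 / c : ℝ) : ℂ) * ph X Y v p q := by
  unfold ph
  have h1 : √(Y / c ^ 2) = √Y / c := by
    rw [Real.sqrt_div' _ (by positivity), Real.sqrt_sq hc.le]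
  have h2 : π * (Y / c ^ 2) * ((c * p) ^ 2 * v ^ 2 + (c * q) ^ 2 / v ^ 2) =
      π * Y * (p ^ 2 * v ^ 2 + q ^ 2 / v ^ 2) := by
    field_simp
  have h3 : X / c ^ 2 * (c * p * (c * q)) = X * (p * q) := by
    field_simp
  rw [h1, h2, h3]
  push_cast
  ring

/-- the half scaling -/
theorem thx_half (x y v p q : ℝ) (hy : 0 < y) :
    ph x y v (p / √5) (-(q / √5)) = ((√5 : ℝ) : ℂ) * ph (-x / 5) (y / 5) v p q := by
  unfold ph
  have h5 := thx_sq5
  have h50 := thx_sq5_pos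
  have h1 : √y = √5 * √(y / 5) := by
    rw [← Real.sqrt_mul (by norm_num)]
    congr 1
    field_simp
  have h2 : π * y * ((p / √5) ^ 2 * v ^ 2 + (-(q / √5)) ^ 2 / v ^ 2) =
      π * (y / 5) * (p ^ 2 * v ^ 2 + q ^ 2 / v ^ 2) := by
    have e1 : (p / √5) ^ 2 = p ^ 2 / 5 := by
      rw [div_pow, pow_two √5, h5]
    have e2 : (-(q / √5)) ^ 2 = q ^ 2 / 5 := by
      rw [neg_sq, div_pow, pow_two √5, h5]
    rw [e1, e2]
    ring
  have h3 : x * (p / √5 * -(q / √5)) = -x / 5 * (p * q) := by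
    have : p / √5 * -(q / √5) = -(p * q) / (√5 * √5) := by ring
    rw [this, h5]
    ring
  rw [h1, h2, h3]
  push_cast
  ring

/-- translation -/
theorem thx_add (x s y v p q : ℝ) :
    ph (x + s) y v p q = Complex.exp (2 * π * Complex.I * ((s * (p * q) : ℝ) : ℂ)) * ph x y v p q := by
  unfold ph
  have : Complex.exp (2 * π * Complex.I * (((x + s) * (p * q) : ℝ) : ℂ)) =
      Complex.exp (2 * π * Complex.I * ((s * (p * q) : ℝ) : ℂ)) *
        Complex.exp (2 * π * Complex.I * ((x * (p * q) : ℝ) : ℂ)) := by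
    rw [← Complex.exp_add]
    congr 1
    push_cast
    ring
  rw [this]
  ring

/-- division with remainder -/
def thxE (M : ℕ) [NeZero M] : (ZMod M × ZMod M) × (ℤ × ℤ) ≃ ℤ × ℤ where
  toFun p := (p.2.1 * M + (p.1.1.val : ℤ), p.2.2 * M + (p.1.2.val : ℤ))
  invFun a := (((a.1 : ZMod M), (a.2 : ZMod M)), (a.1 / M, a.2 / M))
  left_inv := by
    rintro ⟨⟨r1, r2⟩, ⟨b1, b2⟩⟩
    have hM : (0 : ℤ) < M := by exact_mod_cast Nat.pos_of_ne_zero (NeZero.ne M)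
    have key : ∀ (b : ℤ) (r : ZMod M), (b * M + (r.val : ℤ)) / M = b := by
      intro b r
      rw [add_comm, Int.add_mul_ediv_right _ _ hM.ne']
      rw [Int.ediv_eq_zero_of_lt (by positivity) (by exact_mod_cast ZMod.val_lt r), zero_add]
    have key2 : ∀ (b : ℤ) (r : ZMod M), ((b * M + (r.val : ℤ) : ℤ) : ZMod M) = r := by
      intro b r
      push_cast
      rw [ZMod.natCast_self, mul_zero, zero_add, ZMod.natCast_zmod_val]
    simp only [key, key2]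
  right_inv := by
    rintro ⟨a1, a2⟩
    have key : ∀ a : ℤ, a / M * M + (((a : ZMod M)).val : ℤ) = a := by
      intro a
      rw [ZMod.val_intCast, mul_comm]
      exact Int.mul_ediv_add_emod a M
    simp only [key]

theorem thx_al_E (M : ℕ) [NeZero M] (r : ZMod M × ZMod M) (b : ℤ × ℤ) :
    al (thxE M (r, b)) = M * (al b + al ((r.1.val : ℤ), (r.2.val : ℤ)) / M) ∧
    al' (thxE M (r, b)) = M * (al' b + al' ((r.1.val : ℤ), (r.2.val : ℤ)) / M) := by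
  have hM : (M : ℝ) ≠ 0 := by exact_mod_cast NeZero.ne M
  constructor
  · simp only [thxE, al, Equiv.coe_fn_mk]
    push_cast
    field_simp
    ring
  · simp only [thxE, al', Equiv.coe_fn_mk]
    push_cast
    field_simp
    ring

/-- the phase -/
theorem thx_phase (M : ℕ) [NeZero M] (r : ZMod M × ZMod M) (b : ℤ × ℤ) :
    Complex.exp (2 * π * Complex.I * ((-(al' b / √5) * (al ((r.1.val : ℤ), (r.2.val : ℤ)) / M) +
      (al b / √5) * (al' ((r.1.val : ℤ), (r.2.val : ℤ)) / M) : ℝ) : ℂ)) =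
    ZMod.stdAddChar ((b.2 : ZMod M) * r.1 - (b.1 : ZMod M) * r.2) := by
  have h5 := thx_sq5
  have h50 := thx_sq5_pos
  have hM : (M : ℝ) ≠ 0 := by exact_mod_cast NeZero.ne M
  have e1 : ((b.2 : ZMod M) * r.1 - (b.1 : ZMod M) * r.2) =
      ((b.2 * (r.1.val : ℤ) - b.1 * (r.2.val : ℤ) : ℤ) : ZMod M) := by
    push_cast
    rw [ZMod.natCast_zmod_val, ZMod.natCast_zmod_val]
  rw [e1, ZMod.stdAddChar_coe]
  congr 1
  have e2 : (-(al' b / √5) * (al ((r.1.val : ℤ), (r.2.val : ℤ)) / M) +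
      (al b / √5) * (al' ((r.1.val : ℤ), (r.2.val : ℤ)) / M) : ℝ) =
      (b.2 * (r.1.val : ℝ) - b.1 * (r.2.val : ℝ)) / M := by
    have e3 : al b * al' ((r.1.val : ℤ), (r.2.val : ℤ)) - al' b * al ((r.1.val : ℤ), (r.2.val : ℤ))
        = √5 * (b.2 * (r.1.val : ℝ) - b.1 * (r.2.val : ℝ)) := by
      rw [← thx_w_sub]
      simp only [al, al']
      push_cast
      ring
    have e4 : (-(al' b / √5) * (al ((r.1.val : ℤ), (r.2.val : ℤ)) / M) +
      (al b / √5) * (al' ((r.1.val : ℤ), (r.2.val : ℤ)) / M) : ℝ) =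
      (al b * al' ((r.1.val : ℤ), (r.2.val : ℤ)) - al' b * al ((r.1.val : ℤ), (r.2.val : ℤ))) /
        (√5 * M) := by
      field_simp
      ring
    rw [e4, e3]
    field_simp
  rw [e2]
  push_cast
  ring

theorem thx_dual (hS : S_SUM) (hP : S_POI) (M : ℕ) [NeZero M] (H : ZMod M × ZMod M → ℂ)
    (x y v : ℝ) (hy : 0 < y) (hv : 0 < v) :
    ∑' a : ℤ × ℤ, H ((a.1 : ZMod M), (a.2 : ZMod M)) *
      ph (-x / (x ^ 2 + y ^ 2) / (M : ℝ) ^ 2) (y / (x ^ 2 + y ^ 2) / (M : ℝ) ^ 2) v (al a) (al' a) =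
    ∑' b : ℤ × ℤ, (((1 / M : ℝ) : ℂ) * ((1 / √5 : ℝ) : ℂ) *
      (∑ r : ZMod M × ZMod M, H r * ZMod.stdAddChar ((b.2 : ZMod M) * r.1 - (b.1 : ZMod M) * r.2))) *
        ph x y v (al b / √5) (-(al' b / √5)) := by
  have hM : (0 : ℝ) < M := by exact_mod_cast Nat.pos_of_ne_zero (NeZero.ne M)
  have hY : 0 < y / (x ^ 2 + y ^ 2) := by positivity
  set X := -x / (x ^ 2 + y ^ 2) with hX
  set Y := y / (x ^ 2 + y ^ 2) with hYd
  set f : ℤ × ℤ → ℂ := fun a => H ((a.1 : ZMod M), (a.2 : ZMod M)) *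
      ph (X / (M : ℝ) ^ 2) (Y / (M : ℝ) ^ 2) v (al a) (al' a) with hf
  have hbd : ∀ r, ‖H r‖ ≤ ∑ r, ‖H r‖ := fun r =>
    Finset.single_le_sum (f := fun r => ‖H r‖) (fun _ _ => norm_nonneg _) (Finset.mem_univ r)
  have hsum : Summable f := by
    have := hS.1 (X / (M : ℝ) ^ 2) (Y / (M : ℝ) ^ 2) v (by positivity) hv
      (fun a => H ((a.1 : ZMod M), (a.2 : ZMod M))) _ (fun a => hbd _) 0 0
    simpa only [add_zero] using this
  have hsum2 : Summable (fun p : (ZMod M × ZMod M) × (ℤ × ℤ) => f (thxE M p)) :=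
    (thxE M).summable_iff.mpr hsum
  have hcoe : ∀ (r : ZMod M × ZMod M) (b : ℤ × ℤ),
      (((thxE M (r, b)).1 : ZMod M), ((thxE M (r, b)).2 : ZMod M)) = r := by
    intro r b
    have := (thxE M).symm_apply_apply (r, b)
    exact congrArg Prod.fst this
  have hterm : ∀ (r : ZMod M × ZMod M) (b : ℤ × ℤ), f (thxE M (r, b)) =
      H r * (((1 / M : ℝ) : ℂ) * ph X Y v (al b + al ((r.1.val : ℤ), (r.2.val : ℤ)) / M)
        (al' b + al' ((r.1.val : ℤ), (r.2.val : ℤ)) / M)) := by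
    intro r b
    simp only [hf]
    rw [hcoe r b, (thx_al_E M r b).1, (thx_al_E M r b).2, thx_scale _ _ _ _ _ _ hM]
  have hinner : ∀ r : ZMod M × ZMod M, ∑' b, f (thxE M (r, b)) =
      ∑' b : ℤ × ℤ, (((1 / M : ℝ) : ℂ) * ((1 / √5 : ℝ) : ℂ) * (H r *
        ZMod.stdAddChar ((b.2 : ZMod M) * r.1 - (b.1 : ZMod M) * r.2))) *
        ph x y v (al b / √5) (-(al' b / √5)) := by
    intro r
    simp_rw [hterm r]
    rw [tsum_mul_left, tsum_mul_left, hP x y v _ _ hy hv, ← tsum_mul_left, ← tsum_mul_left,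
      ← tsum_mul_left]
    refine tsum_congr fun b => ?_
    rw [thx_phase M r b]
    ring
  have hsumb : ∀ r : ZMod M × ZMod M, Summable (fun b : ℤ × ℤ =>
      (((1 / M : ℝ) : ℂ) * ((1 / √5 : ℝ) : ℂ) * (H r *
        ZMod.stdAddChar ((b.2 : ZMod M) * r.1 - (b.1 : ZMod M) * r.2))) *
        ph x y v (al b / √5) (-(al' b / √5))) := by
    intro r
    have h1 := hS.1 (-x / 5) (y / 5) v (by positivity) hv
      (fun b => (((1 / M : ℝ) : ℂ) * ((1 / √5 : ℝ) : ℂ) * (H r *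
        ZMod.stdAddChar ((b.2 : ZMod M) * r.1 - (b.1 : ZMod M) * r.2))) * ((√5 : ℝ) : ℂ))
      (‖((1 / M : ℝ) : ℂ) * ((1 / √5 : ℝ) : ℂ) * H r * ((√5 : ℝ) : ℂ)‖) (fun b => by
        rw [norm_mul, norm_mul, norm_mul (H r), ZMod.stdAddChar_apply, Circle.norm_coe, mul_one,
          ← norm_mul, ← norm_mul]) 0 0
    refine h1.congr fun b => ?_
    simp only [add_zero]
    rw [thx_half x y v _ _ hy]
    ring
  calc ∑' a, f a = ∑' p : (ZMod M × ZMod M) × (ℤ × ℤ), f (thxE M p) :=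
        ((thxE M).tsum_eq f).symm
    _ = ∑' r : ZMod M × ZMod M, ∑' b, f (thxE M (r, b)) := hsum2.tsum_prod
    _ = ∑ r : ZMod M × ZMod M, ∑' b, f (thxE M (r, b)) := tsum_fintype _
    _ = ∑ r : ZMod M × ZMod M, ∑' b : ℤ × ℤ, (((1 / M : ℝ) : ℂ) * ((1 / √5 : ℝ) : ℂ) * (H r *
        ZMod.stdAddChar ((b.2 : ZMod M) * r.1 - (b.1 : ZMod M) * r.2))) *
        ph x y v (al b / √5) (-(al' b / √5)) := Finset.sum_congr rfl fun r _ => hinner r
    _ = ∑' b : ℤ × ℤ, ∑ r : ZMod M × ZMod M, (((1 / M : ℝ) : ℂ) * ((1 / √5 : ℝ) : ℂ) * (H r *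
        ZMod.stdAddChar ((b.2 : ZMod M) * r.1 - (b.1 : ZMod M) * r.2))) *
        ph x y v (al b / √5) (-(al' b / √5)) := (Summable.tsum_finsetSum fun r _ => hsumb r).symm
    _ = _ := by
      refine tsum_congr fun b => ?_
      rw [← Finset.sum_mul, ← Finset.mul_sum]

/-- reindexing by the multiples of `√5` -/
theorem thx_reindex (g : ℤ × ℤ → ℂ) (hg : ∀ b : ℤ × ℤ, ¬ (5 : ℤ) ∣ b.1 + 3 * b.2 → g b = 0) :
    ∑' b, g b = ∑' δ : ℤ × ℤ, g (mulO (-1, 2) δ) := by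
  symm
  refine Function.Injective.tsum_eq (g := fun δ : ℤ × ℤ => mulO (-1, 2) δ) ?_ ?_
  · rintro ⟨a, b⟩ ⟨c, d⟩ h
    simp only [mulO, Prod.mk.injEq] at h ⊢
    omega
  · intro b hb
    have h5 : (5 : ℤ) ∣ b.1 + 3 * b.2 := by
      by_contra h
      exact hb (hg b h)
    obtain ⟨k, hk⟩ := h5
    refine ⟨(b.2 - k, 2 * k - b.2 ), ?_⟩
    obtain ⟨b1, b2⟩ := b
    simp only [mulO, Prod.mk.injEq] at hk ⊢
    constructor <;> omega

theorem thx_al_mul (δ : ℤ × ℤ) : al (mulO (-1, 2) δ) / √5 = al δ ∧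
    -(al' (mulO (-1, 2) δ) / √5) = al' δ := by
  have h5 := thx_sq5
  have h50 := thx_sq5_pos
  constructor
  · rw [div_eq_iff h50.ne']
    simp only [mulO, al, w]
    push_cast
    linear_combination (-(δ.2 : ℝ) / 2) * h5
  · rw [neg_eq_iff_eq_neg, div_eq_iff h50.ne']
    simp only [mulO, al', w]
    push_cast
    linear_combination (-(δ.2 : ℝ) / 2) * h5


/-! ### assembly -/

theorem thz_ch (a : ℤ × ℤ) : (ch a : ℂ) = thyc ((a.1 : ZMod 5) + 3 * (a.2 : ZMod 5)) := by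
  unfold ch thyc
  rw [← jacobiSym.legendreSym.to_jacobiSym]
  unfold legendreSym
  push_cast
  rfl

theorem thz_ch25 (a : ℤ × ℤ) :
    (ch a : ℂ) = thyc (thyp ((a.1 : ZMod 25) + 3 * (a.2 : ZMod 25))) := by
  have h3 : thyp 3 = 3 := by
    have := thyp_int 3
    exact_mod_cast this
  rw [thz_ch, map_add, map_mul, thyp_int, thyp_int, h3]

theorem thz_exp_int (n : ℤ) : Complex.exp (2 * π * Complex.I * ((n : ℝ) : ℂ)) = 1 := by
  rw [Complex.exp_eq_one_iff]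
  exact ⟨n, by push_cast; ring⟩

theorem thz_exp25 (n k : ℤ) : Complex.exp (2 * π * Complex.I * (((n : ℝ) / 25 * (k : ℝ) : ℝ) : ℂ)) =
    ZMod.stdAddChar ((n : ZMod 25) * (k : ZMod 25)) := by
  have : ((n : ZMod 25) * (k : ZMod 25)) = ((n * k : ℤ) : ZMod 25) := by push_cast; rfl
  rw [this, ZMod.stdAddChar_coe]
  congr 1
  push_cast
  ring

theorem thz_nm25 (a : ℤ × ℤ) : ((nm a : ℤ) : ZMod 25) =
    (a.1 : ZMod 25) ^ 2 + (a.1 : ZMod 25) * (a.2 : ZMod 25) - (a.2 : ZMod 25) ^ 2 := by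
  unfold nm
  push_cast
  rfl

/-- coordinates -/
theorem thz_coord (γ : SL(2, ℤ)) (hγ : γ 1 0 = 25) (z : ℍ) :
    (γ • z).re = -(z.re + (γ 1 1 : ℝ) / 25) / ((z.re + (γ 1 1 : ℝ) / 25) ^ 2 + z.im ^ 2) / ((25 : ℕ) : ℝ) ^ 2 +
      (γ 0 0 : ℝ) / 25 ∧
    (γ • z).im = z.im / ((z.re + (γ 1 1 : ℝ) / 25) ^ 2 + z.im ^ 2) / ((25 : ℕ) : ℝ) ^ 2 := by
  have hdet : (γ 0 0 : ℤ) * γ 1 1 - γ 0 1 * 25 = 1 := by
    have := Matrix.SpecialLinearGroup.det_coe γ
    rw [Matrix.det_fin_two, hγ] at this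
    exact this
  have hy : 0 < z.im := z.im_pos
  set x' : ℝ := z.re + (γ 1 1 : ℝ) / 25 with hx'
  set y : ℝ := z.im with hyd
  have hN : 0 < x' ^ 2 + y ^ 2 := by positivity
  have h0 := coe_specialLinearGroup_apply γ z
  rw [hγ] at h0
  have hz : (z : ℂ) = (z.re : ℂ) + (y : ℂ) * Complex.I := by
    apply Complex.ext <;> simp [hyd]
  have hz' : (x' : ℂ) + (y : ℂ) * Complex.I ≠ 0 := by
    intro h
    have := congrArg Complex.im h
    simp at this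
    exact hy.ne' this
  have hden : (25 : ℂ) * z + (γ 1 1 : ℂ) = 25 * ((x' : ℂ) + (y : ℂ) * Complex.I) := by
    rw [hz, hx']
    push_cast
    ring
  have hinv : (-1 : ℂ) / ((x' : ℂ) + (y : ℂ) * Complex.I) =
      ((-x' / (x' ^ 2 + y ^ 2) : ℝ) : ℂ) + ((y / (x' ^ 2 + y ^ 2) : ℝ) : ℂ) * Complex.I := by
    have hNc : ((x' : ℂ) ^ 2 + (y : ℂ) ^ 2) ≠ 0 := by exact_mod_cast hN.ne'
    rw [div_eq_iff hz']
    push_cast
    field_simp
    linear_combination (-(y : ℂ) ^ 2) * Complex.I_sq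
  have hdetc : (γ 0 0 : ℂ) * (γ 1 1 : ℂ) - (γ 0 1 : ℂ) * 25 = 1 := by exact_mod_cast hdet
  have h1 : ((γ • z : ℍ) : ℂ) = (γ 0 0 : ℂ) / 25 +
      ((-1 : ℂ) / ((x' : ℂ) + (y : ℂ) * Complex.I)) / 625 := by
    rw [h0]
    have e0 : ((algebraMap ℤ ℝ (γ 0 0) : ℝ) : ℂ) = (γ 0 0 : ℂ) := by simp
    have e1 : ((algebraMap ℤ ℝ (γ 0 1) : ℝ) : ℂ) = (γ 0 1 : ℂ) := by simp
    have e2 : ((algebraMap ℤ ℝ (25 : ℤ) : ℝ) : ℂ) = (25 : ℂ) := by simp
    have e3 : ((algebraMap ℤ ℝ (γ 1 1) : ℝ) : ℂ) = (γ 1 1 : ℂ) := by simp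
    rw [e0, e1, e2, e3, hden, div_eq_iff (mul_ne_zero (by norm_num) hz')]
    have e4 : (γ 1 1 : ℂ) = 25 * ((x' : ℂ) + (y : ℂ) * Complex.I) - 25 * z := by
      rw [← hden]; ring
    rw [e4] at hdetc
    field_simp
    linear_combination (-25 : ℂ) * hdetc
  rw [hinv] at h1
  have kre : ∀ A B : ℝ, ((A : ℂ) + (B : ℂ) * Complex.I).re = A := by intro A B; simp
  have kim : ∀ A B : ℝ, ((A : ℂ) + (B : ℂ) * Complex.I).im = B := by intro A B; simp
  constructor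
  · have := congrArg Complex.re h1
    rw [UpperHalfPlane.coe_re] at this
    rw [this]
    have e : ((γ 0 0 : ℂ) / 25 + (((-x' / (x' ^ 2 + y ^ 2) : ℝ) : ℂ) +
        ((y / (x' ^ 2 + y ^ 2) : ℝ) : ℂ) * Complex.I) / 625) =
        (((γ 0 0 : ℝ) / 25 + (-x' / (x' ^ 2 + y ^ 2)) / 625 : ℝ) : ℂ) +
          (((y / (x' ^ 2 + y ^ 2)) / 625 : ℝ) : ℂ) * Complex.I := by
      push_cast; ring
    rw [e, kre]
    push_cast
    ring
  · have := congrArg Complex.im h1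
    rw [UpperHalfPlane.coe_im] at this
    rw [this]
    have e : ((γ 0 0 : ℂ) / 25 + (((-x' / (x' ^ 2 + y ^ 2) : ℝ) : ℂ) +
        ((y / (x' ^ 2 + y ^ 2) : ℝ) : ℂ) * Complex.I) / 625) =
        (((γ 0 0 : ℝ) / 25 + (-x' / (x' ^ 2 + y ^ 2)) / 625 : ℝ) : ℂ) +
          (((y / (x' ^ 2 + y ^ 2)) / 625 : ℝ) : ℂ) * Complex.I := by
      push_cast; ring
    rw [e, kim]
    push_cast
    ring

theorem thz_gamma (hS : S_SUM) (hP : S_POI) (γ : SL(2, ℤ)) (hγ : γ 1 0 = 25) (z : ℍ) (v : ℝ)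
    (hv : 0 < v) : thz (γ • z) v = thz z v := by
  have hy : 0 < z.im := z.im_pos
  have hdet : (γ 0 0 : ℤ) * γ 1 1 - γ 0 1 * 25 = 1 := by
    have := Matrix.SpecialLinearGroup.det_coe γ
    rw [Matrix.det_fin_two, hγ] at this
    exact this
  have had : ((γ 0 0 : ℤ) : ZMod 25) * ((γ 1 1 : ℤ) : ZMod 25) = 1 := by
    have h := congrArg (fun n : ℤ => (n : ZMod 25)) hdet
    push_cast at h
    linear_combination h + ((γ 0 1 : ℤ) : ZMod 25) * thy25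
  obtain ⟨h1, h2⟩ := thz_coord γ hγ z
  unfold thz th
  rw [h1, h2]
  set x' : ℝ := z.re + (γ 1 1 : ℝ) / 25 with hx'
  have hx2 : x' = z.re + (γ 1 1 : ℝ) / 25 := hx'
  have hterm : ∀ a : ℤ × ℤ, (ch a : ℂ) * ph (-x' / (x' ^ 2 + z.im ^ 2) / ((25 : ℕ) : ℝ) ^ 2 +
      (γ 0 0 : ℝ) / 25) (z.im / (x' ^ 2 + z.im ^ 2) / ((25 : ℕ) : ℝ) ^ 2) v (al a) (al' a) =
      thyH ((γ 0 0 : ℤ) : ZMod 25) ((a.1 : ZMod 25), (a.2 : ZMod 25)) *
        ph (-x' / (x' ^ 2 + z.im ^ 2) / ((25 : ℕ) : ℝ) ^ 2)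
          (z.im / (x' ^ 2 + z.im ^ 2) / ((25 : ℕ) : ℝ) ^ 2) v (al a) (al' a) := by
    intro a
    rw [thx_add, thx_alal, thz_exp25, thz_nm25, thz_ch25]
    unfold thyH
    ring
  simp_rw [hterm]
  rw [thx_dual hS hP 25 (thyH ((γ 0 0 : ℤ) : ZMod 25)) x' z.im v hy hv]
  rw [thx_reindex]
  · refine tsum_congr fun δ => ?_
    rw [(thx_al_mul δ).1, (thx_al_mul δ).2, hx2, thx_add, thx_alal, thz_exp25, thz_nm25]
    have hm := thy_main ((γ 0 0 : ℤ) : ZMod 25) ((γ 1 1 : ℤ) : ZMod 25) (δ.1 : ZMod 25)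
      (δ.2 : ZMod 25) had
    have e1 : (((mulO (-1, 2) δ).2 : ℤ) : ZMod 25) = 2 * (δ.1 : ZMod 25) + (δ.2 : ZMod 25) := by
      simp only [mulO]; push_cast; ring
    have e2 : (((mulO (-1, 2) δ).1 : ℤ) : ZMod 25) = -(δ.1 : ZMod 25) + 2 * (δ.2 : ZMod 25) := by
      simp only [mulO]; push_cast; ring
    rw [e1, e2, thz_ch25 δ]
    have h5 : ((√5 : ℝ) : ℂ) ≠ 0 := by
      exact_mod_cast thx_sq5_pos.ne'
    have e3 : ((1 / ((25 : ℕ) : ℝ) : ℝ) : ℂ) * ((1 / √5 : ℝ) : ℂ) * (25 * ((√5 : ℝ) : ℂ)) = 1 := by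
      push_cast
      field_simp
    linear_combination (((1 / ((25 : ℕ) : ℝ) : ℝ) : ℂ) * ((1 / √5 : ℝ) : ℂ) *
      ph z.re z.im v (al δ) (al' δ)) * hm +
      (thyc (thyp ((δ.1 : ZMod 25) + 3 * (δ.2 : ZMod 25))) * ph z.re z.im v (al δ) (al' δ)) * e3
  · intro b hb
    have hb' : thyp ((b.1 : ZMod 25) + 3 * (b.2 : ZMod 25)) ≠ 0 := by
      intro h
      apply hb
      have : ((b.1 : ZMod 25) + 3 * (b.2 : ZMod 25)) = ((b.1 + 3 * b.2 : ℤ) : ZMod 25) := by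
        push_cast; rfl
      rw [this, thyp_int] at h
      exact (ZMod.intCast_zmod_eq_zero_iff_dvd _ 5).mp h
    rw [thy_zero _ _ _ hb', mul_zero, zero_mul]

theorem thz_fricke (hS : S_SUM) (hP : S_POI) (x y v : ℝ) (hy : 0 < y) (hv : 0 < v) :
    th (-x / (25 * (x ^ 2 + y ^ 2))) (y / (25 * (x ^ 2 + y ^ 2))) v = -th x y v := by
  have e1 : -x / (25 * (x ^ 2 + y ^ 2)) = -x / (x ^ 2 + y ^ 2) / ((5 : ℕ) : ℝ) ^ 2 := by
    push_cast; rw [div_div]; ring_nf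
  have e2 : y / (25 * (x ^ 2 + y ^ 2)) = y / (x ^ 2 + y ^ 2) / ((5 : ℕ) : ℝ) ^ 2 := by
    push_cast; rw [div_div]; ring_nf
  have hneg : ∀ f : ℤ × ℤ → ℂ, -∑' a, f a = ∑' a, -f a := fun f => tsum_neg.symm
  rw [e1, e2]
  unfold th
  simp_rw [thz_ch]
  rw [thx_dual hS hP 5 (fun r => thyc (r.1 + 3 * r.2)) x y v hy hv, thx_reindex, hneg]
  · refine tsum_congr fun δ => ?_
    rw [(thx_al_mul δ).1, (thx_al_mul δ).2]
    rw [thy_fricke]
    have e1 : (((mulO (-1, 2) δ).2 : ℤ) : ZMod 5) = 2 * ((δ.1 : ZMod 5) + 3 * (δ.2 : ZMod 5)) := by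
      simp only [mulO]; push_cast
      have h5 : (5 : ZMod 5) = 0 := by decide
      linear_combination (-(δ.2 : ZMod 5)) * h5
    have e2 : (((mulO (-1, 2) δ).1 : ℤ) : ZMod 5) + 3 * (((mulO (-1, 2) δ).2 : ℤ) : ZMod 5) = 0 := by
      simp only [mulO]; push_cast
      have h5 : (5 : ZMod 5) = 0 := by decide
      linear_combination ((δ.1 : ZMod 5) + (δ.2 : ZMod 5)) * h5
    rw [if_pos e2, e1, thyc_mul, thyc_val.2.2.1]
    have h5 : ((√5 : ℝ) : ℂ) ≠ 0 := by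
      exact_mod_cast thx_sq5_pos.ne'
    have e3 : ((1 / ((5 : ℕ) : ℝ) : ℝ) : ℂ) * ((1 / √5 : ℝ) : ℂ) * (5 * ((√5 : ℝ) : ℂ)) = 1 := by
      push_cast
      field_simp
    linear_combination (-(thyc ((δ.1 : ZMod 5) + 3 * (δ.2 : ZMod 5)) *
      ph x y v (al δ) (al' δ))) * e3
  · intro b hb
    rw [thy_fricke]
    have hb' : ((b.1 : ZMod 5) + 3 * (b.2 : ZMod 5)) ≠ 0 := by
      intro h
      apply hb
      have : ((b.1 : ZMod 5) + 3 * (b.2 : ZMod 5)) = ((b.1 + 3 * b.2 : ℤ) : ZMod 5) := by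
        push_cast; rfl
      rw [this] at h
      exact (ZMod.intCast_zmod_eq_zero_iff_dvd _ 5).mp h
    rw [if_neg hb', mul_zero, zero_mul]

theorem t_TH : S_TH := by
  intro hS hP
  refine ⟨?_, fun γ hγ z v hv => thz_gamma hS hP γ hγ z v hv,
    fun x y v hy hv => thz_fricke hS hP x y v hy hv⟩
  intro x y v
  unfold th
  refine tsum_congr fun a => ?_
  rw [thx_add, one_mul, thx_alal, thz_exp_int, one_mul]

end

end Pool.Agent.H757M
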