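import Pool.Agent.H757M.Stm

/-!
# Project M17, part TWI

The quadratic twists by the characters of conductor prime to five (written by helper331).
-/

set_option autoImplicit false

namespace Pool.Agent.H757M

open Real MeasureTheory UpperHalfPlane Set Filter Topology Asymptotics
open scoped MatrixGroups Classical

/-- the Mellin transform of the kernel -/
noncomputable def twK (s : ℂ) : ℂ := 1 / 4 * (π : ℂ) ^ (-s) * Complex.Gamma ((s + tt * Complex.I) / 2) *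
      Complex.Gamma ((s - tt * Complex.I) / 2)

theorem tw_decay (h1 : S_BES1) : ∃ C : ℝ, 0 ≤ C ∧ ∀ y : ℝ, 0 < y → |kk y| ≤ C * y⁻¹ * Real.exp (-y) := by
  obtain ⟨C, hC⟩ := h1.2.2 0 (by norm_num)
  refine ⟨C, ?_, ?_⟩
  · have := hC 1 one_pos
    have h0 : 0 ≤ |iteratedDeriv 0 kk 1| := abs_nonneg _
    have h2 : 0 < Real.exp (-1) := Real.exp_pos _
    simp only [inv_one, one_pow, mul_one] at this
    by_contra hneg
    push Not at hneg
    have := mul_neg_of_neg_of_pos hneg h2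
    linarith
  · intro y hy
    have := hC y hy
    simpa using this

theorem tw_kk_cont (h1 : S_BES1) : ContinuousOn kk (Ioi 0) := h1.1.continuousOn

/-- summability of `n^A exp(-c n)` -/
theorem tw_sum_exp (A : ℕ) {c : ℝ} (hc : 0 < c) : Summable fun n : ℕ => (n : ℝ) ^ A * Real.exp (-(c * n)) := by
  have := Real.summable_pow_mul_exp_neg_nat_mul A hc
  refine this.congr fun n => ?_
  congr 2
  ring

/-- bound of the terms -/
theorem tw_term {C₀ C : ℝ} (hC0 : 0 ≤ C₀) (hk : ∀ y : ℝ, 0 < y → |kk y| ≤ C₀ * y⁻¹ * Real.exp (-y))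
    {b : ℕ → ℂ} {A : ℕ} (hb : ∀ n, ‖b n‖ ≤ C * n ^ (A + 1)) {x c : ℝ} (hc : 0 < c) (hx : c ≤ x) (n : ℕ) :
    ‖b n * (kk (n * x) : ℂ)‖ ≤ (|C| * C₀ * c⁻¹) * ((n : ℝ) ^ A * Real.exp (-(x * n))) := by
  rcases Nat.eq_zero_or_pos n with h0 | h0
  · subst h0
    have : b 0 = 0 := by
      have := hb 0
      simpa using this
    rw [this]
    simp
    positivity
  · have hn : (0 : ℝ) < n := by exact_mod_cast h0
    have hx0 : 0 < x := hc.trans_le hx
    rw [norm_mul, Complex.norm_real, Real.norm_eq_abs]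
    have e1 : ‖b n‖ ≤ |C| * n ^ (A + 1) := (hb n).trans (by gcongr; exact le_abs_self C)
    have e2 := hk (n * x) (by positivity)
    calc ‖b n‖ * |kk (n * x)| ≤ (|C| * n ^ (A + 1)) * (C₀ * (n * x)⁻¹ * Real.exp (-(n * x))) := by gcongr
      _ = (|C| * C₀ * x⁻¹) * ((n : ℝ) ^ A * Real.exp (-(x * n))) := by
          rw [show -(n * x) = -(x * n) by ring, pow_succ]
          field_simp
      _ ≤ (|C| * C₀ * c⁻¹) * ((n : ℝ) ^ A * Real.exp (-(x * n))) := by
          gcongr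

theorem tw_summable {C₀ C : ℝ} (hC0 : 0 ≤ C₀) (hk : ∀ y : ℝ, 0 < y → |kk y| ≤ C₀ * y⁻¹ * Real.exp (-y))
    {b : ℕ → ℂ} {A : ℕ} (hb : ∀ n, ‖b n‖ ≤ C * n ^ (A + 1)) {x : ℝ} (hx : 0 < x) :
    Summable fun n : ℕ => b n * (kk (n * x) : ℂ) := by
  refine Summable.of_norm_bounded ((tw_sum_exp A hx).mul_left (|C| * C₀ * x⁻¹)) fun n => ?_
  exact tw_term hC0 hk hb hx le_rfl n

/-- the series `Σ b(n) kk(n x)` -/
noncomputable def twT (b : ℕ → ℂ) (x : ℝ) : ℂ := ∑' n : ℕ, b n * (kk (n * x) : ℂ)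

theorem twT_cont (h1 : S_BES1) {b : ℕ → ℂ} {A : ℕ} {C : ℝ} (hb : ∀ n, ‖b n‖ ≤ C * n ^ (A + 1)) :
    ContinuousOn (twT b) (Ioi 0) := by
  obtain ⟨C₀, hC0, hk⟩ := tw_decay h1
  have key : ∀ c : ℝ, 0 < c → ContinuousOn (twT b) (Ioi c) := by
    intro c hc
    unfold twT
    refine continuousOn_tsum (u := fun n : ℕ => (|C| * C₀ * c⁻¹) * ((n : ℝ) ^ A * Real.exp (-(c * n)))) ?_ ?_ ?_
    · intro n
      rcases Nat.eq_zero_or_pos n with h0 | h0
      · subst h0
        simp only [Nat.cast_zero, zero_mul]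
        exact continuousOn_const
      · have hn : (0 : ℝ) < n := by exact_mod_cast h0
        refine continuousOn_const.mul ?_
        refine Complex.continuous_ofReal.comp_continuousOn ?_
        refine (tw_kk_cont h1).comp (by fun_prop) ?_
        intro x hx
        have hx : c < x := hx
        have : 0 < x := hc.trans hx
        show 0 < (n : ℝ) * x
        positivity
    · exact (tw_sum_exp A hc).mul_left _
    · intro n x hx
      have hx : c < x := hx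
      refine (tw_term hC0 hk hb hc hx.le n).trans ?_
      gcongr
  intro x hx
  have hx : 0 < x := hx
  have := (key (x / 2) (by positivity)).continuousAt (Ioi_mem_nhds (show x / 2 < x by linarith))
  exact this.continuousWithinAt

theorem twT_decay (h1 : S_BES1) {b : ℕ → ℂ} {A : ℕ} {C : ℝ} (hb : ∀ n, ‖b n‖ ≤ C * n ^ (A + 1)) :
    ∃ D : ℝ, ∀ x : ℝ, 1 ≤ x → ‖twT b x‖ ≤ D * Real.exp (-(1 / 2) * x) := by
  obtain ⟨C₀, hC0, hk⟩ := tw_decay h1
  refine ⟨∑' n : ℕ, (|C| * C₀ * (1 : ℝ)⁻¹) * ((n : ℝ) ^ A * Real.exp (-((1 / 2) * n))), ?_⟩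
  intro x hx
  have hs : Summable fun n : ℕ => ((|C| * C₀ * (1 : ℝ)⁻¹) * ((n : ℝ) ^ A * Real.exp (-((1 / 2) * n)))) *
      Real.exp (-(1 / 2) * x) := ((tw_sum_exp A (by norm_num : (0 : ℝ) < 1 / 2)).mul_left _).mul_right _
  rw [← tsum_mul_right]
  refine tsum_of_norm_bounded hs.hasSum ?_
  intro n
  rcases Nat.eq_zero_or_pos n with h0 | h0
  · subst h0
    have : b 0 = 0 := by
      have := hb 0
      simpa using this
    rw [this]
    simp
    positivity
  · have hn : (1 : ℝ) ≤ n := by exact_mod_cast h0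
    refine (tw_term hC0 hk hb one_pos hx n).trans ?_
    have e : Real.exp (-(x * n)) ≤ Real.exp (-((1 / 2) * n)) * Real.exp (-(1 / 2) * x) := by
      rw [← Real.exp_add]
      apply Real.exp_le_exp.2
      nlinarith
    calc |C| * C₀ * (1 : ℝ)⁻¹ * ((n : ℝ) ^ A * Real.exp (-(x * n)))
        ≤ |C| * C₀ * (1 : ℝ)⁻¹ * ((n : ℝ) ^ A * (Real.exp (-((1 / 2) * n)) * Real.exp (-(1 / 2) * x))) := by gcongr
      _ = _ := by ring

/-- the Mellin transform of the series -/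
theorem tw_mellin (h1 : S_BES1) (h2 : S_BES2) {b : ℕ → ℂ} {A : ℕ} {C : ℝ} (hb : ∀ n, ‖b n‖ ≤ C * n ^ (A + 1))
    {N : ℝ} (hN : 0 < N) {s : ℂ} (hs : (A : ℝ) + 2 < s.re) :
    HasSum (fun n : ℕ => b n * (n : ℂ) ^ (-s) * ((N : ℂ) ^ s * twK s)) (mellin (fun x => twT b (x / N)) s) := by
  have hA : (0 : ℝ) ≤ A := Nat.cast_nonneg A
  have hs0 : 0 < s.re := by linarith
  have hb0 : b 0 = 0 := by
    have := hb 0
    simpa using this
  obtain ⟨hi, hv⟩ := h2 s hs0
  have hconv : MellinConvergent (fun y : ℝ => (kk y : ℂ)) s := by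
    refine hi.congr_fun (fun y _ => ?_) measurableSet_Ioi
    simp only [smul_eq_mul]
    ring
  have hmel : mellin (fun y : ℝ => (kk y : ℂ)) s = twK s := by
    rw [mellin, twK, ← hv]
    refine setIntegral_congr_fun measurableSet_Ioi fun y _ => ?_
    simp only [smul_eq_mul]
    ring
  -- the terms
  set F : ℕ → ℝ → ℂ := fun n x => (x : ℂ) ^ (s - 1) • (b n * (kk (n * (x / N)) : ℂ)) with hF
  have hFn : ∀ n : ℕ, 0 < n → ∀ x : ℝ, F n x = b n • ((x : ℂ) ^ (s - 1) • (fun y : ℝ => (kk y : ℂ)) ((n / N) * x)) := by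
    intro n _ x
    simp only [hF, smul_eq_mul]
    rw [show (n : ℝ) * (x / N) = (n / N) * x by ring]
    ring
  have hint : ∀ n, IntegrableOn (F n) (Ioi 0) := by
    intro n
    rcases Nat.eq_zero_or_pos n with h0 | h0
    · subst h0
      simp only [hF, hb0, zero_mul, smul_zero]
      exact integrableOn_zero
    · have hn : (0 : ℝ) < n := by exact_mod_cast h0
      have h3 := (MellinConvergent.comp_mul_left (f := fun y : ℝ => (kk y : ℂ)) (s := s) (a := n / N)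
        (by positivity)).2 hconv
      have h4 : IntegrableOn (fun x : ℝ => b n • ((x : ℂ) ^ (s - 1) • (fun y : ℝ => (kk y : ℂ)) ((n / N) * x))) (Ioi 0) :=
        Integrable.smul (b n) h3
      exact h4.congr_fun (fun x _ => (hFn n h0 x).symm) measurableSet_Ioi
  have hval : ∀ n : ℕ, ∫ x in Ioi (0 : ℝ), F n x = b n * (n : ℂ) ^ (-s) * ((N : ℂ) ^ s * twK s) := by
    intro n
    rcases Nat.eq_zero_or_pos n with h0 | h0
    · subst h0
      simp [hF, hb0]
    · have hn : (0 : ℝ) < n := by exact_mod_cast h0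
      have h3 := mellin_comp_mul_left (fun y : ℝ => (kk y : ℂ)) s (a := n / N) (by positivity)
      rw [hmel] at h3
      have h4 : ∫ x in Ioi (0 : ℝ), F n x = b n • mellin (fun t => (fun y : ℝ => (kk y : ℂ)) (n / N * t)) s := by
        rw [mellin, ← integral_smul]
        refine setIntegral_congr_fun measurableSet_Ioi fun x _ => hFn n h0 x
      rw [h4, h3]
      simp only [smul_eq_mul]
      have h5 : (((n : ℝ) / N : ℝ) : ℂ) ^ (-s) = (n : ℂ) ^ (-s) * (N : ℂ) ^ s := by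
        have e : ((N : ℂ)⁻¹) ^ (-s) = (N : ℂ) ^ s := by
          rw [Complex.inv_cpow, Complex.cpow_neg, inv_inv]
          rw [Complex.arg_ofReal_of_nonneg hN.le]
          exact Real.pi_pos.ne
        rw [show ((n : ℝ) / N : ℝ) = (n : ℝ) * N⁻¹ by ring, Complex.ofReal_mul,
          Complex.mul_cpow_ofReal_nonneg hn.le (by positivity), Complex.ofReal_inv, e, Complex.ofReal_natCast]
      rw [h5]
      ring
  -- the norms
  set I : ℝ := ∫ x in Ioi (0 : ℝ), x ^ (s.re - 1) * |kk x| with hI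
  have hnorm : ∀ n : ℕ, 0 < n → ∫ x in Ioi (0 : ℝ), ‖F n x‖ = ‖b n‖ * ((n / N : ℝ) ^ (-s.re) * I) := by
    intro n h0
    have hn : (0 : ℝ) < n := by exact_mod_cast h0
    have ha : (0 : ℝ) < n / N := by positivity
    have e1 : ∫ x in Ioi (0 : ℝ), ‖F n x‖ =
        ∫ x in Ioi (0 : ℝ), (‖b n‖ * (n / N : ℝ) ^ (-(s.re - 1))) *
          (fun z : ℝ => z ^ (s.re - 1) * |kk z|) ((n / N) * x) := by
      refine setIntegral_congr_fun measurableSet_Ioi fun x hx => ?_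
      have hx : 0 < x := hx
      simp only
      rw [hFn n h0 x]
      simp only [norm_smul, Complex.norm_cpow_eq_rpow_re_of_pos hx, Complex.sub_re, Complex.one_re, Complex.norm_real,
        Real.norm_eq_abs]
      rw [Real.mul_rpow ha.le hx.le, Real.rpow_neg ha.le]
      have : (n / N : ℝ) ^ (s.re - 1) ≠ 0 := (Real.rpow_pos_of_pos ha _).ne'
      field_simp
    rw [e1, integral_const_mul, integral_comp_mul_left_Ioi (fun z : ℝ => z ^ (s.re - 1) * |kk z|) 0 ha, mul_zero, ← hI,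
      smul_eq_mul]
    have e2 : (n / N : ℝ) ^ (-(s.re - 1)) * (n / N : ℝ)⁻¹ = (n / N : ℝ) ^ (-s.re) := by
      rw [← Real.rpow_neg_one, ← Real.rpow_add ha]
      congr 1
      ring
    rw [← e2]
    ring
  have hsum : Summable fun n => ∫ x in Ioi (0 : ℝ), ‖F n x‖ := by
    have hI0 : 0 ≤ I := setIntegral_nonneg measurableSet_Ioi fun x hx => by
      have hx : 0 < x := hx
      positivity
    have h3 : Summable fun n : ℕ => (|C| * N ^ s.re * I) * (n : ℝ) ^ ((A : ℝ) + 1 - s.re) :=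
      (Real.summable_nat_rpow.2 (by linarith)).mul_left _
    refine Summable.of_nonneg_of_le (fun n => integral_nonneg fun x => norm_nonneg _) (fun n => ?_) h3
    rcases Nat.eq_zero_or_pos n with h0 | h0
    · subst h0
      simp only [hF, hb0, zero_mul, smul_zero, norm_zero, integral_zero]
      positivity
    · have hn : (0 : ℝ) < n := by exact_mod_cast h0
      rw [hnorm n h0, Real.div_rpow hn.le hN.le]
      have e1 : ‖b n‖ ≤ |C| * n ^ (A + 1) := (hb n).trans (by gcongr; exact le_abs_self C)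
      have e2 : (n : ℝ) ^ ((A : ℝ) + 1 - s.re) = (n : ℝ) ^ (A + 1) * (n : ℝ) ^ (-s.re) := by
        rw [← Real.rpow_natCast, ← Real.rpow_add hn]
        congr 1
        push_cast
        ring
      have e3 : (n : ℝ) ^ (-s.re) / N ^ (-s.re) = N ^ s.re * (n : ℝ) ^ (-s.re) := by
        rw [Real.rpow_neg hN.le]
        field_simp
      rw [e2, e3]
      calc ‖b n‖ * (N ^ s.re * (n : ℝ) ^ (-s.re) * I) ≤ (|C| * n ^ (A + 1)) * (N ^ s.re * (n : ℝ) ^ (-s.re) * I) := by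
            gcongr
        _ = _ := by ring
  have hmain := hasSum_integral_of_summable_integral_norm (μ := volume.restrict (Ioi (0 : ℝ))) (F := F) hint hsum
  simp_rw [hval] at hmain
  have hlast : mellin (fun x => twT b (x / N)) s = ∫ x in Ioi (0 : ℝ), ∑' n, F n x := by
    rw [mellin]
    refine setIntegral_congr_fun measurableSet_Ioi fun x _ => ?_
    simp only [twT, hF, smul_eq_mul]
    rw [tsum_mul_left]
  rw [hlast]
  exact hmain

/-- the entire function -/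
theorem tw_entire (h1 : S_BES1) (h2 : S_BES2) {b : ℕ → ℂ} {A : ℕ} {C : ℝ} (hb : ∀ n, ‖b n‖ ≤ C * n ^ (A + 1))
    {N : ℝ} (hN : 0 < N) {k : ℝ} (hk : 0 < k)
    (hfe : ∀ x : ℝ, 0 < x → twT b ((1 / x) / N) = -((x ^ k : ℝ) : ℂ) * twT b (x / N)) :
    ∃ L : ℂ → ℂ, Differentiable ℂ L ∧ L (k / 2) = 0 ∧
      ∀ s : ℂ, (A : ℝ) + 2 < s.re → HasSum (fun n : ℕ => b n * (n : ℂ) ^ (-s) * ((N : ℂ) ^ s * twK s)) (L s) := by
  have hloc : LocallyIntegrableOn (fun x => twT b (x / N)) (Ioi 0) := by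
    refine ContinuousOn.locallyIntegrableOn ?_ measurableSet_Ioi
    refine (twT_cont h1 hb).comp (by fun_prop) ?_
    intro x hx
    have hx : 0 < x := hx
    show 0 < x / N
    positivity
  have htop : ∀ r : ℝ, (fun x => twT b (x / N) - 0) =O[atTop] (fun x : ℝ => x ^ r) := by
    intro r
    obtain ⟨D, hD⟩ := twT_decay h1 hb
    have e1 : (fun x => twT b (x / N) - 0) =O[atTop] (fun x : ℝ => Real.exp (-(1 / (2 * N)) * x)) := by
      refine IsBigO.of_bound D ?_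
      filter_upwards [eventually_ge_atTop N] with x hx
      have hx1 : 1 ≤ x / N := by
        rw [le_div_iff₀ hN]
        linarith
      rw [sub_zero, Real.norm_eq_abs, abs_of_pos (Real.exp_pos _)]
      convert hD (x / N) hx1 using 2
      congr 1
      field_simp
    exact e1.trans (isLittleO_exp_neg_mul_rpow_atTop (by positivity) r).isBigO
  let P : WeakFEPair ℂ :=
    { f := fun x => twT b (x / N)
      g := fun x => twT b (x / N)
      k := k
      ε := -1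
      f₀ := 0
      g₀ := 0
      hf_int := hloc
      hg_int := hloc
      hk := hk
      hε := by norm_num
      h_feq := fun x hx => by
        have hx : 0 < x := hx
        simp only [smul_eq_mul]
        rw [hfe x hx]
        ring
      hf_top := htop
      hg_top := htop }
  have hP : IsStrongFEPair P := ⟨rfl, rfl⟩
  refine ⟨P.Λ, hP.differentiable_Λ, ?_, ?_⟩
  · have h3 := P.functional_equation (k / 2)
    rw [hP.symm_Λ_eq] at h3
    have h4 : P.Λ = mellin P.f := hP.Λ_eq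
    have h5 : mellin P.g = P.Λ := by rw [h4]
    rw [h5] at h3
    have h6 : ((P.k : ℂ) - k / 2) = k / 2 := by
      show ((k : ℂ) - k / 2) = k / 2
      ring
    rw [h6] at h3
    have h7 : P.ε = -1 := rfl
    rw [h7] at h3
    simp only [smul_eq_mul] at h3
    have h8 : 2 * P.Λ (k / 2) = 0 := by linear_combination h3
    simpa using h8
  · intro s hs
    rw [hP.Λ_eq]
    exact tw_mellin h1 h2 hb hN hs

/-- the functional equation of the additive twists -/
theorem tw_mod (hA : S_AUT') {M : ℕ} (hM : 0 < M) {U V : ℤ} (hUV : (M : ℤ) ∣ 25 * U * V + 1) (x y : ℝ) (hy : 0 < y) :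
    ff (U / M + -x / (25 * M ^ 2 * (x ^ 2 + y ^ 2))) (y / (25 * M ^ 2 * (x ^ 2 + y ^ 2))) = -ff (V / M + x) y := by
  obtain ⟨a, ha⟩ := hUV
  have hM' : (0 : ℝ) < M := by exact_mod_cast hM
  have hMc : (M : ℂ) ≠ 0 := by exact_mod_cast hM.ne'
  have hz2 : 0 < x ^ 2 + y ^ 2 := by positivity
  let γ : SL(2, ℤ) := ⟨!![a, U; 25 * V, M], by
    rw [Matrix.det_fin_two_of]
    linear_combination -ha⟩
  have hγ : γ ∈ CongruenceSubgroup.Gamma0 25 := by
    rw [CongruenceSubgroup.Gamma0_mem]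
    show ((25 * V : ℤ) : ZMod 25) = 0
    push_cast
    rw [show (25 : ZMod 25) = 0 from rfl, zero_mul]
  set X : ℝ := V / M + x with hX
  have hX2 : 0 < X ^ 2 + y ^ 2 := by positivity
  let W : ℍ := ⟨⟨-X / (25 * (X ^ 2 + y ^ 2)), y / (25 * (X ^ 2 + y ^ 2))⟩, by
    show 0 < y / (25 * (X ^ 2 + y ^ 2))
    positivity⟩
  let W2 : ℍ := ⟨⟨U / M + -x / (25 * M ^ 2 * (x ^ 2 + y ^ 2)), y / (25 * M ^ 2 * (x ^ 2 + y ^ 2))⟩, by
    show 0 < y / (25 * M ^ 2 * (x ^ 2 + y ^ 2))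
    positivity⟩
  have h1 := hA.1 γ hγ W
  have h2 := hA.2 X y hy
  have h3 : F W = -ff X y := h2
  have hw : (W : ℂ) = -1 / (25 * ((X : ℂ) + y * Complex.I)) := by
    have hne : (X : ℂ) + y * Complex.I ≠ 0 := by
      intro h
      have := congrArg Complex.im h
      simp at this
      linarith
    have hne2 : (X : ℂ) ^ 2 + (y : ℂ) ^ 2 ≠ 0 := by exact_mod_cast hX2.ne'
    have e : (W : ℂ) = ((-X / (25 * (X ^ 2 + y ^ 2)) : ℝ) : ℂ) + ((y / (25 * (X ^ 2 + y ^ 2)) : ℝ) : ℂ) * Complex.I :=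
      Complex.mk_eq_add_mul_I _ _
    rw [e]
    push_cast
    rw [eq_div_iff (by simpa using hne)]
    field_simp
    ring_nf
    rw [Complex.I_sq]
    ring
  have hw2 : (W2 : ℂ) = U / M - 1 / (25 * M ^ 2 * ((x : ℂ) + y * Complex.I)) := by
    have hne : (x : ℂ) + y * Complex.I ≠ 0 := by
      intro h
      have := congrArg Complex.im h
      simp at this
      linarith
    have hne2 : (x : ℂ) ^ 2 + (y : ℂ) ^ 2 ≠ 0 := by exact_mod_cast hz2.ne'
    have e : (W2 : ℂ) = ((U / M + -x / (25 * M ^ 2 * (x ^ 2 + y ^ 2)) : ℝ) : ℂ) +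
        ((y / (25 * M ^ 2 * (x ^ 2 + y ^ 2)) : ℝ) : ℂ) * Complex.I :=
      Complex.mk_eq_add_mul_I _ _
    rw [e]
    push_cast
    have e2 : (1 : ℂ) / (25 * M ^ 2 * ((x : ℂ) + y * Complex.I)) =
        (x - y * Complex.I) / (25 * M ^ 2 * ((x : ℂ) ^ 2 + (y : ℂ) ^ 2)) := by
      rw [div_eq_div_iff (by simp [hne, hMc]) (by simp [hne2, hMc])]
      ring_nf
      rw [Complex.I_sq]
      ring
    rw [e2]
    field_simp
    ring
  have h4 : γ • W = W2 := by
    ext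
    rw [coe_specialLinearGroup_apply, hw, hw2]
    have e00 : γ 0 0 = a := rfl
    have e01 : γ 0 1 = U := rfl
    have e10 : γ 1 0 = 25 * V := rfl
    have e11 : γ 1 1 = M := rfl
    rw [e00, e01, e10, e11]
    have hne : (X : ℂ) + y * Complex.I ≠ 0 := by
      intro h
      have := congrArg Complex.im h
      simp at this
      linarith
    have hne' : (x : ℂ) + y * Complex.I ≠ 0 := by
      intro h
      have := congrArg Complex.im h
      simp at this
      linarith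
    have hXc : (X : ℂ) = V / M + x := by
      rw [hX]
      push_cast
      ring
    have hac : (25 : ℂ) * U * V + 1 = M * a := by exact_mod_cast ha
    have ha' : (a : ℂ) = (25 * U * V + 1) / M := by
      rw [hac]
      field_simp
    simp only [algebraMap_int_eq, eq_intCast, Int.cast_mul, Int.cast_ofNat, Int.cast_natCast, Complex.ofReal_mul,
      Complex.ofReal_intCast, Complex.ofReal_natCast, Complex.ofReal_ofNat]
    have hden : (25 : ℂ) * V * (-1 / (25 * ((X : ℂ) + y * Complex.I))) + M =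
        M * ((x : ℂ) + y * Complex.I) / ((X : ℂ) + y * Complex.I) := by
      rw [eq_div_iff hne, add_mul]
      have : (25 : ℂ) * V * (-1 / (25 * ((X : ℂ) + y * Complex.I))) * ((X : ℂ) + y * Complex.I) = -V := by
        field_simp
      rw [this, hXc]
      field_simp
      ring
    have hnum : (a : ℂ) * (-1 / (25 * ((X : ℂ) + y * Complex.I))) + U =
        (25 * U * ((x : ℂ) + y * Complex.I) - 1 / M) / (25 * ((X : ℂ) + y * Complex.I)) := by
      rw [eq_div_iff (by simpa using hne), add_mul]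
      have : (a : ℂ) * (-1 / (25 * ((X : ℂ) + y * Complex.I))) * (25 * ((X : ℂ) + y * Complex.I)) = -a := by
        field_simp
      rw [this, hXc, ha']
      field_simp
      ring
    rw [hden, hnum]
    field_simp
  rw [h4] at h1
  have h5 : F W2 = ff (U / M + -x / (25 * M ^ 2 * (x ^ 2 + y ^ 2))) (y / (25 * M ^ 2 * (x ^ 2 + y ^ 2))) := rfl
  rw [← h5, h1, h3]

/-- the derivative in `x` of the Maass form -/
noncomputable def twfx (x y : ℝ) : ℂ :=
  ∑' n : ℕ, aa n * ((√y * kk (n * y) * (-(4 * π * n) * Real.sin (2 * π * (n * x))) : ℝ) : ℂ)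

theorem tw_mod' (hA : S_AUT') (hD1 : ContDiffOn ℝ 2 (fun p : ℝ × ℝ => ff p.1 p.2) {p | 0 < p.2})
    (hD4 : ∀ x y : ℝ, 0 < y → HasDerivAt (fun x' => ff x' y) (twfx x y) x)
    {M : ℕ} (hM : 0 < M) {U V : ℤ} (hUV : (M : ℤ) ∣ 25 * U * V + 1) (y : ℝ) (hy : 0 < y) :
    twfx (U / M) (1 / (25 * M ^ 2 * y)) = ((25 * M ^ 2 * y ^ 2 : ℝ) : ℂ) * twfx (V / M) y := by
  have hM' : (0 : ℝ) < M := by exact_mod_cast hM
  set K : ℝ := 25 * M ^ 2 with hK
  have hKpos : 0 < K := by positivity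
  have hfun : (fun x : ℝ => ff (U / M + -x / (K * (x ^ 2 + y ^ 2))) (y / (K * (x ^ 2 + y ^ 2)))) =
      fun x : ℝ => -ff (V / M + x) y := by
    funext x
    exact tw_mod hA hM hUV x y hy
  -- right hand side
  have hr : HasDerivAt (fun x : ℝ => -ff (V / M + x) y) (-(twfx (V / M) y)) 0 := by
    refine HasDerivAt.neg ?_
    have := hD4 (V / M + 0) y hy
    have h2 := HasDerivAt.comp_const_add (V / M : ℝ) 0 this
    rw [add_zero] at h2
    exact h2
  -- left hand side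
  set q : ℝ → ℝ × ℝ := fun x => (U / M + -x / (K * (x ^ 2 + y ^ 2)), y / (K * (x ^ 2 + y ^ 2))) with hq
  have hq1 : HasDerivAt (fun x : ℝ => (U / M : ℝ) + -x / (K * (x ^ 2 + y ^ 2))) (-1 / (K * y ^ 2)) 0 := by
    have e1 : HasDerivAt (fun x : ℝ => -x) (-1) 0 := (hasDerivAt_id 0).neg
    have e2 : HasDerivAt (fun x : ℝ => K * (x ^ 2 + y ^ 2)) (K * (2 * 0)) 0 := by
      refine HasDerivAt.const_mul K ?_
      have := (hasDerivAt_pow 2 (0 : ℝ)).add_const (y ^ 2)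
      simpa using this
    have hne : K * ((0 : ℝ) ^ 2 + y ^ 2) ≠ 0 := by positivity
    have e3 := (e1.div e2 hne).const_add (U / M : ℝ)
    refine e3.congr_deriv ?_
    simp only [ne_eq, OfNat.ofNat_ne_zero, not_false_eq_true, zero_pow, zero_add, neg_zero, mul_zero, sub_zero]
    field_simp
  have hq2 : HasDerivAt (fun x : ℝ => y / (K * (x ^ 2 + y ^ 2))) 0 0 := by
    have e1 : HasDerivAt (fun _ : ℝ => y) 0 (0 : ℝ) := hasDerivAt_const _ _
    have e2 : HasDerivAt (fun x : ℝ => K * (x ^ 2 + y ^ 2)) (K * (2 * 0)) 0 := by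
      refine HasDerivAt.const_mul K ?_
      have := (hasDerivAt_pow 2 (0 : ℝ)).add_const (y ^ 2)
      simpa using this
    have hne : K * ((0 : ℝ) ^ 2 + y ^ 2) ≠ 0 := by positivity
    have e3 := e1.div e2 hne
    refine e3.congr_deriv ?_
    simp
  have hqd : HasDerivAt q (-1 / (K * y ^ 2), 0) 0 := hq1.prodMk hq2
  have hq0 : q 0 = ((U / M : ℝ), 1 / (K * y)) := by
    simp only [hq]
    refine Prod.ext ?_ ?_
    · simp
    · simp only
      field_simp
      ring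
  have hy0 : 0 < 1 / (K * y) := by positivity
  have hopen : IsOpen {p : ℝ × ℝ | 0 < p.2} := isOpen_lt continuous_const continuous_snd
  have hdiff : DifferentiableAt ℝ (fun p : ℝ × ℝ => ff p.1 p.2) ((U / M : ℝ), 1 / (K * y)) := by
    refine (hD1.differentiableOn (by norm_num)).differentiableAt (hopen.mem_nhds ?_)
    exact hy0
  set D := fderiv ℝ (fun p : ℝ × ℝ => ff p.1 p.2) ((U / M : ℝ), 1 / (K * y)) with hDdef
  have hfd : HasFDerivAt (fun p : ℝ × ℝ => ff p.1 p.2) D ((U / M : ℝ), 1 / (K * y)) := hdiff.hasFDerivAt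
  have hl : HasDerivAt (fun x : ℝ => ff (U / M + -x / (K * (x ^ 2 + y ^ 2))) (y / (K * (x ^ 2 + y ^ 2))))
      (D (-1 / (K * y ^ 2), 0)) 0 := by
    have hfd' : HasFDerivAt (fun p : ℝ × ℝ => ff p.1 p.2) D (q 0) := by rw [hq0]; exact hfd
    exact hfd'.comp_hasDerivAt (0 : ℝ) hqd
  have hxd : HasDerivAt (fun x : ℝ => ff x (1 / (K * y))) (D (1, 0)) (U / M : ℝ) := by
    have e1 : HasDerivAt (fun x : ℝ => (x, 1 / (K * y))) ((1 : ℝ), (0 : ℝ)) (U / M : ℝ) :=
      (hasDerivAt_id _).prodMk (hasDerivAt_const _ _)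
    exact hfd.comp_hasDerivAt (U / M : ℝ) e1
  have e1 : D (1, 0) = twfx (U / M) (1 / (K * y)) := hxd.unique (hD4 _ _ hy0)
  rw [hfun] at hl
  have e2 : D (-1 / (K * y ^ 2), 0) = -(twfx (V / M) y) := hl.unique hr
  have e3 : ((-1 / (K * y ^ 2), 0) : ℝ × ℝ) = (-1 / (K * y ^ 2)) • ((1, 0) : ℝ × ℝ) := by
    simp
  rw [e3, map_smul, e1] at e2
  have hKy : (K * y ^ 2 : ℝ) ≠ 0 := by positivity
  have e4 : twfx (U / M) (1 / (K * y)) = (K * y ^ 2 : ℝ) • ((1 / (K * y ^ 2)) • twfx (U / M) (1 / (K * y))) := by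
    rw [smul_smul, mul_one_div_cancel hKy, one_smul]
  have e5 : (1 / (K * y ^ 2)) • twfx (U / M) (1 / (K * y)) = twfx (V / M) y := by
    have : (1 / (K * y ^ 2)) • twfx (U / M) (1 / (K * y)) = -((-1 / (K * y ^ 2)) • twfx (U / M) (1 / (K * y))) := by
      rw [← _root_.neg_smul]
      congr 1
      ring
    rw [this, e2, neg_neg]
  rw [e4, e5, Complex.real_smul]

theorem tw_gauss_ne {M : ℕ} [NeZero M] {χ : DirichletCharacter ℂ M} (hχ : χ.IsPrimitive) :
    gaussSum χ (ZMod.stdAddChar (N := M)) ≠ 0 := by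
  intro h
  have h1 : ZMod.dft (fun a => χ a) = 0 := by
    funext k
    have := hχ.fourierTransform_eq_inv_mul_gaussSum k
    rw [h, mul_zero] at this
    exact this
  have h2 := ZMod.dft_dft (fun a => χ a)
  rw [h1, map_zero] at h2
  have h3 := congrFun h2 (-1)
  simp only [Pi.zero_apply, neg_neg, map_one, smul_eq_mul, mul_one] at h3
  exact (NeZero.ne (M : ℂ)) h3.symm

theorem tw_gauss {M : ℕ} [NeZero M] {χ : DirichletCharacter ℂ M} (hχ : χ.IsPrimitive) (hχ2 : χ ^ 2 = 1) (n : ℤ) :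
    ∑ u : ZMod M, χ u * Complex.exp (2 * π * Complex.I * (n * (u.val : ℕ)) / M) =
      χ n * gaussSum χ (ZMod.stdAddChar (N := M)) := by
  have h1 := gaussSum_mulShift_of_isPrimitive (ZMod.stdAddChar (N := M)) hχ (n : ZMod M)
  have h2 : χ⁻¹ = χ := by
    rw [inv_eq_iff_mul_eq_one, ← sq, hχ2]
  rw [h2] at h1
  rw [← h1, gaussSum]
  refine Finset.sum_congr rfl fun u _ => ?_
  congr 1
  rw [AddChar.mulShift_apply]
  have h3 : (n : ZMod M) * u = ((n * (u.val : ℤ) : ℤ) : ZMod M) := by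
    push_cast
    rw [ZMod.natCast_zmod_val]
  rw [h3, ZMod.stdAddChar_coe]
  congr 1
  push_cast
  ring

/-- sums over the units -/
theorem tw_units {M : ℕ} [NeZero M] (χ : DirichletCharacter ℂ M) (g : ZMod M → ℂ) :
    ∑ u : (ZMod M)ˣ, χ u * g u = ∑ u : ZMod M, χ u * g u := by
  refine Finset.sum_of_injOn (fun u : (ZMod M)ˣ => (u : ZMod M)) (fun u _ v _ h => Units.ext h) (fun u _ => Finset.mem_univ _) ?_ ?_
  · intro i _ hi
    have : ¬ IsUnit i := by
      rintro ⟨u, hu⟩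
      exact hi ⟨u, Finset.mem_univ _, hu⟩
    rw [χ.map_nonunit this, zero_mul]
  · intro u _
    rfl

theorem tw_cos {M : ℕ} [NeZero M] {χ : DirichletCharacter ℂ M} (hχ : χ.IsPrimitive) (hχ2 : χ ^ 2 = 1) (n : ℕ) :
    ∑ u : ZMod M, χ u * ((2 * Real.cos (2 * π * (n * ((u.val : ℕ) / M))) : ℝ) : ℂ) =
      (1 + χ (-1)) * gaussSum χ (ZMod.stdAddChar (N := M)) * χ n := by
  have h1 := tw_gauss hχ hχ2 n
  have h2 := tw_gauss hχ hχ2 (-(n : ℤ))
  have h3 : χ ((-(n : ℤ) : ℤ) : ZMod M) = χ (-1) * χ n := by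
    rw [← map_mul]
    push_cast
    rw [neg_one_mul]
  rw [h3] at h2
  have h4 : ∑ u : ZMod M, χ u * ((2 * Real.cos (2 * π * (n * ((u.val : ℕ) / M))) : ℝ) : ℂ) =
      ∑ u : ZMod M, χ u * Complex.exp (2 * π * Complex.I * (((n : ℤ) : ℂ) * (u.val : ℕ)) / M) +
      ∑ u : ZMod M, χ u * Complex.exp (2 * π * Complex.I * (((-(n : ℤ) : ℤ) : ℂ) * (u.val : ℕ)) / M) := by
    rw [← Finset.sum_add_distrib]
    refine Finset.sum_congr rfl fun u _ => ?_
    rw [← mul_add]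
    congr 1
    push_cast
    rw [Complex.two_cos]
    congr 2
    · ring
    · ring
  rw [h4, h1, h2]
  push_cast
  ring

theorem tw_sin {M : ℕ} [NeZero M] {χ : DirichletCharacter ℂ M} (hχ : χ.IsPrimitive) (hχ2 : χ ^ 2 = 1) (n : ℕ) :
    ∑ u : ZMod M, χ u * ((Real.sin (2 * π * (n * ((u.val : ℕ) / M))) : ℝ) : ℂ) =
      (1 - χ (-1)) * (-Complex.I / 2) * gaussSum χ (ZMod.stdAddChar (N := M)) * χ n := by
  have h1 := tw_gauss hχ hχ2 n
  have h2 := tw_gauss hχ hχ2 (-(n : ℤ))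
  have h3 : χ ((-(n : ℤ) : ℤ) : ZMod M) = χ (-1) * χ n := by
    rw [← map_mul]
    push_cast
    rw [neg_one_mul]
  rw [h3] at h2
  have h4 : ∑ u : ZMod M, χ u * ((Real.sin (2 * π * (n * ((u.val : ℕ) / M))) : ℝ) : ℂ) =
      (-Complex.I / 2) * (∑ u : ZMod M, χ u * Complex.exp (2 * π * Complex.I * (((n : ℤ) : ℂ) * (u.val : ℕ)) / M) -
      ∑ u : ZMod M, χ u * Complex.exp (2 * π * Complex.I * (((-(n : ℤ) : ℤ) : ℂ) * (u.val : ℕ)) / M)) := by
    rw [← Finset.sum_sub_distrib, Finset.mul_sum]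
    refine Finset.sum_congr rfl fun u _ => ?_
    have h5 := Complex.two_sin (2 * π * (n * ((u.val : ℕ) / M)))
    have h7 : (((Real.sin (2 * π * (n * ((u.val : ℕ) / M))) : ℝ)) : ℂ) =
        Complex.sin (2 * π * (n * ((u.val : ℕ) / M))) := by
      push_cast
      rfl
    have h6 : Complex.sin (2 * π * (n * ((u.val : ℕ) / M))) =
        (Complex.exp (-(2 * π * (n * ((u.val : ℕ) / M))) * Complex.I) -
          Complex.exp ((2 * π * (n * ((u.val : ℕ) / M))) * Complex.I)) * Complex.I / 2 := by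
      linear_combination h5 / 2
    rw [h7, h6]
    rw [show (-(2 * π * (n * ((u.val : ℕ) / M))) * Complex.I : ℂ) =
        2 * π * Complex.I * (((-(n : ℤ) : ℤ) : ℂ) * (u.val : ℕ)) / M by push_cast; ring,
      show ((2 * π * (n * ((u.val : ℕ) / M))) * Complex.I : ℂ) =
        2 * π * Complex.I * (((n : ℤ) : ℂ) * (u.val : ℕ)) / M by push_cast; ring]
    ring
  rw [h4, h1, h2]
  push_cast
  ring

/-- reindexing of the sum over the units -/
theorem tw_perm {M : ℕ} [NeZero M] {χ : DirichletCharacter ℂ M} (hχ2 : χ ^ 2 = 1) (hM5 : Nat.Coprime M 5)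
    (g g' : ℝ → ℂ) (c : ℂ)
    (hg : ∀ U V : ℤ, (M : ℤ) ∣ 25 * U * V + 1 → g (U / M) = c * g' (V / M)) :
    ∑ u : ZMod M, χ u * g ((u.val : ℕ) / M) = χ (-1) * c * ∑ u : ZMod M, χ u * g' ((u.val : ℕ) / M) := by
  have hc25 : Nat.Coprime 25 M := by
    have : Nat.Coprime M (5 ^ 2) := Nat.Coprime.pow_right 2 hM5
    exact (by simpa using this : Nat.Coprime M 25).symm
  have h5u : Nat.Coprime 5 M := hM5.symm
  set a : (ZMod M)ˣ := ZMod.unitOfCoprime 25 hc25 with ha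
  have haval : (a : ZMod M) = 25 := by
    rw [ha, ZMod.coe_unitOfCoprime]
    norm_num
  have hsq : ∀ v : (ZMod M)ˣ, χ v * χ v = 1 := by
    intro v
    have := congrArg (fun ψ : DirichletCharacter ℂ M => ψ v) hχ2
    simp only [sq, MulChar.mul_apply, MulChar.one_apply_coe] at this
    exact this
  have hχ25 : χ (a : ZMod M) = 1 := by
    have h5 := hsq (ZMod.unitOfCoprime 5 h5u)
    rw [← map_mul, ZMod.coe_unitOfCoprime] at h5
    rw [haval]
    convert h5 using 2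
    norm_num
  rw [← tw_units χ (fun u => g ((u.val : ℕ) / M)), ← tw_units χ (fun u => g' ((u.val : ℕ) / M))]
  set σ : (ZMod M)ˣ → (ZMod M)ˣ := fun u => -(a * u)⁻¹ with hσ
  have hinv : Function.Involutive σ := by
    intro u
    simp only [hσ]
    rw [mul_neg, inv_neg, neg_neg, mul_inv, inv_inv, inv_mul_cancel_left]
  have h1 : ∑ u : (ZMod M)ˣ, χ u * g' (((u : ZMod M).val : ℕ) / M) =
      ∑ u : (ZMod M)ˣ, χ (σ u : ZMod M) * g' (((σ u : ZMod M).val : ℕ) / M) :=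
    (Equiv.sum_comp hinv.toPerm (fun u : (ZMod M)ˣ => χ u * g' (((u : ZMod M).val : ℕ) / M))).symm
  rw [h1, Finset.mul_sum]
  refine Finset.sum_congr rfl fun u _ => ?_
  have h2 : (M : ℤ) ∣ 25 * (((u : ZMod M).val : ℕ) : ℤ) * (((σ u : ZMod M).val : ℕ) : ℤ) + 1 := by
    rw [← ZMod.intCast_zmod_eq_zero_iff_dvd]
    push_cast
    rw [ZMod.natCast_zmod_val, ZMod.natCast_zmod_val]
    have h3 : (a * u) * σ u = -1 := by
      simp only [hσ]
      rw [mul_neg, mul_inv_cancel]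
    have h4 := congrArg (fun v : (ZMod M)ˣ => (v : ZMod M)) h3
    simp only [Units.val_mul, haval, Units.val_neg, Units.val_one] at h4
    rw [h4]
    ring
  have h3 := hg _ _ h2
  have h4 : ((((u : ZMod M).val : ℕ) : ℤ) : ℝ) = (((u : ZMod M).val : ℕ) : ℝ) := by norm_num
  have h5 : ((((σ u : ZMod M).val : ℕ) : ℤ) : ℝ) = (((σ u : ZMod M).val : ℕ) : ℝ) := by norm_num
  rw [h4, h5] at h3
  rw [h3]
  -- χ u = χ (-1) χ (σ u)
  have h6 : χ (u : ZMod M) = χ (-1) * χ (σ u : ZMod M) := by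
    have h7 : (a * u) * σ u = -1 := by
      simp only [hσ]
      rw [mul_neg, mul_inv_cancel]
    have h8 := congrArg (fun v : (ZMod M)ˣ => χ (v : ZMod M)) h7
    simp only [Units.val_mul, map_mul, hχ25, one_mul, Units.val_neg, Units.val_one] at h8
    rw [← h8, mul_assoc, hsq, mul_one]
  rw [h6]
  ring

theorem tw_congr {f g : ℕ → ℂ} {a : ℂ} (h : HasSum f a) (hfg : ∀ n, g n = f n) : HasSum g a := by
  have : g = f := funext hfg
  rw [this]
  exact h

theorem tw_ff_hasSum (h1 : S_BES1) {C : ℝ} (hC : ∀ n, ‖aa n‖ ≤ C * n) (x : ℝ) {y : ℝ} (hy : 0 < y) :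
    HasSum (fun n : ℕ => aa n * ((√y * kk (n * y) * (2 * Real.cos (2 * π * (n * x))) : ℝ) : ℂ)) (ff x y) := by
  obtain ⟨C₀, hC0, hk⟩ := tw_decay h1
  have hb : ∀ n : ℕ, ‖aa n‖ ≤ C * n ^ (0 + 1) := fun n => by simpa using hC n
  have hs := (tw_summable hC0 hk hb hy).norm.mul_right (2 * √y)
  refine (Summable.of_norm_bounded hs fun n => ?_).hasSum
  rw [norm_mul, norm_mul, Complex.norm_real, Complex.norm_real, Real.norm_eq_abs, Real.norm_eq_abs, abs_mul, abs_mul,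
    abs_mul, abs_of_nonneg (Real.sqrt_nonneg y), abs_of_pos (two_pos : (0 : ℝ) < 2)]
  have hcos := Real.abs_cos_le_one (2 * π * (n * x))
  have h0 : 0 ≤ ‖aa n‖ := norm_nonneg _
  calc ‖aa n‖ * (√y * |kk (n * y)| * (2 * |Real.cos (2 * π * (n * x))|))
      ≤ ‖aa n‖ * (√y * |kk (n * y)| * (2 * 1)) := by gcongr
    _ = ‖aa n‖ * |kk (n * y)| * (2 * √y) := by ring

theorem tw_fx_hasSum (h1 : S_BES1) {C : ℝ} (hC : ∀ n, ‖aa n‖ ≤ C * n) (x : ℝ) {y : ℝ} (hy : 0 < y) :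
    HasSum (fun n : ℕ => aa n * ((√y * kk (n * y) * (-(4 * π * n) * Real.sin (2 * π * (n * x))) : ℝ) : ℂ))
      (twfx x y) := by
  obtain ⟨C₀, hC0, hk⟩ := tw_decay h1
  have hb : ∀ n : ℕ, ‖aa n * n‖ ≤ C * n ^ (1 + 1) := fun n => by
    rw [norm_mul, Complex.norm_natCast]
    calc ‖aa n‖ * n ≤ (C * n) * n := by
          gcongr
          exact hC n
      _ = C * n ^ (1 + 1) := by ring
  have hs := (tw_summable hC0 hk hb hy).norm.mul_right (4 * π * √y)
  refine (Summable.of_norm_bounded hs fun n => ?_).hasSum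
  rw [norm_mul, norm_mul, norm_mul, Complex.norm_real, Complex.norm_real, Complex.norm_natCast, Real.norm_eq_abs,
    Real.norm_eq_abs, abs_mul, abs_mul, abs_mul, abs_neg, abs_of_nonneg (Real.sqrt_nonneg y),
    abs_of_nonneg (by positivity : (0 : ℝ) ≤ 4 * π * n)]
  have hsin := Real.abs_sin_le_one (2 * π * (n * x))
  have h0 : 0 ≤ ‖aa n‖ := norm_nonneg _
  calc ‖aa n‖ * (√y * |kk (n * y)| * (4 * π * n * |Real.sin (2 * π * (n * x))|))
      ≤ ‖aa n‖ * (√y * |kk (n * y)| * (4 * π * n * 1)) := by gcongr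
    _ = ‖aa n‖ * n * |kk (n * y)| * (4 * π * √y) := by ring

theorem tw_bound {M : ℕ} (χ : DirichletCharacter ℂ M) {C : ℝ} (hC : ∀ n, ‖aa n‖ ≤ C * n) (κ : ℕ) (n : ℕ) :
    ‖aa n * χ n * (n : ℂ) ^ κ‖ ≤ C * n ^ (κ + 1) := by
  rw [norm_mul, norm_mul, norm_pow, Complex.norm_natCast]
  have h2 : ‖χ (n : ZMod M)‖ ≤ 1 := χ.norm_le_one _
  have h0 : 0 ≤ ‖aa n‖ := norm_nonneg _
  calc ‖aa n‖ * ‖χ (n : ZMod M)‖ * (n : ℝ) ^ κ ≤ ‖aa n‖ * 1 * (n : ℝ) ^ κ := by gcongr
    _ ≤ (C * n) * 1 * (n : ℝ) ^ κ := by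
        gcongr
        exact hC n
    _ = _ := by ring

theorem tw_sum_even (h1 : S_BES1) {C : ℝ} (hC : ∀ n, ‖aa n‖ ≤ C * n) {M : ℕ} [NeZero M] {χ : DirichletCharacter ℂ M}
    (hχ : χ.IsPrimitive) (hχ2 : χ ^ 2 = 1) (he : χ (-1) = 1) {y : ℝ} (hy : 0 < y) :
    ∑ u : ZMod M, χ u * ff ((u.val : ℕ) / M) y =
      (2 * gaussSum χ (ZMod.stdAddChar (N := M)) * √y) * twT (fun n => aa n * χ n * (n : ℂ) ^ 0) y := by
  obtain ⟨C₀, hC0, hk⟩ := tw_decay h1
  have hs1 : HasSum (fun n : ℕ => ∑ u : ZMod M, χ u * (aa n *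
      ((√y * kk (n * y) * (2 * Real.cos (2 * π * (n * ((u.val : ℕ) / M)))) : ℝ) : ℂ)))
      (∑ u : ZMod M, χ u * ff ((u.val : ℕ) / M) y) :=
    hasSum_sum fun u _ => (tw_ff_hasSum h1 hC ((u.val : ℕ) / M) hy).mul_left (χ u)
  have hs2 := ((tw_summable hC0 hk (tw_bound χ hC 0) hy).hasSum).mul_left
    (2 * gaussSum χ (ZMod.stdAddChar (N := M)) * √y)
  have hs3 : HasSum (fun n : ℕ => ∑ u : ZMod M, χ u * (aa n *
      ((√y * kk (n * y) * (2 * Real.cos (2 * π * (n * ((u.val : ℕ) / M)))) : ℝ) : ℂ)))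
      ((2 * gaussSum χ (ZMod.stdAddChar (N := M)) * √y) * twT (fun n => aa n * χ n * (n : ℂ) ^ 0) y) := by
    refine tw_congr hs2 ?_
    intro n
    have e1 : ∑ u : ZMod M, χ u * (aa n *
        ((√y * kk (n * y) * (2 * Real.cos (2 * π * (n * ((u.val : ℕ) / M)))) : ℝ) : ℂ)) =
        (aa n * (√y * kk (n * y) : ℝ)) *
          ∑ u : ZMod M, χ u * ((2 * Real.cos (2 * π * (n * ((u.val : ℕ) / M))) : ℝ) : ℂ) := by
      rw [Finset.mul_sum]
      refine Finset.sum_congr rfl fun u _ => ?_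
      push_cast
      ring
    rw [e1, tw_cos hχ hχ2 n, he]
    push_cast
    ring
  exact hs1.unique hs3

theorem tw_sum_odd (h1 : S_BES1) {C : ℝ} (hC : ∀ n, ‖aa n‖ ≤ C * n) {M : ℕ} [NeZero M] {χ : DirichletCharacter ℂ M}
    (hχ : χ.IsPrimitive) (hχ2 : χ ^ 2 = 1) (ho : χ (-1) = -1) {y : ℝ} (hy : 0 < y) :
    ∑ u : ZMod M, χ u * twfx ((u.val : ℕ) / M) y =
      (4 * π * Complex.I * gaussSum χ (ZMod.stdAddChar (N := M)) * √y) * twT (fun n => aa n * χ n * (n : ℂ) ^ 1) y := by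
  obtain ⟨C₀, hC0, hk⟩ := tw_decay h1
  have hs1 : HasSum (fun n : ℕ => ∑ u : ZMod M, χ u * (aa n *
      ((√y * kk (n * y) * (-(4 * π * n) * Real.sin (2 * π * (n * ((u.val : ℕ) / M)))) : ℝ) : ℂ)))
      (∑ u : ZMod M, χ u * twfx ((u.val : ℕ) / M) y) :=
    hasSum_sum fun u _ => (tw_fx_hasSum h1 hC ((u.val : ℕ) / M) hy).mul_left (χ u)
  have hs2 := ((tw_summable hC0 hk (tw_bound χ hC 1) hy).hasSum).mul_left
    (4 * π * Complex.I * gaussSum χ (ZMod.stdAddChar (N := M)) * √y)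
  have hs3 : HasSum (fun n : ℕ => ∑ u : ZMod M, χ u * (aa n *
      ((√y * kk (n * y) * (-(4 * π * n) * Real.sin (2 * π * (n * ((u.val : ℕ) / M)))) : ℝ) : ℂ)))
      ((4 * π * Complex.I * gaussSum χ (ZMod.stdAddChar (N := M)) * √y) * twT (fun n => aa n * χ n * (n : ℂ) ^ 1) y) := by
    refine tw_congr hs2 ?_
    intro n
    have e1 : ∑ u : ZMod M, χ u * (aa n *
        ((√y * kk (n * y) * (-(4 * π * n) * Real.sin (2 * π * (n * ((u.val : ℕ) / M)))) : ℝ) : ℂ)) =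
        (aa n * (√y * kk (n * y) * (-(4 * π * n)) : ℝ)) *
          ∑ u : ZMod M, χ u * ((Real.sin (2 * π * (n * ((u.val : ℕ) / M))) : ℝ) : ℂ) := by
      rw [Finset.mul_sum]
      refine Finset.sum_congr rfl fun u _ => ?_
      push_cast
      ring
    rw [e1, tw_sin hχ hχ2 n, ho]
    push_cast
    ring
  exact hs1.unique hs3

/-- the functional equation of the series -/
theorem tw_feq (hA : S_AUT') (h1 : S_BES1) {C : ℝ} (hC : ∀ n, ‖aa n‖ ≤ C * n)
    (hD1 : ContDiffOn ℝ 2 (fun p : ℝ × ℝ => ff p.1 p.2) {p | 0 < p.2})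
    (hD4 : ∀ x y : ℝ, 0 < y → HasDerivAt (fun x' => ff x' y) (twfx x y) x)
    {M : ℕ} [NeZero M] {χ : DirichletCharacter ℂ M}
    (hχ : χ.IsPrimitive) (hχ2 : χ ^ 2 = 1) (hM5 : Nat.Coprime M 5) :
    ∃ κ : ℕ, ∀ y : ℝ, 0 < y →
      (√(1 / (25 * M ^ 2 * y)) : ℂ) * twT (fun n => aa n * χ n * (n : ℂ) ^ κ) (1 / (25 * M ^ 2 * y)) =
        -((25 * M ^ 2 * y ^ 2 : ℝ) : ℂ) ^ κ * (√y : ℂ) * twT (fun n => aa n * χ n * (n : ℂ) ^ κ) y := by
  have hM : 0 < M := Nat.pos_of_ne_zero (NeZero.ne M)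
  have hM' : (0 : ℝ) < M := by exact_mod_cast hM
  have hτ := tw_gauss_ne hχ
  rcases χ.even_or_odd with he | ho
  · have he : χ (-1) = 1 := he
    refine ⟨0, fun y hy => ?_⟩
    have hy0 : 0 < 1 / (25 * M ^ 2 * y) := by positivity
    have h2 := tw_perm hχ2 hM5 (fun x => ff x (1 / (25 * M ^ 2 * y))) (fun x => ff x y) (-1) (fun U V hUV => by
      have h3 := tw_mod hA hM hUV 0 y hy
      have e1 : (U / M + -0 / (25 * M ^ 2 * (0 ^ 2 + y ^ 2)) : ℝ) = U / M := by simp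
      have e2 : (y / (25 * M ^ 2 * (0 ^ 2 + y ^ 2)) : ℝ) = 1 / (25 * M ^ 2 * y) := by
        field_simp
        ring
      rw [e1, e2, add_zero] at h3
      rw [h3]
      ring)
    beta_reduce at h2
    rw [tw_sum_even h1 hC hχ hχ2 he hy0, tw_sum_even h1 hC hχ hχ2 he hy, he] at h2
    have h3 : (2 * gaussSum χ (ZMod.stdAddChar (N := M))) *
        ((√(1 / (25 * M ^ 2 * y)) : ℂ) * twT (fun n => aa n * χ n * (n : ℂ) ^ 0) (1 / (25 * M ^ 2 * y))) =
        (2 * gaussSum χ (ZMod.stdAddChar (N := M))) *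
        (-((25 * M ^ 2 * y ^ 2 : ℝ) : ℂ) ^ 0 * (√y : ℂ) * twT (fun n => aa n * χ n * (n : ℂ) ^ 0) y) := by
      linear_combination h2
    exact mul_left_cancel₀ (mul_ne_zero two_ne_zero hτ) h3
  · have ho : χ (-1) = -1 := ho
    refine ⟨1, fun y hy => ?_⟩
    have hy0 : 0 < 1 / (25 * M ^ 2 * y) := by positivity
    have h2 := tw_perm hχ2 hM5 (fun x => twfx x (1 / (25 * M ^ 2 * y))) (fun x => twfx x y)
      ((25 * M ^ 2 * y ^ 2 : ℝ) : ℂ) (fun U V hUV => tw_mod' hA hD1 hD4 hM hUV y hy)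
    beta_reduce at h2
    rw [tw_sum_odd h1 hC hχ hχ2 ho hy0, tw_sum_odd h1 hC hχ hχ2 ho hy, ho] at h2
    have h3 : (4 * π * Complex.I * gaussSum χ (ZMod.stdAddChar (N := M))) *
        ((√(1 / (25 * M ^ 2 * y)) : ℂ) * twT (fun n => aa n * χ n * (n : ℂ) ^ 1) (1 / (25 * M ^ 2 * y))) =
        (4 * π * Complex.I * gaussSum χ (ZMod.stdAddChar (N := M))) *
        (-((25 * M ^ 2 * y ^ 2 : ℝ) : ℂ) ^ 1 * (√y : ℂ) * twT (fun n => aa n * χ n * (n : ℂ) ^ 1) y) := by
      linear_combination h2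
    refine mul_left_cancel₀ (mul_ne_zero (mul_ne_zero (mul_ne_zero (by norm_num) ?_) Complex.I_ne_zero) hτ) h3
    exact_mod_cast Real.pi_pos.ne'

theorem tw_main (hA : S_AUT') (h1 : S_BES1) (h2 : S_BES2) (hCo : S_COEF) (hD : S_DIF) (M : ℕ)
    (χ : DirichletCharacter ℂ M) (hχ : χ.IsPrimitive) (hχ2 : χ ^ 2 = 1) (hM5 : Nat.Coprime M 5) :
    ∃ L : ℂ → ℂ, Differentiable ℂ L ∧ L (1 / 2) = 0 ∧
    ∀ s : ℂ, 2 < s.re → HasSum (fun n : ℕ => aa n * χ n * (n : ℂ) ^ (-s)) (L s) := by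
  have hM0 : M ≠ 0 := by
    rintro rfl
    norm_num at hM5
  have : NeZero M := ⟨hM0⟩
  have hM' : (0 : ℝ) < M := by exact_mod_cast Nat.pos_of_ne_zero hM0
  have hCo' := hCo
  obtain ⟨ha0, _, _, ⟨C, hC⟩, _⟩ := hCo'
  obtain ⟨hD1, _, _, hD4⟩ := hD h1 hCo
  obtain ⟨κ, hκ⟩ := tw_feq hA h1 hC hD1 hD4 hχ hχ2 hM5
  set b : ℕ → ℂ := fun n => aa n * χ n * (n : ℂ) ^ κ with hb
  set N : ℝ := 5 * M with hN
  have hNpos : 0 < N := by positivity
  set k : ℝ := 2 * κ + 1 with hk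
  have hkpos : 0 < k := by positivity
  have hfe : ∀ x : ℝ, 0 < x → twT b ((1 / x) / N) = -((x ^ k : ℝ) : ℂ) * twT b (x / N) := by
    intro x hx
    have h3 := hκ (x / N) (by positivity)
    have e1 : (1 / (25 * M ^ 2 * (x / N)) : ℝ) = (1 / x) / N := by
      rw [hN]
      field_simp
      ring
    have e2 : (25 * M ^ 2 * (x / N) ^ 2 : ℝ) = x ^ 2 := by
      rw [hN]
      field_simp
      ring
    rw [e1, e2] at h3
    have e3 : √(x / N) = x * √((1 / x) / N) := by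
      rw [show x / N = x ^ 2 * ((1 / x) / N) by field_simp, Real.sqrt_mul (by positivity), Real.sqrt_sq hx.le]
    have e4 : (x ^ k : ℝ) = (x ^ 2) ^ κ * x := by
      rw [hk, Real.rpow_add hx, Real.rpow_one, ← pow_mul, ← Real.rpow_natCast]
      push_cast
      rfl
    have e5 : (√((1 / x) / N) : ℂ) ≠ 0 := by
      have : 0 < √((1 / x) / N) := Real.sqrt_pos.2 (by positivity)
      exact_mod_cast this.ne'
    refine mul_left_cancel₀ e5 ?_
    rw [h3, e3, e4]
    push_cast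
    ring
  have hbb : ∀ n, ‖b n‖ ≤ C * n ^ (κ + 1) := tw_bound χ hC κ
  obtain ⟨L₀, hL1, hL2, hL3⟩ := tw_entire h1 h2 hbb hNpos hkpos hfe
  refine ⟨fun s => L₀ (s + κ) * ((N : ℂ) ^ (-(s + κ)) * (4 * (π : ℂ) ^ (s + κ) *
    (Complex.Gamma ((s + κ + tt * Complex.I) / 2))⁻¹ * (Complex.Gamma ((s + κ - tt * Complex.I) / 2))⁻¹)), ?_, ?_, ?_⟩
  · have d0 : Differentiable ℂ fun s : ℂ => s + κ := by fun_prop
    have hNc : (N : ℂ) ≠ 0 := by exact_mod_cast hNpos.ne'
    have hpi : (π : ℂ) ≠ 0 := by exact_mod_cast Real.pi_pos.ne'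
    have d1 : Differentiable ℂ fun s : ℂ => L₀ (s + κ) := hL1.comp d0
    have d2 : Differentiable ℂ fun s : ℂ => (N : ℂ) ^ (-(s + κ)) := fun s =>
      (d0 s).neg.const_cpow (Or.inl hNc)
    have d3 : Differentiable ℂ fun s : ℂ => (π : ℂ) ^ (s + κ) := fun s =>
      (d0 s).const_cpow (Or.inl hpi)
    have d4 : Differentiable ℂ fun s : ℂ => (Complex.Gamma ((s + κ + tt * Complex.I) / 2))⁻¹ :=
      Complex.differentiable_one_div_Gamma.comp (by fun_prop : Differentiable ℂ fun s : ℂ => (s + κ + tt * Complex.I) / 2)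
    have d5 : Differentiable ℂ fun s : ℂ => (Complex.Gamma ((s + κ - tt * Complex.I) / 2))⁻¹ :=
      Complex.differentiable_one_div_Gamma.comp (by fun_prop : Differentiable ℂ fun s : ℂ => (s + κ - tt * Complex.I) / 2)
    exact d1.mul (d2.mul (((d3.const_mul 4).mul d4).mul d5))
  · have : (1 / 2 + (κ : ℂ)) = (k : ℂ) / 2 := by
      rw [hk]
      push_cast
      ring
    simp only
    rw [this, hL2, zero_mul]
  · intro s hs
    have h3 := hL3 (s + κ) (by
      simp only [Complex.add_re, Complex.natCast_re]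
      linarith)
    have h4 := h3.mul_right ((N : ℂ) ^ (-(s + κ)) * (4 * (π : ℂ) ^ (s + κ) *
      (Complex.Gamma ((s + κ + tt * Complex.I) / 2))⁻¹ * (Complex.Gamma ((s + κ - tt * Complex.I) / 2))⁻¹))
    refine tw_congr h4 ?_
    intro n
    have hNc : (N : ℂ) ≠ 0 := by exact_mod_cast hNpos.ne'
    have hpi : (π : ℂ) ≠ 0 := by exact_mod_cast Real.pi_pos.ne'
    have g1 : Complex.Gamma ((s + κ + tt * Complex.I) / 2) ≠ 0 := by
      apply Complex.Gamma_ne_zero_of_re_pos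
      have : ((s + κ + tt * Complex.I) / 2).re = (s.re + κ) / 2 := by
        rw [show (2 : ℂ) = ((2 : ℝ) : ℂ) by norm_num, Complex.div_ofReal_re]
        simp
      rw [this]
      have : (0 : ℝ) ≤ κ := Nat.cast_nonneg κ
      linarith
    have g2 : Complex.Gamma ((s + κ - tt * Complex.I) / 2) ≠ 0 := by
      apply Complex.Gamma_ne_zero_of_re_pos
      have : ((s + κ - tt * Complex.I) / 2).re = (s.re + κ) / 2 := by
        rw [show (2 : ℂ) = ((2 : ℝ) : ℂ) by norm_num, Complex.div_ofReal_re]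
        simp
      rw [this]
      have : (0 : ℝ) ≤ κ := Nat.cast_nonneg κ
      linarith
    have g3 : (N : ℂ) ^ (s + κ) * (N : ℂ) ^ (-(s + κ)) = 1 := by
      rw [← Complex.cpow_add _ _ hNc, add_neg_cancel, Complex.cpow_zero]
    have g4 : (π : ℂ) ^ (-(s + κ)) * (π : ℂ) ^ (s + κ) = 1 := by
      rw [← Complex.cpow_add _ _ hpi, neg_add_cancel, Complex.cpow_zero]
    have g5 : (N : ℂ) ^ (s + κ) * twK (s + κ) * ((N : ℂ) ^ (-(s + κ)) * (4 * (π : ℂ) ^ (s + κ) *
      (Complex.Gamma ((s + κ + tt * Complex.I) / 2))⁻¹ * (Complex.Gamma ((s + κ - tt * Complex.I) / 2))⁻¹)) = 1 := by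
      rw [twK]
      have e1 := mul_inv_cancel₀ g1
      have e2 := mul_inv_cancel₀ g2
      calc _ = ((N : ℂ) ^ (s + κ) * (N : ℂ) ^ (-(s + κ))) * ((π : ℂ) ^ (-(s + κ)) * (π : ℂ) ^ (s + κ)) *
            (Complex.Gamma ((s + κ + tt * Complex.I) / 2) * (Complex.Gamma ((s + κ + tt * Complex.I) / 2))⁻¹) *
            (Complex.Gamma ((s + κ - tt * Complex.I) / 2) * (Complex.Gamma ((s + κ - tt * Complex.I) / 2))⁻¹) := by ring
        _ = 1 := by rw [g3, g4, e1, e2]; norm_num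
    have g6 : b n * (n : ℂ) ^ (-(s + κ)) = aa n * χ n * (n : ℂ) ^ (-s) := by
      rcases Nat.eq_zero_or_pos n with h0 | h0
      · subst h0
        simp [hb, ha0]
      · have hn : (n : ℂ) ≠ 0 := by exact_mod_cast h0.ne'
        simp only [hb]
        rw [neg_add, Complex.cpow_add _ _ hn, Complex.cpow_neg (n : ℂ) (κ : ℂ), Complex.cpow_natCast]
        have : (n : ℂ) ^ κ ≠ 0 := pow_ne_zero _ hn
        field_simp
    calc aa n * χ n * (n : ℂ) ^ (-s) = b n * (n : ℂ) ^ (-(s + κ)) * 1 := by rw [g6, mul_one]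
      _ = _ := by rw [← g5]; ring

theorem t_TWI : S_TWI := by
  intro hA h1 h2 hCo hD M χ hχ hM5
  refine tw_main hA h1 h2 hCo hD M χ hχ.1 ?_ hM5
  rw [← hχ.2]
  exact pow_orderOf_eq_one χ

end Pool.Agent.H757M
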