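import Pool.Agent.H757M.Stm

set_option autoImplicit false

namespace Pool.Agent.H757M

open Real MeasureTheory UpperHalfPlane
open scoped MatrixGroups Classical

lemma ztw_ff0 (y : ℝ) : ff 0 y = ∑' n : ℕ, aa n * ((√y * kk (n * y) * 2 : ℝ) : ℂ) := by
  unfold ff
  congr 1; ext n; simp

lemma ztw_kk (h1 : S_BES1) : ∃ C : ℝ, 0 ≤ C ∧ ∀ y : ℝ, 0 < y → |kk y| ≤ C * y⁻¹ * Real.exp (-y) := by
  obtain ⟨C, hC⟩ := h1.2.2 0 (by norm_num)
  refine ⟨|C|, abs_nonneg _, fun y hy => ?_⟩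
  have := hC y hy
  rw [iteratedDeriv_zero, zero_add, pow_one] at this
  refine this.trans ?_
  gcongr
  exact le_abs_self C

lemma ztw_aa (h : S_COEF) : ∃ C : ℝ, 0 ≤ C ∧ ∀ n : ℕ, ‖aa n‖ ≤ C * n := by
  obtain ⟨C, hC⟩ := h.2.2.2.1
  refine ⟨|C|, abs_nonneg _, fun n => (hC n).trans ?_⟩
  gcongr
  exact le_abs_self C

lemma ztw_decay (h1 : S_BES1) (h2 : S_COEF) : ∃ K : ℝ, ∀ y : ℝ, 1 ≤ y → ‖ff 0 y‖ ≤ K * Real.exp (-y) := by
  obtain ⟨C1, hC1, hk⟩ := ztw_kk h1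
  obtain ⟨C2, hC2, ha⟩ := ztw_aa h2
  have hs : Summable fun n : ℕ => Real.exp (-(n : ℝ)) := by
    have := summable_geometric_of_lt_one (Real.exp_pos (-1)).le (Real.exp_lt_one_iff.2 (by norm_num : (-1 : ℝ) < 0))
    refine this.congr fun n => ?_
    rw [← Real.exp_nat_mul]; congr 1; ring
  refine ⟨2 * C1 * C2 * Real.exp 1 * ∑' n : ℕ, Real.exp (-(n : ℝ)), fun y hy => ?_⟩
  have hy0 : 0 < y := by linarith
  rw [ztw_ff0]
  have hsum : HasSum (fun n : ℕ => 2 * C1 * C2 * Real.exp 1 * Real.exp (-y) * Real.exp (-(n : ℝ)))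
      (2 * C1 * C2 * Real.exp 1 * Real.exp (-y) * ∑' n : ℕ, Real.exp (-(n : ℝ))) :=
    hs.hasSum.mul_left _
  refine (tsum_of_norm_bounded hsum fun n => ?_).trans (le_of_eq (by ring))
  rcases Nat.eq_zero_or_pos n with rfl | hn
  · rw [h2.1]; simp; positivity
  have hn1 : (1 : ℝ) ≤ n := by exact_mod_cast hn
  have hn0 : (0 : ℝ) < n := by linarith
  rw [norm_mul, Complex.norm_real, Real.norm_eq_abs, abs_mul, abs_mul, abs_of_nonneg (Real.sqrt_nonneg y),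
    abs_two]
  have e1 := ha n
  have e2 := hk (n * y) (by positivity)
  have e3 : √y * y⁻¹ ≤ 1 := by
    rw [← div_eq_mul_inv, div_le_one hy0]
    exact Real.sqrt_le_iff.2 ⟨hy0.le, by nlinarith⟩
  have e4 : Real.exp (-(n * y)) ≤ Real.exp 1 * Real.exp (-y) * Real.exp (-(n : ℝ)) := by
    rw [← Real.exp_add, ← Real.exp_add, Real.exp_le_exp]
    nlinarith
  calc ‖aa n‖ * (√y * |kk (n * y)| * 2)
      ≤ (C2 * n) * (√y * (C1 * (n * y)⁻¹ * Real.exp (-(n * y))) * 2) := by gcongr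
    _ = 2 * C1 * C2 * (√y * y⁻¹) * Real.exp (-(n * y)) := by
        rw [mul_inv]; field_simp
    _ ≤ 2 * C1 * C2 * 1 * (Real.exp 1 * Real.exp (-y) * Real.exp (-(n : ℝ))) := by gcongr
    _ = _ := by ring

/-- the function whose Mellin transform is taken -/
noncomputable def ztwf (x : ℝ) : ℂ := ((x ^ (-(1 / 2) : ℝ) : ℝ) : ℂ) * ff 0 (x / 5)

lemma ztw_cont (h3 : S_DIF) (h1 : S_BES1) (h2 : S_COEF) : ContinuousOn ztwf (Set.Ioi 0) := by
  have hc := (h3 h1 h2).1.continuousOn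
  have h4 : ContinuousOn (fun x : ℝ => ff 0 (x / 5)) (Set.Ioi 0) := by
    have : ContinuousOn (fun x : ℝ => ((0 : ℝ), x / 5)) (Set.Ioi 0) := by fun_prop
    refine (hc.comp this fun x hx => ?_)
    have hx' : 0 < x := hx
    show 0 < x / 5
    positivity
  have h5 : ContinuousOn (fun x : ℝ => x ^ (-(1 / 2) : ℝ)) (Set.Ioi 0) :=
    continuousOn_id.rpow_const fun x hx => Or.inl (ne_of_gt hx)
  exact (Complex.continuous_ofReal.comp_continuousOn h5).mul h4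

lemma ztw_feq (h : S_AUT') (x : ℝ) (hx : 0 < x) :
    ztwf (1 / x) = ((-1 : ℂ) * ((x ^ (1 : ℝ) : ℝ) : ℂ)) • ztwf x := by
  have h1 := h.2 0 (x / 5) (by positivity)
  have e1 : (-0 : ℝ) / (25 * (0 ^ 2 + (x / 5) ^ 2)) = 0 := by simp
  have e2 : (x / 5) / (25 * (0 ^ 2 + (x / 5) ^ 2)) = (1 / x) / 5 := by
    field_simp; ring
  rw [e1, e2] at h1
  unfold ztwf
  rw [h1, Real.rpow_one, smul_eq_mul]
  have e3 : (1 / x) ^ (-(1 / 2) : ℝ) = x * x ^ (-(1 / 2) : ℝ) := by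
    rw [one_div, Real.inv_rpow hx.le, ← Real.rpow_neg hx.le]
    nth_rewrite 2 [← Real.rpow_one x]
    rw [← Real.rpow_add hx]
    norm_num
  rw [e3]
  push_cast
  ring

lemma ztw_top (h1 : S_BES1) (h2 : S_COEF) (r : ℝ) :
    (fun x => ztwf x - 0) =O[Filter.atTop] (fun x : ℝ => x ^ r) := by
  obtain ⟨K, hK⟩ := ztw_decay h1 h2
  have h3 : (fun x => ztwf x - 0) =O[Filter.atTop] (fun x : ℝ => Real.exp (-(1 / 5) * x)) := by
    refine Asymptotics.IsBigO.of_bound |K| ?_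
    filter_upwards [Filter.eventually_ge_atTop 5] with x hx
    have hx0 : 0 < x := by linarith
    rw [sub_zero, ztwf, norm_mul, Complex.norm_real, Real.norm_eq_abs,
      abs_of_pos (Real.rpow_pos_of_pos hx0 _), Real.norm_eq_abs, abs_of_pos (Real.exp_pos _)]
    have e1 : x ^ (-(1 / 2) : ℝ) ≤ 1 := Real.rpow_le_one_of_one_le_of_nonpos (by linarith) (by norm_num)
    have e2 := hK (x / 5) (by linarith)
    have e3 : Real.exp (-(x / 5)) = Real.exp (-(1 / 5) * x) := by congr 1; ring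
    rw [e3] at e2
    calc x ^ (-(1 / 2) : ℝ) * ‖ff 0 (x / 5)‖ ≤ 1 * (|K| * Real.exp (-(1 / 5) * x)) := by
          gcongr
          exact e2.trans (by gcongr; exact le_abs_self K)
      _ = _ := one_mul _
  exact h3.trans (isLittleO_exp_neg_mul_rpow_atTop (by norm_num : (0 : ℝ) < 1 / 5) r).isBigO

/-- the pair of the functional equation -/
noncomputable def ztwP (h : S_AUT') (h1 : S_BES1) (h2 : S_COEF) (h3 : S_DIF) : WeakFEPair ℂ where
  f := ztwf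
  g := ztwf
  k := 1
  ε := -1
  f₀ := 0
  g₀ := 0
  hf_int := (ztw_cont h3 h1 h2).locallyIntegrableOn measurableSet_Ioi
  hg_int := (ztw_cont h3 h1 h2).locallyIntegrableOn measurableSet_Ioi
  hk := one_pos
  hε := by norm_num
  h_feq := fun x hx => ztw_feq h x hx
  hf_top := ztw_top h1 h2
  hg_top := ztw_top h1 h2

lemma ztw_Lam (h : S_AUT') (h1 : S_BES1) (h2 : S_COEF) (h3 : S_DIF) :
    Differentiable ℂ (mellin ztwf) ∧ mellin ztwf (1 / 2) = 0 := by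
  have hs : IsStrongFEPair (ztwP h h1 h2 h3) := ⟨rfl, rfl⟩
  have e1 : (ztwP h h1 h2 h3).Λ = mellin ztwf := hs.Λ_eq
  have e2 : (ztwP h h1 h2 h3).symm.Λ = mellin ztwf := hs.symm_Λ_eq
  refine ⟨e1 ▸ hs.differentiable_Λ, ?_⟩
  have h4 := (ztwP h h1 h2 h3).functional_equation (1 / 2)
  rw [e1, e2] at h4
  have e3 : (((ztwP h h1 h2 h3).k : ℝ) : ℂ) - 1 / 2 = 1 / 2 := by
    show ((1 : ℝ) : ℂ) - 1 / 2 = 1 / 2
    push_cast; ring
  rw [e3] at h4
  have e4 : (ztwP h h1 h2 h3).ε = -1 := rfl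
  rw [e4] at h4
  have h5 : mellin ztwf (1 / 2) = - mellin ztwf (1 / 2) := by simpa using h4
  have h6 : 2 * mellin ztwf (1 / 2) = 0 := by linear_combination h5
  simpa using h6

lemma ztw_ptw (x : ℝ) (hx : 0 < x) (s : ℂ) : (x : ℂ) ^ (s - 1) • ztwf x =
    ∑' n : ℕ, (aa n * ((2 / √5 : ℝ) : ℂ)) *
      ((x : ℂ) ^ (s - 1) * ((kk ((n / 5 : ℝ) * x) : ℝ) : ℂ)) := by
  unfold ztwf
  rw [ztw_ff0, smul_eq_mul, ← mul_assoc, ← tsum_mul_left]
  congr 1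
  ext n
  have e1 : x ^ (-(1 / 2) : ℝ) * √(x / 5) = 1 / √5 := by
    rw [Real.sqrt_div hx.le, Real.sqrt_eq_rpow x, ← mul_div_assoc, ← Real.rpow_add hx]
    norm_num
  have e2 : (n : ℝ) * (x / 5) = n / 5 * x := by ring
  rw [e2]
  have e3 : ((x ^ (-(1 / 2) : ℝ) : ℝ) : ℂ) * ((√(x / 5) : ℝ) : ℂ) = ((1 / √5 : ℝ) : ℂ) := by
    rw [← Complex.ofReal_mul, e1]
  have e4 : ((√(x / 5) * kk (n / 5 * x) * 2 : ℝ) : ℂ) =
      ((√(x / 5) : ℝ) : ℂ) * ((kk (n / 5 * x) : ℝ) : ℂ) * 2 := by push_cast; ring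
  have e5 : ((2 / √5 : ℝ) : ℂ) = 2 * ((1 / √5 : ℝ) : ℂ) := by
    rw [← Complex.ofReal_ofNat, ← Complex.ofReal_mul]; congr 1; ring
  rw [e4, e5, ← e3]
  ring

lemma ztw_mc (h4 : S_BES2) (s : ℂ) (hs : 0 < s.re) :
    MellinConvergent (fun u : ℝ => ((kk u : ℝ) : ℂ)) s ∧
    mellin (fun u : ℝ => ((kk u : ℝ) : ℂ)) s = 1 / 4 * (π : ℂ) ^ (-s) *
      Complex.Gamma ((s + tt * Complex.I) / 2) * Complex.Gamma ((s - tt * Complex.I) / 2) := by
  obtain ⟨h5, h6⟩ := h4 s hs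
  have e : (fun y : ℝ => ((kk y : ℝ) : ℂ) * (y : ℂ) ^ (s - 1)) =
      fun y : ℝ => (y : ℂ) ^ (s - 1) • ((kk y : ℝ) : ℂ) := by
    ext y; rw [smul_eq_mul, mul_comm]
  rw [e] at h5 h6
  exact ⟨h5, h6⟩

lemma ztw_norm (s : ℂ) (a : ℝ) (ha : 0 < a) :
    ∫ x : ℝ in Set.Ioi 0, ‖(x : ℂ) ^ (s - 1) * ((kk (a * x) : ℝ) : ℂ)‖ =
      a ^ (-s.re) * ∫ u : ℝ in Set.Ioi 0, u ^ (s.re - 1) * |kk u| := by
  have h1 : ∫ x : ℝ in Set.Ioi 0, ‖(x : ℂ) ^ (s - 1) * ((kk (a * x) : ℝ) : ℂ)‖ =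
      ∫ x : ℝ in Set.Ioi 0, a ^ (1 - s.re) * ((a * x) ^ (s.re - 1) * |kk (a * x)|) := by
    refine setIntegral_congr_fun measurableSet_Ioi fun x hx => ?_
    have hx' : 0 < x := hx
    rw [norm_mul, Complex.norm_cpow_eq_rpow_re_of_pos hx', Complex.norm_real, Real.norm_eq_abs,
      Real.mul_rpow ha.le hx'.le, Complex.sub_re, Complex.one_re]
    have : a ^ (1 - s.re) * a ^ (s.re - 1) = 1 := by
      rw [← Real.rpow_add ha]; simp
    linear_combination (-(x ^ (s.re - 1) * |kk (a * x)|)) * this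
  rw [h1, integral_const_mul,
    integral_comp_mul_left_Ioi (fun u : ℝ => u ^ (s.re - 1) * |kk u|) 0 ha, mul_zero, smul_eq_mul,
    ← mul_assoc]
  congr 1
  rw [← Real.rpow_neg_one a, ← Real.rpow_add ha]
  congr 1; ring

lemma ztw_sum (h4 : S_BES2) (h2 : S_COEF) (s : ℂ) (hs : 2 < s.re) :
    HasSum (fun n : ℕ => (aa n * ((2 / √5 : ℝ) : ℂ)) * ((((n / 5 : ℝ) : ℝ) : ℂ) ^ (-s) *
      (1 / 4 * (π : ℂ) ^ (-s) * Complex.Gamma ((s + tt * Complex.I) / 2) *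
        Complex.Gamma ((s - tt * Complex.I) / 2)))) (mellin ztwf s) := by
  have hs0 : 0 < s.re := by linarith
  obtain ⟨hc, hm⟩ := ztw_mc h4 s hs0
  have ha0 : aa 0 = 0 := h2.1
  have hint : ∀ n : ℕ, Integrable (fun x : ℝ => (aa n * ((2 / √5 : ℝ) : ℂ)) *
      ((x : ℂ) ^ (s - 1) * ((kk ((n / 5 : ℝ) * x) : ℝ) : ℂ))) (volume.restrict (Set.Ioi 0)) := by
    intro n
    rcases Nat.eq_zero_or_pos n with rfl | hn
    · simp [ha0]
    have hn5 : (0 : ℝ) < n / 5 := by positivity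
    exact Integrable.const_mul ((MellinConvergent.comp_mul_left hn5).2 hc) _
  have hval : ∀ n : ℕ, ∫ x : ℝ in Set.Ioi 0, (aa n * ((2 / √5 : ℝ) : ℂ)) *
      ((x : ℂ) ^ (s - 1) * ((kk ((n / 5 : ℝ) * x) : ℝ) : ℂ)) =
      (aa n * ((2 / √5 : ℝ) : ℂ)) * ((((n / 5 : ℝ) : ℝ) : ℂ) ^ (-s) *
      (1 / 4 * (π : ℂ) ^ (-s) * Complex.Gamma ((s + tt * Complex.I) / 2) *
        Complex.Gamma ((s - tt * Complex.I) / 2))) := by
    intro n
    rcases Nat.eq_zero_or_pos n with rfl | hn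
    · simp [ha0]
    have hn5 : (0 : ℝ) < n / 5 := by positivity
    rw [integral_const_mul, ← hm]
    congr 1
    exact mellin_comp_mul_left (fun u : ℝ => ((kk u : ℝ) : ℂ)) s hn5
  have hnorm : Summable fun n : ℕ => ∫ x : ℝ in Set.Ioi 0, ‖(aa n * ((2 / √5 : ℝ) : ℂ)) *
      ((x : ℂ) ^ (s - 1) * ((kk ((n / 5 : ℝ) * x) : ℝ) : ℂ))‖ := by
    obtain ⟨C2, hC2, hb⟩ := ztw_aa h2
    set K : ℝ := ∫ u : ℝ in Set.Ioi 0, u ^ (s.re - 1) * |kk u| with hK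
    have hK0 : 0 ≤ K := by
      refine setIntegral_nonneg measurableSet_Ioi fun u hu => ?_
      have hu' : 0 < u := hu
      positivity
    have hsm : Summable fun n : ℕ => C2 * (2 / √5) * (5 : ℝ) ^ s.re * K * (n : ℝ) ^ (1 - s.re) := by
      refine Summable.mul_left _ ?_
      exact Real.summable_nat_rpow.2 (by linarith)
    refine Summable.of_nonneg_of_le (fun n => integral_nonneg fun x => norm_nonneg _) (fun n => ?_) hsm
    rcases Nat.eq_zero_or_pos n with rfl | hn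
    · simp only [ha0, zero_mul, norm_zero, integral_zero]
      positivity
    have hn0 : (0 : ℝ) < n := by exact_mod_cast hn
    have hn5 : (0 : ℝ) < n / 5 := by positivity
    have e1 : ∫ x : ℝ in Set.Ioi 0, ‖(aa n * ((2 / √5 : ℝ) : ℂ)) *
      ((x : ℂ) ^ (s - 1) * ((kk ((n / 5 : ℝ) * x) : ℝ) : ℂ))‖ =
      ‖aa n * ((2 / √5 : ℝ) : ℂ)‖ * ((n / 5 : ℝ) ^ (-s.re) * K) := by
      rw [← ztw_norm s _ hn5, ← integral_const_mul]
      congr 1
      ext x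
      rw [norm_mul]
    rw [e1, norm_mul, Complex.norm_real, Real.norm_eq_abs, abs_of_nonneg (by positivity)]
    have e2 : (n / 5 : ℝ) ^ (-s.re) = (5 : ℝ) ^ s.re * (n : ℝ) ^ (-s.re) := by
      rw [Real.div_rpow hn0.le (by norm_num), Real.rpow_neg (by norm_num : (0 : ℝ) ≤ 5), div_inv_eq_mul,
        mul_comm]
    have e3 : (n : ℝ) ^ (1 - s.re) = n * (n : ℝ) ^ (-s.re) := by
      rw [sub_eq_add_neg, Real.rpow_add hn0, Real.rpow_one]
    rw [e2, e3]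
    calc ‖aa n‖ * (2 / √5) * ((5 : ℝ) ^ s.re * (n : ℝ) ^ (-s.re) * K)
        ≤ (C2 * n) * (2 / √5) * ((5 : ℝ) ^ s.re * (n : ℝ) ^ (-s.re) * K) := by
          gcongr
          exact hb n
      _ = _ := by ring
  have key := hasSum_integral_of_summable_integral_norm hint hnorm
  have e : ∫ x : ℝ in Set.Ioi 0, ∑' n : ℕ, (aa n * ((2 / √5 : ℝ) : ℂ)) *
      ((x : ℂ) ^ (s - 1) * ((kk ((n / 5 : ℝ) * x) : ℝ) : ℂ)) = mellin ztwf s := by
    unfold mellin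
    refine setIntegral_congr_fun measurableSet_Ioi fun x hx => ?_
    exact (ztw_ptw x hx s).symm
  rw [e] at key
  have e' : (fun n : ℕ => (aa n * ((2 / √5 : ℝ) : ℂ)) * ((((n / 5 : ℝ) : ℝ) : ℂ) ^ (-s) *
      (1 / 4 * (π : ℂ) ^ (-s) * Complex.Gamma ((s + tt * Complex.I) / 2) *
        Complex.Gamma ((s - tt * Complex.I) / 2)))) =
      fun n : ℕ => ∫ x : ℝ in Set.Ioi 0, (aa n * ((2 / √5 : ℝ) : ℂ)) *
      ((x : ℂ) ^ (s - 1) * ((kk ((n / 5 : ℝ) * x) : ℝ) : ℂ)) := funext fun n => (hval n).symm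
  rw [e']
  exact key

theorem t_TWI1 : S_TWI1 := by
  intro h h1 h4 h2 h3
  obtain ⟨hd, h0⟩ := ztw_Lam h h1 h2 h3
  refine ⟨fun s => mellin ztwf s * (((√5 / 2 : ℝ) : ℂ) * (5 : ℂ) ^ (-s) * (4 * (π : ℂ) ^ s) *
    ((Complex.Gamma ((s + tt * Complex.I) / 2))⁻¹ * (Complex.Gamma ((s - tt * Complex.I) / 2))⁻¹)),
    ?_, ?_, ?_⟩
  · have g1 : Differentiable ℂ fun s : ℂ => (Complex.Gamma ((s + tt * Complex.I) / 2))⁻¹ :=
      Complex.differentiable_one_div_Gamma.comp (by fun_prop)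
    have g2 : Differentiable ℂ fun s : ℂ => (Complex.Gamma ((s - tt * Complex.I) / 2))⁻¹ :=
      Complex.differentiable_one_div_Gamma.comp (by fun_prop)
    have g3 : Differentiable ℂ fun s : ℂ => (5 : ℂ) ^ (-s) := by
      intro s
      exact (differentiableAt_id.neg).const_cpow (Or.inl (by norm_num))
    have g4 : Differentiable ℂ fun s : ℂ => (π : ℂ) ^ s := by
      intro s
      exact differentiableAt_id.const_cpow (Or.inl (by exact_mod_cast Real.pi_ne_zero))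
    exact hd.mul ((((differentiable_const _).mul g3).mul ((differentiable_const _).mul g4)).mul
      (g1.mul g2))
  · simp only [h0, zero_mul]
  · intro s hs
    have key := (ztw_sum h4 h2 s hs).mul_right (((√5 / 2 : ℝ) : ℂ) * (5 : ℂ) ^ (-s) *
      (4 * (π : ℂ) ^ s) * ((Complex.Gamma ((s + tt * Complex.I) / 2))⁻¹ *
        (Complex.Gamma ((s - tt * Complex.I) / 2))⁻¹))
    refine (congrArg (fun F : ℕ → ℂ => HasSum F _) (funext fun n => ?_)).mpr key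
    have hs0 : 0 < s.re := by linarith
    have G1 : Complex.Gamma ((s + tt * Complex.I) / 2) ≠ 0 := by
      refine Complex.Gamma_ne_zero_of_re_pos ?_
      simp; linarith
    have G2 : Complex.Gamma ((s - tt * Complex.I) / 2) ≠ 0 := by
      refine Complex.Gamma_ne_zero_of_re_pos ?_
      simp; linarith
    have hpi : (π : ℂ) ≠ 0 := by exact_mod_cast Real.pi_ne_zero
    have P1 : (π : ℂ) ^ (-s) * (π : ℂ) ^ s = 1 := by
      rw [← Complex.cpow_add _ _ hpi]; simp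
    have F1 : (((n / 5 : ℝ) : ℝ) : ℂ) ^ (-s) * (5 : ℂ) ^ (-s) = (n : ℂ) ^ (-s) := by
      have := Complex.mul_cpow_ofReal_nonneg (a := (n / 5 : ℝ)) (b := 5) (by positivity) (by norm_num)
        (-s)
      rw [Complex.ofReal_ofNat] at this
      rw [← this, ← Complex.ofReal_ofNat, ← Complex.ofReal_mul]
      congr 1
      push_cast; ring
    have Q1 : ((2 / √5 : ℝ) : ℂ) * ((√5 / 2 : ℝ) : ℂ) = 1 := by
      rw [← Complex.ofReal_mul]
      have : (2 / √5 : ℝ) * (√5 / 2) = 1 := by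
        have : (√5 : ℝ) ≠ 0 := by positivity
        field_simp
      rw [this, Complex.ofReal_one]
    generalize Complex.Gamma ((s + tt * Complex.I) / 2) = g at *
    generalize Complex.Gamma ((s - tt * Complex.I) / 2) = g' at *
    rw [← F1]
    have e1 : aa n * ((2 / √5 : ℝ) : ℂ) * ((((n / 5 : ℝ) : ℝ) : ℂ) ^ (-s) *
        (1 / 4 * (π : ℂ) ^ (-s) * g * g')) *
        (((√5 / 2 : ℝ) : ℂ) * (5 : ℂ) ^ (-s) * (4 * (π : ℂ) ^ s) * (g⁻¹ * g'⁻¹)) =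
        aa n * ((((n / 5 : ℝ) : ℝ) : ℂ) ^ (-s) * (5 : ℂ) ^ (-s)) *
        (((2 / √5 : ℝ) : ℂ) * ((√5 / 2 : ℝ) : ℂ)) * ((π : ℂ) ^ (-s) * (π : ℂ) ^ s) *
        ((g * g⁻¹) * (g' * g'⁻¹)) := by ring
    rw [e1, Q1, P1, mul_inv_cancel₀ G1, mul_inv_cancel₀ G2]
    ring

end Pool.Agent.H757M
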