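import Pool.Agent.H757M.Stm

set_option autoImplicit false

namespace Pool.Agent.H757M

open Real MeasureTheory UpperHalfPlane
open scoped MatrixGroups Classical

noncomputable section

/-! ### multiplication by `w` -/

/-- multiplication by `w` -/
def unfW : Equiv.Perm (ℤ × ℤ) where
  toFun a := (a.2, a.1 + a.2)
  invFun a := (a.2 - a.1, a.1)
  left_inv a := by ext <;> simp
  right_inv a := by ext <;> simp

theorem unf_W_apply (a : ℤ × ℤ) : unfW a = (a.2, a.1 + a.2) := rfl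

theorem unf_w_sq : w * w = w + 1 := by
  unfold w
  have h : √5 * √5 = 5 := Real.mul_self_sqrt (by norm_num)
  nlinarith

theorem unf_w_gt : 1 < w := by
  unfold w
  have h : 2 < √5 := by
    rw [Real.lt_sqrt (by norm_num)]; norm_num
  linarith

theorem unf_w_inv : w * (1 - w) = -1 := by
  have := unf_w_sq
  linarith

theorem unf_al_W (a : ℤ × ℤ) : al (unfW a) = w * al a := by
  rw [unf_W_apply]
  unfold al
  push_cast
  have := unf_w_sq
  linear_combination (-(a.2 : ℝ)) * this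

theorem unf_al'_W (a : ℤ × ℤ) : al' (unfW a) = (1 - w) * al' a := by
  rw [unf_W_apply]
  unfold al'
  push_cast
  have := unf_w_sq
  linear_combination (-(a.2 : ℝ)) * this

theorem unf_ch_W (a : ℤ × ℤ) : ch (unfW a) = -ch a := by
  rw [unf_W_apply]
  unfold ch
  have h1 : jacobiSym (3 * (a.1 + 3 * a.2)) 5 = jacobiSym 3 5 * jacobiSym (a.1 + 3 * a.2) 5 :=
    jacobiSym.mul_left _ _ _
  have h2 : jacobiSym 3 5 = -1 := by norm_num
  have h3 : jacobiSym (a.2 + 3 * (a.1 + a.2)) 5 = jacobiSym (3 * (a.1 + 3 * a.2)) 5 := by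
    apply jacobiSym.mod_left'
    show (a.2 + 3 * (a.1 + a.2)) % (5 : ℤ) = (3 * (a.1 + 3 * a.2)) % (5 : ℤ)
    omega
  show jacobiSym (a.2 + 3 * (a.1 + a.2)) 5 = _
  rw [h3, h1, h2]
  ring

theorem unf_ch_neg (a : ℤ × ℤ) : ch (-a) = ch a := by
  unfold ch
  have h1 : (-a).1 + 3 * (-a).2 = (-1) * (a.1 + 3 * a.2) := by
    simp; ring
  rw [h1, jacobiSym.mul_left]
  have h2 : jacobiSym (-1) 5 = 1 := by norm_num
  rw [h2, one_mul]

theorem unf_ch_abs (a : ℤ × ℤ) : ‖(ch a : ℂ)‖ ≤ 1 := by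
  unfold ch
  rcases jacobiSym.trichotomy (a.1 + 3 * a.2) 5 with h | h | h <;> rw [h] <;> simp

theorem unf_ch_zero : ch 0 = 0 := by
  unfold ch
  show jacobiSym (0 + 3 * 0) 5 = 0
  norm_num

theorem unf_al_neg (a : ℤ × ℤ) : al (-a) = -al a := by
  unfold al; simp; ring

theorem unf_al'_neg (a : ℤ × ℤ) : al' (-a) = -al' a := by
  unfold al'; simp; ring

theorem unf_nm (a : ℤ × ℤ) : al a * al' a = nm a := by
  unfold al al' nm
  push_cast
  have := unf_w_sq
  linear_combination (-(a.2 : ℝ) ^ 2) * this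

theorem unf_al_ne {a : ℤ × ℤ} (ha : a ≠ 0) : al a ≠ 0 := by
  intro h
  unfold al at h
  have hirr : Irrational w := Real.goldenRatio_irrational
  by_cases h2 : a.2 = 0
  · rw [h2] at h
    simp at h
    exact ha (Prod.ext h h2)
  · apply hirr
    refine ⟨-(a.1 : ℚ) / a.2, ?_⟩
    have : (a.2 : ℝ) ≠ 0 := by exact_mod_cast h2
    push_cast
    field_simp
    linarith

theorem unf_al'_ne {a : ℤ × ℤ} (ha : a ≠ 0) : al' a ≠ 0 := by
  intro h
  unfold al' at h
  have hirr : Irrational w := Real.goldenRatio_irrational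
  by_cases h2 : a.2 = 0
  · rw [h2] at h
    simp at h
    exact ha (Prod.ext h h2)
  · apply hirr
    refine ⟨((a.1 : ℚ) + a.2) / a.2, ?_⟩
    have : (a.2 : ℝ) ≠ 0 := by exact_mod_cast h2
    push_cast
    field_simp
    linarith

theorem unf_W_inv (a : ℤ × ℤ) : unfW (unfW⁻¹ a) = a := unfW.apply_symm_apply a

theorem unf_inj {a b : ℤ × ℤ} (h : al a = al b) : a = b := by
  by_contra hne
  have hne' : a - b ≠ 0 := sub_ne_zero.mpr hne
  apply unf_al_ne hne'
  have : al (a - b) = al a - al b := by unfold al; simp; ring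
  rw [this, h, sub_self]

theorem unf_zpow (F : ℤ × ℤ → ℝ) (c : ℝ) (hc : c ≠ 0) (h : ∀ a, F (unfW a) = c * F a) (j : ℤ) :
    ∀ a, F ((unfW ^ j) a) = c ^ j * F a := by
  induction j using Int.induction_on with
  | zero => intro a; simp
  | succ n ih =>
    intro a
    rw [zpow_add_one, Equiv.Perm.mul_apply, ih, h, zpow_add_one₀ hc, mul_assoc]
  | pred n ih =>
    intro a
    have h1 : F a = c * F (unfW⁻¹ a) := by
      rw [← h, unf_W_inv]
    rw [zpow_sub_one, Equiv.Perm.mul_apply, ih, h1, zpow_sub_one₀ hc]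
    field_simp

theorem unf_W_neg (a : ℤ × ℤ) : unfW (-a) = -unfW a := by
  rw [unf_W_apply, unf_W_apply]
  ext
  · simp
  · simp; ring

/-! ### the exponential coordinate -/

/-- the length of the period -/
def unfL : ℝ := 2 * Real.log w

theorem unf_logw : 0 < Real.log w := Real.log_pos unf_w_gt

theorem unf_L_pos : 0 < unfL := by
  unfold unfL
  have := unf_logw
  linarith

theorem unf_tL : tt * unfL = π := by
  unfold tt unfL
  have := unf_logw.ne'
  field_simp

theorem unf_w_pos : 0 < w := by linarith [unf_w_gt]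

/-- the function in the exponential coordinate -/
def unfg (x y : ℝ) (a : ℤ × ℤ) (s : ℝ) : ℂ :=
  (ch a : ℂ) * ph x y (Real.exp (unfL * s)) (al a) (al' a) *
    Complex.exp (2 * π * Complex.I * (s : ℂ))

theorem unf_g_W (x y : ℝ) (a : ℤ × ℤ) (s : ℝ) :
    unfg x y (unfW a) s = unfg (-x) y a (s + 1 / 2) := by
  unfold unfg ph
  rw [unf_al_W, unf_al'_W, unf_ch_W]
  have hv : Real.exp (unfL * (s + 1 / 2)) = Real.exp (unfL * s) * w := by
    rw [mul_add, Real.exp_add]
    congr 1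
    unfold unfL
    rw [show 2 * Real.log w * (1 / 2) = Real.log w by ring, Real.exp_log unf_w_pos]
  rw [hv]
  have hv0 : 0 < Real.exp (unfL * s) := Real.exp_pos _
  generalize Real.exp (unfL * s) = v at *
  have hw := unf_w_inv
  have hw0 := unf_w_pos
  have h1 : (w * al a) ^ 2 * v ^ 2 + ((1 - w) * al' a) ^ 2 / v ^ 2 =
      al a ^ 2 * (v * w) ^ 2 + al' a ^ 2 / (v * w) ^ 2 := by
    have e : 1 - w = -w⁻¹ := by
      field_simp
      linarith
    rw [e]
    field_simp
  have h2 : x * (w * al a * ((1 - w) * al' a)) = -x * (al a * al' a) := by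
    linear_combination (x * al a * al' a) * hw
  rw [h1, h2]
  have h3 : Complex.exp (2 * π * Complex.I * ((s + 1 / 2 : ℝ) : ℂ)) =
      -Complex.exp (2 * π * Complex.I * (s : ℂ)) := by
    push_cast
    rw [show 2 * (π : ℂ) * Complex.I * ((s : ℂ) + 1 / 2) = 2 * π * Complex.I * s + π * Complex.I by
      ring, Complex.exp_add, Complex.exp_pi_mul_I]
    ring
  rw [h3]
  push_cast
  ring

theorem unf_g_neg (x y : ℝ) (a : ℤ × ℤ) (s : ℝ) : unfg x y (-a) s = unfg x y a s := by
  unfold unfg ph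
  rw [unf_al_neg, unf_al'_neg, unf_ch_neg]
  simp only [neg_mul_neg, neg_sq]

theorem unf_g_zero (x y s : ℝ) : unfg x y 0 s = 0 := by
  unfold unfg
  rw [unf_ch_zero]
  simp

theorem unf_g_WW (x y : ℝ) (a : ℤ × ℤ) (s : ℝ) :
    unfg x y (unfW (unfW a)) s = unfg x y a (s + 1) := by
  rw [unf_g_W, unf_g_W, neg_neg, add_assoc]
  norm_num

theorem unf_g_even (x y : ℝ) (k : ℤ) : ∀ (a : ℤ × ℤ) (s : ℝ),
    unfg x y ((unfW ^ (2 * k)) a) s = unfg x y a (s + k) := by
  induction k using Int.induction_on with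
  | zero => intro a s; simp
  | succ n ih =>
    intro a s
    have e : unfW ^ (2 * ((n : ℤ) + 1)) = unfW ^ (2 * (n : ℤ)) * unfW * unfW := by
      rw [← zpow_add_one, ← zpow_add_one]
      congr 1
    rw [e, Equiv.Perm.mul_apply, Equiv.Perm.mul_apply, ih, unf_g_WW]
    congr 1
    push_cast
    ring
  | pred n ih =>
    intro a s
    have e : unfW ^ (2 * (-(n : ℤ) - 1)) = unfW ^ (2 * (-(n : ℤ))) * unfW⁻¹ * unfW⁻¹ := by
      rw [← zpow_sub_one, ← zpow_sub_one]
      congr 1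
      ring
    have h := unf_g_WW x y (unfW⁻¹ (unfW⁻¹ a)) (s + -(n : ℝ) - 1)
    rw [unf_W_inv, unf_W_inv] at h
    rw [e, Equiv.Perm.mul_apply, Equiv.Perm.mul_apply, ih]
    have e2 : s + ((-(n : ℤ) - 1 : ℤ) : ℝ) = s + -(n : ℝ) - 1 := by push_cast; ring
    rw [e2, h]
    congr 1
    push_cast
    ring

theorem unf_g_odd (x y : ℝ) (k : ℤ) (a : ℤ × ℤ) (s : ℝ) :
    unfg x y ((unfW ^ (2 * k + 1)) a) s = unfg (-x) y a (s + k + 1 / 2) := by
  rw [zpow_add_one, Equiv.Perm.mul_apply, unf_g_even, unf_g_W]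

/-! ### the Bessel integral -/

/-- the kernel -/
def unfk (Y : ℝ) (u : ℝ) : ℂ :=
  (Real.exp (-(2 * π * Y * Real.cosh (2 * u))) : ℂ) * Complex.exp (2 * tt * u * Complex.I)

theorem unf_cosh (u : ℝ) : u ^ 2 ≤ Real.cosh (2 * u) := by
  rw [← Real.cosh_abs, Real.cosh_eq]
  have h0 : 0 ≤ |2 * u| := abs_nonneg _
  have h1 := Real.quadratic_le_exp_of_nonneg h0
  have h2 : 0 < Real.exp (-|2 * u|) := Real.exp_pos _
  have h3 : |2 * u| ^ 2 = 4 * u ^ 2 := by rw [sq_abs]; ring
  rw [h3] at h1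
  linarith

theorem unf_E_int {Y : ℝ} (hY : 0 < Y) :
    Integrable (fun u : ℝ => Real.exp (-(2 * π * Y * Real.cosh (2 * u)))) := by
  have h := integrable_exp_neg_mul_sq (b := 2 * π * Y) (by positivity)
  refine h.mono' (by fun_prop) (ae_of_all _ fun u => ?_)
  rw [Real.norm_eq_abs, abs_of_pos (Real.exp_pos _)]
  apply Real.exp_le_exp.mpr
  have := unf_cosh u
  have h2 : 0 < 2 * π * Y := by positivity
  nlinarith

theorem unf_k_norm (Y u : ℝ) : ‖unfk Y u‖ = Real.exp (-(2 * π * Y * Real.cosh (2 * u))) := by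
  unfold unfk
  rw [norm_mul]
  have h1 : ‖Complex.exp (2 * tt * u * Complex.I)‖ = 1 := by
    have := Complex.norm_exp_ofReal_mul_I (2 * tt * u)
    push_cast at this
    exact this
  rw [h1, mul_one, Complex.norm_real, Real.norm_eq_abs, abs_of_pos (Real.exp_pos _)]

theorem unf_k_cont (Y : ℝ) : Continuous (unfk Y) := by
  unfold unfk
  fun_prop

theorem unf_k_int {Y : ℝ} (hY : 0 < Y) : Integrable (unfk Y) := by
  refine (unf_E_int hY).mono' (unf_k_cont Y).aestronglyMeasurable (ae_of_all _ fun u => ?_)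
  rw [unf_k_norm]

theorem unf_k_integral {Y : ℝ} (hY : 0 < Y) : ∫ u, unfk Y u = (kk Y : ℂ) := by
  have hE := unf_E_int hY
  have hc : Integrable (fun u : ℝ => Real.exp (-(2 * π * Y * Real.cosh (2 * u))) *
      Real.cos (2 * tt * u)) := by
    refine hE.mono' (by fun_prop) (ae_of_all _ fun u => ?_)
    rw [norm_mul, Real.norm_eq_abs, abs_of_pos (Real.exp_pos _)]
    exact mul_le_of_le_one_right (Real.exp_pos _).le (Real.abs_cos_le_one _)
  have hs : Integrable (fun u : ℝ => Real.exp (-(2 * π * Y * Real.cosh (2 * u))) *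
      Real.sin (2 * tt * u)) := by
    refine hE.mono' (by fun_prop) (ae_of_all _ fun u => ?_)
    rw [norm_mul, Real.norm_eq_abs, abs_of_pos (Real.exp_pos _)]
    exact mul_le_of_le_one_right (Real.exp_pos _).le (Real.abs_sin_le_one _)
  have h0 : ∫ u : ℝ, Real.exp (-(2 * π * Y * Real.cosh (2 * u))) * Real.sin (2 * tt * u) = 0 := by
    have h := integral_neg_eq_self (fun u : ℝ => Real.exp (-(2 * π * Y * Real.cosh (2 * u))) *
      Real.sin (2 * tt * u)) volume
    have h2 : ∀ u : ℝ, Real.exp (-(2 * π * Y * Real.cosh (2 * -u))) * Real.sin (2 * tt * -u) =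
        -(Real.exp (-(2 * π * Y * Real.cosh (2 * u))) * Real.sin (2 * tt * u)) := fun u => by
      rw [mul_neg, mul_neg, Real.cosh_neg, Real.sin_neg]; ring
    simp only [h2, integral_neg] at h
    linarith
  have e : ∀ u : ℝ, unfk Y u = ((Real.exp (-(2 * π * Y * Real.cosh (2 * u))) *
      Real.cos (2 * tt * u) : ℝ) : ℂ) + ((Real.exp (-(2 * π * Y * Real.cosh (2 * u))) *
      Real.sin (2 * tt * u) : ℝ) : ℂ) * Complex.I := by
    intro u
    unfold unfk
    rw [Complex.exp_mul_I]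
    push_cast
    ring
  simp only [e]
  rw [integral_add hc.ofReal (hs.ofReal.mul_const _), integral_mul_const, integral_complex_ofReal,
    integral_complex_ofReal, h0]
  unfold kk
  simp

theorem unf_g_eq (x y : ℝ) {a : ℤ × ℤ} (ha : a ≠ 0) (s : ℝ) :
    unfg x y a s = (ps a * ((√y : ℝ) : ℂ) * Complex.exp (2 * π * Complex.I * ((x * nm a : ℝ) : ℂ))) *
      unfk (|(nm a : ℝ)| * y) (unfL * s + Real.log |al a / al' a| / 2) := by
  have hP := unf_al_ne ha
  have hQ := unf_al'_ne ha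
  have hR : 0 < |al a / al' a| := abs_pos.mpr (div_ne_zero hP hQ)
  unfold unfg ph unfk ps
  rw [← unf_nm]
  set c := Real.log |al a / al' a| with hc
  set u := unfL * s + c / 2 with hu
  have hs : unfL * s = u - c / 2 := by rw [hu]; ring
  have hexpc : Real.exp c = |al a / al' a| := Real.exp_log hR
  have h1 : (al a) ^ 2 * Real.exp (unfL * s) ^ 2 + (al' a) ^ 2 / Real.exp (unfL * s) ^ 2 =
      2 * |al a * al' a| * Real.cosh (2 * u) := by
    have e1 : Real.exp (unfL * s) ^ 2 = Real.exp (2 * u) / |al a / al' a| := by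
      rw [← hexpc, ← Real.exp_sub, ← Real.exp_nat_mul, hs]
      congr 1
      push_cast
      ring
    rw [e1, Real.cosh_eq, Real.exp_neg, abs_div, abs_mul]
    have hP' : |al a| ≠ 0 := abs_ne_zero.mpr hP
    have hQ' : |al' a| ≠ 0 := abs_ne_zero.mpr hQ
    have e2 : al a ^ 2 = |al a| ^ 2 := (sq_abs _).symm
    have e3 : al' a ^ 2 = |al' a| ^ 2 := (sq_abs _).symm
    rw [e2, e3]
    have hE : Real.exp (2 * u) ≠ 0 := (Real.exp_pos _).ne'
    field_simp
  rw [h1]
  have h2 : Complex.exp (2 * π * Complex.I * (s : ℂ)) =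
      Complex.exp (-(Complex.I * ((tt * c : ℝ) : ℂ))) * Complex.exp (2 * tt * u * Complex.I) := by
    rw [← Complex.exp_add]
    congr 1
    have h3 : (π : ℝ) * s = tt * (u - c / 2) := by
      rw [← hs, ← unf_tL]; ring
    have h4 : (π : ℂ) * s = tt * (u - c / 2) := by exact_mod_cast h3
    push_cast
    linear_combination (2 * Complex.I) * h4
  rw [h2]
  have h5 : π * y * (2 * |al a * al' a| * Real.cosh (2 * u)) =
      2 * π * (|al a * al' a| * y) * Real.cosh (2 * u) := by ring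
  rw [h5]
  push_cast
  ring


theorem unf_Y_pos {y : ℝ} (hy : 0 < y) {a : ℤ × ℤ} (ha : a ≠ 0) : 0 < |(nm a : ℝ)| * y := by
  rw [← unf_nm]
  exact mul_pos (abs_pos.mpr (mul_ne_zero (unf_al_ne ha) (unf_al'_ne ha))) hy

theorem unf_g_int (x : ℝ) {y : ℝ} (hy : 0 < y) {a : ℤ × ℤ} (ha : a ≠ 0) :
    Integrable (unfg x y a) := by
  have h := ((unf_k_int (unf_Y_pos hy ha)).comp_add_right
    (Real.log |al a / al' a| / 2)).comp_mul_left' unf_L_pos.ne'
  have h2 := h.const_mul (ps a * ((√y : ℝ) : ℂ) *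
    Complex.exp (2 * π * Complex.I * ((x * nm a : ℝ) : ℂ)))
  refine h2.congr (ae_of_all _ fun s => ?_)
  exact (unf_g_eq x y ha s).symm

theorem unf_g_integral (x : ℝ) {y : ℝ} (hy : 0 < y) {a : ℤ × ℤ} (ha : a ≠ 0) :
    ∫ s, (unfL : ℂ) * unfg x y a s = (ps a * ((√y : ℝ) : ℂ) *
      Complex.exp (2 * π * Complex.I * ((x * nm a : ℝ) : ℂ))) * (kk (|(nm a : ℝ)| * y) : ℂ) := by
  simp only [unf_g_eq x y ha]
  rw [integral_const_mul, integral_const_mul]
  have h1 := Measure.integral_comp_mul_left (fun t => unfk (|(nm a : ℝ)| * y)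
    (t + Real.log |al a / al' a| / 2)) unfL
  rw [h1, integral_add_right_eq_self (unfk (|(nm a : ℝ)| * y)), unf_k_integral (unf_Y_pos hy ha),
    abs_of_pos (inv_pos.mpr unf_L_pos), Complex.real_smul]
  have hL : (unfL : ℂ) ≠ 0 := by exact_mod_cast unf_L_pos.ne'
  push_cast
  field_simp

/-! ### the integral over the period -/

theorem unf_G_cont (x y : ℝ) (a : ℤ × ℤ) {v : ℝ} (hv : 0 < v) :
    ContinuousAt (fun v : ℝ => (ch a : ℂ) * ph x y v (al a) (al' a) *
      (v : ℂ) ^ (2 * tt * Complex.I - 1)) v := by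
  have h1 : ContinuousAt (fun v : ℝ => (v : ℂ) ^ (2 * tt * Complex.I - 1)) v :=
    Complex.continuousAt_ofReal_cpow_const v _ (Or.inr hv.ne')
  have h2 : ContinuousAt (fun v : ℝ => ph x y v (al a) (al' a)) v := by
    unfold ph
    refine ContinuousAt.mul ?_ continuousAt_const
    refine Complex.continuous_ofReal.continuousAt.comp ?_
    refine ContinuousAt.mul continuousAt_const ?_
    refine Real.continuous_exp.continuousAt.comp ?_
    refine ContinuousAt.neg ?_
    refine ContinuousAt.mul continuousAt_const ?_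
    refine ContinuousAt.add (by fun_prop) ?_
    refine ContinuousAt.div continuousAt_const (by fun_prop) (by positivity)
  exact (continuousAt_const.mul h2).mul h1

theorem unf_w2 : (1 : ℝ) ≤ w ^ 2 := by
  have := unf_w_gt
  nlinarith

theorem unf_expL : Real.exp (unfL * 1) = w ^ 2 := by
  unfold unfL
  rw [mul_one, mul_comm, Real.exp_mul, Real.exp_log unf_w_pos]
  norm_num

theorem unf_change (x y : ℝ) (a : ℤ × ℤ) :
    ∫ s in (0 : ℝ)..1, (unfL : ℂ) * unfg x y a s = ∫ v in (1 : ℝ)..w ^ 2,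
      (ch a : ℂ) * ph x y v (al a) (al' a) * (v : ℂ) ^ (2 * tt * Complex.I - 1) := by
  have h := intervalIntegral.integral_deriv_smul_comp' (a := (0 : ℝ)) (b := 1)
    (f := fun s => Real.exp (unfL * s)) (f' := fun s => Real.exp (unfL * s) * unfL)
    (g := fun v : ℝ => (ch a : ℂ) * ph x y v (al a) (al' a) *
      (v : ℂ) ^ (2 * tt * Complex.I - 1)) (by
        intro s _
        have h1 : HasDerivAt (fun s : ℝ => unfL * s) unfL s := by
          simpa using (hasDerivAt_id s).const_mul unfL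
        exact h1.exp) (by fun_prop) (by
        rintro v ⟨s, _, rfl⟩
        exact (unf_G_cont x y a (Real.exp_pos _)).continuousWithinAt)
  simp only [unf_expL, mul_zero, Real.exp_zero] at h
  rw [← h]
  refine intervalIntegral.integral_congr fun s _ => ?_
  simp only [Function.comp_apply]
  rw [Complex.real_smul]
  unfold unfg
  have hne : ((Real.exp (unfL * s) : ℝ) : ℂ) ≠ 0 := by
    exact_mod_cast (Real.exp_pos _).ne'
  have h2 : ((Real.exp (unfL * s) : ℝ) : ℂ) * ((Real.exp (unfL * s) : ℝ) : ℂ) ^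
      (2 * tt * Complex.I - 1) = Complex.exp (2 * π * Complex.I * (s : ℂ)) := by
    rw [Complex.cpow_def_of_ne_zero hne, ← Complex.ofReal_log (Real.exp_pos _).le, Real.log_exp,
      Complex.ofReal_exp, ← Complex.exp_add]
    congr 1
    have h4 : (tt : ℂ) * unfL = π := by exact_mod_cast unf_tL
    push_cast
    linear_combination (2 * s * Complex.I) * h4
  rw [← h2]
  push_cast
  ring

theorem unf_S1 (hS : S_SUM) (x : ℝ) {y : ℝ} (hy : 0 < y) :
    HasSum (fun a : ℤ × ℤ => ∫ s in (0 : ℝ)..1, (unfL : ℂ) * unfg x y a s)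
      (∫ v : ℝ in (1 : ℝ)..w ^ 2, th x y v * (v : ℂ) ^ (2 * tt * Complex.I - 1)) := by
  obtain ⟨g, hg, hb⟩ := hS.2 y 1 (w ^ 2) hy one_pos unf_w2
  simp_rw [unf_change]
  have hb2 : ∀ (a : ℤ × ℤ) (v : ℝ), v ∈ Set.uIoc 1 (w ^ 2) →
      ‖(ch a : ℂ) * ph x y v (al a) (al' a)‖ ≤ g a := by
    intro a v hv
    rw [Set.uIoc_of_le unf_w2] at hv
    rw [norm_mul]
    have h1 := hb x v hv.1.le hv.2 a
    calc _ ≤ 1 * ‖ph x y v (al a) (al' a)‖ :=
          mul_le_mul_of_nonneg_right (unf_ch_abs a) (norm_nonneg _)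
      _ ≤ g a := by rw [one_mul]; exact h1
  refine intervalIntegral.hasSum_integral_of_dominated_convergence (fun a _ => g a) ?_ ?_ ?_ ?_ ?_
  · intro a
    refine ContinuousOn.aestronglyMeasurable ?_ measurableSet_uIoc
    intro v hv
    rw [Set.uIoc_of_le unf_w2] at hv
    exact (unf_G_cont x y a (by linarith [hv.1])).continuousWithinAt
  · intro a
    refine ae_of_all _ fun v hv => ?_
    rw [norm_mul]
    have h1 := hb2 a v hv
    rw [Set.uIoc_of_le unf_w2] at hv
    have hv0 : 0 < v := by linarith [hv.1]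
    have h2 : ‖(v : ℂ) ^ (2 * tt * Complex.I - 1)‖ ≤ 1 := by
      rw [Complex.norm_cpow_eq_rpow_re_of_pos hv0]
      have : (2 * (tt : ℂ) * Complex.I - 1).re = -1 := by simp
      rw [this, Real.rpow_neg_one]
      exact inv_le_one_of_one_le₀ hv.1.le
    calc _ ≤ g a * 1 := mul_le_mul h1 h2 (norm_nonneg _) ((norm_nonneg _).trans h1)
      _ = g a := mul_one _
  · exact ae_of_all _ fun v _ => hg
  · exact intervalIntegrable_const
  · refine ae_of_all _ fun v hv => ?_
    have hsum : Summable (fun a : ℤ × ℤ => (ch a : ℂ) * ph x y v (al a) (al' a)) :=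
      Summable.of_norm_bounded hg fun a => hb2 a v hv
    exact hsum.hasSum.mul_right _

/-! ### the units -/

/-- the logarithm of the ratio -/
def unfr (a : ℤ × ℤ) : ℝ := Real.log (al a) - Real.log (al' a)

theorem unf_log_w' : Real.log (1 - w) = -Real.log w := by
  have e : 1 - w = -w⁻¹ := by
    have := unf_w_inv
    have := unf_w_pos.ne'
    field_simp
    linarith
  rw [e, Real.log_neg_eq_log, Real.log_inv]

theorem unf_w'_ne : 1 - w ≠ 0 := by
  have := unf_w_gt
  linarith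

theorem unf_alW (j : ℤ) (a : ℤ × ℤ) : al ((unfW ^ j) a) = w ^ j * al a :=
  unf_zpow al w unf_w_pos.ne' unf_al_W j a

theorem unf_al'W (j : ℤ) (a : ℤ × ℤ) : al' ((unfW ^ j) a) = (1 - w) ^ j * al' a :=
  unf_zpow al' (1 - w) unf_w'_ne unf_al'_W j a

theorem unf_W_ne (j : ℤ) {a : ℤ × ℤ} (ha : a ≠ 0) : (unfW ^ j) a ≠ 0 := by
  intro h
  have h1 := unf_alW j a
  rw [h] at h1
  have h2 : al 0 = 0 := by unfold al; simp
  rw [h2] at h1
  exact (mul_ne_zero (zpow_ne_zero j unf_w_pos.ne') (unf_al_ne ha)) h1.symm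

theorem unf_r_W (j : ℤ) {a : ℤ × ℤ} (ha : a ≠ 0) : unfr ((unfW ^ j) a) = unfr a + j * unfL := by
  unfold unfr
  rw [unf_alW, unf_al'W, Real.log_mul (zpow_ne_zero j unf_w_pos.ne') (unf_al_ne ha),
    Real.log_mul (zpow_ne_zero j unf_w'_ne) (unf_al'_ne ha), Real.log_zpow, Real.log_zpow,
    unf_log_w']
  unfold unfL
  ring

theorem unf_r_neg (a : ℤ × ℤ) : unfr (-a) = unfr a := by
  unfold unfr
  rw [unf_al_neg, unf_al'_neg, Real.log_neg_eq_log, Real.log_neg_eq_log]

theorem unf_Wj_neg (j : ℤ) (a : ℤ × ℤ) : (unfW ^ j) (-a) = -((unfW ^ j) a) := by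
  apply unf_inj
  rw [unf_alW, unf_al_neg, unf_al_neg, unf_alW]
  ring

theorem unf_Dm_iff {d : ℤ × ℤ} (hd : d ≠ 0) :
    Dm d ↔ 0 < al d ∧ 0 ≤ unfr d ∧ unfr d < unfL := by
  have hQ : 0 < |al' d| := abs_pos.mpr (unf_al'_ne hd)
  have hw : (0 : ℝ) < w ^ 2 := by have := unf_w2; linarith
  unfold Dm unfr unfL
  have e1 : Real.log (al' d) = Real.log |al' d| := (Real.log_abs _).symm
  rw [e1]
  constructor
  · rintro ⟨h1, h2, h3⟩
    refine ⟨h1, ?_, ?_⟩
    · have := Real.log_le_log hQ h2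
      linarith
    · have := Real.log_lt_log h1 h3
      rw [Real.log_mul hw.ne' hQ.ne', Real.log_pow] at this
      push_cast at this
      linarith
  · rintro ⟨h1, h2, h3⟩
    refine ⟨h1, ?_, ?_⟩
    · rw [← Real.log_le_log_iff hQ h1]
      linarith
    · rw [← Real.log_lt_log_iff h1 (mul_pos hw hQ), Real.log_mul hw.ne' hQ.ne', Real.log_pow]
      push_cast
      linarith

theorem unf_Dm_ne {d : ℤ × ℤ} (hd : Dm d) : d ≠ 0 := by
  rintro rfl
  have := hd.1
  unfold al at this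
  simp at this

/-- the parity -/
def unfp (b : Bool) : ℤ := if b then 1 else 0

/-- the parametrisation of the nonzero elements -/
def unfPhi (c : {d : ℤ × ℤ // Dm d} × ((Bool × Bool) × ℤ)) : ℤ × ℤ :=
  if c.2.1.1 then -((unfW ^ (2 * c.2.2 + unfp c.2.1.2)) c.1)
  else (unfW ^ (2 * c.2.2 + unfp c.2.1.2)) c.1

theorem unf_Phi_r (c : {d : ℤ × ℤ // Dm d} × ((Bool × Bool) × ℤ)) :
    unfr (unfPhi c) = unfr c.1 + ((2 * c.2.2 + unfp c.2.1.2 : ℤ) : ℝ) * unfL := by
  unfold unfPhi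
  split_ifs
  · rw [unf_r_neg, unf_r_W _ (unf_Dm_ne c.1.2)]
  · rw [unf_r_W _ (unf_Dm_ne c.1.2)]

theorem unf_Phi_pos (c : {d : ℤ × ℤ // Dm d} × ((Bool × Bool) × ℤ)) :
    0 < al (unfPhi c) ↔ c.2.1.1 = false := by
  have h : 0 < al ((unfW ^ (2 * c.2.2 + unfp c.2.1.2)) c.1) := by
    rw [unf_alW]
    exact mul_pos (zpow_pos unf_w_pos _) c.1.2.1
  unfold unfPhi
  split_ifs with h1
  · rw [unf_al_neg]
    simp only [h1]
    constructor
    · intro h2; linarith
    · intro h2; cases h2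
  · simp only [Bool.not_eq_true] at h1
    simp only [h1, iff_true]
    simpa [h1] using h

theorem unf_Phi_inj : Function.Injective unfPhi := by
  intro c c' h
  have h1 := unf_Phi_r c
  have h2 := unf_Phi_r c'
  rw [h, h2] at h1
  obtain ⟨-, p1, p2⟩ := (unf_Dm_iff (unf_Dm_ne c.1.2)).1 c.1.2
  obtain ⟨-, p3, p4⟩ := (unf_Dm_iff (unf_Dm_ne c'.1.2)).1 c'.1.2
  have hL := unf_L_pos
  have hj : 2 * c.2.2 + unfp c.2.1.2 = 2 * c'.2.2 + unfp c'.2.1.2 := by
    generalize 2 * c.2.2 + unfp c.2.1.2 = j at *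
    generalize 2 * c'.2.2 + unfp c'.2.1.2 = j' at *
    rcases lt_trichotomy j j' with h3 | h3 | h3
    · exfalso
      have h4 : (j : ℝ) + 1 ≤ j' := by exact_mod_cast h3
      nlinarith
    · exact h3
    · exfalso
      have h4 : (j' : ℝ) + 1 ≤ j := by exact_mod_cast h3
      nlinarith
  have hs : c.2.1.1 = c'.2.1.1 := by
    have h3 := unf_Phi_pos c
    have h4 := unf_Phi_pos c'
    rw [h] at h3
    rw [h3] at h4
    cases hh : c.2.1.1 <;> cases hh' : c'.2.1.1 <;> simp_all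
  have hpk : c.2.1.2 = c'.2.1.2 ∧ c.2.2 = c'.2.2 := by
    cases hh : c.2.1.2 <;> cases hh' : c'.2.1.2 <;> rw [hh, hh'] at hj <;>
      simp [unfp] at hj ⊢ <;> omega
  obtain ⟨⟨d, hd⟩, ⟨⟨b1, b2⟩, k⟩⟩ := c
  obtain ⟨⟨d', hd'⟩, ⟨⟨b1', b2'⟩, k'⟩⟩ := c'
  simp only at hs hpk
  obtain ⟨rfl, rfl⟩ := hpk
  subst hs
  have hdd : d = d' := by
    unfold unfPhi at h
    simp only at h
    split_ifs at h
    · exact (unfW ^ _).injective (neg_injective h)
    · exact (unfW ^ _).injective h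
  subst hdd
  rfl

theorem unf_Phi_surj {a : ℤ × ℤ} (ha : a ≠ 0) : a ∈ Set.range unfPhi := by
  have hL := unf_L_pos
  set j : ℤ := ⌊unfr a / unfL⌋ with hj
  set b : ℤ × ℤ := (unfW ^ (-j)) a with hb
  have hb0 : b ≠ 0 := unf_W_ne _ ha
  have hr : unfr b = unfr a - j * unfL := by
    rw [hb, unf_r_W _ ha]
    push_cast
    ring
  have h1 := Int.floor_le (unfr a / unfL)
  have h2 := Int.lt_floor_add_one (unfr a / unfL)
  rw [← hj] at h1 h2
  rw [le_div_iff₀ hL] at h1
  rw [div_lt_iff₀ hL] at h2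
  have hWb : (unfW ^ j) b = a := by
    rw [hb, ← Equiv.Perm.mul_apply, ← zpow_add, add_neg_cancel, zpow_zero]
    rfl
  have hjj : 2 * (j / 2) + unfp (decide (j % 2 = 1)) = j := by
    unfold unfp
    rcases Int.emod_two_eq_zero_or_one j with h | h
    · simp only [h]
      simp
      omega
    · simp only [h]
      simp
      omega
  rcases lt_or_gt_of_ne (unf_al_ne hb0) with hneg | hpos
  · have hD : Dm (-b) := by
      rw [unf_Dm_iff (neg_ne_zero.mpr hb0), unf_al_neg, unf_r_neg, hr]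
      exact ⟨by linarith, by linarith, by linarith⟩
    refine ⟨(⟨-b, hD⟩, ((true, decide (j % 2 = 1)), j / 2)), ?_⟩
    unfold unfPhi
    simp only [if_true, hjj]
    rw [unf_Wj_neg, neg_neg, hWb]
  · have hD : Dm b := by
      rw [unf_Dm_iff hb0, hr]
      exact ⟨hpos, by linarith, by linarith⟩
    refine ⟨(⟨b, hD⟩, ((false, decide (j % 2 = 1)), j / 2)), ?_⟩
    unfold unfPhi
    simp only [hjj, hWb]
    simp


/-! ### summation over the units -/

theorem unf_Phi_int (x y : ℝ) (d : {d : ℤ × ℤ // Dm d}) (b1 b2 : Bool) (k : ℤ) (s : ℝ) :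
    unfg x y (unfPhi (d, ((b1, b2), k))) s =
      if b2 then unfg (-x) y d (s + k + 1 / 2) else unfg x y d (s + k) := by
  have h : unfg x y (unfPhi (d, ((b1, b2), k))) s = unfg x y ((unfW ^ (2 * k + unfp b2)) d) s := by
    unfold unfPhi
    simp only
    split_ifs
    · rw [unf_g_neg]
    · rfl
  rw [h]
  cases b2
  · simp only [unfp, Bool.false_eq_true, if_false, add_zero]
    exact unf_g_even x y k d s
  · simp only [unfp, if_true]
    exact unf_g_odd x y k d s

/-- the value of the integral over the line -/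
def unfK (x y : ℝ) (a : ℤ × ℤ) : ℂ := (ps a * ((√y : ℝ) : ℂ) *
      Complex.exp (2 * π * Complex.I * ((x * nm a : ℝ) : ℂ))) * (kk (|(nm a : ℝ)| * y) : ℂ)

theorem unf_line (x : ℝ) {y : ℝ} (hy : 0 < y) (d : {d : ℤ × ℤ // Dm d}) (b1 b2 : Bool) :
    HasSum (fun k : ℤ => ∫ s in (0 : ℝ)..1, (unfL : ℂ) * unfg x y (unfPhi (d, ((b1, b2), k))) s)
      (unfK (if b2 then -x else x) y d) := by
  simp only [unf_Phi_int]
  cases b2
  · simp only [Bool.false_eq_true, if_false]
    have h := ((unf_g_int x hy (unf_Dm_ne d.2)).const_mul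
      (unfL : ℂ)).hasSum_intervalIntegral_comp_add_int
    rw [unf_g_integral x hy (unf_Dm_ne d.2)] at h
    exact h
  · simp only [if_true]
    have h := (((unf_g_int (-x) hy (unf_Dm_ne d.2)).const_mul
      (unfL : ℂ)).comp_add_right (1 / 2)).hasSum_intervalIntegral_comp_add_int
    rw [integral_add_right_eq_self (fun s => (unfL : ℂ) * unfg (-x) y d s),
      unf_g_integral (-x) hy (unf_Dm_ne d.2)] at h
    exact h

theorem unf_S3 (hS : S_SUM) (x : ℝ) {y : ℝ} (hy : 0 < y) :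
    HasSum (fun d : {d : ℤ × ℤ // Dm d} => 2 * unfK x y d + 2 * unfK (-x) y d)
      (∫ v : ℝ in (1 : ℝ)..w ^ 2, th x y v * (v : ℂ) ^ (2 * tt * Complex.I - 1)) := by
  have h1 := unf_S1 hS x hy
  have h2 := (unf_Phi_inj.hasSum_iff (f := fun a : ℤ × ℤ => ∫ s in (0 : ℝ)..1,
    (unfL : ℂ) * unfg x y a s) (fun a ha => by
      have ha0 : a = 0 := by
        by_contra hne
        exact ha (unf_Phi_surj hne)
      subst ha0
      simp only [unf_g_zero, mul_zero, intervalIntegral.integral_zero])).mpr h1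
  refine h2.prod_fiberwise fun d => ?_
  have h3 := (h2.summable.prod_factor d).hasSum
  have h4 := h3.prod_fiberwise (fun b => unf_line x hy d b.1 b.2)
  have h5 := hasSum_fintype (fun b : Bool × Bool => unfK (if b.2 then -x else x) y d)
  have h6 := h4.unique h5
  rw [h6] at h3
  have h7 : ∑ b : Bool × Bool, unfK (if b.2 then -x else x) y d =
      2 * unfK x y d + 2 * unfK (-x) y d := by
    rw [Fintype.sum_prod_type]
    simp
    ring
  rw [h7] at h3
  exact h3

/-- the terms of the final series -/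
def unfc (x y : ℝ) (n : ℕ) : ℂ := ((√y * kk (n * y) * (4 * Real.cos (2 * π * (n * x))) : ℝ) : ℂ)

theorem unf_K_sum (x y : ℝ) (a : ℤ × ℤ) :
    2 * unfK x y a + 2 * unfK (-x) y a = ps a * unfc x y (nm a).natAbs := by
  unfold unfK unfc
  have hn : (((nm a).natAbs : ℕ) : ℝ) = |(nm a : ℝ)| := by
    rw [Nat.cast_natAbs, Int.cast_abs]
  rw [hn]
  have hc : Real.cos (2 * π * (|(nm a : ℝ)| * x)) = Real.cos (2 * π * (x * nm a)) := by
    rcases abs_choice (nm a : ℝ) with h | h
    · rw [h]; congr 1; ring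
    · rw [h, ← Real.cos_neg]; congr 1; ring
  rw [hc]
  have h1 : Complex.exp (2 * π * Complex.I * ((x * nm a : ℝ) : ℂ)) +
      Complex.exp (2 * π * Complex.I * ((-x * nm a : ℝ) : ℂ)) =
        2 * ((Real.cos (2 * π * (x * nm a)) : ℝ) : ℂ) := by
    rw [Complex.ofReal_cos, Complex.cos]
    push_cast
    have e1 : 2 * (π : ℂ) * Complex.I * (x * nm a) = 2 * π * (x * nm a) * Complex.I := by ring
    have e2 : 2 * (π : ℂ) * Complex.I * (-x * nm a) = -(2 * π * (x * nm a)) * Complex.I := by ring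
    rw [e1, e2]
    ring
  push_cast at h1 ⊢
  linear_combination (2 * ps a * (√y : ℂ) * (kk (|(nm a : ℝ)| * y) : ℂ)) * h1

theorem unf_fin (n : ℕ) : {a : ℤ × ℤ | Dm a ∧ (nm a).natAbs = n}.Finite := by
  set B : ℝ := w ^ 2 * n + 1 with hB
  set M : ℤ := ⌈B + 2 * B * w⌉ with hM
  have hw := unf_w_gt
  have hw2 := unf_w2
  have hn0 : (0 : ℝ) ≤ n := Nat.cast_nonneg n
  have hB1 : 1 ≤ B := by
    have : 0 ≤ w ^ 2 * n := by positivity
    linarith
  refine ((Set.finite_Icc (-M) M).prod (Set.finite_Icc (-M) M)).subset ?_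
  rintro a ⟨hD, hn⟩
  have hne := unf_Dm_ne hD
  obtain ⟨h1, h2, h3⟩ := hD
  have hQ : 0 < |al' a| := abs_pos.mpr (unf_al'_ne hne)
  have hn' : |(nm a : ℝ)| = n := by
    rw [← hn, Nat.cast_natAbs, Int.cast_abs]
  rw [← unf_nm, abs_mul, abs_of_pos h1] at hn'
  have h4 : al a * al a ≤ w ^ 2 * n := by
    rw [← hn']
    nlinarith
  have h5 : al a ≤ B := by
    by_contra hcon
    push Not at hcon
    nlinarith
  have h6 : |al' a| ≤ B := h2.trans h5
  have h7 : (a.2 : ℝ) * (2 * w - 1) = al a - al' a := by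
    unfold al al'
    ring
  have h8 : |(a.2 : ℝ)| ≤ 2 * B := by
    have e1 : |(a.2 : ℝ)| * (2 * w - 1) = |al a - al' a| := by
      rw [← h7, abs_mul, abs_of_pos (show 0 < 2 * w - 1 by linarith)]
    have e2 : |al a - al' a| ≤ 2 * B := by
      have := abs_sub (al a) (al' a)
      rw [abs_of_pos h1] at this
      linarith
    have e3 : |(a.2 : ℝ)| * 1 ≤ |(a.2 : ℝ)| * (2 * w - 1) :=
      mul_le_mul_of_nonneg_left (by linarith) (abs_nonneg _)
    linarith
  have h9 : |(a.1 : ℝ)| ≤ B + 2 * B * w := by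
    have e1 : (a.1 : ℝ) = al a - a.2 * w := by unfold al; ring
    rw [e1]
    have e2 := abs_sub (al a) (a.2 * w)
    rw [abs_of_pos h1, abs_mul, abs_of_pos unf_w_pos] at e2
    have e3 : |(a.2 : ℝ)| * w ≤ 2 * B * w := mul_le_mul_of_nonneg_right h8 unf_w_pos.le
    linarith
  have h10 : |(a.2 : ℝ)| ≤ B + 2 * B * w := by nlinarith
  have hM' : B + 2 * B * w ≤ M := Int.le_ceil _
  constructor
  · have e : |(a.1 : ℝ)| ≤ M := h9.trans hM'
    have e' : |a.1| ≤ M := by exact_mod_cast e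
    exact abs_le.mp e'
  · have e : |(a.2 : ℝ)| ≤ M := h10.trans hM'
    have e' : |a.2| ≤ M := by exact_mod_cast e
    exact abs_le.mp e'

theorem unf_aa (n : ℕ) :
    HasSum (fun a : ℤ × ℤ => if Dm a ∧ (nm a).natAbs = n then ps a else 0) (aa n) := by
  have hf : (Function.support (fun a : ℤ × ℤ => if Dm a ∧ (nm a).natAbs = n then ps a else 0)).Finite := by
    refine (unf_fin n).subset fun a ha => ?_
    by_contra hcon
    apply ha
    have hcon' : ¬ (Dm a ∧ (nm a).natAbs = n) := hcon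
    show (if Dm a ∧ (nm a).natAbs = n then ps a else 0) = 0
    rw [if_neg hcon']
  have h := (summable_of_hasFiniteSupport (L := SummationFilter.unconditional _) hf).hasSum
  rw [tsum_eq_finsum hf] at h
  exact h

theorem t_UNF : S_UNF := by
  intro hS x y hy
  have h3 := unf_S3 hS x hy
  simp only [unf_K_sum] at h3
  set T := ∫ v : ℝ in (1 : ℝ)..w ^ 2, th x y v * (v : ℂ) ^ (2 * tt * Complex.I - 1) with hT
  let F : ℕ × (ℤ × ℤ) → ℂ := fun p =>
    (if Dm p.2 ∧ (nm p.2).natAbs = p.1 then ps p.2 else 0) * unfc x y p.1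
  let ι : {d : ℤ × ℤ // Dm d} → ℕ × (ℤ × ℤ) := fun d => ((nm d).natAbs, (d : ℤ × ℤ))
  have hι : Function.Injective ι := by
    intro d d' h
    exact Subtype.ext (congrArg Prod.snd h)
  have hF : HasSum F T := by
    rw [← hι.hasSum_iff]
    · convert h3 using 1
      funext d
      show (if Dm (d : ℤ × ℤ) ∧ (nm d).natAbs = (nm d).natAbs then ps d else 0) *
        unfc x y (nm d).natAbs = _
      rw [if_pos ⟨d.2, rfl⟩]
    · rintro ⟨n, a⟩ hna
      show (if Dm a ∧ (nm a).natAbs = n then ps a else 0) * unfc x y n = 0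
      rw [if_neg, zero_mul]
      rintro ⟨h1, h2⟩
      apply hna
      refine ⟨⟨a, h1⟩, ?_⟩
      show ((nm a).natAbs, a) = (n, a)
      rw [h2]
  have h4 : HasSum (fun n : ℕ => aa n * unfc x y n) T :=
    hF.prod_fiberwise fun n => (unf_aa n).mul_right _
  rw [← h4.tsum_eq]
  unfold ff
  rw [← tsum_mul_left]
  refine tsum_congr fun n => ?_
  unfold unfc
  push_cast
  ring

end

end Pool.Agent.H757M
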